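import Mathlib

set_option autoImplicit false
set_option maxHeartbeats 4000000
open Filter Topology Complex MeasureTheory Set

namespace Pool.Agent.H343.M

/-- integral of 1/(w-p) over a rectangle boundary. -/
lemma rect_inv (a b c d : ℝ) (p : ℂ) (ha : a < p.re) (hb : p.re < b) (hc : c < p.im) (hd : p.im < d) :
    (∫ x in a..b, ((x:ℂ) + c * I - p)⁻¹) - (∫ x in a..b, ((x:ℂ) + d * I - p)⁻¹)
      + I * (∫ y in c..d, ((b:ℂ) + y * I - p)⁻¹) - I * (∫ y in c..d, ((a:ℂ) + y * I - p)⁻¹)
      = 2 * Real.pi * I := by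
  have h1 : (∫ x in a..b, ((x:ℂ) + c * I - p)⁻¹) = log (b + c * I - p) - log (a + c * I - p) := by
    have := intervalIntegral.integral_eq_sub_of_hasDerivAt
      (f := fun x : ℝ => log ((x:ℂ) + c * I - p)) (f' := fun x : ℝ => ((x:ℂ) + c * I - p)⁻¹)
      (a := a) (b := b) ?_ ?_
    · exact this
    · intro x _
      have h : HasDerivAt (fun x : ℝ => (x:ℂ) + c * I - p) 1 x :=
        ((Complex.ofRealCLM.hasDerivAt (x := x)).add_const _).sub_const _
      have := h.clog_real (Or.inr (by simp; intro h; linarith))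
      simpa using this
    · apply ContinuousOn.intervalIntegrable
      apply ContinuousOn.inv₀
      · fun_prop
      · intro x _ h
        have := congrArg Complex.im h
        simp at this
        linarith
  have h2 : (∫ x in a..b, ((x:ℂ) + d * I - p)⁻¹) = log (b + d * I - p) - log (a + d * I - p) := by
    have := intervalIntegral.integral_eq_sub_of_hasDerivAt
      (f := fun x : ℝ => log ((x:ℂ) + d * I - p)) (f' := fun x : ℝ => ((x:ℂ) + d * I - p)⁻¹)
      (a := a) (b := b) ?_ ?_
    · exact this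
    · intro x _
      have h : HasDerivAt (fun x : ℝ => (x:ℂ) + d * I - p) 1 x :=
        ((Complex.ofRealCLM.hasDerivAt (x := x)).add_const _).sub_const _
      have := h.clog_real (Or.inr (by simp; intro h; linarith))
      simpa using this
    · apply ContinuousOn.intervalIntegrable
      apply ContinuousOn.inv₀
      · fun_prop
      · intro x _ h
        have := congrArg Complex.im h
        simp at this
        linarith
  have h3 : I * (∫ y in c..d, ((b:ℂ) + y * I - p)⁻¹) = log (b + d * I - p) - log (b + c * I - p) := by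
    have := intervalIntegral.integral_eq_sub_of_hasDerivAt
      (f := fun y : ℝ => log ((b:ℂ) + y * I - p)) (f' := fun y : ℝ => I * ((b:ℂ) + y * I - p)⁻¹)
      (a := c) (b := d) ?_ ?_
    · rw [← intervalIntegral.integral_const_mul]
      exact this
    · intro y _
      have h : HasDerivAt (fun y : ℝ => (b:ℂ) + y * I - p) I y := by
        have := ((Complex.ofRealCLM.hasDerivAt (x := y)).mul_const I).const_add (b:ℂ) |>.sub_const p
        simpa using this
      have := h.clog_real (Or.inl (by simp; linarith))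
      simpa [div_eq_mul_inv] using this
    · apply ContinuousOn.intervalIntegrable
      apply ContinuousOn.mul continuousOn_const
      apply ContinuousOn.inv₀
      · fun_prop
      · intro x _ h
        have := congrArg Complex.re h
        simp at this
        linarith
  have h4 : I * (∫ y in c..d, ((a:ℂ) + y * I - p)⁻¹) = log (p - (a + d * I)) - log (p - (a + c * I)) := by
    have := intervalIntegral.integral_eq_sub_of_hasDerivAt
      (f := fun y : ℝ => log (p - ((a:ℂ) + y * I))) (f' := fun y : ℝ => I * ((a:ℂ) + y * I - p)⁻¹)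
      (a := c) (b := d) ?_ ?_
    · rw [← intervalIntegral.integral_const_mul]
      exact this
    · intro y _
      have h : HasDerivAt (fun y : ℝ => p - ((a:ℂ) + y * I)) (-I) y := by
        have := (((Complex.ofRealCLM.hasDerivAt (x := y)).mul_const I).const_add (a:ℂ)).const_sub p
        simpa using this
      have := h.clog_real (Or.inl (by simp; linarith))
      have e : I * ((a:ℂ) + y * I - p)⁻¹ = -I / (p - ((a:ℂ) + y * I)) := by
        rw [div_eq_mul_inv, ← neg_sub ((a:ℂ) + y * I) p, inv_neg]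
        ring
      rw [e]
      exact this
    · apply ContinuousOn.intervalIntegrable
      apply ContinuousOn.mul continuousOn_const
      apply ContinuousOn.inv₀
      · fun_prop
      · intro x _ h
        have := congrArg Complex.re h
        simp at this
        linarith
  rw [h1, h2, h3, h4]
  have key : ∀ z : ℂ, 0 < z.im → log z - log (-z) = Real.pi * I := by
    intro z hz
    have hz0 : z ≠ 0 := by rintro rfl; simp at hz
    rw [Complex.log, Complex.log, Complex.arg_neg_eq_arg_sub_pi_of_im_pos hz]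
    simp
    ring
  have k1 := key (a + d * I - p) (by simp; linarith)
  have k2 := key (p - (a + c * I)) (by simp; linarith)
  rw [neg_sub] at k1 k2
  linear_combination k1 + k2

lemma rect_cauchy (g : ℂ → ℂ) (hg : Differentiable ℂ g) (a b c d : ℝ) (p : ℂ) (ha : a < p.re)
    (hb : p.re < b) (hc : c < p.im) (hd : p.im < d) :
    (∫ x in a..b, g ((x:ℂ) + c * I) / ((x:ℂ) + c * I - p))
      - (∫ x in a..b, g ((x:ℂ) + d * I) / ((x:ℂ) + d * I - p))
      + I * (∫ y in c..d, g ((b:ℂ) + y * I) / ((b:ℂ) + y * I - p))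
      - I * (∫ y in c..d, g ((a:ℂ) + y * I) / ((a:ℂ) + y * I - p))
      = 2 * Real.pi * I * g p := by
  have hds : Differentiable ℂ (dslope g p) := by
    have := (Complex.differentiableOn_dslope (s := Set.univ) (c := p) (f := g) univ_mem).2
      hg.differentiableOn
    exact differentiableOn_univ.1 this
  have H := Complex.integral_boundary_rect_eq_zero_of_differentiableOn (dslope g p)
    (a + c * I) (b + d * I) hds.differentiableOn
  simp only [add_re, ofReal_re, mul_re, I_re, mul_zero, ofReal_im, I_im, mul_one, sub_self, add_zero,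
    add_im, mul_im, zero_add, smul_eq_mul] at H
  have R := rect_inv a b c d p ha hb hc hd
  have hsub : ∀ w : ℂ, w ≠ p → dslope g p w = g w / (w - p) - g p * (w - p)⁻¹ := by
    intro w hw
    rw [dslope_of_ne _ hw, slope_def_field]
    ring
  have gc : Continuous g := hg.continuous
  have b1 : ∀ e : ℝ, p.im ≠ e → ∀ x : ℝ, (x:ℂ) + e * I - p ≠ 0 := by
    intro e he x h
    have := congrArg Complex.im h
    simp at this
    exact he (by linarith)
  have b2 : ∀ e : ℝ, p.re ≠ e → ∀ y : ℝ, (e:ℂ) + y * I - p ≠ 0 := by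
    intro e he x h
    have := congrArg Complex.re h
    simp at this
    exact he (by linarith)
  have s1 : ∀ e : ℝ, p.im ≠ e → (∫ x in a..b, dslope g p ((x:ℂ) + e * I))
      = (∫ x in a..b, g ((x:ℂ) + e * I) / ((x:ℂ) + e * I - p))
        - g p * ∫ x in a..b, ((x:ℂ) + e * I - p)⁻¹ := by
    intro e he
    rw [← intervalIntegral.integral_const_mul, ← intervalIntegral.integral_sub]
    · apply intervalIntegral.integral_congr
      intro x _
      simp only
      rw [hsub]
      exact fun h => b1 e he x (by rw [h, sub_self])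
    · apply Continuous.intervalIntegrable
      exact Continuous.div (by fun_prop) (by fun_prop) (b1 e he)
    · apply Continuous.intervalIntegrable
      exact continuous_const.mul (Continuous.inv₀ (by fun_prop) (b1 e he))
  have s2 : ∀ e : ℝ, p.re ≠ e → (∫ y in c..d, dslope g p ((e:ℂ) + y * I))
      = (∫ y in c..d, g ((e:ℂ) + y * I) / ((e:ℂ) + y * I - p))
        - g p * ∫ y in c..d, ((e:ℂ) + y * I - p)⁻¹ := by
    intro e he
    rw [← intervalIntegral.integral_const_mul, ← intervalIntegral.integral_sub]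
    · apply intervalIntegral.integral_congr
      intro x _
      simp only
      rw [hsub]
      exact fun h => b2 e he x (by rw [h, sub_self])
    · apply Continuous.intervalIntegrable
      exact Continuous.div (by fun_prop) (by fun_prop) (b2 e he)
    · apply Continuous.intervalIntegrable
      exact continuous_const.mul (Continuous.inv₀ (by fun_prop) (b2 e he))
  rw [s1 c hc.ne', s1 d hd.ne, s2 b hb.ne, s2 a ha.ne'] at H
  linear_combination H + g p * R

/-- Cauchy transforms are differentiable off the curve. -/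
lemma cauchy_diff {s : Set ℝ} (hs : MeasurableSet s) {φ γ : ℝ → ℂ} (hφ : IntegrableOn φ s)
    (hγ : Measurable γ) {z0 : ℂ} {r : ℝ} (hr : 0 < r) (h : ∀ u ∈ s, r ≤ ‖γ u - z0‖) :
    DifferentiableAt ℂ (fun z => ∫ u in s, φ u / (γ u - z)) z0 := by
  have hb : ∀ u ∈ s, ∀ z ∈ Metric.ball z0 (r/2), r/2 ≤ ‖γ u - z‖ := by
    intro u hu z hz
    have h1 := h u hu
    have h2 : ‖γ u - z0‖ ≤ ‖γ u - z‖ + ‖z - z0‖ := by
      calc ‖γ u - z0‖ = ‖(γ u - z) + (z - z0)‖ := by ring_nf
        _ ≤ _ := norm_add_le _ _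
    rw [Metric.mem_ball, dist_eq_norm] at hz
    linarith
  have hm : ∀ z : ℂ, AEStronglyMeasurable (fun u => φ u / (γ u - z)) (volume.restrict s) := by
    intro z
    exact (hφ.aemeasurable.div ((hγ.sub_const z).aemeasurable)).aestronglyMeasurable
  have := hasDerivAt_integral_of_dominated_loc_of_deriv_le (μ := volume.restrict s)
    (F := fun z u => φ u / (γ u - z)) (F' := fun z u => φ u / (γ u - z)^2) (x₀ := z0)
    (s := Metric.ball z0 (r/2)) (bound := fun u => ‖φ u‖ * (4 / r^2))
    (Metric.ball_mem_nhds _ (by positivity)) (Eventually.of_forall hm) ?_ ?_ ?_ ?_ ?_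
  · exact this.2.differentiableAt
  · apply Integrable.mono' (g := fun u => ‖φ u‖ * (1/r)) (hφ.norm.mul_const _) (hm z0)
    filter_upwards [ae_restrict_mem hs] with u hu
    rw [norm_div, div_eq_mul_inv]
    apply mul_le_mul_of_nonneg_left _ (norm_nonneg _)
    rw [one_div]
    exact inv_anti₀ hr (h u hu)
  · exact (hφ.aemeasurable.div (((hγ.sub_const z0).pow_const 2).aemeasurable)).aestronglyMeasurable
  · filter_upwards [ae_restrict_mem hs] with u hu z hz
    rw [norm_div, div_eq_mul_inv, norm_pow]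
    apply mul_le_mul_of_nonneg_left _ (norm_nonneg _)
    have h3 := hb u hu z hz
    rw [inv_le_comm₀ (by have : 0 < ‖γ u - z‖ := by linarith
                         positivity) (by positivity)]
    calc (4/r^2)⁻¹ = (r/2)^2 := by field_simp; norm_num
      _ ≤ _ := by gcongr
  · exact hφ.norm.mul_const _
  · filter_upwards [ae_restrict_mem hs] with u hu z hz
    have h3 := hb u hu z hz
    have h4 : γ u - z ≠ 0 := by
      intro h
      rw [h, norm_zero] at h3
      linarith
    have h5 : HasDerivAt (fun z => γ u - z) (-1) z := by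
      simpa using (hasDerivAt_id z).const_sub (γ u)
    have h6 := (h5.fun_inv h4).const_mul (φ u)
    have e : φ u / (γ u - z)^2 = φ u * (-(-1) / (γ u - z)^2) := by
      rw [neg_neg, one_div, div_eq_mul_inv]
    rw [e]
    simpa [div_eq_mul_inv] using h6

lemma cauchy_bound {s : Set ℝ} (hs : MeasurableSet s) {φ γ : ℝ → ℂ}
    {z : ℂ} {d C : ℝ} (hd : 0 < d) (h : ∀ u ∈ s, d ≤ ‖γ u - z‖) (hφ : IntegrableOn φ s)
    (hC : ∫ u in s, ‖φ u‖ ≤ C) :
    ‖∫ u in s, φ u / (γ u - z)‖ ≤ C / d := by
  calc ‖∫ u in s, φ u / (γ u - z)‖ ≤ ∫ u in s, ‖φ u‖ * (1/d) := by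
        apply norm_integral_le_of_norm_le (hφ.norm.mul_const _)
        filter_upwards [ae_restrict_mem hs] with u hu
        rw [norm_div, div_eq_mul_inv]
        apply mul_le_mul_of_nonneg_left _ (norm_nonneg _)
        rw [one_div]
        exact inv_anti₀ hd (h u hu)
    _ = (∫ u in s, ‖φ u‖) * (1/d) := by rw [integral_mul_const]
    _ ≤ C / d := by
        rw [div_eq_mul_one_div C d]
        apply mul_le_mul_of_nonneg_right hC (by positivity)

/-- The double exponential. -/
noncomputable def Phi (z : ℂ) : ℂ := exp (exp z)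

noncomputable def L (c : ℝ) (z : ℂ) : ℂ :=
  (2 * Real.pi * I)⁻¹ * ∫ u in Ioi (0:ℝ), Phi ((u:ℂ) + c * I) / ((u:ℂ) + c * I - z)

noncomputable def V (z : ℂ) : ℂ :=
  -(2 * Real.pi : ℂ)⁻¹ * ∫ v in Ioc (2 * Real.pi / 3) Real.pi,
    Phi (((0:ℝ):ℂ) + (v:ℂ) * I) / (((0:ℝ):ℂ) + (v:ℂ) * I - z)

/-- The Mittag-Leffler type function. -/
noncomputable def E (z : ℂ) : ℂ :=
  if z.im < 5 * Real.pi / 6 then Phi z + L Real.pi z - L (-Real.pi) z
  else L (2 * Real.pi / 3) z + V z - L (-Real.pi) z

noncomputable def J (z : ℂ) : ℂ := L (-Real.pi) z - L Real.pi z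

lemma Phi_diff : Differentiable ℂ Phi := by
  unfold Phi
  exact Complex.differentiable_exp.comp Complex.differentiable_exp

lemma norm_Phi (x y : ℝ) : ‖Phi ((x:ℂ) + y * I)‖ = Real.exp (Real.exp x * Real.cos y) := by
  rw [Phi, Complex.norm_exp, Complex.exp_re]
  simp

lemma norm_Phi_le {x y : ℝ} (hy : Real.cos y ≤ -1/2) :
    ‖Phi ((x:ℂ) + y * I)‖ ≤ Real.exp (-(1/2) * (1 + x)) := by
  rw [norm_Phi]
  apply Real.exp_le_exp.2
  have h1 := Real.add_one_le_exp x
  have h2 := Real.exp_pos x
  nlinarith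

lemma Phi_cont (c : ℝ) : Continuous (fun u : ℝ => Phi ((u:ℂ) + c * I)) :=
  Phi_diff.continuous.comp (by fun_prop)

lemma exp_int : IntegrableOn (fun u : ℝ => Real.exp (-(1/2) * (1 + u))) (Ioi 0) := by
  have h : (fun u : ℝ => Real.exp (-(1/2) * (1 + u))) =
      fun u => Real.exp (-(1/2)) * Real.exp (-(1/2) * u) := by
    funext u
    rw [← Real.exp_add]
    ring_nf
  rw [h]
  exact (integrableOn_exp_mul_Ioi (by norm_num) 0).const_mul _

lemma exp_int_val : ∫ u in Ioi (0:ℝ), Real.exp (-(1/2) * (1 + u)) = 2 * Real.exp (-(1/2)) := by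
  have h : (fun u : ℝ => Real.exp (-(1/2) * (1 + u))) =
      fun u => Real.exp (-(1/2)) * Real.exp (-(1/2) * u) := by
    funext u
    rw [← Real.exp_add]
    ring_nf
  rw [h, integral_const_mul, integral_exp_mul_Ioi (by norm_num) 0]
  simp
  ring

lemma Phi_int {c : ℝ} (hc : Real.cos c ≤ -1/2) :
    IntegrableOn (fun u : ℝ => Phi ((u:ℂ) + c * I)) (Ioi 0) :=
  Integrable.mono' exp_int (Phi_cont c).aestronglyMeasurable
    (Eventually.of_forall fun _ => norm_Phi_le hc)

lemma Phi_int_le {c : ℝ} (hc : Real.cos c ≤ -1/2) :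
    ∫ u in Ioi (0:ℝ), ‖Phi ((u:ℂ) + c * I)‖ ≤ 5/4 := by
  calc ∫ u in Ioi (0:ℝ), ‖Phi ((u:ℂ) + c * I)‖ ≤ ∫ u in Ioi (0:ℝ), Real.exp (-(1/2) * (1 + u)) := by
        apply integral_mono (Phi_int hc).norm exp_int
        intro u
        exact norm_Phi_le hc
    _ = 2 * Real.exp (-(1/2)) := exp_int_val
    _ ≤ 5/4 := by
      have h : Real.exp (-(1/2)) ≤ 5/8 := by
        have h1 : Real.exp (-(1/2)) = (Real.exp (1/2))⁻¹ := by rw [← Real.exp_neg]
        rw [h1, inv_le_comm₀ (Real.exp_pos _) (by norm_num)]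
        have h2 : (1.6:ℝ)^2 ≤ Real.exp (1/2)^2 := by
          rw [← Real.exp_nat_mul]
          have := Real.exp_one_gt_d9
          norm_num
          linarith
        have h3 : (1.6:ℝ) ≤ Real.exp (1/2) := by
          apply le_of_sq_le_sq h2 (Real.exp_pos _).le
        norm_num at h3 ⊢
        linarith
      linarith

lemma dist_line (u c : ℝ) (z : ℂ) : |c - z.im| ≤ ‖(u:ℂ) + c * I - z‖ := by
  have := Complex.abs_im_le_norm ((u:ℂ) + c * I - z)
  simpa using this

lemma L_diff {c : ℝ} (hc : Real.cos c ≤ -1/2) {z : ℂ} (hz : z.im ≠ c) : DifferentiableAt ℂ (L c) z := by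
  unfold L
  apply DifferentiableAt.const_mul
  apply cauchy_diff measurableSet_Ioi (Phi_int hc) (by fun_prop) (r := |c - z.im|)
  · exact abs_pos.2 (sub_ne_zero.2 hz.symm)
  · intro u _
    exact dist_line u c z

lemma norm_two_pi_I : ‖(2 * Real.pi * I : ℂ)⁻¹‖ = (2 * Real.pi)⁻¹ := by
  rw [norm_inv]
  simp [Real.pi_pos.le]

lemma L_bound {c : ℝ} (hc : Real.cos c ≤ -1/2) {z : ℂ} {d : ℝ} (hd : 0 < d) (hz : d ≤ |c - z.im|) :
    ‖L c z‖ ≤ (1/5) / d := by
  unfold L
  rw [norm_mul, norm_two_pi_I]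
  have h1 := cauchy_bound measurableSet_Ioi (φ := fun u : ℝ => Phi ((u:ℂ) + c * I))
    (γ := fun u : ℝ => (u:ℂ) + c * I) (z := z) hd (fun u _ => hz.trans (dist_line u c z))
    (Phi_int hc) (Phi_int_le hc)
  have h2 : (2 * Real.pi)⁻¹ ≤ 4/25 := by
    rw [inv_le_comm₀ (by positivity) (by norm_num)]
    have := Real.pi_gt_d2
    norm_num at this ⊢
    linarith
  calc (2 * Real.pi)⁻¹ * _ ≤ (4/25) * ((5/4) / d) := by
        apply mul_le_mul h2 h1 (norm_nonneg _) (by norm_num)
    _ = (1/5) / d := by ring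

lemma cos_pi' : Real.cos Real.pi ≤ -1/2 := by simp; norm_num
lemma cos_neg_pi' : Real.cos (-Real.pi) ≤ -1/2 := by simp; norm_num
lemma cos_two_pi_div_three : Real.cos (2 * Real.pi / 3) = -1/2 := by
  have : 2 * Real.pi / 3 = Real.pi - Real.pi / 3 := by ring
  rw [this, Real.cos_pi_sub, Real.cos_pi_div_three]
  norm_num

lemma J_diff {z : ℂ} (hz : |z.im| < Real.pi) : DifferentiableAt ℂ J z := by
  rw [abs_lt] at hz
  unfold J
  exact (L_diff cos_neg_pi' (by linarith)).sub (L_diff cos_pi' (by linarith))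

lemma J_bound {z : ℂ} (hz : |z.im| ≤ 5 * Real.pi / 6) : ‖J z‖ ≤ 4/5 := by
  have hp := Real.pi_gt_d2
  rw [abs_le] at hz
  have h1 : ‖L (-Real.pi) z‖ ≤ (1/5) / (1/2) := by
    apply L_bound cos_neg_pi' (by norm_num)
    rw [abs_sub_comm]
    refine le_trans ?_ (le_abs_self _)
    linarith
  have h2 : ‖L Real.pi z‖ ≤ (1/5) / (1/2) := by
    apply L_bound cos_pi' (by norm_num)
    refine le_trans ?_ (le_abs_self _)
    linarith
  calc ‖J z‖ ≤ ‖L (-Real.pi) z‖ + ‖L Real.pi z‖ := norm_sub_le _ _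
    _ ≤ 4/5 := by norm_num at h1 h2 ⊢; linarith

lemma J_deriv_bound {z : ℂ} (hz : |z.im| ≤ Real.pi / 2) : ‖deriv J z‖ ≤ 4/5 := by
  have hp := Real.pi_gt_d2
  have hd : DiffContOnCl ℂ J (Metric.ball z 1) := by
    apply DifferentiableOn.diffContOnCl
    rw [closure_ball z one_ne_zero]
    intro w hw
    apply DifferentiableAt.differentiableWithinAt
    apply J_diff
    rw [Metric.mem_closedBall, dist_eq_norm] at hw
    have h1 := Complex.abs_im_le_norm (w - z)
    rw [Complex.sub_im] at h1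
    rw [abs_le] at h1 hz
    rw [abs_lt]
    constructor <;> linarith
  have := Complex.norm_deriv_le_of_forall_mem_sphere_norm_le (C := 4/5) one_pos hd ?_
  · simpa using this
  · intro w hw
    apply J_bound
    rw [mem_sphere_iff_norm] at hw
    have h1 := Complex.abs_im_le_norm (w - z)
    rw [Complex.sub_im] at h1
    rw [abs_le] at h1 hz
    rw [abs_le]
    constructor <;> linarith

lemma V_int : IntegrableOn (fun v : ℝ => Phi (((0:ℝ):ℂ) + (v:ℂ) * I))
    (Ioc (2 * Real.pi / 3) Real.pi) := by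
  apply Continuous.integrableOn_Ioc
  exact Phi_diff.continuous.comp (by fun_prop)

lemma dist_vline (v e : ℝ) (z : ℂ) : |z.re - e| ≤ ‖(e:ℂ) + v * I - z‖ := by
  have := Complex.abs_re_le_norm ((e:ℂ) + v * I - z)
  rw [abs_sub_comm]
  simpa using this

lemma cos_le_of_mem {y : ℝ} (h1 : 2 * Real.pi / 3 ≤ y) (h2 : y ≤ Real.pi) : Real.cos y ≤ -1/2 := by
  rw [← cos_two_pi_div_three]
  exact Real.cos_le_cos_of_nonneg_of_le_pi (by have := Real.pi_pos; positivity) h2 h1

lemma V_diff {z : ℂ} (hz : 0 < z.re) : DifferentiableAt ℂ V z := by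
  unfold V
  apply DifferentiableAt.const_mul
  apply cauchy_diff measurableSet_Ioc V_int (by fun_prop) (r := z.re) hz
  intro v _
  have := dist_vline v 0 z
  rw [sub_zero] at this
  exact (le_abs_self _).trans this

lemma V_bound {z : ℂ} {d : ℝ} (hd : 0 < d)
    (hz : ∀ v ∈ Ioc (2 * Real.pi / 3) Real.pi, d ≤ ‖((0:ℝ):ℂ) + v * I - z‖) :
    ‖V z‖ ≤ (1/5) / d := by
  have hp := Real.pi_gt_d2
  have hp2 := Real.pi_lt_d2
  unfold V
  rw [norm_mul]
  have h0 : ∫ v in Ioc (2 * Real.pi / 3) Real.pi, ‖Phi (((0:ℝ):ℂ) + (v:ℂ) * I)‖ ≤ Real.pi / 3 := by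
    calc ∫ v in Ioc (2 * Real.pi / 3) Real.pi, ‖Phi (((0:ℝ):ℂ) + (v:ℂ) * I)‖
        ≤ ∫ v in Ioc (2 * Real.pi / 3) Real.pi, (1:ℝ) := by
          apply setIntegral_mono_on V_int.norm (by simp) measurableSet_Ioc
          intro v hv
          rw [norm_Phi]
          apply Real.exp_le_one_iff.2
          have h1 := cos_le_of_mem hv.1.le hv.2
          have h2 := Real.exp_pos (0:ℝ)
          nlinarith
      _ = Real.pi / 3 := by
          simp
          rw [max_eq_left (by linarith)]
          ring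
  have h1 := cauchy_bound measurableSet_Ioc (φ := fun v : ℝ => Phi (((0:ℝ):ℂ) + (v:ℂ) * I))
    (γ := fun v : ℝ => ((0:ℝ):ℂ) + (v:ℂ) * I) (z := z) hd hz V_int h0
  have h2 : ‖-(2 * Real.pi : ℂ)⁻¹‖ = (2 * Real.pi)⁻¹ := by
    rw [norm_neg, norm_inv]
    simp [Real.pi_pos.le]
  rw [h2]
  calc (2 * Real.pi)⁻¹ * _ ≤ (2 * Real.pi)⁻¹ * ((Real.pi/3) / d) := by
        apply mul_le_mul_of_nonneg_left h1 (by positivity)
    _ = (1/6) / d := by field_simp; norm_num
    _ ≤ (1/5) / d := by gcongr; norm_num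

lemma F1 {p : ℂ} (hp : 0 < p.re) (h1 : 2 * Real.pi / 3 < p.im) (h2 : p.im < Real.pi) :
    Phi p + L Real.pi p = L (2 * Real.pi / 3) p + V p := by
  have hpi := Real.pi_pos
  have hint : ∀ c : ℝ, Real.cos c ≤ -1/2 → c ≠ p.im →
      IntegrableOn (fun u : ℝ => Phi ((u:ℂ) + c * I) / ((u:ℂ) + c * I - p)) (Ioi 0) := by
    intro c hc hcp
    apply Integrable.mono' (g := fun u : ℝ => ‖Phi ((u:ℂ) + c * I)‖ * (1/|c - p.im|))
      ((Phi_int hc).norm.mul_const _)
    · apply Continuous.aestronglyMeasurable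
      apply Continuous.div (Phi_cont c) (by fun_prop)
      intro u h
      have := congrArg Complex.im h
      simp at this
      exact hcp (by linarith)
    · apply Eventually.of_forall
      intro u
      rw [norm_div, div_eq_mul_inv]
      apply mul_le_mul_of_nonneg_left _ (norm_nonneg _)
      rw [one_div]
      exact inv_anti₀ (abs_pos.2 (sub_ne_zero.2 hcp)) (dist_line u c p)
  have t1 := intervalIntegral_tendsto_integral_Ioi 0
    (hint (2 * Real.pi / 3) cos_two_pi_div_three.le h1.ne) (tendsto_natCast_atTop_atTop (R := ℝ))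
  have t2 := intervalIntegral_tendsto_integral_Ioi 0
    (hint Real.pi cos_pi' h2.ne') (tendsto_natCast_atTop_atTop (R := ℝ))
  have t3 : Tendsto (fun n : ℕ => I * ∫ y in (2 * Real.pi / 3)..Real.pi,
      Phi (((n:ℝ):ℂ) + y * I) / (((n:ℝ):ℂ) + y * I - p)) atTop (𝓝 0) := by
    have t4 : Tendsto (fun n : ℕ => ((n:ℝ) - p.re)⁻¹ * |Real.pi - 2 * Real.pi / 3|) atTop (𝓝 0) := by
      have : Tendsto (fun n : ℕ => ((n:ℝ) - p.re)⁻¹) atTop (𝓝 0) :=
        tendsto_inv_atTop_zero.comp
          (tendsto_atTop_add_const_right _ (-p.re) tendsto_natCast_atTop_atTop)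
      simpa using this.mul_const _
    apply squeeze_zero_norm' _ t4
    filter_upwards [eventually_gt_atTop ⌈p.re⌉₊] with n hn
    have hn' : p.re < n := (Nat.le_ceil _).trans_lt (by exact_mod_cast hn)
    rw [norm_mul, norm_I, one_mul]
    apply intervalIntegral.norm_integral_le_of_norm_le_const
    intro y hy
    rw [uIoc_of_le (by linarith)] at hy
    rw [norm_div, div_eq_mul_inv]
    have h3 : ‖Phi (((n:ℝ):ℂ) + y * I)‖ ≤ 1 := by
      rw [norm_Phi]
      apply Real.exp_le_one_iff.2
      have h1 := cos_le_of_mem hy.1.le hy.2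
      have h2 := Real.exp_pos (n:ℝ)
      nlinarith
    have h4 : ‖((n:ℝ):ℂ) + y * I - p‖⁻¹ ≤ ((n:ℝ) - p.re)⁻¹ := by
      apply inv_anti₀ (by linarith)
      have := dist_vline y n p
      rw [abs_sub_comm] at this
      exact (le_abs_self _).trans this
    calc _ ≤ 1 * ((n:ℝ) - p.re)⁻¹ := by
          apply mul_le_mul h3 h4 (by positivity) (by norm_num)
      _ = _ := one_mul _
  have T := ((t1.sub t2).add t3).sub_const (I * (∫ y in (2 * Real.pi / 3)..Real.pi,
      Phi (((0:ℝ):ℂ) + y * I) / (((0:ℝ):ℂ) + y * I - p)))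
  have T2 : Tendsto (fun n : ℕ => 2 * Real.pi * I * Phi p) atTop (𝓝 (2 * Real.pi * I * Phi p)) :=
    tendsto_const_nhds
  have key := tendsto_nhds_unique (T.congr' ?_) T2
  · rw [intervalIntegral.integral_of_le (by linarith)] at key
    unfold L V
    have hP : (Real.pi : ℂ) ≠ 0 := by simp [hpi.ne']
    have alg : ∀ A B C P : ℂ, A - B + 0 - I * C = 2 * Real.pi * I * P →
        P + (2 * Real.pi * I)⁻¹ * B = (2 * Real.pi * I)⁻¹ * A + (-(2 * Real.pi : ℂ)⁻¹ * C) := by
      intro A B C P h
      have hI : (I:ℂ) ≠ 0 := I_ne_zero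
      field_simp
      linear_combination (-h)
    exact alg _ _ _ _ key
  · filter_upwards [eventually_gt_atTop ⌈p.re⌉₊] with n hn
    have hn' : p.re < n := (Nat.le_ceil _).trans_lt (by exact_mod_cast hn)
    have := rect_cauchy Phi Phi_diff 0 n (2 * Real.pi / 3) Real.pi p hp hn' h1 h2
    exact this

lemma E_eq {z : ℂ} (hz : z.im < 5 * Real.pi / 6) : E z = Phi z - J z := by
  rw [E, if_pos hz, J]
  ring

lemma E_eq2 {z : ℂ} (h1 : 0 < z.re) (h2 : 2 * Real.pi / 3 < z.im) :
    E z = L (2 * Real.pi / 3) z + V z - L (-Real.pi) z := by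
  have hpi := Real.pi_pos
  by_cases h : z.im < 5 * Real.pi / 6
  · rw [E, if_pos h, F1 h1 h2 (by linarith)]
  · rw [E, if_neg h]

lemma E_diff {z : ℂ} (h1 : 0 < z.re) (h2 : -Real.pi < z.im) : DifferentiableAt ℂ E z := by
  have hpi := Real.pi_pos
  by_cases h : z.im < 5 * Real.pi / 6
  · have : E =ᶠ[𝓝 z] fun z => Phi z - J z := by
      have : ∀ᶠ w : ℂ in 𝓝 z, w.im < 5 * Real.pi / 6 :=
        (Complex.continuous_im.tendsto z).eventually (eventually_lt_nhds h)
      filter_upwards [this] with w hw using E_eq hw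
    rw [this.differentiableAt_iff]
    apply (Phi_diff z).sub
    apply J_diff
    rw [abs_lt]
    constructor <;> linarith
  · have h3 : 2 * Real.pi / 3 < z.im := by linarith
    have : E =ᶠ[𝓝 z] fun z => L (2 * Real.pi / 3) z + V z - L (-Real.pi) z := by
      have a1 : ∀ᶠ w : ℂ in 𝓝 z, 2 * Real.pi / 3 < w.im :=
        (Complex.continuous_im.tendsto z).eventually (eventually_gt_nhds h3)
      have a2 : ∀ᶠ w : ℂ in 𝓝 z, 0 < w.re :=
        (Complex.continuous_re.tendsto z).eventually (eventually_gt_nhds h1)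
      filter_upwards [a1, a2] with w hw hw2 using E_eq2 hw2 hw
    rw [this.differentiableAt_iff]
    exact ((L_diff cos_two_pi_div_three.le h3.ne').add (V_diff h1)).sub
      (L_diff cos_neg_pi' (by linarith))

lemma L_conj (x : ℝ) : (starRingEnd ℂ) (L Real.pi x) = - L (-Real.pi) x := by
  unfold L
  rw [map_mul, ← integral_conj]
  have h1 : (starRingEnd ℂ) (2 * Real.pi * I : ℂ)⁻¹ = -(2 * Real.pi * I : ℂ)⁻¹ := by
    rw [map_inv₀, map_mul, map_mul, conj_ofReal, conj_I, Complex.conj_ofNat, mul_neg, inv_neg]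
  rw [h1, neg_mul]
  congr 2
  apply integral_congr_ae
  apply Eventually.of_forall
  intro u
  simp only [map_div₀, Phi, ← Complex.exp_conj, map_add, map_sub, map_mul, conj_ofReal, conj_I]
  push_cast
  ring_nf

lemma E_real (x : ℝ) : (E x).im = 0 := by
  have hpi := Real.pi_pos
  rw [E, if_pos (by simp; positivity)]
  have : L (-Real.pi) x = - (starRingEnd ℂ) (L Real.pi x) := by rw [L_conj]; ring
  rw [this, Phi, ← Complex.ofReal_exp, ← Complex.ofReal_exp, Complex.sub_im, Complex.add_im,
    Complex.ofReal_im, Complex.neg_im, Complex.conj_im]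
  ring

lemma E_re_ge (x : ℝ) : Real.exp (Real.exp x) - 1 ≤ (E x).re := by
  have hpi := Real.pi_pos
  rw [E_eq (by simp; positivity)]
  have h1 : ‖J x‖ ≤ 4/5 := J_bound (by simp; positivity)
  have h2 := Complex.abs_re_le_norm (J x)
  rw [abs_le] at h2
  rw [Phi, ← Complex.ofReal_exp, ← Complex.ofReal_exp, Complex.sub_re, Complex.ofReal_re]
  linarith

lemma norm_Phi' (z : ℂ) : ‖Phi z‖ = Real.exp (Real.exp z.re * Real.cos z.im) := by
  rw [Phi, Complex.norm_exp, Complex.exp_re]

lemma E_bound {z : ℂ} (h1 : 1 ≤ z.re) (h2 : Real.pi / 2 ≤ z.im) : ‖E z‖ ≤ 10 / z.im := by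
  have hp := Real.pi_gt_d2
  have hp2 := Real.pi_lt_d2
  have hpos : 0 < z.im := by linarith
  by_cases h : z.im < 5 * Real.pi / 6
  · rw [E_eq h]
    have hJ : ‖J z‖ ≤ 4/5 := J_bound (by rw [abs_of_pos hpos]; exact h.le)
    have hP : ‖Phi z‖ ≤ 1 := by
      rw [norm_Phi']
      apply Real.exp_le_one_iff.2
      have : Real.cos z.im ≤ 0 := Real.cos_nonpos_of_pi_div_two_le_of_le h2 (by linarith)
      have h3 := Real.exp_pos z.re
      nlinarith
    have h4 : (2:ℝ) ≤ 10 / z.im := by
      rw [le_div_iff₀ hpos]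
      linarith
    calc ‖Phi z - J z‖ ≤ ‖Phi z‖ + ‖J z‖ := norm_sub_le _ _
      _ ≤ 10 / z.im := by linarith
  · push Not at h
    rw [E_eq2 (by linarith) (by linarith)]
    have b1 : ‖L (2 * Real.pi / 3) z‖ ≤ (1/5) / (z.im / 5) := by
      apply L_bound cos_two_pi_div_three.le (by positivity)
      rw [abs_sub_comm]
      refine le_trans ?_ (le_abs_self _)
      linarith
    have b2 : ‖L (-Real.pi) z‖ ≤ (1/5) / (z.im / 5) := by
      apply L_bound cos_neg_pi' (by positivity)
      rw [abs_sub_comm]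
      refine le_trans ?_ (le_abs_self _)
      linarith
    have b3 : ‖V z‖ ≤ (1/5) / (z.im / 5) := by
      apply V_bound (by positivity)
      intro v hv
      by_cases h5 : z.im ≤ 5
      · have := dist_vline v 0 z
        rw [sub_zero] at this
        have := (le_abs_self _).trans this
        linarith
      · push Not at h5
        have := dist_line 0 v z
        rw [abs_sub_comm] at this
        have := (le_abs_self _).trans this
        have := hv.2
        linarith
    have e : (1/5) / (z.im / 5) = 1 / z.im := by field_simp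
    rw [e] at b1 b2 b3
    calc ‖L (2 * Real.pi / 3) z + V z - L (-Real.pi) z‖
        ≤ ‖L (2 * Real.pi / 3) z‖ + ‖V z‖ + ‖L (-Real.pi) z‖ :=
          (norm_sub_le _ _).trans (by gcongr; exact norm_add_le _ _)
      _ ≤ 1 / z.im + 1 / z.im + 1 / z.im := by gcongr
      _ ≤ 10 / z.im := by
          rw [← add_div, ← add_div]
          gcongr
          norm_num

end Pool.Agent.H343.M
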