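import Mathlib

set_option autoImplicit false
set_option maxHeartbeats 4000000
open Filter Topology Complex MeasureTheory Set

namespace Pool.Agent.H343.M

lemma jh {S : Set ℂ} {y a b : ℝ} (hab : a ≤ b) (h : ∀ w ∈ Icc a b, (w:ℂ) + y * I ∈ S) :
    JoinedIn S ((a:ℂ) + y * I) ((b:ℂ) + y * I) := by
  apply JoinedIn.ofLine (f := fun t : ℝ => (((a + t * (b - a) : ℝ)):ℂ) + y * I)
  · fun_prop
  · simp
  · simp
  · rintro _ ⟨t, ht, rfl⟩
    apply h
    constructor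
    · have := mul_nonneg ht.1 (sub_nonneg.2 hab)
      linarith
    · have := mul_le_mul_of_nonneg_right ht.2 (sub_nonneg.2 hab)
      linarith

lemma jv {S : Set ℂ} {x a b : ℝ} (hab : a ≤ b) (h : ∀ y ∈ Icc a b, (x:ℂ) + y * I ∈ S) :
    JoinedIn S ((x:ℂ) + a * I) ((x:ℂ) + b * I) := by
  apply JoinedIn.ofLine (f := fun t : ℝ => (x:ℂ) + (((a + t * (b - a) : ℝ)):ℂ) * I)
  · fun_prop
  · simp
  · simp
  · rintro _ ⟨t, ht, rfl⟩
    apply h
    constructor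
    · have := mul_nonneg ht.1 (sub_nonneg.2 hab)
      linarith
    · have := mul_le_mul_of_nonneg_right ht.2 (sub_nonneg.2 hab)
      linarith

lemma comp_ineq {a b : ℝ} {f f' : ℝ → ℂ} {B B' : ℝ → ℝ}
    (hf : ∀ x ∈ Icc a b, HasDerivAt f (f' x) x) (hB : ∀ x ∈ Icc a b, HasDerivAt B (B' x) x)
    (h : ∀ x ∈ Icc a b, ‖f' x‖ ≤ B' x) : ∀ x ∈ Icc a b, ‖f x - f a‖ ≤ B x - B a := by
  apply image_norm_le_of_norm_deriv_right_le_deriv_boundary' (f := fun x => f x - f a) (f' := f')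
    (B := fun x => B x - B a) (B' := B')
  · intro x hx
    exact ((hf x hx).sub_const _).continuousAt.continuousWithinAt
  · intro x hx
    exact ((hf x (Ico_subset_Icc_self hx)).sub_const _).hasDerivWithinAt
  · simp
  · intro x hx
    exact ((hB x hx).sub_const _).continuousAt.continuousWithinAt
  · intro x hx
    exact ((hB x (Ico_subset_Icc_self hx)).sub_const _).hasDerivWithinAt
  · intro x hx
    exact h x (Ico_subset_Icc_self hx)

lemma hd_h (y : ℝ) {f : ℂ → ℂ} {f' : ℂ} {x : ℝ} (hf : HasDerivAt f f' ((x:ℂ) + y * I)) :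
    HasDerivAt (fun t : ℝ => f ((t:ℂ) + y * I)) f' x := by
  have h : HasDerivAt (fun t : ℝ => (t:ℂ) + y * I) 1 x :=
    (Complex.ofRealCLM.hasDerivAt (x := x)).add_const _
  have := hf.comp x h
  rw [mul_one] at this
  exact this

lemma hd_v (x : ℝ) {f : ℂ → ℂ} {f' : ℂ} {y : ℝ} (hf : HasDerivAt f f' ((x:ℂ) + y * I)) :
    HasDerivAt (fun t : ℝ => f ((x:ℂ) + t * I)) (f' * I) y := by
  have h : HasDerivAt (fun t : ℝ => (x:ℂ) + t * I) I y := by
    have := ((Complex.ofRealCLM.hasDerivAt (x := y)).mul_const I).const_add (x:ℂ)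
    simpa using this
  exact hf.comp y h

lemma norm_ge_im (x y : ℝ) : |y| ≤ ‖(x:ℂ) + y * I‖ := by
  simpa using Complex.abs_im_le_norm ((x:ℂ) + y * I)

lemma norm_ge_re (x y : ℝ) : |x| ≤ ‖(x:ℂ) + y * I‖ := by
  simpa using Complex.abs_re_le_norm ((x:ℂ) + y * I)

lemma norm_le_add (x y : ℝ) : ‖(x:ℂ) + y * I‖ ≤ |x| + |y| := by
  calc ‖(x:ℂ) + y * I‖ ≤ ‖(x:ℂ)‖ + ‖(y * I : ℂ)‖ := norm_add_le _ _
    _ = |x| + |y| := by simp

theorem lemX {r : ℝ} (hr : 100 ≤ r) {F κ κ' : ℂ → ℂ}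
    (hF : ∀ W : ℂ, 0 ≤ W.im → r/2 ≤ ‖W‖ → ‖W‖ ≤ 20 * r → HasDerivAt F (exp (W + κ W)) W)
    (hκ : ∀ W : ℂ, 0 ≤ W.im → r/2 ≤ ‖W‖ → ‖W‖ ≤ 20 * r → HasDerivAt κ (κ' W) W)
    (hκ' : ∀ W : ℂ, 0 ≤ W.im → r/2 ≤ ‖W‖ → ‖W‖ ≤ 20 * r → ‖κ' W‖ ≤ (3/2) / ‖W‖)
    (h1 : (κ (r * I)).re ≤ 0)
    (h2 : 8 * (‖F (-r)‖ + 1) ≤ Real.exp (r/8 + (κ (r * I)).re)) :
    JoinedIn {W : ℂ | 0 ≤ W.im ∧ r/2 ≤ ‖W‖ ∧ ‖W‖ ≤ 20 * r ∧ (F (-r)).re - 1 ≤ ‖F W‖}
      (-r) (16 * r) := by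
  have hp := Real.pi_gt_d2
  have hp2 := Real.pi_lt_d2
  set a := F (-r) with ha
  -- choice of the height
  obtain ⟨y, hy1, hy2, m, hm⟩ : ∃ y : ℝ, r ≤ y ∧ y ≤ r + 6.3 ∧ ∃ m : ℤ,
      y + (κ (r * I)).im = m * (2 * Real.pi) := by
    obtain ⟨m, hm1, hm2⟩ : ∃ m : ℤ, r + (κ (r * I)).im ≤ m * (2 * Real.pi) ∧
        m * (2 * Real.pi) ≤ r + (κ (r * I)).im + 2 * Real.pi := by
      refine ⟨⌈(r + (κ (r * I)).im) / (2 * Real.pi)⌉, ?_, ?_⟩
      · rw [← div_le_iff₀ (by positivity)]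
        exact Int.le_ceil _
      · have := (Int.ceil_lt_add_one ((r + (κ (r * I)).im) / (2 * Real.pi))).le
        calc _ ≤ ((r + (κ (r * I)).im) / (2 * Real.pi) + 1) * (2 * Real.pi) := by gcongr
          _ = _ := by field_simp
    refine ⟨m * (2 * Real.pi) - (κ (r * I)).im, by linarith, by linarith, m, by ring⟩
  -- Lipschitz estimates for κ
  have lipC : ∀ (C : Set ℂ) (e : ℝ), 0 < e → r/2 ≤ e → Convex ℝ C →
      (∀ W ∈ C, 0 ≤ W.im ∧ e ≤ ‖W‖ ∧ ‖W‖ ≤ 20 * r) →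
      ∀ W1 ∈ C, ∀ W2 ∈ C, ‖κ W2 - κ W1‖ ≤ (3/2) / e * ‖W2 - W1‖ := by
    intro C e he hre hC hCT W1 h1 W2 h2
    apply hC.norm_image_sub_le_of_norm_hasDerivWithin_le (f' := κ') _ _ h1 h2
    · intro W hW
      obtain ⟨q1, q2, q3⟩ := hCT W hW
      exact (hκ W q1 (hre.trans q2) q3).hasDerivWithinAt
    · intro W hW
      obtain ⟨q1, q2, q3⟩ := hCT W hW
      refine (hκ' W q1 (hre.trans q2) q3).trans ?_
      gcongr
  have lip1 : ∀ W1 W2 : ℂ, r ≤ W1.im → r ≤ W2.im → ‖W1‖ ≤ 20*r → ‖W2‖ ≤ 20*r →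
      ‖κ W2 - κ W1‖ ≤ (3/2)/r * ‖W2 - W1‖ := by
    intro W1 W2 i1 i2 n1 n2
    apply lipC ({W | r ≤ W.im} ∩ Metric.closedBall 0 (20*r)) r (by linarith) (by linarith)
    · exact (convex_halfSpace_im_ge r).inter (convex_closedBall _ _)
    · rintro W ⟨q1, q2⟩
      rw [mem_closedBall_zero_iff] at q2
      have q1' : r ≤ W.im := q1
      exact ⟨by linarith, q1'.trans ((le_abs_self _).trans (abs_im_le_norm W)), q2⟩
    · exact ⟨i1, by rwa [mem_closedBall_zero_iff]⟩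
    · exact ⟨i2, by rwa [mem_closedBall_zero_iff]⟩
  have lip2 : ∀ W1 W2 : ℂ, W1.re ≤ -r → W2.re ≤ -r → 0 ≤ W1.im → 0 ≤ W2.im → ‖W1‖ ≤ 20*r →
      ‖W2‖ ≤ 20*r → ‖κ W2 - κ W1‖ ≤ (3/2)/r * ‖W2 - W1‖ := by
    intro W1 W2 i1 i2 j1 j2 n1 n2
    apply lipC (({W | W.re ≤ -r} ∩ {W | 0 ≤ W.im}) ∩ Metric.closedBall 0 (20*r)) r
      (by linarith) (by linarith)
    · exact ((convex_halfSpace_re_le (-r)).inter (convex_halfSpace_im_ge 0)).inter
        (convex_closedBall _ _)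
    · rintro W ⟨⟨q1, q0⟩, q2⟩
      rw [mem_closedBall_zero_iff] at q2
      have q1' : W.re ≤ -r := q1
      exact ⟨q0, by linarith [(neg_le_abs W.re).trans (abs_re_le_norm W)], q2⟩
    · exact ⟨⟨i1, j1⟩, by rwa [mem_closedBall_zero_iff]⟩
    · exact ⟨⟨i2, j2⟩, by rwa [mem_closedBall_zero_iff]⟩
  have lip3 : ∀ W1 W2 : ℂ, 16 * r ≤ W1.re → 16 * r ≤ W2.re → 0 ≤ W1.im → 0 ≤ W2.im →
      ‖W1‖ ≤ 20*r → ‖W2‖ ≤ 20*r → ‖κ W2 - κ W1‖ ≤ (3/2)/(16*r) * ‖W2 - W1‖ := by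
    intro W1 W2 i1 i2 j1 j2 n1 n2
    apply lipC (({W | 16 * r ≤ W.re} ∩ {W | 0 ≤ W.im}) ∩ Metric.closedBall 0 (20*r)) (16*r)
      (by linarith) (by linarith)
    · exact ((convex_halfSpace_re_ge (16*r)).inter (convex_halfSpace_im_ge 0)).inter
        (convex_closedBall _ _)
    · rintro W ⟨⟨q1, q0⟩, q2⟩
      rw [mem_closedBall_zero_iff] at q2
      have q1' : 16 * r ≤ W.re := q1
      exact ⟨q0, by linarith [(le_abs_self W.re).trans (abs_re_le_norm W)], q2⟩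
    · exact ⟨⟨i1, j1⟩, by rwa [mem_closedBall_zero_iff]⟩
    · exact ⟨⟨i2, j2⟩, by rwa [mem_closedBall_zero_iff]⟩
  set M : ℂ → ℂ := fun W => exp (W + κ W) with hM
  set D : ℂ → ℂ := fun W => F W - M W with hDdef
  have hD : ∀ W : ℂ, 0 ≤ W.im → r/2 ≤ ‖W‖ → ‖W‖ ≤ 20 * r → HasDerivAt D (-(M W * κ' W)) W := by
    intro W q1 q2 q3
    have := (hF W q1 q2 q3).sub ((hasDerivAt_id W).add (hκ W q1 q2 q3)).cexp
    have e : -(M W * κ' W) = exp (W + κ W) - exp (W + κ W) * (1 + κ' W) := by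
      simp only [hM]; ring
    rw [e]
    exact this
  have normM : ∀ W, ‖M W‖ = Real.exp (W.re + (κ W).re) := by
    intro W
    simp only [hM, Complex.norm_exp, Complex.add_re]
  set k0 := (κ (r * I)).re with hk0
  have hr0 : 0 < r := by linarith
  -- the final small quantity
  have hsmall : Real.exp (3 - r) * (r + 8) ≤ 1/20 := by
    have h3 := Real.quadratic_le_exp_of_nonneg (x := r - 3) (by linarith)
    have h4 : 20 * (r + 8) ≤ Real.exp (r - 3) := by nlinarith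
    have h5 : Real.exp (3 - r) = (Real.exp (r - 3))⁻¹ := by rw [← Real.exp_neg]; ring_nf
    rw [h5, inv_mul_le_iff₀ (Real.exp_pos _)]
    linarith
  -- left vertical
  have hkL : ∀ y' ∈ Icc 0 y, ‖M (((-r:ℝ):ℂ) + y' * I)‖ ≤ Real.exp (3 - r) := by
    intro y' hy'
    rw [normM]
    apply Real.exp_le_exp.2
    have n1 : ∀ t ∈ Icc 0 y, ‖((-r:ℝ):ℂ) + t * I‖ ≤ 20 * r := by
      intro t ht
      refine (norm_le_add _ _).trans ?_
      rw [abs_neg, abs_of_pos hr0, abs_of_nonneg ht.1]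
      linarith [ht.2]
    have e1 := lip2 (((-r:ℝ):ℂ) + r * I) (((-r:ℝ):ℂ) + y' * I) (by simp) (by simp) (by simp; linarith)
      (by simp; exact hy'.1) (n1 r ⟨by linarith, by linarith⟩) (n1 y' hy')
    have e2 := lip1 ((r:ℂ) * I) (((-r:ℝ):ℂ) + r * I) (by simp) (by simp)
      (by simp [abs_of_pos hr0]; linarith) (n1 r ⟨by linarith, by linarith⟩)
    have e3 : ‖(((-r:ℝ):ℂ) + y' * I) - (((-r:ℝ):ℂ) + r * I)‖ ≤ r := by
      have : (((-r:ℝ):ℂ) + y' * I) - (((-r:ℝ):ℂ) + r * I) = ((y' - r : ℝ) : ℂ) * I := by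
        push_cast; ring
      rw [this, norm_mul, norm_I, mul_one, Complex.norm_real, Real.norm_eq_abs, abs_le]
      constructor <;> linarith [hy'.1, hy'.2]
    have e4 : ‖(((-r:ℝ):ℂ) + r * I) - (r:ℂ) * I‖ ≤ r := by
      have : (((-r:ℝ):ℂ) + r * I) - (r:ℂ) * I = ((-r : ℝ) : ℂ) := by
        push_cast; ring
      rw [this, Complex.norm_real, Real.norm_eq_abs, abs_neg, abs_of_pos hr0]
    have e5 : (3/2) / r * ‖(((-r:ℝ):ℂ) + y' * I) - (((-r:ℝ):ℂ) + r * I)‖ ≤ 3/2 := by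
      calc _ ≤ (3/2) / r * r := by gcongr
        _ = 3/2 := by field_simp
    have e6 : (3/2) / r * ‖(((-r:ℝ):ℂ) + r * I) - (r:ℂ) * I‖ ≤ 3/2 := by
      calc _ ≤ (3/2) / r * r := by gcongr
        _ = 3/2 := by field_simp
    have e7 := (abs_re_le_norm _).trans (e1.trans e5)
    have e8 := (abs_re_le_norm _).trans (e2.trans e6)
    rw [Complex.sub_re, abs_le] at e7 e8
    have : ((((-r:ℝ):ℂ) + y' * I)).re = -r := by simp
    rw [this]
    linarith [e7.1, e7.2, e8.1, e8.2]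
  have nL : ∀ t ∈ Icc 0 y, 0 ≤ (((-r:ℝ):ℂ) + t * I).im ∧ r/2 ≤ ‖((-r:ℝ):ℂ) + t * I‖ ∧
      ‖((-r:ℝ):ℂ) + t * I‖ ≤ 20 * r := by
    intro t ht
    refine ⟨by simp; exact ht.1, ?_, ?_⟩
    · have := norm_ge_re (-r) t
      rw [abs_neg, abs_of_pos hr0] at this
      linarith
    · refine (norm_le_add _ _).trans ?_
      rw [abs_neg, abs_of_pos hr0, abs_of_nonneg ht.1]
      linarith [ht.2]
  have hFL : ∀ y' ∈ Icc 0 y, ‖F (((-r:ℝ):ℂ) + y' * I) - a‖ ≤ Real.exp (3 - r) * y' := by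
    have := comp_ineq (a := 0) (b := y) (f := fun t => F (((-r:ℝ):ℂ) + t * I))
      (f' := fun t => M (((-r:ℝ):ℂ) + t * I) * I) (B := fun t => Real.exp (3 - r) * t)
      (B' := fun t => Real.exp (3 - r)) ?_ ?_ ?_
    · intro y' hy'
      have h := this y' hy'
      simpa [ha] using h
    · intro t ht
      obtain ⟨q1, q2, q3⟩ := nL t ht
      exact hd_v _ (hF _ q1 q2 q3)
    · intro t ht
      simpa using (hasDerivAt_id t).const_mul (Real.exp (3 - r))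
    · intro t ht
      rw [norm_mul, norm_I, mul_one]
      exact hkL t ht
  have seg1 : JoinedIn {W : ℂ | 0 ≤ W.im ∧ r/2 ≤ ‖W‖ ∧ ‖W‖ ≤ 20 * r ∧ a.re - 1 ≤ ‖F W‖}
      (((-r:ℝ):ℂ) + ((0:ℝ):ℂ) * I) (((-r:ℝ):ℂ) + y * I) := by
    apply jv (by linarith)
    intro t ht
    obtain ⟨q1, q2, q3⟩ := nL t ht
    refine ⟨q1, q2, q3, ?_⟩
    have e1 := hFL t ht
    have e2 : Real.exp (3 - r) * t ≤ Real.exp (3 - r) * (r + 8) := by
      gcongr
      linarith [ht.2]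
    have e3 := (abs_re_le_norm _).trans (e1.trans (e2.trans hsmall))
    rw [Complex.sub_re, abs_le] at e3
    have e4 := re_le_norm (F (((-r:ℝ):ℂ) + t * I))
    linarith [e3.1]
  have hDL : ‖D (((-r:ℝ):ℂ) + y * I) - a‖ ≤ 1/20 := by
    have e1 := hFL y ⟨by linarith, le_rfl⟩
    have e2 := hkL y ⟨by linarith, le_rfl⟩
    have e3 : D (((-r:ℝ):ℂ) + y * I) - a = (F (((-r:ℝ):ℂ) + y * I) - a) - M (((-r:ℝ):ℂ) + y * I) := by
      simp only [hDdef]; ring
    rw [e3]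
    refine (norm_sub_le _ _).trans ?_
    have e4 : Real.exp (3 - r) * y + Real.exp (3 - r) ≤ Real.exp (3 - r) * (r + 8) := by
      have := Real.exp_pos (3 - r)
      nlinarith
    linarith
  -- horizontal line
  have nH : ∀ w ∈ Icc (-r) (16*r), 0 ≤ ((w:ℂ) + y * I).im ∧ r ≤ ‖(w:ℂ) + y * I‖ ∧
      ‖(w:ℂ) + y * I‖ ≤ 20 * r := by
    intro w hw
    refine ⟨by simp; linarith, ?_, ?_⟩
    · have := norm_ge_im w y
      rw [abs_of_pos (by linarith)] at this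
      linarith
    · refine (norm_le_add _ _).trans ?_
      have : |w| ≤ 16 * r := abs_le.2 ⟨by linarith [hw.1], hw.2⟩
      rw [abs_of_pos (a := y) (by linarith)]
      linarith
  have hkd : ∀ w1 ∈ Icc (-r) (16*r), ∀ w2 ∈ Icc (-r) (16*r),
      ‖κ ((w2:ℂ) + y * I) - κ ((w1:ℂ) + y * I)‖ ≤ (3/2)/r * |w2 - w1| := by
    intro w1 h1 w2 h2
    have := lip1 ((w1:ℂ) + y * I) ((w2:ℂ) + y * I) (by simp; exact hy1) (by simp; exact hy1)
      (nH w1 h1).2.2 (nH w2 h2).2.2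
    have e : ((w2:ℂ) + y * I) - ((w1:ℂ) + y * I) = ((w2 - w1 : ℝ) : ℂ) := by push_cast; ring
    rwa [e, Complex.norm_real, Real.norm_eq_abs] at this
  have hky : ‖κ (((0:ℝ):ℂ) + y * I) - κ (r * I)‖ ≤ 0.0945 := by
    have := lip1 ((r:ℂ) * I) (((0:ℝ):ℂ) + y * I) (by simp) (by simp; exact hy1)
      (by simp [abs_of_pos hr0]; linarith) (nH 0 ⟨by linarith, by linarith⟩).2.2
    have e : (((0:ℝ):ℂ) + y * I) - (r:ℂ) * I = ((y - r : ℝ) : ℂ) * I := by push_cast; ring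
    rw [e, norm_mul, norm_I, mul_one, Complex.norm_real, Real.norm_eq_abs,
      abs_of_nonneg (by linarith)] at this
    refine this.trans ?_
    rw [div_mul_eq_mul_div, div_le_iff₀ hr0]
    linarith
  have hk2 : ∀ w ∈ Icc (-r) (16*r), ‖κ ((w:ℂ) + y * I) - κ (r * I)‖ ≤ (3/2)/r * |w| + 0.0945 := by
    intro w hw
    have e1 := hkd 0 ⟨by linarith, by linarith⟩ w hw
    rw [sub_zero] at e1
    calc ‖κ ((w:ℂ) + y * I) - κ (r * I)‖
        = ‖(κ ((w:ℂ) + y * I) - κ (((0:ℝ):ℂ) + y * I)) + (κ (((0:ℝ):ℂ) + y * I) - κ (r * I))‖ := by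
          ring_nf
      _ ≤ _ := norm_add_le _ _
      _ ≤ _ := by linarith
  set ν : ℝ → ℝ := fun w => ‖M ((w:ℂ) + y * I)‖ with hν
  have hν' : ∀ w : ℝ, ν w = Real.exp (w + (κ ((w:ℂ) + y * I)).re) := by
    intro w
    simp only [hν, normM]
    simp
  have hνpos : ∀ w, 0 < ν w := by intro w; rw [hν']; exact Real.exp_pos _
  have hc : (3/2)/r ≤ 0.015 := by
    rw [div_le_iff₀ hr0]
    linarith
  have hDH : ∀ w ∈ Icc (-r) (16*r), ‖D ((w:ℂ) + y * I) - a‖ ≤ 1/20 + ν w / 50 := by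
    have := comp_ineq (a := -r) (b := 16*r) (f := fun t : ℝ => D ((t:ℂ) + y * I))
      (f' := fun t : ℝ => -(M ((t:ℂ) + y * I) * κ' ((t:ℂ) + y * I)))
      (B := fun t => (1/50) * ν t)
      (B' := fun t => (1/50) * (ν t * (1 + (κ' ((t:ℂ) + y * I)).re))) ?_ ?_ ?_
    · intro w hw
      have h := this w hw
      have h3 : D ((w:ℂ) + y * I) - a = (D ((w:ℂ) + y * I) - D (((-r:ℝ):ℂ) + y * I)) +
        (D (((-r:ℝ):ℂ) + y * I) - a) := by ring
      rw [h3]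
      refine (norm_add_le _ _).trans ?_
      have := hνpos (-r)
      linarith
    · intro t ht
      obtain ⟨q1, q2, q3⟩ := nH t ht
      exact hd_h _ (hD _ q1 (by linarith) q3)
    · intro t ht
      obtain ⟨q1, q2, q3⟩ := nH t ht
      apply HasDerivAt.const_mul
      have e1 := hd_h y (hκ _ q1 (by linarith) q3)
      have e2 : HasDerivAt (fun t : ℝ => (κ ((t:ℂ) + y * I)).re) (κ' ((t:ℂ) + y * I)).re t :=
        Complex.reCLM.hasFDerivAt.comp_hasDerivAt t e1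
      have e3 := ((hasDerivAt_id t).add e2).exp
      have e4 : ν = fun w : ℝ => Real.exp (w + (κ ((w:ℂ) + y * I)).re) := funext hν'
      rw [e4]
      exact e3
    · intro t ht
      obtain ⟨q1, q2, q3⟩ := nH t ht
      rw [norm_neg, norm_mul]
      have e1 : ‖κ' ((t:ℂ) + y * I)‖ ≤ 0.015 := by
        refine (hκ' _ q1 (by linarith) q3).trans ?_
        refine le_trans ?_ hc
        gcongr
      have e2 := abs_re_le_norm (κ' ((t:ℂ) + y * I))
      rw [abs_le] at e2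
      have e3 := hνpos t
      have e4 : ν t * ‖κ' ((t:ℂ) + y * I)‖ ≤ ν t * 0.015 := by gcongr
      have e5 : ν t * 0.985 ≤ ν t * (1 + (κ' ((t:ℂ) + y * I)).re) := by
        gcongr
        linarith [e2.1]
      change ν t * ‖κ' ((t:ℂ) + y * I)‖ ≤ _
      linarith
  have hνbig : ∀ w ∈ Icc (-r) (16*r), r/8 ≤ w → 5.6 * (‖a‖ + 1) ≤ ν w := by
    intro w hw hw2
    have e1 := (abs_re_le_norm _).trans (hkd (r/8) ⟨by linarith, by linarith⟩ w hw)
    have e2 := (abs_re_le_norm _).trans (hk2 (r/8) ⟨by linarith, by linarith⟩)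
    rw [Complex.sub_re, abs_le] at e1 e2
    have e3 : (3/2)/r * |r/8| = 3/16 := by
      rw [abs_of_pos (by linarith)]; field_simp; norm_num
    have e4 : (3/2)/r * |w - r/8| ≤ 0.015 * (w - r/8) := by
      rw [abs_of_nonneg (by linarith)]
      gcongr
    have e5 : r/8 + k0 - 0.3 ≤ w + (κ ((w:ℂ) + y * I)).re := by
      rw [e3] at e2
      linarith [e1.1, e2.1]
    rw [hν']
    have e6 : Real.exp (r/8 + k0) * 0.7 ≤ Real.exp (r/8 + k0 - 0.3) := by
      have : Real.exp (r/8 + k0 - 0.3) = Real.exp (r/8 + k0) * Real.exp (-0.3) := by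
        rw [← Real.exp_add]; ring_nf
      rw [this]
      gcongr
      have := Real.add_one_le_exp (-0.3:ℝ)
      linarith
    have e7 := Real.exp_le_exp.2 e5
    linarith
  have seg2 : JoinedIn {W : ℂ | 0 ≤ W.im ∧ r/2 ≤ ‖W‖ ∧ ‖W‖ ≤ 20 * r ∧ a.re - 1 ≤ ‖F W‖}
      (((-r:ℝ):ℂ) + y * I) (((16 * r:ℝ):ℂ) + y * I) := by
    apply jh (by linarith)
    intro w hw
    obtain ⟨q1, q2, q3⟩ := nH w hw
    refine ⟨q1, by linarith, q3, ?_⟩
    have hd := hDH w hw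
    have hν0 := hνpos w
    have hFD : F ((w:ℂ) + y * I) = D ((w:ℂ) + y * I) + M ((w:ℂ) + y * I) := by
      simp only [hDdef]; ring
    have hk3 := hk2 w hw
    have hDre : a.re - (1/20 + ν w / 50) ≤ (D ((w:ℂ) + y * I)).re := by
      have := (abs_re_le_norm _).trans hd
      rw [Complex.sub_re, abs_le] at this
      linarith [this.1]
    rcases le_total w (-r/8) with hw1 | hw1
    · -- far left
      have e1 : ν w ≤ 1/10 := by
        rw [hν']
        have e2 := (abs_re_le_norm _).trans hk3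
        rw [Complex.sub_re, abs_le] at e2
        have e3 : (3/2)/r * |w| ≤ 3/2 := by
          have : |w| ≤ r := by rw [abs_of_nonpos (by linarith)]; linarith [hw.1]
          calc _ ≤ (3/2)/r * r := by gcongr
            _ = 3/2 := by field_simp
        have e4 : w + (κ ((w:ℂ) + y * I)).re ≤ -10 := by linarith [e2.2]
        refine (Real.exp_le_exp.2 e4).trans ?_
        rw [Real.exp_neg, one_div]
        apply inv_anti₀ (by norm_num)
        have := Real.add_one_le_exp (10:ℝ)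
        linarith
      have e5 : -ν w ≤ (M ((w:ℂ) + y * I)).re := by
        have := abs_re_le_norm (M ((w:ℂ) + y * I))
        rw [abs_le] at this
        exact this.1
      have e6 := re_le_norm (F ((w:ℂ) + y * I))
      rw [hFD, Complex.add_re, ← hFD] at e6
      linarith
    rcases le_total w (r/8) with hw2 | hw2
    · -- the critical zone: the phase is small
      have e1 : |w| ≤ r/8 := abs_le.2 ⟨by linarith, hw2⟩
      have e2 : ‖κ ((w:ℂ) + y * I) - κ (r * I)‖ ≤ 1 := by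
        refine hk3.trans ?_
        have : (3/2)/r * |w| ≤ (3/2)/r * (r/8) := by gcongr
        have e : (3/2)/r * (r/8) = 3/16 := by field_simp; norm_num
        linarith
      have e3 := (abs_im_le_norm _).trans e2
      rw [Complex.sub_im] at e3
      set d := (κ ((w:ℂ) + y * I)).im - (κ (r * I)).im with hddef
      have e4 : (M ((w:ℂ) + y * I)).re = ν w * Real.cos d := by
        have e5 : (M ((w:ℂ) + y * I)).re = Real.exp (w + (κ ((w:ℂ) + y * I)).re) *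
            Real.cos (y + (κ ((w:ℂ) + y * I)).im) := by
          simp only [hM]
          rw [Complex.exp_re]
          simp
        rw [e5, ← hν']
        congr 1
        have e6 : y + (κ ((w:ℂ) + y * I)).im = d + m * (2 * Real.pi) := by
          rw [← hm]; simp only [hddef]; ring
        rw [e6, Real.cos_add_int_mul_two_pi]
      have e7 : 1/2 ≤ Real.cos d := by
        have := Real.one_sub_sq_div_two_le_cos (x := d)
        have h8 : d^2 ≤ 1 := by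
          rw [← sq_abs]
          have := abs_nonneg d
          nlinarith
        linarith
      have e8 : ν w * (1/2) ≤ ν w * Real.cos d := by gcongr
      have e6 := re_le_norm (F ((w:ℂ) + y * I))
      rw [hFD, Complex.add_re, ← hFD, e4] at e6
      linarith
    · have e1 := hνbig w hw hw2
      have e6 : ν w ≤ ‖F ((w:ℂ) + y * I)‖ + ‖D ((w:ℂ) + y * I) - a‖ + ‖a‖ := by
        have : M ((w:ℂ) + y * I) = F ((w:ℂ) + y * I) - (D ((w:ℂ) + y * I) - a) - a := by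
          rw [hFD]; ring
        calc ν w = ‖F ((w:ℂ) + y * I) - (D ((w:ℂ) + y * I) - a) - a‖ := by rw [← this]
          _ ≤ _ := (norm_sub_le _ _).trans (by gcongr; exact norm_sub_le _ _)
      have e7 := re_le_norm a
      have := norm_nonneg a
      linarith
  -- right vertical
  have nR : ∀ t ∈ Icc 0 y, 0 ≤ (((16*r:ℝ):ℂ) + t * I).im ∧ 16 * r ≤ ‖((16*r:ℝ):ℂ) + t * I‖ ∧
      ‖((16*r:ℝ):ℂ) + t * I‖ ≤ 20 * r := by
    intro t ht
    refine ⟨by simp; exact ht.1, ?_, ?_⟩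
    · have := norm_ge_re (16*r) t
      rw [abs_of_pos (by linarith)] at this
      exact this
    · refine (norm_le_add _ _).trans ?_
      rw [abs_of_pos (by linarith), abs_of_nonneg ht.1]
      linarith [ht.2]
  set νs := ν (16*r) with hνs
  have hνs0 : 0 < νs := hνpos _
  have hyr : (3/2)/(16*r) * y ≤ 1/10 := by
    rw [div_mul_eq_mul_div, div_le_iff₀ (by linarith)]
    linarith
  have hkR : ∀ y' ∈ Icc 0 y, ‖κ (((16*r:ℝ):ℂ) + y' * I) - κ (((16*r:ℝ):ℂ) + y * I)‖ ≤ 1/10 := by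
    intro y' hy'
    have e1 := lip3 (((16*r:ℝ):ℂ) + y * I) (((16*r:ℝ):ℂ) + y' * I) (by simp) (by simp)
      (by simp; linarith) (by simp; exact hy'.1) (nR y ⟨by linarith, le_rfl⟩).2.2 (nR y' hy').2.2
    have e3 : ‖(((16*r:ℝ):ℂ) + y' * I) - (((16*r:ℝ):ℂ) + y * I)‖ ≤ y := by
      have : (((16*r:ℝ):ℂ) + y' * I) - (((16*r:ℝ):ℂ) + y * I) = ((y' - y : ℝ) : ℂ) * I := by
        push_cast; ring
      rw [this, norm_mul, norm_I, mul_one, Complex.norm_real, Real.norm_eq_abs, abs_le]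
      constructor <;> linarith [hy'.1, hy'.2]
    refine e1.trans (le_trans ?_ hyr)
    gcongr
  have hexp1 : (0.9:ℝ) ≤ Real.exp (-(1/10)) := by
    have := Real.add_one_le_exp (-(1/10):ℝ)
    linarith
  have hexp2 : Real.exp (1/10) ≤ 1.12 := by
    have e : Real.exp (1/10) = (Real.exp (-(1/10)))⁻¹ := by rw [Real.exp_neg, inv_inv]
    rw [e]
    calc (Real.exp (-(1/10)))⁻¹ ≤ (0.9:ℝ)⁻¹ := inv_anti₀ (by norm_num) hexp1
      _ ≤ 1.12 := by norm_num
  have hMR : ∀ y' ∈ Icc 0 y, 0.9 * νs ≤ ‖M (((16*r:ℝ):ℂ) + y' * I)‖ ∧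
      ‖M (((16*r:ℝ):ℂ) + y' * I)‖ ≤ 1.12 * νs := by
    intro y' hy'
    have e1 := (abs_re_le_norm _).trans (hkR y' hy')
    rw [Complex.sub_re, abs_le] at e1
    have e2 : ‖M (((16*r:ℝ):ℂ) + y' * I)‖ = Real.exp ((κ (((16*r:ℝ):ℂ) + y' * I)).re -
        (κ (((16*r:ℝ):ℂ) + y * I)).re) * νs := by
      rw [hνs, hν', normM, ← Real.exp_add]
      congr 1
      simp
      ring
    rw [e2]
    constructor
    · gcongr
      exact hexp1.trans (Real.exp_le_exp.2 (by linarith [e1.1]))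
    · gcongr
      exact le_trans (Real.exp_le_exp.2 (by linarith [e1.2])) hexp2
  have hDR : ∀ y' ∈ Icc 0 y, ‖D (((16*r:ℝ):ℂ) + y * I) - D (((16*r:ℝ):ℂ) + y' * I)‖ ≤ 0.112 * νs := by
    intro y' hy'
    have := comp_ineq (a := y') (b := y) (f := fun t : ℝ => D (((16*r:ℝ):ℂ) + t * I))
      (f' := fun t : ℝ => -(M (((16*r:ℝ):ℂ) + t * I) * κ' (((16*r:ℝ):ℂ) + t * I)) * I)
      (B := fun t => (1.12 * νs * ((3/2)/(16*r))) * t)
      (B' := fun t => (1.12 * νs * ((3/2)/(16*r)))) ?_ ?_ ?_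
    · have h := this y ⟨hy'.2, le_rfl⟩
      refine h.trans ?_
      have e : 1.12 * νs * ((3/2)/(16*r)) * y - 1.12 * νs * ((3/2)/(16*r)) * y' ≤
          1.12 * νs * ((3/2)/(16*r) * y) := by
        have : 0 ≤ 1.12 * νs * ((3/2)/(16*r)) * y' := by
          have := hy'.1
          positivity
        linarith
      refine e.trans ?_
      calc 1.12 * νs * ((3/2)/(16*r) * y) ≤ 1.12 * νs * (1/10) := by gcongr
        _ = _ := by ring
    · intro t ht
      obtain ⟨q1, q2, q3⟩ := nR t ⟨hy'.1.trans ht.1, ht.2⟩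
      exact hd_v _ (hD _ q1 (by linarith) q3)
    · intro t ht
      simpa using (hasDerivAt_id t).const_mul (1.12 * νs * ((3/2)/(16*r)))
    · intro t ht
      have ht' : t ∈ Icc 0 y := ⟨hy'.1.trans ht.1, ht.2⟩
      obtain ⟨q1, q2, q3⟩ := nR t ht'
      rw [norm_mul, norm_I, mul_one, norm_neg, norm_mul]
      apply mul_le_mul (hMR t ht').2 _ (norm_nonneg _) (by positivity)
      refine (hκ' _ q1 (by linarith) q3).trans ?_
      gcongr
  have seg3 : JoinedIn {W : ℂ | 0 ≤ W.im ∧ r/2 ≤ ‖W‖ ∧ ‖W‖ ≤ 20 * r ∧ a.re - 1 ≤ ‖F W‖}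
      (((16*r:ℝ):ℂ) + ((0:ℝ):ℂ) * I) (((16*r:ℝ):ℂ) + y * I) := by
    apply jv (by linarith)
    intro t ht
    obtain ⟨q1, q2, q3⟩ := nR t ht
    refine ⟨q1, by linarith, q3, ?_⟩
    have e1 := hνbig (16*r) ⟨by linarith, le_rfl⟩ (by linarith)
    have e2 := hDH (16*r) ⟨by linarith, le_rfl⟩
    have e3 := hDR t ht
    have e4 := (hMR t ht).1
    have e6 : ‖M (((16*r:ℝ):ℂ) + t * I)‖ ≤ ‖F (((16*r:ℝ):ℂ) + t * I)‖ +
        ‖D (((16*r:ℝ):ℂ) + y * I) - a‖ + ‖D (((16*r:ℝ):ℂ) + y * I) - D (((16*r:ℝ):ℂ) + t * I)‖ + ‖a‖ := by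
      have : M (((16*r:ℝ):ℂ) + t * I) = F (((16*r:ℝ):ℂ) + t * I) - (D (((16*r:ℝ):ℂ) + y * I) - a)
          + (D (((16*r:ℝ):ℂ) + y * I) - D (((16*r:ℝ):ℂ) + t * I)) - a := by
        simp only [hDdef]; ring
      calc ‖M (((16*r:ℝ):ℂ) + t * I)‖ = ‖F (((16*r:ℝ):ℂ) + t * I) - (D (((16*r:ℝ):ℂ) + y * I) - a)
          + (D (((16*r:ℝ):ℂ) + y * I) - D (((16*r:ℝ):ℂ) + t * I)) - a‖ := by rw [← this]
        _ ≤ _ := (norm_sub_le _ _).trans (by
            gcongr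
            refine (norm_add_le _ _).trans ?_
            gcongr
            exact norm_sub_le _ _)
    have e7 := re_le_norm a
    have := norm_nonneg a
    linarith
  have h := (seg1.trans seg2).trans seg3.symm
  simpa using h

end Pool.Agent.H343.M
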