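import Pool.Agent.Helper343.M2

set_option autoImplicit false
set_option maxHeartbeats 4000000
open Filter Topology Complex MeasureTheory Set

namespace Pool.Agent.H343.M

theorem lemX_lower {r : ℝ} (hr : 100 ≤ r) {F κ κ' : ℂ → ℂ}
    (hF : ∀ W : ℂ, W.im ≤ 0 → r/2 ≤ ‖W‖ → ‖W‖ ≤ 20 * r → HasDerivAt F (exp (W + κ W)) W)
    (hκ : ∀ W : ℂ, W.im ≤ 0 → r/2 ≤ ‖W‖ → ‖W‖ ≤ 20 * r → HasDerivAt κ (κ' W) W)
    (hκ' : ∀ W : ℂ, W.im ≤ 0 → r/2 ≤ ‖W‖ → ‖W‖ ≤ 20 * r → ‖κ' W‖ ≤ (3/2) / ‖W‖)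
    (h1 : (κ (-(r * I))).re ≤ 0)
    (h2 : 8 * (‖F (-r)‖ + 1) ≤ Real.exp (r/8 + (κ (-(r * I))).re)) :
    JoinedIn {W : ℂ | W.im ≤ 0 ∧ r/2 ≤ ‖W‖ ∧ ‖W‖ ≤ 20 * r ∧ (F (-r)).re - 1 ≤ ‖F W‖}
      (-r) (16 * r) := by
  have hc : ∀ {f : ℂ → ℂ} {f' W : ℂ}, HasDerivAt f f' (starRingEnd ℂ W) →
      HasDerivAt (fun z => starRingEnd ℂ (f (starRingEnd ℂ z))) (starRingEnd ℂ f') W := by
    intro f f' W h
    have := h.conj_conj
    rw [Complex.conj_conj] at this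
    exact this
  have e1 : (starRingEnd ℂ) (-(r:ℂ)) = -r := by rw [map_neg, conj_ofReal]
  have e2 : (starRingEnd ℂ) ((r:ℂ) * I) = -(r * I) := by rw [map_mul, conj_ofReal, conj_I]; ring
  have key := lemX hr (F := fun z => starRingEnd ℂ (F (starRingEnd ℂ z)))
    (κ := fun z => starRingEnd ℂ (κ (starRingEnd ℂ z)))
    (κ' := fun z => starRingEnd ℂ (κ' (starRingEnd ℂ z))) ?_ ?_ ?_ ?_ ?_
  · have := key.map Complex.continuous_conj
    rw [e1] at this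
    have e3 : (starRingEnd ℂ) (16 * (r:ℂ)) = 16 * r := by
      rw [map_mul, conj_ofReal, Complex.conj_ofNat]
    rw [e3] at this
    apply this.mono
    rintro _ ⟨W, ⟨q1, q2, q3, q4⟩, rfl⟩
    simp only [Complex.conj_re, RCLike.norm_conj] at q4
    refine ⟨by simpa using q1, ?_, ?_, ?_⟩
    · rw [RCLike.norm_conj]; exact q2
    · rw [RCLike.norm_conj]; exact q3
    · exact q4
  · intro W q1 q2 q3
    have h := hc (hF (starRingEnd ℂ W) (by simpa using q1) (by rwa [RCLike.norm_conj])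
      (by rwa [RCLike.norm_conj]))
    rw [← Complex.exp_conj, map_add, Complex.conj_conj] at h
    exact h
  · intro W q1 q2 q3
    exact hc (hκ (starRingEnd ℂ W) (by simpa using q1) (by rwa [RCLike.norm_conj])
      (by rwa [RCLike.norm_conj]))
  · intro W q1 q2 q3
    have := hκ' (starRingEnd ℂ W) (by simpa using q1) (by rwa [RCLike.norm_conj])
      (by rwa [RCLike.norm_conj])
    rw [RCLike.norm_conj] at this ⊢
    exact this
  · simp only [e2, Complex.conj_re]; exact h1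
  · simp only [e2, e1, Complex.conj_re, RCLike.norm_conj]; exact h2

lemma log_16_lt : Real.log 16 < 3 := by
  rw [Real.log_lt_iff_lt_exp (by norm_num)]
  have := Real.exp_one_gt_d9
  have h : Real.exp 3 = Real.exp 1 ^ 3 := by rw [← Real.exp_nat_mul]; norm_num
  rw [h]
  calc (16:ℝ) < 2.7^3 := by norm_num
    _ ≤ _ := by gcongr; linarith

lemma log_20_lt : Real.log 20 < 3 := by
  rw [Real.log_lt_iff_lt_exp (by norm_num)]
  have := Real.exp_one_gt_d9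
  have h : Real.exp 3 = Real.exp 1 ^ 3 := by rw [← Real.exp_nat_mul]; norm_num
  rw [h]
  calc (20:ℝ) < 2.718^3 := by norm_num
    _ ≤ _ := by gcongr; linarith

/-- The upper step of the staircase. -/
lemma stair_up {ρ K : ℝ} {F lam lam' : ℂ → ℂ} {k : ℕ}
    (hF : ∀ τ : ℂ, ρ - 1 ≤ τ.re → τ.re ≤ ρ + 3 → 2 * k * Real.pi ≤ τ.im → τ.im ≤ (2 * k + 1) * Real.pi →
      HasDerivAt F (exp (exp τ + lam τ)) τ)
    (hl : ∀ τ : ℂ, ρ - 1 ≤ τ.re → τ.re ≤ ρ + 3 → 2 * k * Real.pi ≤ τ.im → τ.im ≤ (2 * k + 1) * Real.pi →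
      HasDerivAt lam (lam' τ) τ)
    (hl' : ∀ τ : ℂ, ρ - 1 ≤ τ.re → τ.re ≤ ρ + 3 → 2 * k * Real.pi ≤ τ.im → τ.im ≤ (2 * k + 1) * Real.pi → ‖lam' τ‖ ≤ 1/2)
    (hl1 : ∀ τ : ℂ, ρ - 1 ≤ τ.re → τ.re ≤ ρ + 3 → 2 * k * Real.pi ≤ τ.im → τ.im ≤ (2 * k + 1) * Real.pi →
      -ρ ≤ (lam τ).re ∧ (lam τ).re ≤ 0)
    (h100 : 100 ≤ Real.exp ρ) (hρ : 0 ≤ ρ)
    (hK : 8 * (K + 1) ≤ Real.exp (Real.exp ρ / 8 - 2 * ρ))
    (hFK : ‖F (ρ + (2 * k + 1) * Real.pi * I)‖ ≤ K) :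
    JoinedIn {τ : ℂ | ρ - 1 ≤ τ.re ∧ τ.re ≤ ρ + 3 ∧ 2 * k * Real.pi ≤ τ.im ∧
      τ.im ≤ (2 * k + 1) * Real.pi ∧
      (F (ρ + (2 * k + 1) * Real.pi * I)).re - 1 ≤ ‖F τ‖}
      (ρ + (2 * k + 1) * Real.pi * I) ((ρ + Real.log 16 : ℝ) + (2 * k) * Real.pi * I) := by
  set r := Real.exp ρ with hr
  have hr0 : 0 < r := Real.exp_pos _
  have hpi := Real.pi_pos
  set τ : ℂ → ℂ := fun W => log (-I * W) + (Real.pi / 2) * I + (2 * k) * Real.pi * I with hτ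
  have hslit : ∀ W : ℂ, 0 ≤ W.im → r/2 ≤ ‖W‖ → -I * W ∈ slitPlane := by
    intro W h1 h2
    rw [Complex.mem_slitPlane_iff]
    simp only [neg_mul, neg_re, mul_re, I_re, zero_mul, I_im, one_mul, zero_sub, neg_neg, neg_im,
      mul_im, zero_add]
    rcases h1.lt_or_eq with h | h
    · left; exact h
    · right
      intro h3
      have : W = 0 := by
        apply Complex.ext
        · simp; linarith
        · simp; exact h.symm
      rw [this, norm_zero] at h2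
      linarith
  have hτd : ∀ W : ℂ, 0 ≤ W.im → r/2 ≤ ‖W‖ → HasDerivAt τ (1/W) W := by
    intro W h1 h2
    have h3 := (((hasDerivAt_id W).const_mul (-I)).clog (hslit W h1 h2)).add_const
      ((Real.pi / 2) * I) |>.add_const ((2 * k) * Real.pi * I)
    have h4 : W ≠ 0 := by
      rintro rfl
      rw [norm_zero] at h2
      linarith
    have e : 1 / W = (-I * 1) / (-I * W) := by
      have := I_ne_zero
      field_simp
    rw [e]
    exact h3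
  have hτe : ∀ W : ℂ, 0 ≤ W.im → r/2 ≤ ‖W‖ → exp (τ W) = W := by
    intro W h1 h2
    simp only [hτ]
    rw [Complex.exp_add, Complex.exp_add, Complex.exp_log (Complex.slitPlane_ne_zero (hslit W h1 h2))]
    rw [Complex.exp_pi_div_two_mul_I]
    have : ((2 * k) * Real.pi * I : ℂ) = (k:ℂ) * (2 * Real.pi * I) := by ring
    rw [this, Complex.exp_nat_mul_two_pi_mul_I]
    linear_combination (-W) * Complex.I_sq
  have hτre : ∀ W : ℂ, (τ W).re = Real.log ‖W‖ := by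
    intro W
    simp [hτ, Complex.log_re]
  have hτre2 : ∀ W : ℂ, r/2 ≤ ‖W‖ → ‖W‖ ≤ 20 * r → ρ - 1 ≤ (τ W).re ∧ (τ W).re ≤ ρ + 3 := by
    intro W h2 h3
    rw [hτre]
    have hρr : Real.log r = ρ := Real.log_exp _
    have l2 := Real.log_two_lt_d9
    constructor
    · have := Real.log_le_log (by positivity) h2
      rw [Real.log_div hr0.ne' (by norm_num), hρr] at this
      linarith
    · have := Real.log_le_log (by linarith) h3
      rw [Real.log_mul (by norm_num) hr0.ne', hρr] at this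
      linarith [log_20_lt]
  have hτim : ∀ W : ℂ, 0 ≤ W.im → 2 * k * Real.pi ≤ (τ W).im ∧
      (τ W).im ≤ (2 * k + 1) * Real.pi := by
    intro W h1
    have h2 : |arg (-I * W)| ≤ Real.pi / 2 := by
      rw [Complex.abs_arg_le_pi_div_two_iff]
      simpa using h1
    rw [abs_le] at h2
    have h3 : (τ W).im = arg (-I * W) + Real.pi / 2 + 2 * k * Real.pi := by
      simp [hτ, Complex.log_im]
    rw [h3]
    constructor
    · linarith [h2.1]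
    · linarith [h2.2]
  have hτneg : τ (-r) = ρ + (2 * k + 1) * Real.pi * I := by
    simp only [hτ]
    have e : -I * (-(r:ℂ)) = exp (ρ + (Real.pi/2) * I) := by
      rw [Complex.exp_add, Complex.exp_pi_div_two_mul_I, hr]
      push_cast
      ring
    rw [e, Complex.log_exp]
    · ring
    · simp; linarith
    · simp; linarith
  have hτpos : τ (16 * r) = (ρ + Real.log 16 : ℝ) + (2 * k) * Real.pi * I := by
    simp only [hτ]
    have e : -I * (16 * (r:ℂ)) = exp ((ρ + Real.log 16 : ℝ) + (-(Real.pi/2)) * I) := by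
      rw [Complex.exp_add, ← Complex.ofReal_exp, Real.exp_add, Real.exp_log (by norm_num), ← hr]
      have : exp (-(Real.pi/2) * I) = -I := by
        rw [neg_mul, Complex.exp_neg, Complex.exp_pi_div_two_mul_I, Complex.inv_I]
      rw [this]
      push_cast
      ring
    have him : ((((ρ + Real.log 16 : ℝ):ℂ)) + (-(Real.pi/2)) * I).im = -(Real.pi/2) := by
      rw [Complex.add_im, Complex.ofReal_im]; simp
    rw [e, Complex.log_exp]
    · push_cast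
      ring
    · rw [him]; linarith
    · rw [him]; linarith
  have hτI : τ (r * I) = ρ + (2 * k + 1/2) * Real.pi * I := by
    simp only [hτ]
    have e : -I * ((r:ℂ) * I) = exp (ρ:ℂ) := by
      rw [← Complex.ofReal_exp, ← hr]
      linear_combination (-(r:ℂ)) * Complex.I_sq
    rw [e, Complex.log_exp]
    · ring
    · simp; linarith
    · simp; linarith
  have key := lemX (r := r) h100 (F := fun W => F (τ W)) (κ := fun W => lam (τ W) - τ W)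
    (κ' := fun W => (lam' (τ W) - 1) / W) ?_ ?_ ?_ ?_ ?_
  · have hcont : ContinuousOn τ {W : ℂ | 0 ≤ W.im ∧ r/2 ≤ ‖W‖ ∧ ‖W‖ ≤ 20 * r ∧
        (F (τ (-r))).re - 1 ≤ ‖F (τ W)‖} := by
      intro W hW
      exact (hτd W hW.1 hW.2.1).continuousAt.continuousWithinAt
    have h := key.map_continuousOn hcont
    rw [hτneg, hτpos] at h
    apply h.mono
    rintro _ ⟨W, ⟨q1, q2, q3, q4⟩, rfl⟩
    obtain ⟨p1, p2⟩ := hτre2 W q2 q3
    obtain ⟨p3, p4⟩ := hτim W q1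
    exact ⟨p1, p2, p3, p4, q4⟩
  · intro W q1 q2 q3
    obtain ⟨p1, p2⟩ := hτre2 W q2 q3
    obtain ⟨p3, p4⟩ := hτim W q1
    have h1 := (hF _ p1 p2 p3 p4).comp W (hτd W q1 q2)
    have hW : W ≠ 0 := by
      rintro rfl
      rw [norm_zero] at q2
      linarith
    have e : exp (W + (lam (τ W) - τ W)) = exp (exp (τ W) + lam (τ W)) * (1/W) := by
      have h2 : exp (τ W) = W := hτe W q1 q2
      rw [h2, add_sub, Complex.exp_sub, h2]
      ring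
    rw [e]
    exact h1
  · intro W q1 q2 q3
    obtain ⟨p1, p2⟩ := hτre2 W q2 q3
    obtain ⟨p3, p4⟩ := hτim W q1
    have h1 := ((hl _ p1 p2 p3 p4).comp W (hτd W q1 q2)).sub (hτd W q1 q2)
    have e : (lam' (τ W) - 1) / W = lam' (τ W) * (1/W) - 1/W := by ring
    rw [e]
    exact h1
  · intro W q1 q2 q3
    obtain ⟨p1, p2⟩ := hτre2 W q2 q3
    obtain ⟨p3, p4⟩ := hτim W q1
    rw [norm_div]
    gcongr
    calc ‖lam' (τ W) - 1‖ ≤ ‖lam' (τ W)‖ + ‖(1:ℂ)‖ := norm_sub_le _ _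
      _ ≤ 1/2 + 1 := by rw [norm_one]; gcongr; exact hl' _ p1 p2 p3 p4
      _ = 3/2 := by norm_num
  · obtain ⟨p1, p2⟩ := hτre2 (r * I) (by simp [abs_of_pos hr0]; linarith) (by simp [abs_of_pos hr0]; linarith)
    obtain ⟨p3, p4⟩ := hτim (r * I) (by simp; exact hr0.le)
    have := (hl1 _ p1 p2 p3 p4).2
    have h4 : (τ (r * I)).re = ρ := by rw [hτI]; simp
    rw [Complex.sub_re, h4]
    linarith
  · obtain ⟨p1, p2⟩ := hτre2 (r * I) (by simp [abs_of_pos hr0]; linarith) (by simp [abs_of_pos hr0]; linarith)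
    obtain ⟨p3, p4⟩ := hτim (r * I) (by simp; exact hr0.le)
    have h3 := (hl1 _ p1 p2 p3 p4).1
    rw [Complex.sub_re]
    have h4 : (τ (r * I)).re = ρ := by rw [hτI]; simp
    have h5 : F (τ (-r)) = F (ρ + (2 * k + 1) * Real.pi * I) := by rw [hτneg]
    rw [h5, h4]
    calc 8 * (‖F (ρ + (2 * k + 1) * Real.pi * I)‖ + 1) ≤ 8 * (K + 1) := by gcongr
      _ ≤ _ := hK
      _ ≤ _ := by
        apply Real.exp_le_exp.2
        linarith

/-- The lower step of the staircase. -/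
lemma stair_down {ρ K : ℝ} {F lam lam' : ℂ → ℂ} {k : ℕ}
    (hF : ∀ τ : ℂ, ρ - 1 ≤ τ.re → τ.re ≤ ρ + 3 → (2 * k - 1) * Real.pi ≤ τ.im →
      τ.im ≤ 2 * k * Real.pi → HasDerivAt F (exp (exp τ + lam τ)) τ)
    (hl : ∀ τ : ℂ, ρ - 1 ≤ τ.re → τ.re ≤ ρ + 3 → (2 * k - 1) * Real.pi ≤ τ.im →
      τ.im ≤ 2 * k * Real.pi → HasDerivAt lam (lam' τ) τ)
    (hl' : ∀ τ : ℂ, ρ - 1 ≤ τ.re → τ.re ≤ ρ + 3 → (2 * k - 1) * Real.pi ≤ τ.im →
      τ.im ≤ 2 * k * Real.pi → ‖lam' τ‖ ≤ 1/2)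
    (hl1 : ∀ τ : ℂ, ρ - 1 ≤ τ.re → τ.re ≤ ρ + 3 → (2 * k - 1) * Real.pi ≤ τ.im →
      τ.im ≤ 2 * k * Real.pi → -ρ ≤ (lam τ).re ∧ (lam τ).re ≤ 0)
    (h100 : 100 ≤ Real.exp ρ) (hρ : 0 ≤ ρ)
    (hK : 8 * (K + 1) ≤ Real.exp (Real.exp ρ / 8 - 2 * ρ))
    (hFK : ‖F (ρ + (2 * k - 1) * Real.pi * I)‖ ≤ K) :
    JoinedIn {τ : ℂ | ρ - 1 ≤ τ.re ∧ τ.re ≤ ρ + 3 ∧ (2 * k - 1) * Real.pi ≤ τ.im ∧
      τ.im ≤ 2 * k * Real.pi ∧
      (F (ρ + (2 * k - 1) * Real.pi * I)).re - 1 ≤ ‖F τ‖}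
      (ρ + (2 * k - 1) * Real.pi * I) ((ρ + Real.log 16 : ℝ) + (2 * k) * Real.pi * I) := by
  set σ : ℂ → ℂ := fun τ => starRingEnd ℂ τ + 4 * k * Real.pi * I with hσ
  have hc : ∀ {f : ℂ → ℂ} {f' W : ℂ}, HasDerivAt f f' (σ W) →
      HasDerivAt (fun z => starRingEnd ℂ (f (σ z))) (starRingEnd ℂ f') W := by
    intro f f' W h
    have h2 : HasDerivAt (fun z => f (z + 4 * k * Real.pi * I)) f' (starRingEnd ℂ W) :=
      HasDerivAt.comp_add_const (starRingEnd ℂ W) (4 * k * Real.pi * I) h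
    have := h2.conj_conj
    rw [Complex.conj_conj] at this
    exact this
  have hre : ∀ τ : ℂ, (σ τ).re = τ.re := by intro τ; simp [hσ]
  have him : ∀ τ : ℂ, (σ τ).im = 4 * k * Real.pi - τ.im := by intro τ; simp [hσ]; ring
  have hs1 : σ (ρ + (2 * k + 1) * Real.pi * I) = ρ + (2 * k - 1) * Real.pi * I := by
    apply Complex.ext
    · rw [hre]; simp
    · rw [him]; simp; ring
  have hs2 : σ ((ρ + Real.log 16 : ℝ) + (2 * k) * Real.pi * I) =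
      ((ρ + Real.log 16 : ℝ) + (2 * k) * Real.pi * I) := by
    apply Complex.ext
    · rw [hre]
    · rw [him, Complex.add_im, Complex.ofReal_im]; simp; ring
  have key := stair_up (ρ := ρ) (K := K) (k := k) (F := fun z => starRingEnd ℂ (F (σ z)))
    (lam := fun z => starRingEnd ℂ (lam (σ z)))
    (lam' := fun z => starRingEnd ℂ (lam' (σ z))) ?_ ?_ ?_ ?_ h100 hρ hK ?_
  · have hcont : Continuous σ := by
      have := Complex.continuous_conj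
      simp only [hσ]
      fun_prop
    have := key.map hcont
    rw [hs1, hs2] at this
    apply this.mono
    rintro _ ⟨W, ⟨q1, q2, q3, q4, q5⟩, rfl⟩
    simp only [Complex.conj_re, RCLike.norm_conj] at q5
    refine ⟨by rw [hre]; exact q1, by rw [hre]; exact q2, by rw [him]; linarith,
      by rw [him]; linarith, q5⟩
  · intro τ q1 q2 q3 q4
    have h := hc (hF (σ τ) (by rw [hre]; exact q1) (by rw [hre]; exact q2) (by rw [him]; linarith)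
      (by rw [him]; linarith))
    have e : exp (σ τ) = exp (starRingEnd ℂ τ) := by
      simp only [hσ]
      have : (4 * k * Real.pi * I : ℂ) = ((2 * k : ℕ):ℂ) * (2 * Real.pi * I) := by push_cast; ring
      rw [Complex.exp_add, this, Complex.exp_nat_mul_two_pi_mul_I, mul_one]
    rw [e, ← Complex.exp_conj, map_add, ← Complex.exp_conj, Complex.conj_conj] at h
    exact h
  · intro τ q1 q2 q3 q4
    exact hc (hl (σ τ) (by rw [hre]; exact q1) (by rw [hre]; exact q2) (by rw [him]; linarith)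
      (by rw [him]; linarith))
  · intro τ q1 q2 q3 q4
    have := hl' (σ τ) (by rw [hre]; exact q1) (by rw [hre]; exact q2) (by rw [him]; linarith)
      (by rw [him]; linarith)
    rw [RCLike.norm_conj]
    exact this
  · intro τ q1 q2 q3 q4
    have := hl1 (σ τ) (by rw [hre]; exact q1) (by rw [hre]; exact q2) (by rw [him]; linarith)
      (by rw [him]; linarith)
    simp only [Complex.conj_re]
    exact this
  · rw [RCLike.norm_conj, hs1]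
    exact hFK

/-- The whole staircase. -/
lemma stair {ρ K R : ℝ} {F lam lam' : ℂ → ℂ} (k : ℕ)
    (hF : ∀ τ : ℂ, ρ - 1 ≤ τ.re → τ.re ≤ ρ + 3 → 0 ≤ τ.im → τ.im ≤ (2 * k + 1) * Real.pi →
      HasDerivAt F (exp (exp τ + lam τ)) τ)
    (hl : ∀ τ : ℂ, ρ - 1 ≤ τ.re → τ.re ≤ ρ + 3 → 0 ≤ τ.im → τ.im ≤ (2 * k + 1) * Real.pi →
      HasDerivAt lam (lam' τ) τ)
    (hl' : ∀ τ : ℂ, ρ - 1 ≤ τ.re → τ.re ≤ ρ + 3 → 0 ≤ τ.im → τ.im ≤ (2 * k + 1) * Real.pi →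
      ‖lam' τ‖ ≤ 1/2)
    (hl1 : ∀ τ : ℂ, ρ - 1 ≤ τ.re → τ.re ≤ ρ + 3 → 0 ≤ τ.im → τ.im ≤ (2 * k + 1) * Real.pi →
      -ρ ≤ (lam τ).re ∧ (lam τ).re ≤ 0)
    (h100 : 100 ≤ Real.exp ρ) (hρ : 0 ≤ ρ)
    (hK : 8 * (K + 1) ≤ Real.exp (Real.exp ρ / 8 - 2 * ρ))
    (hFK : ∀ j : ℕ, j ≤ k → ‖F (ρ + (2 * j + 1) * Real.pi * I)‖ ≤ K ∧
      R + 1 ≤ (F (ρ + (2 * j + 1) * Real.pi * I)).re) :
    JoinedIn {τ : ℂ | ρ - 1 ≤ τ.re ∧ τ.re ≤ ρ + 3 ∧ 0 ≤ τ.im ∧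
      τ.im ≤ (2 * k + 1) * Real.pi ∧ R ≤ ‖F τ‖}
      (ρ + (2 * k + 1) * Real.pi * I) ((ρ + Real.log 16 : ℝ)) := by
  have hpi := Real.pi_pos
  have up : ∀ j : ℕ, j ≤ k → JoinedIn {τ : ℂ | ρ - 1 ≤ τ.re ∧ τ.re ≤ ρ + 3 ∧ 0 ≤ τ.im ∧
      τ.im ≤ (2 * k + 1) * Real.pi ∧ R ≤ ‖F τ‖}
      (ρ + (2 * j + 1) * Real.pi * I) ((ρ + Real.log 16 : ℝ) + (2 * j) * Real.pi * I) := by
    intro j hj
    have hjk : (j:ℝ) ≤ k := by exact_mod_cast hj
    have hj0 : (0:ℝ) ≤ j := Nat.cast_nonneg _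
    have b1 : ∀ t : ℝ, 2 * j * Real.pi ≤ t → 0 ≤ t := fun t ht => le_trans (by positivity) ht
    have b2 : ∀ t : ℝ, t ≤ (2 * j + 1) * Real.pi → t ≤ (2 * k + 1) * Real.pi :=
      fun t ht => ht.trans (by gcongr)
    have := stair_up (ρ := ρ) (K := K) (k := j) (F := F) (lam := lam) (lam' := lam')
      (fun τ q1 q2 q3 q4 => hF τ q1 q2 (b1 _ q3) (b2 _ q4))
      (fun τ q1 q2 q3 q4 => hl τ q1 q2 (b1 _ q3) (b2 _ q4))
      (fun τ q1 q2 q3 q4 => hl' τ q1 q2 (b1 _ q3) (b2 _ q4))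
      (fun τ q1 q2 q3 q4 => hl1 τ q1 q2 (b1 _ q3) (b2 _ q4)) h100 hρ hK (hFK j hj).1
    apply this.mono
    rintro τ ⟨q1, q2, q3, q4, q5⟩
    exact ⟨q1, q2, b1 _ q3, b2 _ q4, by linarith [(hFK j hj).2]⟩
  have down : ∀ j : ℕ, j + 1 ≤ k → JoinedIn {τ : ℂ | ρ - 1 ≤ τ.re ∧ τ.re ≤ ρ + 3 ∧ 0 ≤ τ.im ∧
      τ.im ≤ (2 * k + 1) * Real.pi ∧ R ≤ ‖F τ‖}
      (ρ + (2 * j + 1) * Real.pi * I)
      ((ρ + Real.log 16 : ℝ) + (2 * ((j + 1 : ℕ) : ℂ)) * Real.pi * I) := by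
    intro j hj
    have hjk : (j:ℝ) + 1 ≤ k := by exact_mod_cast hj
    have hj0 : (0:ℝ) ≤ j := Nat.cast_nonneg _
    have b1 : ∀ t : ℝ, (2 * ((j + 1 : ℕ) : ℝ) - 1) * Real.pi ≤ t → 0 ≤ t := by
      intro t ht
      refine le_trans ?_ ht
      push_cast
      have : 0 ≤ (2 * ((j:ℝ) + 1) - 1) := by linarith
      positivity
    have b2 : ∀ t : ℝ, t ≤ 2 * ((j + 1 : ℕ) : ℝ) * Real.pi → t ≤ (2 * k + 1) * Real.pi := by
      intro t ht
      refine ht.trans ?_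
      gcongr
      push_cast
      linarith
    have e : (2 * ((j + 1 : ℕ) : ℂ) - 1) = 2 * j + 1 := by push_cast; ring
    have := stair_down (ρ := ρ) (K := K) (k := j + 1) (F := F) (lam := lam) (lam' := lam')
      (fun τ q1 q2 q3 q4 => hF τ q1 q2 (b1 _ q3) (b2 _ q4))
      (fun τ q1 q2 q3 q4 => hl τ q1 q2 (b1 _ q3) (b2 _ q4))
      (fun τ q1 q2 q3 q4 => hl' τ q1 q2 (b1 _ q3) (b2 _ q4))
      (fun τ q1 q2 q3 q4 => hl1 τ q1 q2 (b1 _ q3) (b2 _ q4)) h100 hρ hK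
      (by rw [e]; exact (hFK j (by omega)).1)
    rw [e] at this
    apply this.mono
    rintro τ ⟨q1, q2, q3, q4, q5⟩
    exact ⟨q1, q2, b1 _ q3, b2 _ q4, by linarith [(hFK j (by omega)).2]⟩
  have main : ∀ j : ℕ, j ≤ k → JoinedIn {τ : ℂ | ρ - 1 ≤ τ.re ∧ τ.re ≤ ρ + 3 ∧ 0 ≤ τ.im ∧
      τ.im ≤ (2 * k + 1) * Real.pi ∧ R ≤ ‖F τ‖}
      (ρ + (2 * j + 1) * Real.pi * I) ((ρ + Real.log 16 : ℝ)) := by
    intro j
    induction j with
    | zero =>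
      intro hj
      have := up 0 hj
      simpa using this
    | succ j ih =>
      intro hj
      exact ((up (j+1) hj).trans (down j hj).symm).trans (ih (by omega))
  exact main k le_rfl

end Pool.Agent.H343.M
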