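import Pool.Agent.Helper343.M1
import Pool.Agent.Helper343.M3

set_option autoImplicit false
set_option maxHeartbeats 4000000
open Filter Topology Complex MeasureTheory Set

namespace Pool.Agent.H343.M

/-- Data of one stage of the construction. -/
structure SD where
  (c c' N B R R' y0 δ ε η : ℝ)
  (H H' f0 f1 : ℂ → ℂ)
  hcc : c < c'
  hN : 2 ≤ N
  hB : 0 ≤ B
  hc'1 : c' ≤ 1
  hc1 : -1 ≤ c
  hδ : 0 < δ
  hy0 : 0 < y0
  hy1 : y0 ≤ 1
  hH : ∀ s : ℂ, c ≤ s.re → s.re ≤ N → 0 ≤ s.im → s.im ≤ N → HasDerivAt H (H' s) s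
  hHB : ∀ s : ℂ, c ≤ s.re → s.re ≤ N → 0 ≤ s.im → s.im ≤ N → ‖H s‖ ≤ B
  hHB' : ∀ s : ℂ, c ≤ s.re → s.re ≤ N → 0 ≤ s.im → s.im ≤ N → ‖H' s‖ ≤ B
  hfB : ∀ s : ℂ, c ≤ s.re → s.re ≤ N → 0 ≤ s.im → s.im ≤ N → ‖f0 s‖ ≤ B
  hf0 : ∀ s : ℂ, c ≤ s.re → s.re ≤ N → 0 ≤ s.im → s.im ≤ N → HasDerivAt f0 (exp (H s)) s
  hf1 : ∀ s : ℂ, c < s.re → 0 ≤ s.im → HasDerivAt f1 (exp (H s + E ((s - c) / δ))) s
  hreal : ∀ x : ℝ, c < x → (H x).im = 0
  hR : ∀ s : ℂ, c ≤ s.re → s.re ≤ N → 0 ≤ s.im → s.im ≤ y0 → R - 1 ≤ (f0 s).re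
  h1i : f1 (((1:ℝ):ℂ) + ((1:ℝ):ℂ) * I) = f0 (((1:ℝ):ℂ) + ((1:ℝ):ℂ) * I)
  s1 : δ ≤ 1/2
  s2 : 2 * δ ≤ c' - c
  s3 : 2 * δ ≤ ε
  s4 : Real.pi * δ ≤ y0
  s5 : 10 * Real.exp (B + 7) * δ * (N - c + Real.log N - Real.log (Real.pi * δ / 2)) ≤ 1/2
  s5' : 10 * Real.exp (B + 7) * δ * (N - c + Real.log N - Real.log (Real.pi * δ / 2)) ≤ η
  s6 : Real.exp (B + (Real.exp (Real.exp 1) + 1)) * (2 * δ) ≤ 1/2
  s7 : B * δ ≤ 1
  s8 : δ ≤ Real.exp (-B - 1)
  s9 : R' ≤ R - 2 + (c' - c) / 2 * Real.exp (-B + (Real.exp (Real.exp ((c' - c) / 2 / δ)) - 1))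
  s10 : ∀ ρ, Real.exp ((c' - c) / δ) ≤ ρ → 12 ≤ ρ ∧ 100 ≤ Real.exp ρ ∧
    8 * (B + 1 + 1) ≤ Real.exp (Real.exp ρ / 8 - 2 * ρ) ∧
    B + 1 - Real.log (c' - c) + Real.log ρ + Real.log (2 * ρ + 3) ≤ ρ

namespace SD

variable (S : SD)

/-- the error bound -/
noncomputable def err : ℝ :=
  10 * Real.exp (S.B + 7) * S.δ * (S.N - S.c + Real.log S.N - Real.log (Real.pi * S.δ / 2))

lemma zre (s : ℂ) : ((s - S.c) / S.δ).re = (s.re - S.c) / S.δ := by
  rw [Complex.div_ofReal_re]; simp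

lemma zim (s : ℂ) : ((s - S.c) / S.δ).im = s.im / S.δ := by
  rw [Complex.div_ofReal_im]; simp

lemma G_bound {s : ℂ} (h1 : S.c + S.δ ≤ s.re) (h2 : Real.pi * S.δ / 2 ≤ s.im) :
    ‖E ((s - S.c) / S.δ)‖ ≤ 10 * S.δ / s.im := by
  have hδ := S.hδ
  have := E_bound (z := (s - S.c) / S.δ) ?_ ?_
  · rw [S.zim] at this
    refine this.trans (le_of_eq ?_)
    field_simp
  · rw [S.zre, le_div_iff₀ hδ]; linarith
  · rw [S.zim, le_div_iff₀ hδ]; linarith

lemma g_deriv {s : ℂ} (h1 : S.c + S.δ ≤ s.re) (h1' : s.re ≤ S.N) (h2 : Real.pi * S.δ / 2 ≤ s.im)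
    (h2' : s.im ≤ S.N) : ‖exp (S.H s + E ((s - S.c) / S.δ)) - exp (S.H s)‖ ≤
      10 * Real.exp (S.B + 7) * S.δ / s.im := by
  have hδ := S.hδ
  have hpi := Real.pi_gt_d2
  have hpos : 0 < Real.pi * S.δ / 2 := by positivity
  have him : 0 < s.im := by linarith
  have hG := S.G_bound h1 h2
  have hG7 : ‖E ((s - S.c) / S.δ)‖ ≤ 7 := by
    refine hG.trans ?_
    rw [div_le_iff₀ him]
    nlinarith
  have hHB := S.hHB s (by linarith) h1' him.le h2'
  rw [Complex.exp_add, ← mul_sub_one, norm_mul]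
  have e1 : ‖exp (S.H s)‖ ≤ Real.exp S.B := by
    rw [Complex.norm_exp]
    exact Real.exp_le_exp.2 ((re_le_norm _).trans hHB)
  have e2 : ‖exp (E ((s - S.c) / S.δ)) - 1‖ ≤ (10 * S.δ / s.im) * Real.exp 7 := by
    have := Complex.norm_exp_sub_sum_le_norm_mul_exp (E ((s - S.c) / S.δ)) 1
    simp at this
    refine this.trans ?_
    gcongr
  calc _ ≤ Real.exp S.B * ((10 * S.δ / s.im) * Real.exp 7) := by gcongr
    _ = _ := by rw [Real.exp_add]; ring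

lemma A1 {s : ℂ} (h1 : S.c + S.δ ≤ s.re) (h1' : s.re ≤ S.N) (h2 : Real.pi * S.δ / 2 ≤ s.im)
    (h2' : s.im ≤ S.N) : ‖S.f1 s - S.f0 s‖ ≤ S.err := by
  have hδ := S.hδ
  have hN := S.hN
  have hc1 := S.hc1
  have hcc := S.hcc
  have hc'1 := S.hc'1
  have s1 := S.s1
  have s2 := S.s2
  have s4 := S.s4
  have hy1 := S.hy1
  have hpi := Real.pi_gt_d2
  have hpos : 0 < Real.pi * S.δ / 2 := by positivity
  set C := 10 * Real.exp (S.B + 7) * S.δ with hC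
  have hC0 : 0 < C := by positivity
  have hder : ∀ w : ℂ, S.c + S.δ ≤ w.re → w.re ≤ S.N → Real.pi * S.δ / 2 ≤ w.im → w.im ≤ S.N →
      HasDerivAt (fun w => S.f1 w - S.f0 w) (exp (S.H w + E ((w - S.c) / S.δ)) - exp (S.H w)) w := by
    intro w a1 a2 a3 a4
    exact (S.hf1 w (by linarith) (by linarith)).sub (S.hf0 w (by linarith) a2 (by linarith) a4)
  -- horizontal
  have hh : ∀ a b : ℝ, S.c + S.δ ≤ a → a ≤ b → b ≤ S.N →
      ‖(S.f1 ((b:ℂ) + ((1:ℝ):ℂ) * I) - S.f0 ((b:ℂ) + ((1:ℝ):ℂ) * I)) -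
        (S.f1 ((a:ℂ) + ((1:ℝ):ℂ) * I) - S.f0 ((a:ℂ) + ((1:ℝ):ℂ) * I))‖ ≤ C * (b - a) := by
    intro a b ha hab hb
    have := comp_ineq (a := a) (b := b)
      (f := fun t : ℝ => S.f1 ((t:ℂ) + ((1:ℝ):ℂ) * I) - S.f0 ((t:ℂ) + ((1:ℝ):ℂ) * I))
      (f' := fun t : ℝ => exp (S.H ((t:ℂ) + ((1:ℝ):ℂ) * I) +
        E ((((t:ℂ) + ((1:ℝ):ℂ) * I) - S.c) / S.δ)) - exp (S.H ((t:ℂ) + ((1:ℝ):ℂ) * I)))
      (B := fun t => C * t) (B' := fun t => C) ?_ ?_ ?_ b ⟨hab, le_rfl⟩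
    · refine this.trans (le_of_eq (by ring))
    · intro t ht
      exact hd_h 1 (hder _ (by simp; linarith [ht.1]) (by simp; linarith [ht.2])
        (by simp; linarith) (by simp; linarith))
    · intro t _
      simpa using (hasDerivAt_id t).const_mul C
    · intro t ht
      have := S.g_deriv (s := (t:ℂ) + ((1:ℝ):ℂ) * I) (by simp; linarith [ht.1])
        (by simp; linarith [ht.2]) (by simp; linarith) (by simp; linarith)
      simpa using this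
  have hv : ∀ x a b : ℝ, S.c + S.δ ≤ x → x ≤ S.N → Real.pi * S.δ / 2 ≤ a → a ≤ b → b ≤ S.N →
      ‖(S.f1 ((x:ℂ) + b * I) - S.f0 ((x:ℂ) + b * I)) -
        (S.f1 ((x:ℂ) + a * I) - S.f0 ((x:ℂ) + a * I))‖ ≤ C * (Real.log b - Real.log a) := by
    intro x a b hx1 hx2 ha hab hb
    have := comp_ineq (a := a) (b := b)
      (f := fun t : ℝ => S.f1 ((x:ℂ) + t * I) - S.f0 ((x:ℂ) + t * I))
      (f' := fun t : ℝ => (exp (S.H ((x:ℂ) + t * I) +
        E ((((x:ℂ) + t * I) - S.c) / S.δ)) - exp (S.H ((x:ℂ) + t * I))) * I)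
      (B := fun t => C * Real.log t) (B' := fun t => C * t⁻¹) ?_ ?_ ?_ b ⟨hab, le_rfl⟩
    · refine this.trans (le_of_eq (by ring))
    · intro t ht
      exact hd_v x (hder _ (by simp; linarith [ht.1]) (by simp; linarith [ht.2])
        (by simp; linarith [ht.1]) (by simp; linarith [ht.2]))
    · intro t ht
      exact (Real.hasDerivAt_log (by linarith [ht.1])).const_mul C
    · intro t ht
      have := S.g_deriv (s := (x:ℂ) + t * I) (by simp; linarith [ht.1])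
        (by simp; linarith [ht.2]) (by simp; linarith [ht.1]) (by simp; linarith [ht.2])
      rw [norm_mul, norm_I, mul_one]
      simpa [div_eq_mul_inv] using this
  -- combine
  have e0 : s = (s.re : ℂ) + s.im * I := (Complex.re_add_im s).symm
  have e1 : ‖S.f1 ((s.re:ℂ) + ((1:ℝ):ℂ) * I) - S.f0 ((s.re:ℂ) + ((1:ℝ):ℂ) * I)‖ ≤
      C * (S.N - S.c) := by
    rcases le_total s.re 1 with h | h
    · have := hh s.re 1 h1 h (by linarith)
      rw [S.h1i, sub_self, zero_sub, norm_neg] at this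
      refine this.trans ?_
      gcongr <;> linarith
    · have := hh 1 s.re (by linarith) h h1'
      rw [S.h1i, sub_self, sub_zero] at this
      refine this.trans ?_
      gcongr <;> linarith
  have e2 : ‖(S.f1 s - S.f0 s) - (S.f1 ((s.re:ℂ) + ((1:ℝ):ℂ) * I) -
      S.f0 ((s.re:ℂ) + ((1:ℝ):ℂ) * I))‖ ≤
      C * (Real.log S.N - Real.log (Real.pi * S.δ / 2)) := by
    rcases le_total s.im 1 with h | h
    · have := hv s.re s.im 1 h1 h1' h2 h (by linarith)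
      rw [← e0, norm_sub_rev] at this
      refine this.trans ?_
      gcongr
      linarith
    · have := hv s.re 1 s.im h1 h1' (by linarith) h h2'
      rw [← e0] at this
      refine this.trans ?_
      gcongr
      linarith
  calc ‖S.f1 s - S.f0 s‖ = ‖((S.f1 s - S.f0 s) - (S.f1 ((s.re:ℂ) + ((1:ℝ):ℂ) * I) -
      S.f0 ((s.re:ℂ) + ((1:ℝ):ℂ) * I))) + (S.f1 ((s.re:ℂ) + ((1:ℝ):ℂ) * I) -
      S.f0 ((s.re:ℂ) + ((1:ℝ):ℂ) * I))‖ := by ring_nf
    _ ≤ _ := norm_add_le _ _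
    _ ≤ C * (Real.log S.N - Real.log (Real.pi * S.δ / 2)) + C * (S.N - S.c) := add_le_add e2 e1
    _ = S.err := by rw [err, hC]; ring

lemma zreal (x : ℝ) : ((x:ℂ) - S.c) / S.δ = (((x - S.c) / S.δ : ℝ) : ℂ) := by push_cast; rfl

lemma bottom : S.R - 2 ≤ (S.f1 (((S.c + S.δ : ℝ) : ℂ))).re := by
  have hδ := S.hδ
  have hN := S.hN
  have hc1 := S.hc1
  have hcc := S.hcc
  have hc'1 := S.hc'1
  have s1 := S.s1
  have s2 := S.s2
  have s4 := S.s4
  have hy1 := S.hy1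
  have hpi := Real.pi_gt_d2
  have hpi2 := Real.pi_lt_d2
  have hpos : 0 < Real.pi * S.δ / 2 := by positivity
  set K := Real.exp (S.B + (Real.exp (Real.exp 1) + 1)) with hK
  have h1 := comp_ineq (a := 0) (b := Real.pi * S.δ / 2)
    (f := fun t : ℝ => S.f1 (((S.c + S.δ : ℝ):ℂ) + t * I))
    (f' := fun t : ℝ => exp (S.H (((S.c + S.δ : ℝ):ℂ) + t * I) +
      E (((((S.c + S.δ : ℝ):ℂ) + t * I) - S.c) / S.δ)) * I)
    (B := fun t => K * t) (B' := fun t => K) ?_ ?_ ?_ _ ⟨hpos.le, le_rfl⟩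
  · have h2 := S.A1 (s := ((S.c + S.δ : ℝ):ℂ) + ((Real.pi * S.δ / 2 : ℝ):ℂ) * I) (by simp)
      (by simp; linarith) (by simp) (by simp; linarith)
    have h3 := S.hR (((S.c + S.δ : ℝ):ℂ) + ((Real.pi * S.δ / 2 : ℝ):ℂ) * I) (by simp; linarith)
      (by simp; linarith) (by simp; linarith) (by simp; linarith)
    have h4 : K * (Real.pi * S.δ / 2) ≤ 1/2 := by
      refine le_trans ?_ S.s6
      rw [← hK]
      gcongr
      nlinarith
    have s5 : S.err ≤ 1/2 := S.s5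
    have h5 := (abs_re_le_norm _).trans h1
    have h6 := (abs_re_le_norm _).trans h2
    simp only [ofReal_zero, zero_mul, add_zero, mul_zero, sub_zero] at h5
    rw [Complex.sub_re, abs_le] at h5 h6
    linarith [h5.2, h6.1]
  · intro t ht
    exact hd_v _ (S.hf1 _ (by simp; linarith) (by simp; exact ht.1))
  · intro t _
    simpa using (hasDerivAt_id t).const_mul K
  · intro t ht
    rw [norm_mul, norm_I, mul_one, Complex.norm_exp, hK]
    apply Real.exp_le_exp.2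
    have h2 := S.hHB (((S.c + S.δ : ℝ):ℂ) + t * I) (by simp; linarith) (by simp; linarith)
      (by simp; exact ht.1) (by simp; linarith [ht.2])
    have hz1 : (((((S.c + S.δ : ℝ):ℂ) + t * I) - S.c) / S.δ).re = 1 := by
      rw [S.zre]; simp [hδ.ne']
    have hz2 : (((((S.c + S.δ : ℝ):ℂ) + t * I) - S.c) / S.δ).im = t / S.δ := by
      rw [S.zim]; simp
    have ht2 : t / S.δ ≤ Real.pi / 2 := by
      rw [div_le_iff₀ hδ]; linarith [ht.2]
    have ht1 : 0 ≤ t / S.δ := div_nonneg ht.1 hδ.le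
    rw [Complex.add_re]
    have e1 := (re_le_norm _).trans h2
    have e2 := re_le_norm (E (((((S.c + S.δ : ℝ):ℂ) + t * I) - S.c) / S.δ))
    have e3 : ‖E (((((S.c + S.δ : ℝ):ℂ) + t * I) - S.c) / S.δ)‖ ≤ Real.exp (Real.exp 1) + 1 := by
      rw [E_eq (by rw [hz2]; linarith)]
      refine (norm_sub_le _ _).trans ?_
      gcongr
      · rw [norm_Phi', hz1, hz2]
        apply Real.exp_le_exp.2
        have := Real.cos_le_one (t / S.δ)
        have := Real.exp_pos 1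
        nlinarith
      · refine (J_bound ?_).trans (by norm_num)
        rw [hz2, abs_of_nonneg ht1]
        linarith
    linarith

lemma grow {a b m : ℝ} (hab : a ≤ b) (hca : S.c < a)
    (hm : ∀ t ∈ Icc a b, m ≤ Real.exp ((S.H t).re + (E (((t - S.c) / S.δ : ℝ) : ℂ)).re)) :
    m * (b - a) ≤ (S.f1 b).re - (S.f1 a).re := by
  have hder : ∀ t ∈ Icc a b, HasDerivAt (fun t : ℝ => (S.f1 t).re)
      (Real.exp ((S.H t).re + (E (((t - S.c) / S.δ : ℝ) : ℂ)).re)) t := by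
    intro t ht
    have h1 := S.hf1 (t:ℂ) (by simp; linarith [ht.1]) (by simp)
    rw [S.zreal] at h1
    have h2 := h1.real_of_complex
    convert h2 using 1
    rw [Complex.exp_re, Complex.add_im, E_real, S.hreal t (by linarith [ht.1])]
    simp
  apply Convex.mul_sub_le_image_sub_of_le_deriv (f := fun t : ℝ => (S.f1 t).re) (convex_Icc a b)
    _ _ _ a ⟨le_rfl, hab⟩ b ⟨hab, le_rfl⟩ hab
  · intro t ht
    exact (hder t ht).continuousAt.continuousWithinAt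
  · intro t ht
    exact (hder t (interior_subset ht)).differentiableAt.differentiableWithinAt
  · intro t ht
    rw [(hder t (interior_subset ht)).deriv]
    exact hm t (interior_subset ht)

lemma mono_f1 {a b : ℝ} (hab : a ≤ b) (hca : S.c < a) : (S.f1 a).re ≤ (S.f1 b).re := by
  have := S.grow (m := 0) hab hca (fun t _ => (Real.exp_pos _).le)
  linarith

lemma real_ge {x : ℝ} (hx : S.c + S.δ ≤ x) : S.R - 2 ≤ (S.f1 x).re := by
  have hδ := S.hδ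
  exact S.bottom.trans (S.mono_f1 hx (by linarith))

lemma real_big {x : ℝ} (hx : S.c' ≤ x) : S.R' ≤ (S.f1 x).re := by
  have hδ := S.hδ
  have hN := S.hN
  have hcc := S.hcc
  have hc'1 := S.hc'1
  have s2 := S.s2
  refine le_trans ?_ (S.mono_f1 hx hcc)
  have h1 : S.R - 2 ≤ (S.f1 (((S.c + S.c') / 2 : ℝ))).re := S.real_ge (by linarith)
  have h2 := S.grow (a := (S.c + S.c') / 2) (b := S.c')
    (m := Real.exp (-S.B + (Real.exp (Real.exp ((S.c' - S.c) / 2 / S.δ)) - 1))) (by linarith)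
    (by linarith) ?_
  · have s9 := S.s9
    linarith
  · intro t ht
    apply Real.exp_le_exp.2
    have e1 := S.hHB t (by simp; linarith [ht.1]) (by simp; linarith [ht.2]) (by simp)
      (by simp; linarith)
    have e2 := (abs_re_le_norm _).trans e1
    rw [abs_le] at e2
    have e3 := E_re_ge ((t - S.c) / S.δ)
    have e4 : Real.exp (Real.exp ((S.c' - S.c) / 2 / S.δ)) ≤
        Real.exp (Real.exp ((t - S.c) / S.δ)) := by
      gcongr
      linarith [ht.1]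
    linarith [e2.1]


/-- the map from the `τ`-plane -/
noncomputable def sm (τ : ℂ) : ℂ := S.c + S.δ * log τ

noncomputable def F (τ : ℂ) : ℂ := S.f1 (S.sm τ)

noncomputable def lam (τ : ℂ) : ℂ := S.H (S.sm τ) - J (log τ) + (Real.log S.δ : ℂ) - log τ

noncomputable def lam' (τ : ℂ) : ℂ := (S.H' (S.sm τ) * S.δ - deriv J (log τ) - 1) / τ

lemma sm_re (τ : ℂ) : (S.sm τ).re = S.c + S.δ * Real.log ‖τ‖ := by
  simp [sm, Complex.log_re]

lemma sm_im (τ : ℂ) : (S.sm τ).im = S.δ * arg τ := by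
  simp [sm, Complex.log_im]

/-- The region of the `τ`-plane belonging to `x0`. -/
structure Reg (x0 : ℝ) (τ : ℂ) : Prop where
  re0 : 0 ≤ τ.re
  im0 : 0 ≤ τ.im
  lo : 3 ≤ ‖τ‖
  hi : ‖τ‖ ≤ 4 * Real.exp ((x0 - S.c) / S.δ)

variable {S}

lemma Reg.ne {x0 : ℝ} {τ : ℂ} (h : S.Reg x0 τ) : τ ≠ 0 := by
  rintro rfl
  have := h.lo
  rw [norm_zero] at this
  linarith

lemma Reg.slit {x0 : ℝ} {τ : ℂ} (h : S.Reg x0 τ) : τ ∈ slitPlane := by
  rw [Complex.mem_slitPlane_iff]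
  rcases h.re0.lt_or_eq with h1 | h1
  · left; exact h1
  · right
    intro h2
    exact h.ne (Complex.ext h1.symm h2)

lemma Reg.arg0 {x0 : ℝ} {τ : ℂ} (h : S.Reg x0 τ) : 0 ≤ arg τ := Complex.arg_nonneg_iff.2 h.im0

lemma Reg.arg1 {x0 : ℝ} {τ : ℂ} (h : S.Reg x0 τ) : arg τ ≤ Real.pi / 2 :=
  (le_abs_self _).trans (Complex.abs_arg_le_pi_div_two_iff.2 h.re0)

lemma log_four_le : Real.log 4 ≤ 2 := by
  have : Real.log 4 = 2 * Real.log 2 := by
    rw [show (4:ℝ) = 2^2 by norm_num, Real.log_pow]; norm_num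
  have := Real.log_two_lt_d9
  linarith

lemma one_le_log_three : 1 ≤ Real.log 3 := by
  rw [Real.le_log_iff_exp_le (by norm_num)]
  have := Real.exp_one_lt_d9
  linarith

lemma Reg.re_ge {x0 : ℝ} {τ : ℂ} (h : S.Reg x0 τ) : S.c + S.δ ≤ (S.sm τ).re := by
  have hδ := S.hδ
  rw [sm_re]
  have : 1 ≤ Real.log ‖τ‖ := one_le_log_three.trans (Real.log_le_log (by norm_num) h.lo)
  nlinarith

lemma Reg.re_le {x0 : ℝ} {τ : ℂ} (h : S.Reg x0 τ) : (S.sm τ).re ≤ x0 + 2 * S.δ := by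
  have hδ := S.hδ
  rw [sm_re]
  have h1 : Real.log ‖τ‖ ≤ Real.log 4 + (x0 - S.c) / S.δ := by
    have := Real.log_le_log (norm_pos_iff.2 h.ne) h.hi
    rwa [Real.log_mul (by norm_num) (Real.exp_pos _).ne', Real.log_exp] at this
  have h2 := log_four_le
  have h3 : S.δ * Real.log ‖τ‖ ≤ S.δ * (2 + (x0 - S.c) / S.δ) := by gcongr; linarith
  have h4 : S.δ * (2 + (x0 - S.c) / S.δ) = 2 * S.δ + (x0 - S.c) := by field_simp
  linarith

lemma Reg.im_ge {x0 : ℝ} {τ : ℂ} (h : S.Reg x0 τ) : 0 ≤ (S.sm τ).im := by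
  rw [sm_im]
  exact mul_nonneg S.hδ.le h.arg0

lemma Reg.im_le {x0 : ℝ} {τ : ℂ} (h : S.Reg x0 τ) : (S.sm τ).im ≤ Real.pi * S.δ / 2 := by
  have hδ := S.hδ
  rw [sm_im]
  have := mul_le_mul_of_nonneg_left h.arg1 S.hδ.le
  linarith

lemma Reg.im_le_y0 {x0 : ℝ} {τ : ℂ} (h : S.Reg x0 τ) : (S.sm τ).im ≤ S.y0 := by
  have hδ := S.hδ
  have s4 := S.s4
  have hy := S.hy0
  have := h.im_le
  linarith

/-- membership in the compact region -/
lemma Reg.box {x0 : ℝ} (hx0 : x0 ≤ S.N - 1) {τ : ℂ} (h : S.Reg x0 τ) :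
    S.c ≤ (S.sm τ).re ∧ (S.sm τ).re ≤ S.N ∧ 0 ≤ (S.sm τ).im ∧ (S.sm τ).im ≤ S.N := by
  have hδ := S.hδ
  have s1 := S.s1
  have hN := S.hN
  have hy1 := S.hy1
  exact ⟨by linarith [h.re_ge], by linarith [h.re_le], h.im_ge, by linarith [h.im_le_y0]⟩

lemma hasDerivAt_sm {τ : ℂ} (h : τ ∈ slitPlane) : HasDerivAt S.sm (S.δ / τ) τ := by
  have h1 := ((Complex.hasDerivAt_log h).const_mul (S.δ:ℂ)).const_add (S.c:ℂ)
  rw [div_eq_mul_inv]
  exact h1

lemma Reg.F_deriv {x0 : ℝ} {τ : ℂ} (h : S.Reg x0 τ) :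
    HasDerivAt S.F (exp (exp τ + S.lam τ)) τ := by
  have hδ := S.hδ
  have hδc : (S.δ : ℂ) ≠ 0 := by exact_mod_cast hδ.ne'
  have h1 := S.hf1 (S.sm τ) (by linarith [h.re_ge]) h.im_ge
  have h2 := h1.comp τ (hasDerivAt_sm h.slit)
  have e1 : (S.sm τ - S.c) / S.δ = log τ := by
    rw [sm]; field_simp; ring
  have e2 : E (log τ) = exp τ - J (log τ) := by
    rw [E_eq, Phi, Complex.exp_log h.ne]
    rw [Complex.log_im]
    have := h.arg1
    have := Real.pi_pos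
    linarith
  rw [e1, e2] at h2
  have e3 : exp (exp τ + S.lam τ) = exp (S.H (S.sm τ) + (exp τ - J (log τ))) * (S.δ / τ) := by
    have e4 : (S.δ : ℂ) / τ = exp ((Real.log S.δ : ℂ) - log τ) := by
      rw [Complex.exp_sub, Complex.exp_log h.ne, ← Complex.ofReal_exp, Real.exp_log hδ]
    rw [e4, ← Complex.exp_add, lam]
    ring_nf
  rw [e3]
  exact h2

lemma Reg.lam_deriv {x0 : ℝ} (hx0 : x0 ≤ S.N - 1) {τ : ℂ} (h : S.Reg x0 τ) :
    HasDerivAt S.lam (S.lam' τ) τ := by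
  obtain ⟨b1, b2, b3, b4⟩ := h.box hx0
  have hpi := Real.pi_pos
  have h1 := (S.hH _ b1 b2 b3 b4).comp τ (hasDerivAt_sm h.slit)
  have hl := Complex.hasDerivAt_log h.slit
  have him : |(log τ).im| < Real.pi := by
    rw [Complex.log_im, abs_of_nonneg h.arg0]
    linarith [h.arg1]
  have h2 := (J_diff him).hasDerivAt.comp τ hl
  have h3 := ((h1.sub h2).add_const (Real.log S.δ : ℂ)).sub hl
  have e : S.lam' τ = S.H' (S.sm τ) * (S.δ / τ) - deriv J (log τ) * τ⁻¹ - τ⁻¹ := by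
    rw [lam']; ring
  rw [e]
  exact h3

lemma Reg.lam_bound {x0 : ℝ} (hx0 : x0 ≤ S.N - 1) {τ : ℂ} (h : S.Reg x0 τ) (h6 : 6 ≤ ‖τ‖) :
    ‖S.lam' τ‖ ≤ 1/2 := by
  obtain ⟨b1, b2, b3, b4⟩ := h.box hx0
  have hδ := S.hδ
  rw [lam', norm_div, div_le_iff₀ (by linarith)]
  have h1 : ‖S.H' (S.sm τ) * S.δ‖ ≤ 1 := by
    rw [norm_mul, Complex.norm_real, Real.norm_eq_abs, abs_of_pos hδ]
    refine le_trans ?_ S.s7
    gcongr
    exact S.hHB' _ b1 b2 b3 b4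
  have h2 : ‖deriv J (log τ)‖ ≤ 4/5 := by
    apply J_deriv_bound
    rw [Complex.log_im, abs_of_nonneg h.arg0]
    exact h.arg1
  calc ‖S.H' (S.sm τ) * S.δ - deriv J (log τ) - 1‖ ≤ ‖S.H' (S.sm τ) * S.δ‖ + ‖deriv J (log τ)‖ + ‖(1:ℂ)‖ :=
        (norm_sub_le _ _).trans (by gcongr; exact norm_sub_le _ _)
    _ ≤ 1 + 4/5 + 1 := by rw [norm_one]; gcongr
    _ ≤ 1/2 * ‖τ‖ := by linarith

lemma Reg.lam_re {x0 : ℝ} (hx0 : x0 ≤ S.N - 1) {τ : ℂ} (h : S.Reg x0 τ) :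
    -S.B - 4/5 + Real.log S.δ - Real.log ‖τ‖ ≤ (S.lam τ).re ∧
    (S.lam τ).re ≤ S.B + 4/5 + Real.log S.δ - Real.log ‖τ‖ := by
  obtain ⟨b1, b2, b3, b4⟩ := h.box hx0
  have h1 := (abs_re_le_norm _).trans (S.hHB _ b1 b2 b3 b4)
  have h2 : ‖J (log τ)‖ ≤ 4/5 := by
    apply J_bound
    rw [Complex.log_im, abs_of_nonneg h.arg0]
    have := h.arg1
    have := Real.pi_pos
    linarith
  have h3 := (abs_re_le_norm _).trans h2
  rw [abs_le] at h1 h3
  rw [lam, Complex.sub_re, Complex.add_re, Complex.sub_re, Complex.ofReal_re, Complex.log_re]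
  constructor <;> linarith [h1.1, h1.2, h3.1, h3.2]

variable (S)

/-- facts about `ρ` -/
lemma rho_facts {x0 : ℝ} (hx0 : S.c' ≤ x0) : 12 ≤ Real.exp ((x0 - S.c) / S.δ) ∧
    100 ≤ Real.exp (Real.exp ((x0 - S.c) / S.δ)) ∧
    8 * (S.B + 1 + 1) ≤ Real.exp (Real.exp (Real.exp ((x0 - S.c) / S.δ)) / 8 -
      2 * Real.exp ((x0 - S.c) / S.δ)) ∧
    S.B + 1 - Real.log (S.c' - S.c) + Real.log (Real.exp ((x0 - S.c) / S.δ)) +
      Real.log (2 * Real.exp ((x0 - S.c) / S.δ) + 3) ≤ Real.exp ((x0 - S.c) / S.δ) := by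
  apply S.s10
  have := S.hδ
  gcongr

lemma reg_line {x0 : ℝ} {j : ℕ} {A : ℝ} (hA : 0 ≤ A)
    (hA2 : A ≤ Real.exp ((x0 - S.c) / S.δ))
    (hj : (2 * j + 1) * Real.pi ≤ Real.exp ((x0 - S.c) / S.δ)) :
    S.Reg x0 ((A:ℂ) + (((2 * j + 1) * Real.pi : ℝ) : ℂ) * I) := by
  have hpi := Real.pi_gt_d2
  have hj0 : (0:ℝ) ≤ j := Nat.cast_nonneg _
  have h3 : 3 ≤ (2 * (j:ℝ) + 1) * Real.pi := by nlinarith
  refine ⟨by simp; exact hA, ?_, ?_, ?_⟩
  · rw [Complex.add_im, Complex.ofReal_im, Complex.im_ofReal_mul]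
    simp
    positivity
  · have := norm_ge_im A ((2 * j + 1) * Real.pi)
    rw [abs_of_nonneg (by linarith)] at this
    linarith
  · refine (norm_le_add _ _).trans ?_
    rw [abs_of_nonneg hA, abs_of_nonneg (by linarith)]
    linarith [Real.exp_pos ((x0 - S.c) / S.δ)]

lemma C_le : Real.exp (S.B + 4/5) * S.δ ≤ 1/4 := by
  have h := S.s6
  have hδ := S.hδ
  have h1 : Real.exp (S.B + 4/5) ≤ Real.exp (S.B + (Real.exp (Real.exp 1) + 1)) := by
    gcongr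
    have := Real.exp_pos (Real.exp 1)
    linarith
  have h2 := mul_le_mul_of_nonneg_right h1 hδ.le
  linarith

lemma A2 {x0 : ℝ} (hx1 : x0 ≤ S.N - 1) {j : ℕ}
    (hj : (2 * j + 1) * Real.pi ≤ Real.exp ((x0 - S.c) / S.δ)) {A : ℝ} (hA : 0 ≤ A)
    (hA2 : A ≤ Real.exp ((x0 - S.c) / S.δ)) :
    ‖S.F ((A:ℂ) + (((2 * j + 1) * Real.pi : ℝ) : ℂ) * I) -
      S.F (((0:ℝ):ℂ) + (((2 * j + 1) * Real.pi : ℝ) : ℂ) * I)‖ ≤ 1/4 := by
  have hδ := S.hδ
  set C := Real.exp (S.B + 4/5) * S.δ with hC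
  have hC0 : 0 < C := by positivity
  have h1 := comp_ineq (a := 0) (b := A)
    (f := fun t : ℝ => S.F ((t:ℂ) + (((2 * j + 1) * Real.pi : ℝ) : ℂ) * I))
    (f' := fun t : ℝ => exp (exp ((t:ℂ) + (((2 * j + 1) * Real.pi : ℝ) : ℂ) * I) +
      S.lam ((t:ℂ) + (((2 * j + 1) * Real.pi : ℝ) : ℂ) * I)))
    (B := fun t => C * (-Real.exp (-1 - t))) (B' := fun t => C * Real.exp (-1 - t))
    ?_ ?_ ?_ A ⟨hA, le_rfl⟩
  · refine h1.trans ?_
    have e1 : C * (-Real.exp (-1 - A)) - C * (-Real.exp (-1 - 0)) ≤ C * 1 := by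
      have := Real.exp_pos (-1 - A)
      have h2 : Real.exp (-1 - 0) ≤ 1 := Real.exp_le_one_iff.2 (by norm_num)
      nlinarith
    have := S.C_le
    rw [← hC] at this
    exact e1.trans (by rw [mul_one]; exact this)
  · intro t ht
    exact hd_h _ ((S.reg_line (x0 := x0) ht.1 (ht.2.trans hA2) hj).F_deriv)
  · intro t _
    apply HasDerivAt.const_mul
    have h2 : HasDerivAt (fun t : ℝ => -1 - t) (-1) t := by
      simpa using (hasDerivAt_id t).const_sub (-1)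
    have h3 := h2.exp.fun_neg
    simpa using h3
  · intro t ht
    have hreg := S.reg_line (x0 := x0) ht.1 (ht.2.trans hA2) hj
    have h2 := (hreg.lam_re hx1).2
    have h3 : 0 ≤ Real.log ‖(t:ℂ) + (((2 * j + 1) * Real.pi : ℝ) : ℂ) * I‖ :=
      Real.log_nonneg (by linarith [hreg.lo])
    have h4 : (exp ((t:ℂ) + (((2 * j + 1) * Real.pi : ℝ) : ℂ) * I)).re = -Real.exp t := by
      rw [Complex.exp_re]
      have e1 : ((t:ℂ) + (((2 * j + 1) * Real.pi : ℝ) : ℂ) * I).re = t := by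
        rw [Complex.add_re, Complex.re_ofReal_mul]; simp
      have e2 : ((t:ℂ) + (((2 * j + 1) * Real.pi : ℝ) : ℂ) * I).im = j * (2 * Real.pi) + Real.pi := by
        rw [Complex.add_im, Complex.im_ofReal_mul]; simp; ring
      rw [e1, e2, Real.cos_nat_mul_two_pi_add_pi]
      ring
    rw [Complex.norm_exp, Complex.add_re, h4, hC, ← Real.exp_log hδ, ← Real.exp_add, ← Real.exp_add]
    apply Real.exp_le_exp.2
    have := Real.add_one_le_exp t
    linarith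

lemma at0 {x0 : ℝ} (hx1 : x0 ≤ S.N - 1) {j : ℕ} (hρ0 : 0 ≤ Real.exp ((x0 - S.c) / S.δ))
    (hj : (2 * j + 1) * Real.pi ≤ Real.exp ((x0 - S.c) / S.δ)) :
    ‖S.F (((0:ℝ):ℂ) + (((2 * j + 1) * Real.pi : ℝ) : ℂ) * I)‖ ≤ S.B + 1/2 ∧
    S.R - 3/2 ≤ (S.F (((0:ℝ):ℂ) + (((2 * j + 1) * Real.pi : ℝ) : ℂ) * I)).re := by
  have hreg := S.reg_line (x0 := x0) le_rfl hρ0 hj
  obtain ⟨b1, b2, b3, b4⟩ := hreg.box hx1
  have him : (S.sm (((0:ℝ):ℂ) + (((2 * j + 1) * Real.pi : ℝ) : ℂ) * I)).im = Real.pi * S.δ / 2 := by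
    rw [sm_im]
    have : arg (((0:ℝ):ℂ) + (((2 * j + 1) * Real.pi : ℝ) : ℂ) * I) = Real.pi / 2 := by
      rw [Complex.ofReal_zero, zero_add, Complex.arg_real_mul _ (by positivity), Complex.arg_I]
    rw [this]; ring
  have h1 := S.A1 hreg.re_ge b2 him.ge b4
  have h2 := S.hR _ b1 b2 b3 hreg.im_le_y0
  have h3 := S.hfB _ b1 b2 b3 b4
  have s5 : S.err ≤ 1/2 := S.s5
  constructor
  · calc ‖S.F _‖ = ‖(S.f1 (S.sm (((0:ℝ):ℂ) + (((2 * j + 1) * Real.pi : ℝ) : ℂ) * I)) -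
          S.f0 (S.sm (((0:ℝ):ℂ) + (((2 * j + 1) * Real.pi : ℝ) : ℂ) * I))) +
          S.f0 (S.sm (((0:ℝ):ℂ) + (((2 * j + 1) * Real.pi : ℝ) : ℂ) * I))‖ := by
            rw [F]; ring_nf
      _ ≤ _ := norm_add_le _ _
      _ ≤ _ := by linarith
  · have h4 := (abs_re_le_norm _).trans h1
    rw [Complex.sub_re, abs_le] at h4
    rw [F]
    linarith [h4.1]

lemma P_val {x0 : ℝ} (hx1 : x0 ≤ S.N - 1) {j : ℕ}
    (hj : (2 * j + 1) * Real.pi ≤ Real.exp ((x0 - S.c) / S.δ)) {A : ℝ} (hA : 0 ≤ A)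
    (hA2 : A ≤ Real.exp ((x0 - S.c) / S.δ)) :
    ‖S.F ((A:ℂ) + (((2 * j + 1) * Real.pi : ℝ) : ℂ) * I)‖ ≤ S.B + 1 ∧
    S.R - 2 ≤ (S.F ((A:ℂ) + (((2 * j + 1) * Real.pi : ℝ) : ℂ) * I)).re := by
  have h1 := S.A2 hx1 hj hA hA2
  obtain ⟨h2, h3⟩ := S.at0 hx1 (hA.trans hA2) hj
  constructor
  · calc ‖S.F ((A:ℂ) + (((2 * j + 1) * Real.pi : ℝ) : ℂ) * I)‖ =
        ‖(S.F ((A:ℂ) + (((2 * j + 1) * Real.pi : ℝ) : ℂ) * I) -
          S.F (((0:ℝ):ℂ) + (((2 * j + 1) * Real.pi : ℝ) : ℂ) * I)) +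
          S.F (((0:ℝ):ℂ) + (((2 * j + 1) * Real.pi : ℝ) : ℂ) * I)‖ := by ring_nf
      _ ≤ _ := norm_add_le _ _
      _ ≤ _ := by linarith
  · have h4 := (abs_re_le_norm _).trans h1
    rw [Complex.sub_re, abs_le] at h4
    linarith [h4.1]

/-- The target set of the crossing lemma. -/
def T (x0 : ℝ) : Set ℂ :=
  {s : ℂ | |s.re - x0| ≤ S.ε ∧ 0 ≤ s.im ∧ s.im ≤ S.y0 ∧ S.R - 3 ≤ ‖S.f1 s‖}

lemma near {x0 : ℝ} {τ : ℂ} (hreg : S.Reg x0 τ)
    (h4 : Real.exp ((x0 - S.c) / S.δ) / 4 ≤ ‖τ‖) : |(S.sm τ).re - x0| ≤ S.ε := by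
  have hδ := S.hδ
  have s3 := S.s3
  rw [abs_le]
  constructor
  · rw [sm_re]
    have h1 : (x0 - S.c) / S.δ - Real.log 4 ≤ Real.log ‖τ‖ := by
      have := Real.log_le_log (by positivity) h4
      rwa [Real.log_div (Real.exp_pos _).ne' (by norm_num), Real.log_exp] at this
    have h2 := log_four_le
    have h3 : S.δ * ((x0 - S.c) / S.δ - 2) ≤ S.δ * Real.log ‖τ‖ := by gcongr; linarith
    have h5 : S.δ * ((x0 - S.c) / S.δ - 2) = (x0 - S.c) - 2 * S.δ := by field_simp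
    linarith
  · have := hreg.re_le
    linarith

theorem crossing {x0 Y : ℝ} (hx0 : S.c' ≤ x0) (hx1 : x0 ≤ S.N - 1) (hY1 : S.y0 / 2 ≤ Y)
    (hY2 : Y ≤ S.y0) : JoinedIn (S.T x0) ((x0:ℂ) + Y * I) (x0:ℂ) := by
  have hδ := S.hδ
  have hN := S.hN
  have hc1 := S.hc1
  have hcc := S.hcc
  have hc'1 := S.hc'1
  have s1 := S.s1
  have s2 := S.s2
  have s3 := S.s3
  have s4 := S.s4
  have hy1 := S.hy1
  have hpi := Real.pi_gt_d2
  have hpi2 := Real.pi_lt_d2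
  have hpos : 0 < Real.pi * S.δ / 2 := by positivity
  have hy0 := S.hy0
  have hB := S.hB
  have s5 : S.err ≤ 1/2 := S.s5
  obtain ⟨r1, r2, r3, r4⟩ := S.rho_facts hx0
  set ρ := Real.exp ((x0 - S.c) / S.δ) with hρ
  -- the choice of `k`
  obtain ⟨k, hk1, hk2⟩ : ∃ k : ℕ, (2 * k + 1) * Real.pi ≤ ρ ∧ ρ / 4 ≤ (2 * k + 1) * Real.pi := by
    have h0 : 0 ≤ (ρ / Real.pi - 1) / 2 := by
      apply div_nonneg _ (by norm_num)
      rw [sub_nonneg, le_div_iff₀ (by linarith)]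
      linarith
    refine ⟨⌊(ρ / Real.pi - 1) / 2⌋₊, ?_, ?_⟩
    · have h1 := Nat.floor_le h0
      have h2 : 2 * (⌊(ρ / Real.pi - 1) / 2⌋₊ : ℝ) + 1 ≤ ρ / Real.pi := by linarith
      rwa [le_div_iff₀ (by linarith)] at h2
    · have h1 := Nat.lt_floor_add_one ((ρ / Real.pi - 1) / 2)
      have h2 : ρ / Real.pi < 2 * (⌊(ρ / Real.pi - 1) / 2⌋₊ : ℝ) + 3 := by linarith
      rw [div_lt_iff₀ (by linarith)] at h2
      nlinarith
  have hk0 : (0:ℝ) ≤ k := Nat.cast_nonneg _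
  have hkpi : 3 ≤ (2 * (k:ℝ) + 1) * Real.pi := by nlinarith
  -- values of f1 in the upper part
  have hup : ∀ s : ℂ, S.c + S.δ ≤ s.re → s.re ≤ S.N → Real.pi * S.δ / 2 ≤ s.im → s.im ≤ S.y0 →
      S.R - 3 ≤ ‖S.f1 s‖ := by
    intro s a1 a2 a3 a4
    have h1 := S.A1 a1 a2 a3 (by linarith)
    have h2 := S.hR s (by linarith) a2 (by linarith) a4
    have h3 := (abs_re_le_norm _).trans h1
    rw [Complex.sub_re, abs_le] at h3
    have h4 := re_le_norm (S.f1 s)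
    linarith [h3.1]
  -- p1
  have p1 : JoinedIn (S.T x0) ((x0:ℂ) + ((Real.pi * S.δ / 2 : ℝ):ℂ) * I) ((x0:ℂ) + Y * I) := by
    apply jv (by linarith)
    intro t ht
    refine ⟨by simp; linarith, by simp; linarith [ht.1], by simp; linarith [ht.2], ?_⟩
    exact hup _ (by simp; linarith) (by simp; linarith) (by simp; linarith [ht.1])
      (by simp; linarith [ht.2])
  -- p2
  set x1 := S.c + S.δ * Real.log ((2 * k + 1) * Real.pi) with hx1def
  have hx1a : S.c + S.δ ≤ x1 := by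
    have : 1 ≤ Real.log ((2 * k + 1) * Real.pi) :=
      one_le_log_three.trans (Real.log_le_log (by norm_num) hkpi)
    rw [hx1def]
    nlinarith
  have hlogρ : Real.log ρ = (x0 - S.c) / S.δ := Real.log_exp _
  have hx1b : x1 ≤ x0 := by
    have h1 : Real.log ((2 * k + 1) * Real.pi) ≤ (x0 - S.c) / S.δ := by
      rw [← hlogρ]
      exact Real.log_le_log (by linarith) hk1
    have h2 := mul_le_mul_of_nonneg_left h1 hδ.le
    have h3 : S.δ * ((x0 - S.c) / S.δ) = x0 - S.c := by field_simp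
    linarith
  have hx1c : x0 - 2 * S.δ ≤ x1 := by
    have h1 : (x0 - S.c) / S.δ - Real.log 4 ≤ Real.log ((2 * k + 1) * Real.pi) := by
      have := Real.log_le_log (by positivity) hk2
      rwa [Real.log_div (by positivity) (by norm_num), hlogρ] at this
    have h2 := log_four_le
    have h3 : S.δ * ((x0 - S.c) / S.δ - 2) ≤ S.δ * Real.log ((2 * k + 1) * Real.pi) := by
      gcongr; linarith
    have h5 : S.δ * ((x0 - S.c) / S.δ - 2) = (x0 - S.c) - 2 * S.δ := by field_simp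
    linarith
  have p2 : JoinedIn (S.T x0) ((x1:ℂ) + ((Real.pi * S.δ / 2 : ℝ):ℂ) * I)
      ((x0:ℂ) + ((Real.pi * S.δ / 2 : ℝ):ℂ) * I) := by
    apply jh hx1b
    intro w hw
    refine ⟨?_, by simp; linarith, by simp; linarith, ?_⟩
    · simp
      rw [abs_le]
      constructor <;> linarith [hw.1, hw.2]
    · exact hup _ (by simp; linarith [hw.1]) (by simp; linarith [hw.2]) (by simp)
        (by simp; linarith)
  -- the τ-plane part
  set T' : Set ℂ := {τ : ℂ | S.Reg x0 τ ∧ ρ / 4 ≤ ‖τ‖ ∧ S.R - 3 ≤ ‖S.F τ‖} with hT'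
  have p3 : JoinedIn T' (((0:ℝ):ℂ) + (((2 * k + 1) * Real.pi : ℝ) : ℂ) * I)
      ((ρ:ℂ) + (((2 * k + 1) * Real.pi : ℝ) : ℂ) * I) := by
    apply jh (by linarith)
    intro t ht
    refine ⟨S.reg_line ht.1 ht.2 hk1, ?_, ?_⟩
    · have := norm_ge_im t ((2 * k + 1) * Real.pi)
      rw [abs_of_nonneg (by linarith)] at this
      linarith
    · have h1 := (S.P_val hx1 hk1 ht.1 ht.2).2
      have h2 := re_le_norm (S.F ((t:ℂ) + (((2 * k + 1) * Real.pi : ℝ) : ℂ) * I))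
      linarith
  have hregS : ∀ τ : ℂ, ρ - 1 ≤ τ.re → τ.re ≤ ρ + 3 → 0 ≤ τ.im → τ.im ≤ (2 * k + 1) * Real.pi →
      S.Reg x0 τ ∧ ρ / 4 ≤ ‖τ‖ ∧ 6 ≤ ‖τ‖ ∧ ‖τ‖ ≤ 2 * ρ + 3 := by
    intro τ a1 a2 a3 a4
    have h1 : τ.re ≤ ‖τ‖ := re_le_norm τ
    have h2 : ‖τ‖ ≤ 2 * ρ + 3 := by
      have e : τ = (τ.re : ℂ) + τ.im * I := (Complex.re_add_im τ).symm
      rw [e]
      refine (norm_le_add _ _).trans ?_
      rw [abs_of_nonneg a3, abs_of_nonneg (by linarith)]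
      linarith
    exact ⟨⟨by linarith, a3, by linarith, by rw [← hρ]; linarith⟩, by linarith, by linarith, h2⟩
  have p4 : JoinedIn T' ((ρ:ℂ) + (((2 * k + 1) * Real.pi : ℝ) : ℂ) * I) ((ρ + Real.log 16 : ℝ)) := by
    have h := stair (ρ := ρ) (K := S.B + 1) (R := S.R - 3) (F := S.F) (lam := S.lam)
      (lam' := S.lam') k ?_ ?_ ?_ ?_ r2 (by linarith) r3 ?_
    · have e : (ρ:ℂ) + (2 * (k:ℂ) + 1) * Real.pi * I = (ρ:ℂ) + (((2 * k + 1) * Real.pi : ℝ) : ℂ) * I := by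
        push_cast; ring
      rw [e] at h
      apply h.mono
      rintro τ ⟨a1, a2, a3, a4, a5⟩
      obtain ⟨b1, b2, b3, b4⟩ := hregS τ a1 a2 a3 a4
      exact ⟨b1, b2, a5⟩
    · intro τ a1 a2 a3 a4
      exact (hregS τ a1 a2 a3 a4).1.F_deriv
    · intro τ a1 a2 a3 a4
      exact (hregS τ a1 a2 a3 a4).1.lam_deriv hx1
    · intro τ a1 a2 a3 a4
      exact (hregS τ a1 a2 a3 a4).1.lam_bound hx1 (hregS τ a1 a2 a3 a4).2.2.1
    · intro τ a1 a2 a3 a4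
      obtain ⟨b1, b2, b3, b4⟩ := hregS τ a1 a2 a3 a4
      obtain ⟨c1, c2⟩ := b1.lam_re hx1
      have d1 : 0 ≤ Real.log ‖τ‖ := Real.log_nonneg (by linarith)
      have d2 : Real.log ‖τ‖ ≤ Real.log (2 * ρ + 3) := Real.log_le_log (by linarith) b4
      have d3 : Real.log S.δ ≤ -S.B - 1 := by
        have := Real.log_le_log hδ S.s8
        rwa [Real.log_exp] at this
      have d4 : Real.log (S.c' - S.c) - Real.log ρ ≤ Real.log S.δ := by
        rw [← Real.log_div (by linarith) (by linarith)]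
        apply Real.log_le_log (div_pos (by linarith) (by linarith))
        rw [div_le_iff₀ (by linarith)]
        have h1 := Real.add_one_le_exp ((x0 - S.c) / S.δ)
        rw [← hρ] at h1
        have h2 : (x0 - S.c) / S.δ ≤ ρ := by linarith
        rw [div_le_iff₀ hδ] at h2
        linarith
      constructor
      · linarith
      · linarith
    · intro j hj
      have hjk : (j:ℝ) ≤ k := by exact_mod_cast hj
      have hj1 : (2 * (j:ℝ) + 1) * Real.pi ≤ ρ := le_trans (by gcongr) hk1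
      have h1 := S.P_val hx1 hj1 (A := ρ) (by linarith) le_rfl
      have e : (ρ:ℂ) + (2 * (j:ℂ) + 1) * Real.pi * I = (ρ:ℂ) + (((2 * j + 1) * Real.pi : ℝ) : ℂ) * I := by
        push_cast; ring
      rw [e]
      exact ⟨h1.1, by linarith [h1.2]⟩
  have p34 : JoinedIn (S.T x0) ((x1:ℂ) + ((Real.pi * S.δ / 2 : ℝ):ℂ) * I)
      (((S.c + S.δ * Real.log (ρ + Real.log 16) : ℝ):ℂ)) := by
    have hcont : ContinuousOn S.sm T' := by
      intro τ hτ
      exact (hasDerivAt_sm hτ.1.slit).continuousAt.continuousWithinAt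
    have h := (p3.trans p4).map_continuousOn hcont
    have e1 : S.sm (((0:ℝ):ℂ) + (((2 * k + 1) * Real.pi : ℝ) : ℂ) * I) =
        (x1:ℂ) + ((Real.pi * S.δ / 2 : ℝ):ℂ) * I := by
      apply Complex.ext
      · have en : ‖((0:ℝ):ℂ) + (((2 * k + 1) * Real.pi : ℝ) : ℂ) * I‖ = (2 * k + 1) * Real.pi := by
          rw [Complex.ofReal_zero, zero_add, norm_mul, norm_I, mul_one, Complex.norm_real,
            Real.norm_eq_abs, abs_of_nonneg (by linarith)]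
        rw [sm_re, en, Complex.add_re, Complex.ofReal_re, Complex.re_ofReal_mul, Complex.I_re,
          mul_zero, add_zero]
      · rw [sm_im, Complex.ofReal_zero, zero_add, Complex.arg_real_mul _ (by positivity), Complex.arg_I]
        simp
        ring
    have e2 : S.sm ((ρ + Real.log 16 : ℝ)) = ((S.c + S.δ * Real.log (ρ + Real.log 16) : ℝ):ℂ) := by
      rw [sm, ← Complex.ofReal_log]
      · push_cast; rfl
      · have := Real.log_nonneg (x := 16) (by norm_num)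
        linarith
    rw [e1, e2] at h
    apply h.mono
    rintro _ ⟨τ, ⟨a1, a2, a3⟩, rfl⟩
    exact ⟨S.near a1 a2, a1.im_ge, a1.im_le_y0, a3⟩
  -- p5
  set x2 := S.c + S.δ * Real.log (ρ + Real.log 16) with hx2
  have hl16 : 0 ≤ Real.log 16 := Real.log_nonneg (by norm_num)
  have hx2a : x0 ≤ x2 := by
    have h1 : (x0 - S.c) / S.δ ≤ Real.log (ρ + Real.log 16) := by
      rw [← hlogρ]
      exact Real.log_le_log (by linarith) (by linarith)
    have h2 := mul_le_mul_of_nonneg_left h1 hδ.le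
    have h3 : S.δ * ((x0 - S.c) / S.δ) = x0 - S.c := by field_simp
    linarith
  have hx2b : x2 ≤ x0 + 2 * S.δ := by
    have h1 : Real.log (ρ + Real.log 16) ≤ Real.log 4 + (x0 - S.c) / S.δ := by
      rw [← hlogρ, ← Real.log_mul (by norm_num) (by linarith)]
      have := log_16_lt
      exact Real.log_le_log (by linarith) (by linarith)
    have h2 := log_four_le
    have h3 : S.δ * Real.log (ρ + Real.log 16) ≤ S.δ * (2 + (x0 - S.c) / S.δ) := by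
      gcongr; linarith
    have h4 : S.δ * (2 + (x0 - S.c) / S.δ) = 2 * S.δ + (x0 - S.c) := by field_simp
    linarith
  have p5 : JoinedIn (S.T x0) (x0:ℂ) (x2:ℂ) := by
    have h := jh (S := S.T x0) (y := 0) hx2a ?_
    · simpa using h
    · intro w hw
      refine ⟨?_, by simp, by simp; exact hy0.le, ?_⟩
      · simp
        rw [abs_le]
        constructor <;> linarith [hw.1, hw.2]
      · have h1 := S.real_ge (x := w) (by linarith [hw.1])
        have h2 := re_le_norm (S.f1 w)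
        simp only [Complex.ofReal_zero, zero_mul, add_zero]
        linarith
  exact ((p1.symm.trans p2.symm).trans p34).trans p5.symm

end SD

end Pool.Agent.H343.M
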