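import Pool.Agent.Helper343.M4

set_option autoImplicit false
set_option maxHeartbeats 4000000
open Filter Topology Complex MeasureTheory Set

namespace Pool.Agent.H343.M

lemma ev_le {a : ℝ} (ha : 0 < a) : ∀ᶠ δ : ℝ in 𝓝[>] 0, δ ≤ a :=
  eventually_nhdsWithin_of_eventually_nhds ((eventually_lt_nhds ha).mono fun _ h => h.le)

lemma rho_large {d B ρ : ℝ} (_hB : 0 ≤ B) (h48 : 48 ≤ ρ) (h2 : 8 * (B + 1 + 1) ≤ ρ)
    (h3 : 2 * (B + 7 - Real.log d) ≤ ρ) :
    12 ≤ ρ ∧ 100 ≤ Real.exp ρ ∧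
    8 * (B + 1 + 1) ≤ Real.exp (Real.exp ρ / 8 - 2 * ρ) ∧
    B + 1 - Real.log d + Real.log ρ + Real.log (2 * ρ + 3) ≤ ρ := by
  have hq := Real.quadratic_le_exp_of_nonneg (x := ρ) (by linarith)
  refine ⟨by linarith, by nlinarith, ?_, ?_⟩
  · have h4 : ρ ≤ Real.exp ρ / 8 - 2 * ρ := by nlinarith
    have h5 := Real.add_one_le_exp (Real.exp ρ / 8 - 2 * ρ)
    linarith
  · have hl8 : Real.log 8 ≤ 3 := by
      have : Real.log 8 = 3 * Real.log 2 := by
        rw [show (8:ℝ) = 2^3 by norm_num, Real.log_pow]; norm_num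
      have := Real.log_two_lt_d9
      linarith
    have e1 : Real.log ρ ≤ ρ / 8 + 2 := by
      have := Real.log_le_sub_one_of_pos (show 0 < ρ / 8 by linarith)
      rw [Real.log_div (by linarith) (by norm_num)] at this
      linarith
    have e2 : Real.log (2 * ρ + 3) ≤ ρ / 8 + 4 := by
      have h6 : Real.log (2 * ρ + 3) ≤ Real.log (3 * ρ) := Real.log_le_log (by linarith) (by linarith)
      rw [Real.log_mul (by norm_num) (by linarith)] at h6
      have h7 := Real.log_le_sub_one_of_pos (show (0:ℝ) < 3 by norm_num)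
      linarith
    linarith

lemma small_delta {d B N c y0 ε η R R' : ℝ} (hd : 0 < d) (hB : 0 ≤ B) (hy0 : 0 < y0) (hε : 0 < ε)
    (hη : 0 < η) : ∀ᶠ δ : ℝ in 𝓝[>] 0, 0 < δ ∧ δ ≤ 1/2 ∧ 2 * δ ≤ d ∧ 2 * δ ≤ ε ∧
      Real.pi * δ ≤ y0 ∧
      10 * Real.exp (B + 7) * δ * (N - c + Real.log N - Real.log (Real.pi * δ / 2)) ≤ 1/2 ∧
      10 * Real.exp (B + 7) * δ * (N - c + Real.log N - Real.log (Real.pi * δ / 2)) ≤ η ∧
      Real.exp (B + (Real.exp (Real.exp 1) + 1)) * (2 * δ) ≤ 1/2 ∧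
      B * δ ≤ 1 ∧ δ ≤ Real.exp (-B - 1) ∧
      R' ≤ R - 2 + d / 2 * Real.exp (-B + (Real.exp (Real.exp (d / 2 / δ)) - 1)) ∧
      (∀ ρ, Real.exp (d / δ) ≤ ρ → 12 ≤ ρ ∧ 100 ≤ Real.exp ρ ∧
        8 * (B + 1 + 1) ≤ Real.exp (Real.exp ρ / 8 - 2 * ρ) ∧
        B + 1 - Real.log d + Real.log ρ + Real.log (2 * ρ + 3) ≤ ρ) := by
  have hpi := Real.pi_pos
  have t0 : Tendsto (fun δ : ℝ => δ) (𝓝[>] 0) (𝓝 0) := tendsto_nhdsWithin_of_tendsto_nhds tendsto_id
  have t1 : Tendsto (fun δ : ℝ => Real.log δ * δ) (𝓝[>] 0) (𝓝 0) := by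
    simpa only [Real.rpow_one] using tendsto_log_mul_rpow_nhdsGT_zero zero_lt_one
  have t2 : Tendsto (fun δ : ℝ => 10 * Real.exp (B + 7) * δ *
      (N - c + Real.log N - Real.log (Real.pi * δ / 2))) (𝓝[>] 0) (𝓝 0) := by
    have h1 : Tendsto (fun δ : ℝ => (10 * Real.exp (B + 7) * (N - c + Real.log N -
      Real.log (Real.pi / 2))) * δ - (10 * Real.exp (B + 7)) * (Real.log δ * δ)) (𝓝[>] 0)
        (𝓝 ((10 * Real.exp (B + 7) * (N - c + Real.log N -
      Real.log (Real.pi / 2))) * 0 - (10 * Real.exp (B + 7)) * 0)) :=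
      (t0.const_mul _).sub (t1.const_mul _)
    rw [mul_zero, mul_zero, sub_zero] at h1
    apply h1.congr'
    filter_upwards [self_mem_nhdsWithin] with δ hδ
    have hδ' : (0:ℝ) < δ := hδ
    have : Real.log (Real.pi * δ / 2) = Real.log (Real.pi / 2) + Real.log δ := by
      rw [← Real.log_mul (by positivity) hδ'.ne']
      ring_nf
    rw [this]
    ring
  have t3 : ∀ e : ℝ, 0 < e → Tendsto (fun δ : ℝ => e / δ) (𝓝[>] 0) atTop := by
    intro e he
    simp only [div_eq_mul_inv]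
    exact tendsto_inv_nhdsGT_zero.const_mul_atTop he
  have t4 : Tendsto (fun δ : ℝ => R - 2 + d / 2 * Real.exp (-B + (Real.exp (Real.exp (d / 2 / δ)) - 1)))
      (𝓝[>] 0) atTop := by
    apply tendsto_atTop_add_const_left
    apply Tendsto.const_mul_atTop (by positivity)
    apply Real.tendsto_exp_atTop.comp
    apply tendsto_atTop_add_const_left
    apply tendsto_atTop_add_const_right _ (-1)
    exact Real.tendsto_exp_atTop.comp (Real.tendsto_exp_atTop.comp (t3 (d/2) (by positivity)))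
  have t5 := Real.tendsto_exp_atTop.comp (t3 d hd)
  have K0 : 0 < Real.exp (B + (Real.exp (Real.exp 1) + 1)) := Real.exp_pos _
  filter_upwards [self_mem_nhdsWithin, ev_le (show (0:ℝ) < 1/2 by norm_num),
    ev_le (show 0 < d/2 by positivity), ev_le (show 0 < ε/2 by positivity),
    ev_le (show 0 < y0/Real.pi by positivity), t2.eventually (eventually_le_nhds (show (0:ℝ) < 1/2 by norm_num)),
    t2.eventually (eventually_le_nhds hη),
    ev_le (show 0 < 1/(4 * Real.exp (B + (Real.exp (Real.exp 1) + 1))) by positivity),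
    ev_le (show 0 < 1/(B+1) by positivity), ev_le (Real.exp_pos (-B-1)),
    t4.eventually_ge_atTop R', t5.eventually_ge_atTop (max 48 (max (8 * (B + 1 + 1))
      (2 * (B + 7 - Real.log d))))]
    with δ q0 q1 q2 q3 q4 q5 q6 q7 q8 q9 q10 q11
  have q0' : 0 < δ := q0
  refine ⟨q0, q1, by linarith, by linarith, ?_, q5, q6, ?_, ?_, q9, q10, ?_⟩
  · rw [le_div_iff₀ hpi] at q4
    linarith
  · rw [le_div_iff₀ (by positivity)] at q7
    linarith
  · rw [le_div_iff₀ (by positivity)] at q8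
    nlinarith
  · intro ρ hρ
    have h1 := q11.trans hρ
    exact rho_large hB ((le_max_left _ _).trans h1)
      ((le_max_left _ _).trans ((le_max_right _ _).trans h1))
      ((le_max_right _ _).trans ((le_max_right _ _).trans h1))

/-- State of the construction. -/
structure St where
  (H f : ℂ → ℂ)
  (β y : ℝ)

/-- domain of the `n`-th function -/
def dom (a β : ℝ) : Set ℂ := {s : ℂ | a < s.re ∧ -β < s.im}

lemma dom_convex (a β : ℝ) : Convex ℝ (dom a β) :=
  (convex_halfSpace_re_gt a).inter (convex_halfSpace_im_gt (-β))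

lemma dom_open (a β : ℝ) : IsOpen (dom a β) :=
  (isOpen_lt continuous_const Complex.continuous_re).inter
    (isOpen_lt continuous_const Complex.continuous_im)

/-- centre of the `n`-th correction -/
noncomputable def cc (n : ℕ) : ℝ := -(1/2)^n

structure Inv (n : ℕ) (st : St) : Prop where
  hβ : 0 < st.β
  hH : ∀ s ∈ dom (2 * cc n) st.β, DifferentiableAt ℂ st.H s
  hreal : ∀ x : ℝ, 2 * cc n < x → (st.H x).im = 0
  hf : ∀ s ∈ dom (2 * cc n) st.β, HasDerivAt st.f (exp (st.H s)) s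
  hy : 0 < st.y
  hy1 : st.y ≤ (1/2)^n
  hR : ∀ s : ℂ, cc n ≤ s.re → s.re ≤ n + 3 → 0 ≤ s.im → s.im ≤ st.y → (n:ℝ) - 1 ≤ (st.f s).re

structure Tr (n : ℕ) (st st' : St) : Prop where
  hδ : ∃ δ : ℝ, 0 < δ ∧ δ ≤ (1/2)^n / 2 ∧ ∀ s, st'.H s = st.H s + E ((s - cc n) / δ)
  hclose : ∀ s : ℂ, 0 ≤ s.re → s.re ≤ n + 3 → st.y ≤ s.im → s.im ≤ n + 3 →
    ‖st'.f s - st.f s‖ ≤ (1/2)^n
  hy : st'.y ≤ st.y / 2
  hcross : ∀ x0 : ℝ, 0 ≤ x0 → x0 ≤ n + 2 → JoinedIn {s : ℂ | |s.re - x0| ≤ (1/2)^n ∧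
    st'.y ≤ s.im ∧ s.im ≤ 2 * st.y ∧ (n:ℝ) - 4 ≤ ‖st'.f s‖} ((x0:ℂ) + st.y * I) ((x0:ℂ) + st'.y * I)

lemma cc_succ (n : ℕ) : 2 * cc (n+1) = cc n := by
  simp only [cc, pow_succ]; ring

lemma cc_neg (n : ℕ) : cc n < 0 := by
  have : (0:ℝ) < (1/2)^n := by positivity
  simp only [cc]; linarith

lemma cc_ge (n : ℕ) : -1 ≤ cc n := by
  have : ((1:ℝ)/2)^n ≤ 1 := pow_le_one₀ (by norm_num) (by norm_num)
  simp only [cc]; linarith

lemma exists_bound {f : ℂ → ℂ} {a b c d : ℝ} (hf : ∀ s : ℂ, a ≤ s.re → s.re ≤ b → c ≤ s.im → s.im ≤ d →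
    ContinuousAt f s) : ∃ C, ∀ s : ℂ, a ≤ s.re → s.re ≤ b → c ≤ s.im → s.im ≤ d → ‖f s‖ ≤ C := by
  have hc : IsCompact (Icc a b ×ℂ Icc c d) := isCompact_Icc.reProdIm isCompact_Icc
  obtain ⟨C, hC⟩ := hc.exists_bound_of_continuousOn (f := f) (by
    intro s hs
    rw [Complex.mem_reProdIm] at hs
    exact (hf s hs.1.1 hs.1.2 hs.2.1 hs.2.2).continuousWithinAt)
  refine ⟨C, fun s h1 h2 h3 h4 => hC s ?_⟩
  rw [Complex.mem_reProdIm]
  exact ⟨⟨h1, h2⟩, ⟨h3, h4⟩⟩

theorem stage_exists (n : ℕ) (st : St) (h : Inv n st) : ∃ st', Inv (n+1) st' ∧ Tr n st st' := by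
  obtain ⟨hβ, hH, hreal, hf, hy, hy1, hR⟩ := h
  have hcs := cc_succ n
  have hcn := cc_neg n
  have hcg := cc_ge n
  have hcn1 := cc_neg (n+1)
  have hn0 : (0:ℝ) ≤ n := Nat.cast_nonneg n
  have hpw : (0:ℝ) < (1/2)^n := by positivity
  have hpw1 : ((1:ℝ)/2)^(n+1) = (1/2)^n / 2 := by rw [pow_succ]; ring
  have hpwle : ((1:ℝ)/2)^n ≤ 1 := pow_le_one₀ (by norm_num) (by norm_num)
  have hccn : cc n = -(1/2)^n := rfl
  have hccn1 : cc (n+1) = -((1/2)^n / 2) := by rw [← hpw1]; rfl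
  have hbox : ∀ s : ℂ, cc n ≤ s.re → 0 ≤ s.im → s ∈ dom (2 * cc n) st.β := by
    intro s h1 h2
    exact ⟨by linarith, by linarith⟩
  have hHd : DifferentiableOn ℂ st.H (dom (2 * cc n) st.β) :=
    fun s hs => (hH s hs).differentiableWithinAt
  have hH'c : ∀ s ∈ dom (2 * cc n) st.β, ContinuousAt (deriv st.H) s := fun s hs =>
    ((hHd.deriv (dom_open _ _)).continuousOn).continuousAt ((dom_open _ _).mem_nhds hs)
  obtain ⟨B1, hB1⟩ := exists_bound (f := st.H) (a := cc n) (b := n + 3) (c := 0) (d := n + 3)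
    (fun s h1 _ h3 _ => (hH s (hbox s h1 h3)).continuousAt)
  obtain ⟨B2, hB2⟩ := exists_bound (f := deriv st.H) (a := cc n) (b := n + 3) (c := 0) (d := n + 3)
    (fun s h1 _ h3 _ => hH'c s (hbox s h1 h3))
  obtain ⟨B3, hB3⟩ := exists_bound (f := st.f) (a := cc n) (b := n + 3) (c := 0) (d := n + 3)
    (fun s h1 _ h3 _ => (hf s (hbox s h1 h3)).continuousAt)
  set B := max 0 (max B1 (max B2 B3)) with hB
  have hB0 : 0 ≤ B := le_max_left _ _
  have hB1' : B1 ≤ B := (le_max_left _ _).trans (le_max_right _ _)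
  have hB2' : B2 ≤ B := ((le_max_left _ _).trans (le_max_right _ _)).trans (le_max_right _ _)
  have hB3' : B3 ≤ B := ((le_max_right _ _).trans (le_max_right _ _)).trans (le_max_right _ _)
  have hev := small_delta (d := cc (n+1) - cc n) (B := B) (N := n + 3) (c := cc n) (y0 := st.y)
    (ε := (1/2)^(n+1)) (η := (1/2)^n) (R := n) (R' := n + 1) (by linarith) hB0 hy (by positivity)
    (by positivity)
  obtain ⟨δ, q0, q1, q2, q3, q4, q5, q6, q7, q8, q9, q10, q11⟩ := hev.exists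
  have hpi := Real.pi_gt_d2
  set H1 : ℂ → ℂ := fun s => st.H s + E ((s - cc n) / δ) with hH1
  set β' := min st.β (Real.pi * δ) with hβ'
  have hβ'0 : 0 < β' := lt_min hβ (by positivity)
  have hβ'1 : β' ≤ st.β := min_le_left _ _
  have hβ'2 : β' ≤ Real.pi * δ := min_le_right _ _
  have hdom : ∀ s ∈ dom (cc n) β', DifferentiableAt ℂ H1 s := by
    intro s hs
    have h1 : cc n < s.re := hs.1
    have h2 : -β' < s.im := hs.2
    apply DifferentiableAt.add
    · exact hH s ⟨by linarith, by linarith⟩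
    · have h3 : DifferentiableAt ℂ E ((s - cc n) / δ) := by
        apply E_diff
        · rw [Complex.div_ofReal_re]
          apply div_pos _ q0
          simp
          exact h1
        · rw [Complex.div_ofReal_im, lt_div_iff₀ q0]
          simp
          linarith
      have h4 : DifferentiableAt ℂ (fun s : ℂ => (s - cc n) / (δ:ℂ)) s := by fun_prop
      exact DifferentiableAt.comp (g := E) s h3 h4
  obtain ⟨g, hg⟩ := (dom_convex (cc n) β').exists_forall_hasDerivWithinAt (f := fun s => exp (H1 s))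
    (fun s hs => (hdom s hs).cexp.differentiableWithinAt)
  have hg' : ∀ s ∈ dom (cc n) β', HasDerivAt g (exp (H1 s)) s := fun s hs =>
    (hg s hs).hasDerivAt ((dom_open _ _).mem_nhds hs)
  set p1 : ℂ := ((1:ℝ):ℂ) + ((1:ℝ):ℂ) * I with hp1
  set f1 : ℂ → ℂ := fun s => g s - g p1 + st.f p1 with hf1
  have hf1' : ∀ s ∈ dom (cc n) β', HasDerivAt f1 (exp (H1 s)) s := fun s hs =>
    ((hg' s hs).sub_const _).add_const _
  let S : SD :=
    { c := cc n, c' := cc (n+1), N := n + 3, B := B, R := n, R' := n + 1, y0 := st.y, δ := δ,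
      ε := (1/2)^(n+1), η := (1/2)^n, H := st.H, H' := deriv st.H, f0 := st.f, f1 := f1
      hcc := by linarith
      hN := by linarith
      hB := hB0
      hc'1 := by linarith
      hc1 := hcg
      hδ := q0
      hy0 := hy
      hy1 := hy1.trans hpwle
      hH := fun s h1 _ h3 _ => (hH s (hbox s h1 h3)).hasDerivAt
      hHB := fun s h1 h2 h3 h4 => (hB1 s h1 h2 h3 h4).trans hB1'
      hHB' := fun s h1 h2 h3 h4 => (hB2 s h1 h2 h3 h4).trans hB2'
      hfB := fun s h1 h2 h3 h4 => (hB3 s h1 h2 h3 h4).trans hB3'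
      hf0 := fun s h1 _ h3 _ => hf s (hbox s h1 h3)
      hf1 := fun s h1 h2 => hf1' s ⟨h1, by linarith⟩
      hreal := fun x hx => hreal x (by linarith)
      hR := hR
      h1i := by simp [hf1, hp1]
      s1 := q1
      s2 := q2
      s3 := q3
      s4 := q4
      s5 := q5
      s5' := q6
      s6 := q7
      s7 := q8
      s8 := q9
      s9 := q10
      s10 := q11 }
  -- the new height
  obtain ⟨C1, hC1⟩ := exists_bound (f := fun s => exp (H1 s)) (a := cc (n+1)) (b := n + 4) (c := 0)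
    (d := 2) (fun s h1 _ h3 _ => (hdom s ⟨by linarith, by linarith⟩).cexp.continuousAt)
  obtain ⟨y', hy'0, hy'1, hy'2, hy'3⟩ : ∃ y' : ℝ, 0 < y' ∧ y' ≤ st.y / 2 ∧ y' ≤ (1/2)^(n+1) ∧
      |C1| * y' ≤ 1 := by
    refine ⟨min (st.y/2) (min ((1/2)^(n+1)) (1 / (|C1| + 1))), ?_, min_le_left _ _,
      (min_le_right _ _).trans (min_le_left _ _), ?_⟩
    · apply lt_min (by positivity) (lt_min (by positivity) (by positivity))
    · have h1 : min (st.y/2) (min ((1/2)^(n+1)) (1 / (|C1| + 1))) ≤ 1 / (|C1| + 1) :=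
        (min_le_right _ _).trans (min_le_right _ _)
      have h2 : 0 ≤ |C1| := abs_nonneg _
      calc _ ≤ |C1| * (1 / (|C1| + 1)) := by gcongr
        _ ≤ 1 := by
          rw [mul_one_div, div_le_one (by positivity)]
          linarith
  have hlip : ∀ x t u : ℝ, cc (n+1) ≤ x → x ≤ n + 4 → 0 ≤ t → t ≤ u → u ≤ 2 → u - t ≤ y' →
      ‖f1 ((x:ℂ) + u * I) - f1 ((x:ℂ) + t * I)‖ ≤ 1 := by
    intro x t u hx1 hx2 ht htu hu hut
    have := comp_ineq (a := t) (b := u) (f := fun v : ℝ => f1 ((x:ℂ) + v * I))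
      (f' := fun v : ℝ => exp (H1 ((x:ℂ) + v * I)) * I) (B := fun v => |C1| * v)
      (B' := fun v => |C1|) ?_ ?_ ?_ u ⟨htu, le_rfl⟩
    · refine this.trans ?_
      have h2 : 0 ≤ |C1| := abs_nonneg _
      calc |C1| * u - |C1| * t = |C1| * (u - t) := by ring
        _ ≤ |C1| * y' := by gcongr
        _ ≤ 1 := hy'3
    · intro v hv
      exact hd_v x (hf1' _ ⟨by simp; linarith, by simp; linarith [hv.1]⟩)
    · intro v _
      simpa using (hasDerivAt_id v).const_mul |C1|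
    · intro v hv
      rw [norm_mul, norm_I, mul_one]
      exact (hC1 _ (by simp; linarith) (by simp; linarith) (by simp; linarith [hv.1])
        (by simp; linarith [hv.2])).trans (le_abs_self _)
  have hy'h : y' ≤ 1 := by linarith
  refine ⟨⟨H1, f1, β', y'⟩, ⟨hβ'0, ?_, ?_, ?_, hy'0, hy'2, ?_⟩, ⟨⟨δ, q0, by linarith, ?_⟩, ?_, hy'1, ?_⟩⟩
  · rw [hcs]; exact hdom
  · intro x hx
    rw [hcs] at hx
    have e : ((x:ℂ) - cc n) / δ = (((x - cc n) / δ : ℝ) : ℂ) := by push_cast; rfl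
    simp only [hH1, Complex.add_im]
    rw [e, E_real, hreal x (by linarith), add_zero]
  · rw [hcs]; exact hf1'
  · intro s h1 h2 h3 h4
    push_cast at h2 ⊢
    simp only at h4
    have e0 : s = (s.re : ℂ) + s.im * I := (Complex.re_add_im s).symm
    have e1 : n + 1 ≤ (f1 (s.re : ℂ)).re := S.real_big h1
    have e2 := hlip s.re 0 s.im h1 (by linarith) le_rfl h3 (by linarith) (by linarith)
    have e3 := (abs_re_le_norm _).trans e2
    rw [← e0] at e3
    simp only [ofReal_zero, zero_mul, add_zero] at e3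
    rw [Complex.sub_re, abs_le] at e3
    change (n:ℝ) + 1 - 1 ≤ (f1 s).re
    linarith [e3.1]
  · intro s; rfl
  · intro s h1 h2 h3 h4
    have h5 : ‖f1 s - st.f s‖ ≤ S.err := by
      apply S.A1
      · change cc n + δ ≤ s.re
        linarith
      · exact h2
      · change Real.pi * δ / 2 ≤ s.im
        linarith
      · exact h4
    exact h5.trans S.s5'
  · intro x0 h1 h2
    have hcr := S.crossing (x0 := x0) (Y := st.y - y') (by change cc (n+1) ≤ x0; linarith)
      (by change x0 ≤ (n:ℝ) + 3 - 1; linarith) (by change st.y / 2 ≤ st.y - y'; linarith)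
      (by change st.y - y' ≤ st.y; linarith)
    have hm := hcr.map (f := fun s : ℂ => s + y' * I) (by fun_prop)
    have e1 : (x0:ℂ) + ((st.y - y' : ℝ) : ℂ) * I + y' * I = (x0:ℂ) + st.y * I := by
      push_cast; ring
    simp only [e1] at hm
    apply hm.mono
    rintro _ ⟨s, ⟨a1, a2, a3, a4⟩, rfl⟩
    change |s.re - x0| ≤ (1/2)^(n+1) at a1
    change s.im ≤ st.y at a3
    change (n:ℝ) - 3 ≤ ‖f1 s‖ at a4
    have a1' := abs_le.1 a1
    have e0 : s = (s.re : ℂ) + s.im * I := (Complex.re_add_im s).symm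
    have e3 : (s.re : ℂ) + ((s.im + y' : ℝ):ℂ) * I = s + y' * I := by
      apply Complex.ext <;> simp
    have e2 := hlip s.re s.im (s.im + y') (by linarith [a1'.1]) (by linarith [a1'.2]) a2
      (by linarith) (by linarith) (by linarith)
    rw [e3, ← e0] at e2
    refine ⟨?_, ?_, ?_, ?_⟩
    · have e5 : (s + y' * I).re = s.re := by simp
      change |(s + y' * I).re - x0| ≤ (1/2)^n
      rw [e5]
      linarith
    · simp
      exact a2
    · simp
      linarith
    · change (n:ℝ) - 4 ≤ ‖f1 (s + y' * I)‖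
      have e4 : ‖f1 s‖ ≤ ‖f1 (s + y' * I)‖ + ‖f1 (s + y' * I) - f1 s‖ := by
        calc ‖f1 s‖ = ‖f1 (s + y' * I) - (f1 (s + y' * I) - f1 s)‖ := by ring_nf
          _ ≤ _ := norm_sub_le _ _
      linarith

end Pool.Agent.H343.M
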