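import Pool.Agent.Helper343.M5

set_option autoImplicit false
set_option maxHeartbeats 4000000
open Filter Topology Complex MeasureTheory Set

namespace Pool.Agent.H343.M

lemma inv0 : Inv 0 ⟨fun _ => 0, id, 1, 1⟩ := by
  refine ⟨one_pos, ?_, ?_, ?_, one_pos, by norm_num, ?_⟩
  · intro s _; exact differentiableAt_const _
  · intro x _; simp
  · intro s _
    simp only [Complex.exp_zero]
    exact hasDerivAt_id s
  · intro s h1 _ _ _
    simp [cc] at h1 ⊢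
    linarith

noncomputable def sq : (n : ℕ) → {st : St // Inv n st}
  | 0 => ⟨_, inv0⟩
  | n + 1 => ⟨Classical.choose (stage_exists n (sq n).1 (sq n).2),
      (Classical.choose_spec (stage_exists n (sq n).1 (sq n).2)).1⟩

lemma sq_inv (n : ℕ) : Inv n (sq n).1 := (sq n).2

lemma sq_tr (n : ℕ) : Tr n (sq n).1 (sq (n+1)).1 :=
  (Classical.choose_spec (stage_exists n (sq n).1 (sq n).2)).2

noncomputable def fn (n : ℕ) : ℂ → ℂ := (sq n).1.f
noncomputable def Hn (n : ℕ) : ℂ → ℂ := (sq n).1.H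
noncomputable def yn (n : ℕ) : ℝ := (sq n).1.y

lemma yn_pos (n : ℕ) : 0 < yn n := (sq_inv n).hy
lemma yn_le (n : ℕ) : yn n ≤ (1/2)^n := (sq_inv n).hy1
lemma yn_le_one (n : ℕ) : yn n ≤ 1 := (yn_le n).trans (pow_le_one₀ (by norm_num) (by norm_num))
lemma yn_succ (n : ℕ) : yn (n+1) ≤ yn n := by
  have h1 := (sq_tr n).hy
  have h2 := yn_pos n
  unfold yn at *
  linarith

lemma yn_anti : Antitone yn := antitone_nat_of_succ_le yn_succ

/-- the compact pieces -/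
def KK (n : ℕ) : Set ℂ := {s : ℂ | 0 ≤ s.re ∧ s.re ≤ n + 3 ∧ yn n ≤ s.im ∧ s.im ≤ n + 3}

lemma KK_mono {n m : ℕ} (h : n ≤ m) : KK n ⊆ KK m := by
  rintro s ⟨h1, h2, h3, h4⟩
  have : (n:ℝ) ≤ m := by exact_mod_cast h
  exact ⟨h1, by linarith, (yn_anti h).trans h3, by linarith⟩

lemma fn_close {n m : ℕ} (h : n ≤ m) {s : ℂ} (hs : s ∈ KK n) : ‖fn (m+1) s - fn m s‖ ≤ (1/2)^m := by
  obtain ⟨h1, h2, h3, h4⟩ := KK_mono h hs
  exact (sq_tr m).hclose s h1 h2 h3 h4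

lemma fn_lim {n : ℕ} {s : ℂ} (hs : s ∈ KK n) :
    ∃ w, Tendsto (fun m => fn m s) atTop (𝓝 w) ∧ ∀ m, n ≤ m → ‖w - fn m s‖ ≤ 2 * (1/2)^m := by
  have hd : ∀ m, n ≤ m → ∀ k, dist (fn (m + k) s) (fn (m + (k + 1)) s) ≤ (1/2)^m * (1/2)^k := by
    intro m hm k
    rw [dist_comm, dist_eq_norm, ← pow_add]
    exact fn_close (n := n) (m := m + k) (by omega) hs
  have hc := cauchySeq_of_le_geometric (1/2) ((1/2)^n) (by norm_num) (hd n le_rfl)
  obtain ⟨w, hw⟩ := cauchySeq_tendsto_of_complete hc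
  have hw' : Tendsto (fun m => fn m s) atTop (𝓝 w) := by
    rw [← tendsto_add_atTop_iff_nat n]
    simpa only [add_comm] using hw
  refine ⟨w, hw', ?_⟩
  intro m hm
  have h1 : Tendsto (fun k => fn (m + k) s) atTop (𝓝 w) := by
    rw [← tendsto_add_atTop_iff_nat m] at hw'
    simpa only [add_comm] using hw'
  have h2 := dist_le_of_le_geometric_of_tendsto₀ (1/2) ((1/2)^m) (by norm_num) (hd m hm) h1
  rw [dist_comm, dist_eq_norm] at h2
  simp only [add_zero] at h2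
  refine h2.trans (le_of_eq ?_)
  norm_num
  ring

open Classical in
noncomputable def FF (s : ℂ) : ℂ :=
  if h : ∃ w, Tendsto (fun m => fn m s) atTop (𝓝 w) then h.choose else 0

lemma FF_spec {n : ℕ} {s : ℂ} (hs : s ∈ KK n) :
    Tendsto (fun m => fn m s) atTop (𝓝 (FF s)) ∧ ∀ m, n ≤ m → ‖FF s - fn m s‖ ≤ 2 * (1/2)^m := by
  obtain ⟨w, hw, hw2⟩ := fn_lim hs
  have h : ∃ w, Tendsto (fun m => fn m s) atTop (𝓝 w) := ⟨w, hw⟩
  have h1 : FF s = h.choose := by rw [FF, dif_pos h]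
  have h2 : FF s = w := by
    rw [h1]
    exact tendsto_nhds_unique h.choose_spec hw
  rw [h2]
  exact ⟨hw, hw2⟩

/-- the open quadrant -/
def Om : Set ℂ := {s : ℂ | 0 < s.re ∧ 0 < s.im}

lemma Om_open : IsOpen Om :=
  (isOpen_lt continuous_const Complex.continuous_re).inter
    (isOpen_lt continuous_const Complex.continuous_im)

lemma half_pow_tendsto : Tendsto (fun n : ℕ => ((1:ℝ)/2)^n) atTop (𝓝 0) :=
  tendsto_pow_atTop_nhds_zero_of_lt_one (by norm_num) (by norm_num)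

lemma yn_tendsto : Tendsto yn atTop (𝓝 0) :=
  squeeze_zero (fun n => (yn_pos n).le) yn_le half_pow_tendsto

/-- eventually a box is inside `KK n`. -/
lemma ev_box {a b d : ℝ} (ha : 0 < a) : ∃ n : ℕ, ∀ s : ℂ, 0 ≤ s.re → s.re ≤ b → a ≤ s.im → s.im ≤ d →
    s ∈ KK n := by
  have h1 : ∀ᶠ n : ℕ in atTop, yn n < a := yn_tendsto.eventually (eventually_lt_nhds ha)
  have h2 : ∀ᶠ n : ℕ in atTop, max b d ≤ (n:ℝ) :=
    tendsto_natCast_atTop_atTop.eventually_ge_atTop _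
  obtain ⟨n, h3, h4⟩ := (h1.and h2).exists
  refine ⟨n, fun s q1 q2 q3 q4 => ⟨q1, ?_, ?_, ?_⟩⟩
  · linarith [le_max_left b d]
  · linarith
  · linarith [le_max_right b d]

lemma fn_diff (n : ℕ) {s : ℂ} (h1 : 0 ≤ s.re) (h2 : 0 ≤ s.im) : HasDerivAt (fn n) (exp (Hn n s)) s := by
  have h := sq_inv n
  have hc := cc_neg n
  apply h.hf
  exact ⟨by linarith, by linarith [h.hβ]⟩

lemma FF_lu : TendstoLocallyUniformlyOn fn FF atTop Om := by
  rw [Metric.tendstoLocallyUniformlyOn_iff]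
  intro ε hε x hx
  obtain ⟨n, hn⟩ := ev_box (a := x.im / 2) (b := x.re + 1) (d := x.im + 1) (by linarith [hx.2])
  refine ⟨{s : ℂ | 0 < s.re ∧ s.re < x.re + 1 ∧ x.im / 2 < s.im ∧ s.im < x.im + 1}, ?_, ?_⟩
  · apply mem_nhdsWithin_of_mem_nhds
    have e1 : ∀ᶠ s : ℂ in 𝓝 x, 0 < s.re :=
      (Complex.continuous_re.tendsto x).eventually (eventually_gt_nhds hx.1)
    have e2 : ∀ᶠ s : ℂ in 𝓝 x, s.re < x.re + 1 :=
      (Complex.continuous_re.tendsto x).eventually (eventually_lt_nhds (by linarith))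
    have e3 : ∀ᶠ s : ℂ in 𝓝 x, x.im / 2 < s.im :=
      (Complex.continuous_im.tendsto x).eventually (eventually_gt_nhds (by linarith [hx.2]))
    have e4 : ∀ᶠ s : ℂ in 𝓝 x, s.im < x.im + 1 :=
      (Complex.continuous_im.tendsto x).eventually (eventually_lt_nhds (by linarith))
    filter_upwards [e1, e2, e3, e4] with s a1 a2 a3 a4
    exact ⟨a1, a2, a3, a4⟩
  · have h1 : ∀ᶠ m : ℕ in atTop, 2 * ((1:ℝ)/2)^m < ε := by
      have := half_pow_tendsto.const_mul 2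
      rw [mul_zero] at this
      exact this.eventually (eventually_lt_nhds hε)
    filter_upwards [h1, eventually_ge_atTop n] with m hm hnm s hs
    rw [dist_eq_norm]
    exact ((FF_spec (hn s hs.1.le hs.2.1.le hs.2.2.1.le hs.2.2.2.le)).2 m hnm).trans_lt hm

lemma fn_diffOn (n : ℕ) : DifferentiableOn ℂ (fn n) Om := fun _ hs =>
  (fn_diff n hs.1.le hs.2.le).differentiableAt.differentiableWithinAt

lemma FF_diff : DifferentiableOn ℂ FF Om :=
  FF_lu.differentiableOn (Eventually.of_forall fn_diffOn) Om_open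

lemma Hn_lim {s : ℂ} (hs : s ∈ Om) : ∃ w, Tendsto (fun n => Hn n s) atTop (𝓝 w) := by
  have hpi := Real.pi_pos
  have him : 0 < s.im := hs.2
  have h1 : ∀ᶠ n : ℕ in atTop, ((1:ℝ)/2)^n < s.im / Real.pi :=
    half_pow_tendsto.eventually (eventually_lt_nhds (by positivity))
  obtain ⟨n0, hn0⟩ := eventually_atTop.1 h1
  have hd : ∀ k, dist (Hn (n0 + k) s) (Hn (n0 + (k + 1)) s) ≤ (5 / s.im * (1/2)^n0) * (1/2)^k := by
    intro k
    obtain ⟨δ, q0, q1, q2⟩ := (sq_tr (n0 + k)).hδ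
    rw [dist_comm, dist_eq_norm]
    have e : Hn (n0 + (k + 1)) s - Hn (n0 + k) s = E ((s - cc (n0 + k)) / δ) := by
      have := q2 s
      change (sq (n0 + k + 1)).1.H s - (sq (n0 + k)).1.H s = _
      rw [this]; ring
    rw [e]
    have hp : (0:ℝ) < (1/2)^(n0 + k) := by positivity
    have h2 := hn0 (n0 + k) (by omega)
    rw [lt_div_iff₀ hpi] at h2
    have hb := E_bound (z := (s - cc (n0 + k)) / δ) ?_ ?_
    · refine hb.trans ?_
      have him2 : ((s - cc (n0 + k)) / δ).im = s.im / δ := by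
        rw [Complex.div_ofReal_im]; simp
      rw [him2, mul_assoc, ← pow_add]
      have e2 : 10 / (s.im / δ) = 10 / s.im * δ := by field_simp
      rw [e2]
      calc 10 / s.im * δ ≤ 10 / s.im * ((1/2)^(n0 + k) / 2) := by gcongr
        _ = _ := by ring
    · rw [Complex.div_ofReal_re, le_div_iff₀ q0]
      simp only [Complex.sub_re, Complex.ofReal_re, cc]
      have := hs.1
      linarith
    · rw [Complex.div_ofReal_im, le_div_iff₀ q0]
      simp only [Complex.sub_im, Complex.ofReal_im, sub_zero]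
      have : Real.pi / 2 * δ ≤ Real.pi / 2 * ((1/2)^(n0 + k) / 2) := by gcongr
      have h3 : 0 < ((1:ℝ)/2)^(n0 + k) * Real.pi := by positivity
      linarith
  have hc := cauchySeq_of_le_geometric (1/2) _ (by norm_num) hd
  obtain ⟨w, hw⟩ := cauchySeq_tendsto_of_complete hc
  refine ⟨w, ?_⟩
  rw [← tendsto_add_atTop_iff_nat n0]
  simpa only [add_comm] using hw

lemma FF_deriv {s : ℂ} (hs : s ∈ Om) : deriv FF s ≠ 0 := by
  have h1 := FF_lu.deriv (Eventually.of_forall fn_diffOn) Om_open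
  have h2 := h1.tendsto_at hs
  obtain ⟨w, hw⟩ := Hn_lim hs
  have h3 : Tendsto (fun n => exp (Hn n s)) atTop (𝓝 (exp w)) :=
    (Complex.continuous_exp.tendsto w).comp hw
  have h4 : Tendsto (fun n => exp (Hn n s)) atTop (𝓝 (deriv FF s)) := by
    apply h2.congr
    intro n
    exact (fn_diff n hs.1.le hs.2.le).deriv
  rw [tendsto_nhds_unique h4 h3]
  exact Complex.exp_ne_zero w

lemma FF_edge {t : ℝ} (ht : 0 < t) : ∃ w, Tendsto (fun x : ℝ => FF ((x:ℂ) + t * I)) (𝓝[>] 0) (𝓝 w) := by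
  obtain ⟨n, hn⟩ := ev_box (a := t) (b := 1) (d := t) ht
  have hu : TendstoUniformlyOn (fun m (x : ℝ) => fn m ((x:ℂ) + t * I))
      (fun x : ℝ => FF ((x:ℂ) + t * I)) atTop (Icc 0 1) := by
    rw [Metric.tendstoUniformlyOn_iff]
    intro ε hε
    have h1 : ∀ᶠ m : ℕ in atTop, 2 * ((1:ℝ)/2)^m < ε := by
      have := half_pow_tendsto.const_mul 2
      rw [mul_zero] at this
      exact this.eventually (eventually_lt_nhds hε)
    filter_upwards [h1, eventually_ge_atTop n] with m hm hnm x hx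
    rw [dist_eq_norm]
    exact ((FF_spec (hn ((x:ℂ) + t * I) (by simp; exact hx.1) (by simp; exact hx.2) (by simp)
      (by simp))).2 m hnm).trans_lt hm
  have hc : ContinuousOn (fun x : ℝ => FF ((x:ℂ) + t * I)) (Icc 0 1) := by
    apply hu.continuousOn
    apply Frequently.of_forall
    intro m x hx
    have h1 := (fn_diff m (s := (x:ℂ) + t * I) (by simp; exact hx.1) (by simp; exact ht.le)).continuousAt
    have h2 : ContinuousAt (fun x : ℝ => (x:ℂ) + t * I) x := by fun_prop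
    exact (ContinuousAt.comp (f := fun x : ℝ => (x:ℂ) + t * I) h1 h2).continuousWithinAt
  refine ⟨FF (((0:ℝ):ℂ) + t * I), ?_⟩
  have h1 := hc 0 ⟨le_rfl, zero_le_one⟩
  have h2 : Tendsto (fun x : ℝ => FF ((x:ℂ) + t * I)) (𝓝[Icc 0 1] 0) (𝓝 (FF (((0:ℝ):ℂ) + t * I))) := h1
  exact h2.mono_left (nhdsWithin_le_of_mem (by
    exact Icc_mem_nhdsGT_of_mem ⟨le_rfl, zero_lt_one⟩))

lemma FF_level (n : ℕ) {x : ℝ} (hx : x ∈ Icc (1:ℝ) 2) : (n:ℝ) - 3 ≤ ‖FF ((x:ℂ) + yn n * I)‖ := by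
  have hy := yn_pos n
  have hy1 := yn_le_one n
  have hn0 : (0:ℝ) ≤ n := Nat.cast_nonneg n
  have hs : ((x:ℂ) + yn n * I) ∈ KK n :=
    ⟨by simp; linarith [hx.1], by simp; linarith [hx.2], by simp, by simp; linarith⟩
  have h1 := (FF_spec hs).2 n le_rfl
  have h2 := (sq_inv n).hR ((x:ℂ) + yn n * I) (by simp; linarith [cc_neg n, hx.1])
    (by simp; linarith [hx.2]) (by simp; exact hy.le) (by simp [yn])
  have h3 : ((1:ℝ)/2)^n ≤ 1 := pow_le_one₀ (by norm_num) (by norm_num)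
  have h4 := (abs_re_le_norm _).trans h1
  rw [Complex.sub_re, abs_le] at h4
  have h5 := re_le_norm (FF ((x:ℂ) + yn n * I))
  change (n:ℝ) - 1 ≤ (fn n ((x:ℂ) + yn n * I)).re at h2
  linarith [h4.1]

lemma FF_cross {x0 : ℝ} (hx0 : 0 < x0) : ∃ n0 : ℕ, ∀ n, n0 ≤ n →
    JoinedIn {s : ℂ | |s.re - x0| ≤ (1/2)^n ∧ 0 < s.re ∧ 0 < s.im ∧ s.im ≤ 2 * (1/2)^n ∧
      (n:ℝ) - 5 ≤ ‖FF s‖} ((x0:ℂ) + yn n * I) ((x0:ℂ) + yn (n+1) * I) := by
  have h1 : ∀ᶠ n : ℕ in atTop, ((1:ℝ)/2)^n < x0 := half_pow_tendsto.eventually (eventually_lt_nhds hx0)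
  have h2 : ∀ᶠ n : ℕ in atTop, x0 ≤ (n:ℝ) := tendsto_natCast_atTop_atTop.eventually_ge_atTop _
  obtain ⟨n0, hn0⟩ := eventually_atTop.1 (h1.and h2)
  refine ⟨n0, fun n hn => ?_⟩
  obtain ⟨h3, h4⟩ := hn0 n hn
  have h := (sq_tr n).hcross x0 hx0.le (by linarith)
  apply h.mono
  rintro s ⟨a1, a2, a3, a4⟩
  have a1' := abs_le.1 a1
  have hp : ((1:ℝ)/2)^n ≤ 1 := pow_le_one₀ (by norm_num) (by norm_num)
  have hy2 : (sq n).1.y ≤ (1/2)^n := yn_le n
  have hpos : 0 < (sq (n+1)).1.y := yn_pos (n+1)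
  have hn00 : (0:ℝ) ≤ n := Nat.cast_nonneg n
  have hs : s ∈ KK (n+1) := by
    refine ⟨by linarith [a1'.1], ?_, a2, ?_⟩
    · push_cast; linarith [a1'.2]
    · push_cast; linarith
  have h5 := (FF_spec hs).2 (n+1) le_rfl
  have h6 : ((1:ℝ)/2)^(n+1) ≤ 1/2 := by
    rw [pow_succ]; linarith
  have h7 : ‖fn (n+1) s‖ ≤ ‖FF s‖ + ‖FF s - fn (n+1) s‖ := by
    calc ‖fn (n+1) s‖ = ‖FF s - (FF s - fn (n+1) s)‖ := by ring_nf
      _ ≤ _ := norm_sub_le _ _
  change (n:ℝ) - 4 ≤ ‖fn (n+1) s‖ at a4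
  exact ⟨a1, by linarith [a1'.1], by linarith, by linarith, by linarith⟩

end Pool.Agent.H343.M
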