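import Pool.Agent.Helper343.M6

set_option autoImplicit false
set_option maxHeartbeats 4000000
open Filter Topology Complex MeasureTheory Set

namespace Pool.Agent.H343.M

/-! ### Gluing paths -/

lemma glue {S : ℕ → Set ℂ} {p : ℕ → ℂ} (h : ∀ n, JoinedIn (S n) (p n) (p (n+1))) :
    ∃ σ : ℝ → ℂ, ContinuousOn σ (Ici 0) ∧ ∀ n : ℕ, ∀ t ∈ Icc (n:ℝ) (n+1), σ t ∈ S n := by
  obtain ⟨q, hq⟩ : ∃ q : ℕ → ℝ → ℂ, ∀ n, q n = (h n).somePath.extend := ⟨fun n => (h n).somePath.extend, fun n => rfl⟩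
  set σ : ℝ → ℂ := fun t => q ⌊t⌋₊ (t - ⌊t⌋₊) with hσ
  have heq : ∀ n : ℕ, ∀ t ∈ Icc (n:ℝ) (n+1), σ t = (h n).somePath.extend (t - n) := by
    intro n t ht
    rcases ht.2.lt_or_eq with h1 | h1
    · have : ⌊t⌋₊ = n := by
        rw [Nat.floor_eq_iff ((Nat.cast_nonneg n).trans ht.1)]
        exact ⟨ht.1, h1⟩
      change q ⌊t⌋₊ (t - ⌊t⌋₊) = _
      rw [this, hq]
    · have h2 : ⌊t⌋₊ = n + 1 := by
        rw [h1]
        have := Nat.floor_natCast (R := ℝ) (n + 1)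
        push_cast at this
        exact this
      have e1 : σ t = (h (n+1)).somePath.extend (t - ((n + 1 : ℕ) : ℝ)) := by
        change q ⌊t⌋₊ (t - ⌊t⌋₊) = _
        rw [h2, hq]
      rw [e1, h1]
      have e2 : ((n:ℝ) + 1 - ((n + 1 : ℕ) : ℝ)) = 0 := by push_cast; ring
      have e3 : ((n:ℝ) + 1 - (n:ℝ)) = 1 := by ring
      rw [e2, e3, Path.extend_zero, Path.extend_one]
  refine ⟨σ, ?_, ?_⟩
  · have hseg : ∀ n : ℕ, ContinuousOn σ (Icc (n:ℝ) (n+1)) := by
      intro n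
      apply ContinuousOn.congr (f := fun t => (h n).somePath.extend (t - n))
      · exact ((h n).somePath.continuous_extend.comp (by fun_prop)).continuousOn
      · intro t ht; exact heq n t ht
    have hind : ∀ n : ℕ, ContinuousOn σ (Icc (0:ℝ) n) := by
      intro n
      induction n with
      | zero => simp
      | succ n ih =>
        have e : Icc (0:ℝ) ((n+1 : ℕ) : ℝ) = Icc (0:ℝ) n ∪ Icc (n:ℝ) (n+1) := by
          rw [Icc_union_Icc_eq_Icc (Nat.cast_nonneg n) (by linarith)]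
          push_cast
          rfl
        rw [e]
        exact ih.union_of_isClosed (hseg n) isClosed_Icc isClosed_Icc
    intro t ht
    obtain ⟨n, hn⟩ := exists_nat_gt t
    have h1 := hind n t ⟨ht, hn.le⟩
    apply h1.mono_of_mem_nhdsWithin
    have : Icc (0:ℝ) n = Ici 0 ∩ Iic (n:ℝ) := rfl
    rw [this]
    exact inter_mem_nhdsWithin _ (Iic_mem_nhds hn)
  · intro n t ht
    rw [heq n t ht]
    have h1 : t - n ∈ Icc (0:ℝ) 1 := ⟨by linarith [ht.1], by linarith [ht.2]⟩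
    rw [Path.extend_apply _ h1]
    exact (h n).somePath_mem _

/-! ### The conformal map -/

noncomputable def psi (s : ℂ) : ℂ := (s^2 - I) / (s^2 + I)
noncomputable def uu (z : ℂ) : ℂ := I * (1 + z) / (1 - z)
noncomputable def phi (z : ℂ) : ℂ := (uu z) ^ (2⁻¹ : ℂ)

lemma sq_add_I_ne {s : ℂ} (h1 : 0 ≤ s.re) (h2 : 0 ≤ s.im) : s^2 + I ≠ 0 := by
  intro h
  have := congrArg Complex.im h
  simp [pow_two] at this
  nlinarith [mul_nonneg h1 h2]

lemma psi_ball {s : ℂ} (hs : s ∈ Om) : psi s ∈ Metric.ball (0:ℂ) 1 := by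
  have h1 : 0 < s.re := hs.1
  have h2 : 0 < s.im := hs.2
  have hne := sq_add_I_ne h1.le h2.le
  rw [mem_ball_zero_iff, psi, norm_div, div_lt_one (norm_pos_iff.2 hne)]
  have him : 0 < (s^2).im := by simp [pow_two]; nlinarith [mul_pos h1 h2]
  rw [← sq_lt_sq₀ (norm_nonneg _) (norm_nonneg _), Complex.sq_norm, Complex.sq_norm,
    Complex.normSq_apply, Complex.normSq_apply]
  simp only [Complex.sub_re, Complex.sub_im, Complex.add_re, Complex.add_im, I_re, I_im]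
  nlinarith

lemma one_sub_ne {z : ℂ} (hz : z ∈ Metric.ball (0:ℂ) 1) : 1 - z ≠ 0 := by
  intro h
  rw [mem_ball_zero_iff] at hz
  have : z = 1 := by linear_combination -h
  rw [this, norm_one] at hz
  exact lt_irrefl _ hz

lemma uu_im {z : ℂ} (hz : z ∈ Metric.ball (0:ℂ) 1) : 0 < (uu z).im := by
  have hne := one_sub_ne hz
  have hpos : 0 < Complex.normSq (1 - z) := Complex.normSq_pos.2 hne
  rw [mem_ball_zero_iff] at hz
  have hz2 : z.re^2 + z.im^2 < 1 := by
    have : ‖z‖^2 < 1 := by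
      have := norm_nonneg z
      nlinarith
    rw [Complex.sq_norm, Complex.normSq_apply] at this
    nlinarith
  have e : (uu z).im = (1 - z.re^2 - z.im^2) / Complex.normSq (1 - z) := by
    rw [uu, Complex.div_im]
    simp
    field_simp
    ring
  rw [e]
  apply div_pos (by linarith) hpos

lemma uu_slit {z : ℂ} (hz : z ∈ Metric.ball (0:ℂ) 1) : uu z ∈ slitPlane :=
  Or.inr (uu_im hz).ne'

lemma uu_ne {z : ℂ} (hz : z ∈ Metric.ball (0:ℂ) 1) : uu z ≠ 0 := slitPlane_ne_zero (uu_slit hz)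

lemma phi_mem {z : ℂ} (hz : z ∈ Metric.ball (0:ℂ) 1) : phi z ∈ Om := by
  have h1 := uu_im hz
  have h2 : 0 < arg (uu z) := by
    rcases (Complex.arg_nonneg_iff.2 h1.le).lt_or_eq with h | h
    · exact h
    · exfalso
      have := (Complex.arg_eq_zero_iff.1 h.symm).2
      linarith
  have h3 : arg (uu z) < Real.pi := by
    rcases (Complex.arg_le_pi (uu z)).lt_or_eq with h | h
    · exact h
    · exfalso
      have := (Complex.arg_eq_pi_iff.1 h).2
      linarith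
  have e : phi z = exp (log (uu z) * 2⁻¹) := by
    rw [phi, Complex.cpow_def_of_ne_zero (uu_ne hz)]
  have e2 : (log (uu z) * 2⁻¹).im = arg (uu z) / 2 := by
    have : (log (uu z) * 2⁻¹) = log (uu z) * ((2⁻¹ : ℝ) : ℂ) := by push_cast; rfl
    rw [this, Complex.im_mul_ofReal, Complex.log_im]
    ring
  constructor
  · rw [e, Complex.exp_re, e2]
    apply mul_pos (Real.exp_pos _)
    apply Real.cos_pos_of_mem_Ioo
    constructor <;> linarith
  · rw [e, Complex.exp_im, e2]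
    apply mul_pos (Real.exp_pos _)
    apply Real.sin_pos_of_pos_of_lt_pi <;> linarith

lemma uu_psi {s : ℂ} (h1 : 0 ≤ s.re) (h2 : 0 ≤ s.im) : uu (psi s) = s^2 := by
  have hne := sq_add_I_ne h1 h2
  have hI := I_ne_zero
  have e : 1 - psi s = 2 * I / (s^2 + I) := by
    rw [psi]; field_simp; ring
  have e2 : 1 + psi s = 2 * s^2 / (s^2 + I) := by
    rw [psi]; field_simp; ring
  rw [uu, e, e2]
  field_simp

lemma phi_psi {s : ℂ} (hs : s ∈ Om) : phi (psi s) = s := by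
  rw [phi, uu_psi hs.1.le hs.2.le]
  exact Complex.sq_cpow_two_inv hs.1

lemma psi_phi {z : ℂ} (hz : z ∈ Metric.ball (0:ℂ) 1) : psi (phi z) = z := by
  have e : (phi z)^2 = uu z := by
    rw [phi]
    exact Complex.cpow_ofNat_inv_pow _ 2
  have hne := one_sub_ne hz
  have hI := I_ne_zero
  have e1 : uu z - I = 2 * I * z / (1 - z) := by rw [uu]; field_simp; ring
  have e2 : uu z + I = 2 * I / (1 - z) := by rw [uu]; field_simp; ring
  rw [psi, e, e1, e2]
  field_simp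

lemma phi_diff {z : ℂ} (hz : z ∈ Metric.ball (0:ℂ) 1) : DifferentiableAt ℂ phi z := by
  have hne := one_sub_ne hz
  have h1 : DifferentiableAt ℂ uu z := by
    unfold uu
    apply DifferentiableAt.div (by fun_prop) (by fun_prop) hne
  exact h1.cpow (differentiableAt_const _) (uu_slit hz)

lemma psi_diff {s : ℂ} (h1 : 0 ≤ s.re) (h2 : 0 ≤ s.im) : DifferentiableAt ℂ psi s := by
  unfold psi
  exact DifferentiableAt.div (by fun_prop) (by fun_prop) (sq_add_I_ne h1 h2)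

lemma phi_deriv {z : ℂ} (hz : z ∈ Metric.ball (0:ℂ) 1) : deriv phi z ≠ 0 := by
  intro h
  have hm := phi_mem hz
  have h1 : HasDerivAt (fun w => psi (phi w)) (deriv psi (phi z) * deriv phi z) z :=
    (psi_diff hm.1.le hm.2.le).hasDerivAt.comp z (phi_diff hz).hasDerivAt
  have h2 : HasDerivAt (fun w => psi (phi w)) 1 z := by
    apply (hasDerivAt_id z).congr_of_eventuallyEq
    filter_upwards [Metric.isOpen_ball.mem_nhds hz] with w hw
    exact psi_phi hw
  have := h1.unique h2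
  rw [h, mul_zero] at this
  exact zero_ne_one this

/-- the final function -/
noncomputable def ff (z : ℂ) : ℂ := FF (phi z)

lemma ff_psi {s : ℂ} (hs : s ∈ Om) : ff (psi s) = FF s := by rw [ff, phi_psi hs]

lemma ff_hasDeriv {z : ℂ} (hz : z ∈ Metric.ball (0:ℂ) 1) :
    HasDerivAt ff (deriv FF (phi z) * deriv phi z) z := by
  have hm := phi_mem hz
  have h1 : DifferentiableAt ℂ FF (phi z) := FF_diff.differentiableAt (Om_open.mem_nhds hm)
  exact h1.hasDerivAt.comp z (phi_diff hz).hasDerivAt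

lemma ff_deriv {z : ℂ} (hz : z ∈ Metric.ball (0:ℂ) 1) : deriv ff z ≠ 0 := by
  rw [(ff_hasDeriv hz).deriv]
  exact mul_ne_zero (FF_deriv (phi_mem hz)) (phi_deriv hz)

/-! ### Asymptotic curves -/

lemma psi_tendsto {s : ℂ} (h1 : 0 ≤ s.re) (h2 : 0 ≤ s.im) : Tendsto psi (𝓝 s) (𝓝 (psi s)) :=
  (psi_diff h1 h2).continuousAt

/-- asymptotic value `∞` at the lower half of the circle -/
lemma asym_low {x0 : ℝ} (hx0 : 0 < x0) : ∃ γ : ℝ → ℂ, ContinuousOn γ (Set.Ico 0 1) ∧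
    (∀ t ∈ Set.Ico (0 : ℝ) 1, γ t ∈ Metric.ball (0 : ℂ) 1) ∧
    Tendsto γ (𝓝[<] (1 : ℝ)) (𝓝 (psi x0)) ∧
    Tendsto (fun t => ‖ff (γ t)‖) (𝓝[<] (1 : ℝ)) atTop := by
  obtain ⟨n0, hn0⟩ := FF_cross hx0
  obtain ⟨σ, hσ1, hσ2⟩ := glue (S := fun n => {s : ℂ | |s.re - x0| ≤ (1/2)^(n0+n) ∧ 0 < s.re ∧
      0 < s.im ∧ s.im ≤ 2 * (1/2)^(n0+n) ∧ ((n0+n : ℕ):ℝ) - 5 ≤ ‖FF s‖})
    (p := fun n => (x0:ℂ) + yn (n0+n) * I) (fun n => hn0 (n0+n) (by omega))
  have hfl : ∀ t : ℝ, 0 ≤ t → t ∈ Icc ((⌊t⌋₊ : ℕ) : ℝ) ((⌊t⌋₊ : ℕ) + 1) := fun t ht =>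
    ⟨Nat.floor_le ht, (Nat.lt_floor_add_one t).le⟩
  have hOm : ∀ t : ℝ, 0 ≤ t → σ t ∈ Om := by
    intro t ht
    obtain ⟨_, h2, h3, _⟩ := hσ2 ⌊t⌋₊ t (hfl t ht)
    exact ⟨h2, h3⟩
  -- limit at infinity
  have hlim : Tendsto σ atTop (𝓝 (x0:ℂ)) := by
    rw [tendsto_iff_norm_sub_tendsto_zero]
    have hb : Tendsto (fun t : ℝ => 3 * ((1:ℝ)/2)^(⌊t⌋₊)) atTop (𝓝 0) := by
      have := (half_pow_tendsto.comp (tendsto_nat_floor_atTop (α := ℝ))).const_mul 3
      simpa using this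
    apply squeeze_zero' (Eventually.of_forall fun _ => norm_nonneg _) _ hb
    filter_upwards [eventually_ge_atTop (0:ℝ)] with t ht
    obtain ⟨h1, h2, h3, h4, _⟩ := hσ2 ⌊t⌋₊ t (hfl t ht)
    have h5 : ((1:ℝ)/2)^(n0 + ⌊t⌋₊) ≤ (1/2)^(⌊t⌋₊) :=
      pow_le_pow_of_le_one (by norm_num) (by norm_num) (by omega)
    have h6 := Complex.norm_le_abs_re_add_abs_im (σ t - x0)
    simp only [Complex.sub_re, Complex.ofReal_re, Complex.sub_im, Complex.ofReal_im, sub_zero,
      abs_of_pos h3] at h6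
    linarith
  have hbig : Tendsto (fun t => ‖FF (σ t)‖) atTop atTop := by
    have hb : Tendsto (fun t : ℝ => (t - 1) - 5) atTop atTop :=
      tendsto_atTop_add_const_right _ (-5) (tendsto_atTop_add_const_right _ (-1) tendsto_id)
    apply tendsto_atTop_mono' _ _ hb
    filter_upwards [eventually_ge_atTop (0:ℝ)] with t ht
    obtain ⟨_, _, _, _, h5⟩ := hσ2 ⌊t⌋₊ t (hfl t ht)
    have := Nat.lt_floor_add_one t
    push_cast at h5
    have hn00 : (0:ℝ) ≤ n0 := Nat.cast_nonneg n0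
    linarith
  -- reparametrisation
  set r : ℝ → ℝ := fun t => t / (1 - t) with hr
  have hr0 : ∀ t ∈ Ico (0:ℝ) 1, 0 ≤ r t := fun t ht =>
    div_nonneg ht.1 (by linarith [ht.2])
  have hrc : ContinuousOn r (Ico 0 1) := by
    apply ContinuousOn.div (by fun_prop) (by fun_prop)
    intro t ht
    linarith [ht.2]
  have hrt : Tendsto r (𝓝[<] 1) atTop := by
    have h1 : Tendsto (fun t : ℝ => 1 - t) (𝓝[<] 1) (𝓝[>] 0) := by
      apply tendsto_nhdsWithin_iff.2
      constructor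
      · have : Tendsto (fun t : ℝ => 1 - t) (𝓝 1) (𝓝 (1 - 1)) := by
          apply Continuous.tendsto; fun_prop
        rw [sub_self] at this
        exact this.mono_left nhdsWithin_le_nhds
      · filter_upwards [self_mem_nhdsWithin] with t ht
        have : t < 1 := ht
        simp
        exact this
    have h2 := (tendsto_inv_nhdsGT_zero (𝕜 := ℝ)).comp h1
    have h3 : Tendsto (fun t : ℝ => (1 - t)⁻¹ + (-1)) (𝓝[<] 1) atTop :=
      tendsto_atTop_add_const_right _ (-1) h2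
    apply h3.congr'
    filter_upwards [self_mem_nhdsWithin] with t ht
    have h4 : t < 1 := ht
    have h5 : 1 - t ≠ 0 := by linarith
    simp only [hr]
    field_simp
    ring
  have hev : ∀ᶠ t : ℝ in 𝓝[<] 1, 0 ≤ r t := hrt.eventually_ge_atTop 0
  refine ⟨fun t => psi (σ (r t)), ?_, ?_, ?_, ?_⟩
  · intro t ht
    have h1 := hOm (r t) (hr0 t ht)
    have h2 : ContinuousWithinAt (fun t => σ (r t)) (Ico 0 1) t :=
      (hσ1 (r t) (hr0 t ht)).comp (hrc t ht) (fun t ht => hr0 t ht)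
    exact ContinuousAt.comp_continuousWithinAt (f := fun t => σ (r t))
      (psi_diff h1.1.le h1.2.le).continuousAt h2
  · intro t ht
    exact psi_ball (hOm (r t) (hr0 t ht))
  · exact (psi_tendsto (s := (x0:ℂ)) (by simp; exact hx0.le) (by simp)).comp (hlim.comp hrt)
  · have h1 := hbig.comp hrt
    apply h1.congr'
    filter_upwards [hev] with t ht
    simp only [Function.comp]
    rw [ff_psi (hOm (r t) ht)]

/-- finite asymptotic values at the upper half of the circle -/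
lemma asym_up {y0 : ℝ} (hy0 : 0 < y0) : ∃ γ : ℝ → ℂ, ContinuousOn γ (Set.Ico 0 1) ∧
    (∀ t ∈ Set.Ico (0 : ℝ) 1, γ t ∈ Metric.ball (0 : ℂ) 1) ∧
    Tendsto γ (𝓝[<] (1 : ℝ)) (𝓝 (psi (y0 * I))) ∧
    ∃ w, Tendsto (fun t => ff (γ t)) (𝓝[<] (1 : ℝ)) (𝓝 w) := by
  obtain ⟨w, hw⟩ := FF_edge hy0
  have h1 : Tendsto (fun t : ℝ => 1 - t) (𝓝[<] 1) (𝓝[>] 0) := by
    apply tendsto_nhdsWithin_iff.2
    constructor
    · have : Tendsto (fun t : ℝ => 1 - t) (𝓝 1) (𝓝 (1 - 1)) := by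
        apply Continuous.tendsto; fun_prop
      rw [sub_self] at this
      exact this.mono_left nhdsWithin_le_nhds
    · filter_upwards [self_mem_nhdsWithin] with t ht
      have : t < 1 := ht
      simp
      exact this
  have hOm : ∀ t : ℝ, t < 1 → (((1 - t : ℝ):ℂ) + y0 * I) ∈ Om := by
    intro t ht
    constructor
    · simp; exact ht
    · simp; exact hy0
  refine ⟨fun t => psi (((1 - t : ℝ):ℂ) + y0 * I), ?_, ?_, ?_, w, ?_⟩
  · intro t ht
    have h2 := hOm t ht.2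
    have h3 : ContinuousAt (fun t : ℝ => ((1 - t : ℝ):ℂ) + y0 * I) t := by fun_prop
    exact (ContinuousAt.comp (f := fun t : ℝ => ((1 - t : ℝ):ℂ) + y0 * I)
      (psi_diff h2.1.le h2.2.le).continuousAt h3).continuousWithinAt
  · intro t ht
    exact psi_ball (hOm t ht.2)
  · have h2 : Tendsto (fun t : ℝ => ((1 - t : ℝ):ℂ) + y0 * I) (𝓝[<] 1) (𝓝 (y0 * I)) := by
      have : Tendsto (fun t : ℝ => ((1 - t : ℝ):ℂ) + y0 * I) (𝓝 1) (𝓝 (((1 - 1 : ℝ):ℂ) + y0 * I)) := by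
        apply Continuous.tendsto; fun_prop
      rw [sub_self, Complex.ofReal_zero, zero_add] at this
      exact this.mono_left nhdsWithin_le_nhds
    exact (psi_tendsto (s := y0 * I) (by simp) (by simp; exact hy0.le)).comp h2
  · have h2 := hw.comp h1
    apply h2.congr'
    filter_upwards [self_mem_nhdsWithin] with t ht
    simp only [Function.comp]
    rw [ff_psi (hOm t ht)]

/-! ### Surjectivity onto the two half-circles -/

lemma psi_real {u x : ℝ} (hx : x^2 = u) : psi x = ((u:ℂ) - I) / (u + I) := by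
  rw [psi, ← hx]; push_cast; rfl

lemma circle_point {ζ : ℂ} (hζ : ζ ∈ Metric.sphere (0:ℂ) 1) (him : ζ.im ≠ 0) :
    ∃ u : ℝ, ζ = ((u:ℂ) - I) / (u + I) ∧ (ζ.im < 0 → 0 < u) ∧ (0 < ζ.im → u < 0) := by
  rw [mem_sphere_zero_iff_norm] at hζ
  have hn : ζ.re^2 + ζ.im^2 = 1 := by
    have : ‖ζ‖^2 = 1 := by rw [hζ]; norm_num
    rw [Complex.sq_norm, Complex.normSq_apply] at this
    nlinarith
  have hre : ζ.re ≠ 1 := by
    intro h
    rw [h] at hn
    apply him
    nlinarith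
  have hre2 : 1 - ζ.re ≠ 0 := fun h => hre (by linarith)
  have hpos : 0 < 1 - ζ.re := by
    rcases lt_or_gt_of_ne hre with h | h
    · linarith
    · nlinarith [sq_nonneg ζ.im]
  refine ⟨-ζ.im / (1 - ζ.re), ?_, ?_, ?_⟩
  · set u : ℝ := -ζ.im / (1 - ζ.re) with hu
    have hne : (u:ℂ) + I ≠ 0 := by
      intro h
      have := congrArg Complex.im h
      simp at this
    rw [eq_div_iff hne]
    have hu2 : u * (1 - ζ.re) = -ζ.im := by rw [hu]; field_simp
    have hkey : u * ζ.im = -(1 + ζ.re) := by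
      have h3 : (u * ζ.im + (1 + ζ.re)) * (1 - ζ.re) = 0 := by
        have : u * ζ.im * (1 - ζ.re) = -ζ.im * ζ.im := by rw [← hu2]; ring
        nlinarith
      rcases mul_eq_zero.1 h3 with h | h
      · linarith
      · exact absurd h hre2
    apply Complex.ext
    · simp
      linarith
    · simp
      linarith
  · intro h
    exact div_pos (by linarith) hpos
  · intro h
    exact div_neg_of_neg_of_pos (by linarith) hpos

lemma asym_all {ζ : ℂ} (hζ : ζ ∈ Metric.sphere (0:ℂ) 1) (him : ζ.im ≠ 0) :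
    ∃ γ : ℝ → ℂ, ContinuousOn γ (Set.Ico 0 1) ∧
      (∀ t ∈ Set.Ico (0 : ℝ) 1, γ t ∈ Metric.ball (0 : ℂ) 1) ∧
      Tendsto γ (𝓝[<] (1 : ℝ)) (𝓝 ζ) ∧
      ((∃ w : ℂ, Tendsto (fun t => ff (γ t)) (𝓝[<] (1 : ℝ)) (𝓝 w)) ∨
        Tendsto (fun t => ‖ff (γ t)‖) (𝓝[<] (1 : ℝ)) atTop) := by
  obtain ⟨u, hu, h1, h2⟩ := circle_point hζ him
  rcases lt_or_gt_of_ne him with h | h
  · have hu0 := h1 h
    obtain ⟨γ, g1, g2, g3, g4⟩ := asym_low (x0 := √u) (Real.sqrt_pos.2 hu0)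
    refine ⟨γ, g1, g2, ?_, Or.inr g4⟩
    rwa [psi_real (Real.sq_sqrt hu0.le), ← hu] at g3
  · have hu0 := h2 h
    obtain ⟨γ, g1, g2, g3, g4⟩ := asym_up (y0 := √(-u)) (Real.sqrt_pos.2 (by linarith))
    refine ⟨γ, g1, g2, ?_, Or.inl g4⟩
    have e : psi ((√(-u) : ℝ) * I) = ζ := by
      have e1 : (((√(-u) : ℝ):ℂ) * I)^2 = (u:ℂ) := by
        rw [mul_pow, Complex.I_sq, ← Complex.ofReal_pow, Real.sq_sqrt (by linarith)]
        push_cast
        ring
      rw [psi, e1, ← hu]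
    rwa [e] at g3

lemma near_circle {ζ₀ : ℂ} (hζ : ζ₀ ∈ Metric.sphere (0:ℂ) 1) {ε : ℝ} (hε : 0 < ε) :
    ∃ ζ ∈ Metric.sphere (0:ℂ) 1, dist ζ ζ₀ < ε ∧ ζ.im ≠ 0 := by
  by_cases him : ζ₀.im = 0
  · have hc : Tendsto (fun t : ℝ => ζ₀ * exp (t * I)) (𝓝[>] 0) (𝓝 ζ₀) := by
      have : Tendsto (fun t : ℝ => ζ₀ * exp (t * I)) (𝓝 0) (𝓝 (ζ₀ * exp (((0:ℝ):ℂ) * I))) := by
        apply Continuous.tendsto; fun_prop
      rw [Complex.ofReal_zero, zero_mul, Complex.exp_zero, mul_one] at this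
      exact this.mono_left nhdsWithin_le_nhds
    have h1 := hc.eventually (Metric.ball_mem_nhds ζ₀ hε)
    have h2 : ∀ᶠ t : ℝ in 𝓝[>] 0, t < Real.pi :=
      eventually_nhdsWithin_of_eventually_nhds (eventually_lt_nhds Real.pi_pos)
    obtain ⟨t, ⟨h3, h4⟩, h5⟩ := ((h1.and h2).and self_mem_nhdsWithin).exists
    have h5' : 0 < t := h5
    rw [mem_sphere_zero_iff_norm] at hζ
    refine ⟨ζ₀ * exp (t * I), ?_, h3, ?_⟩
    · rw [mem_sphere_zero_iff_norm, norm_mul, hζ, Complex.norm_exp_ofReal_mul_I, one_mul]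
    · rw [Complex.mul_im, him, zero_mul, add_zero, Complex.exp_ofReal_mul_I_im]
      apply mul_ne_zero
      · intro h
        have : ζ₀ = 0 := Complex.ext h him
        rw [this, norm_zero] at hζ
        exact zero_ne_one hζ
      · exact (Real.sin_pos_of_pos_of_lt_pi h5' h4).ne'
  · exact ⟨ζ₀, hζ, by rwa [dist_self], him⟩

/-! ### The arc -/

lemma exp_arctan (v : ℝ) : exp (((-2 * Real.arctan v : ℝ) : ℂ) * I) = (1 - v * I) / (1 + v * I) := by
  set φ := Real.arctan v with hφ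
  have hc : Real.cos φ ≠ 0 := (Real.cos_arctan_pos v).ne'
  have hs : Real.sin φ = v * Real.cos φ := by
    have := Real.tan_arctan v
    rw [← hφ, Real.tan_eq_sin_div_cos, div_eq_iff hc] at this
    exact this
  have e1 : exp ((φ:ℂ) * I) = Real.cos φ * (1 + v * I) := by
    rw [Complex.exp_mul_I, ← Complex.ofReal_cos, ← Complex.ofReal_sin, hs]
    push_cast; ring
  have e2 : exp (-((φ:ℂ) * I)) = Real.cos φ * (1 - v * I) := by
    have : -((φ:ℂ) * I) = ((-φ : ℝ):ℂ) * I := by push_cast; ring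
    rw [this, Complex.exp_mul_I, ← Complex.ofReal_cos, ← Complex.ofReal_sin, Real.cos_neg,
      Real.sin_neg, hs]
    push_cast; ring
  have e3 : ((-2 * φ : ℝ) : ℂ) * I = -((φ:ℂ) * I) - (φ:ℂ) * I := by push_cast; ring
  have hc' : ((Real.cos φ : ℝ) : ℂ) ≠ 0 := by exact_mod_cast hc
  have hv : 1 + (v:ℂ) * I ≠ 0 := by
    intro h
    have := congrArg Complex.re h
    simp at this
  rw [e3, Complex.exp_sub, e1, e2]
  field_simp

lemma psi_exp {x : ℝ} (hx : 0 < x) : psi x = exp (((-2 * Real.arctan (1/x^2) : ℝ) : ℂ) * I) := by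
  rw [exp_arctan, psi]
  have hx' : (x:ℂ) ≠ 0 := by exact_mod_cast hx.ne'
  push_cast
  have h1 : (x:ℂ)^2 + I ≠ 0 := sq_add_I_ne (by simp; exact hx.le) (by simp)
  have h2 : (1 + 1 / (x:ℂ)^2 * I) ≠ 0 := by
    intro h
    apply h1
    have : (x:ℂ)^2 + I = (x:ℂ)^2 * (1 + 1 / (x:ℂ)^2 * I) := by field_simp
    rw [this, h, mul_zero]
  rw [div_eq_div_iff h1 h2]
  field_simp

lemma arc_eq {θ : ℝ} (h1 : -2 * Real.arctan 1 ≤ θ) (h2 : θ ≤ -2 * Real.arctan (1/4)) :
    ∃ x ∈ Icc (1:ℝ) 2, exp ((θ:ℂ) * I) = psi x := by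
  have hb1 := Real.neg_pi_div_two_lt_arctan (1/4)
  have hb2 := Real.arctan_lt_pi_div_two 1
  have h3 : Real.arctan (Real.tan (-θ/2)) = -θ/2 := Real.arctan_tan (by linarith) (by linarith)
  set v := Real.tan (-θ/2) with hv
  have hv1 : 1/4 ≤ v := by
    rw [← Real.arctan_strictMono.le_iff_le, h3]; linarith
  have hv2 : v ≤ 1 := by
    rw [← Real.arctan_strictMono.le_iff_le, h3]; linarith
  have hv0 : 0 < v := by linarith
  refine ⟨√(1/v), ⟨?_, ?_⟩, ?_⟩
  · rw [Real.one_le_sqrt, le_div_iff₀ hv0]; linarith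
  · rw [Real.sqrt_le_iff]
    refine ⟨by norm_num, ?_⟩
    rw [div_le_iff₀ hv0]; linarith
  · rw [psi_exp (Real.sqrt_pos.2 (by positivity)), Real.sq_sqrt (by positivity)]
    have : 1 / (1/v) = v := by field_simp
    rw [this, h3]
    congr 2
    push_cast
    ring

lemma arc_eq' {x : ℝ} (hx : x ∈ Icc (1:ℝ) 2) :
    psi x ∈ (fun θ : ℝ => Complex.exp ((θ : ℂ) * Complex.I)) ''
      Set.Icc (-2 * Real.arctan 1) (-2 * Real.arctan (1/4)) := by
  have hx0 : 0 < x := by linarith [hx.1]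
  refine ⟨-2 * Real.arctan (1/x^2), ⟨?_, ?_⟩, (psi_exp hx0).symm⟩
  · have : Real.arctan (1/x^2) ≤ Real.arctan 1 := by
      apply Real.arctan_strictMono.monotone
      rw [div_le_one (by positivity)]
      nlinarith [hx.1]
    linarith
  · have : Real.arctan (1/4) ≤ Real.arctan (1/x^2) := by
      apply Real.arctan_strictMono.monotone
      apply one_div_le_one_div_of_le (by positivity)
      nlinarith [hx.1, hx.2]
    linarith

end Pool.Agent.H343.M
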