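import Mathlib

set_option autoImplicit false
open MeasureTheory Filter Topology Metric

namespace Pool.Agent.H343N

/-- homogeneous coordinates of a point of the Riemann sphere -/
noncomputable def uv : Option ℂ → ℂ × ℂ
  | none => (1, 0)
  | some c => (c, 1)

noncomputable def dt (p q : ℂ × ℂ) : ℂ := p.1 * q.2 - p.2 * q.1

noncomputable def Zf (z : ℂ) : ℂ := 100 * ((1 - z)⁻¹ + Complex.log (1 - z)⁻¹)

noncomputable def Ef (r : ℝ) : ℝ :=
  ∫ θ in (-Real.pi)..Real.pi, Real.exp (Zf (circleMap 0 r θ)).re

/-- the function `|cos y|` restricted to the tracts `|y - k π| ≤ π/2` with `|k| ∈ S` -/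
noncomputable def psiS (S : Set ℕ) (y : ℝ) : ℝ := by
  classical exact if (round (y / Real.pi)).natAbs ∈ S then |Real.cos y| else 0

end Pool.Agent.H343N
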