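import Mathlib
import Pool.Agent.Helper343.NDefs

set_option autoImplicit false
set_option maxHeartbeats 4000000
open MeasureTheory Filter Topology Metric

namespace Pool.Agent.H343N.J1

/-! ### helper definitions -/

noncomputable def Dc (w1 w2 : ℂ → ℂ) (z : ℂ) : ℂ := w1 z * star (w1 z) + w2 z * star (w2 z)
noncomputable def Nc (w1 w2 : ℂ → ℂ) (z : ℂ) : ℂ :=
  deriv w1 z * star (w1 z) + deriv w2 z * star (w2 z)
noncomputable def Ac (w1 w2 : ℂ → ℂ) (z : ℂ) : ℂ :=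
  deriv (deriv w1) z * star (w1 z) + deriv (deriv w2) z * star (w2 z)
noncomputable def Ph (w1 w2 : ℂ → ℂ) (z : ℂ) : ℂ := Nc w1 w2 z / Dc w1 w2 z
noncomputable def Pz (w1 w2 : ℂ → ℂ) (z : ℂ) : ℂ :=
  Ac w1 w2 z / Dc w1 w2 z - Nc w1 w2 z ^ 2 / Dc w1 w2 z ^ 2
noncomputable def SS (w1 w2 : ℂ → ℂ) (z : ℂ) : ℝ :=
  ‖deriv w1 z * w2 z - w1 z * deriv w2 z‖ ^ 2 / (‖w1 z‖ ^ 2 + ‖w2 z‖ ^ 2) ^ 2

theorem star_mul_self_h (a : ℂ) : a * star a = ((‖a‖ ^ 2 : ℝ) : ℂ) := by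
  rw [Complex.star_def, Complex.mul_conj, Complex.normSq_eq_norm_sq]

theorem Dc_eq (w1 w2 : ℂ → ℂ) (z : ℂ) :
    Dc w1 w2 z = ((‖w1 z‖ ^ 2 + ‖w2 z‖ ^ 2 : ℝ) : ℂ) := by
  unfold Dc
  rw [star_mul_self_h, star_mul_self_h]
  push_cast; ring

theorem SS_eq (w1 w2 : ℂ → ℂ) (z : ℂ) :
    (SS w1 w2 z : ℂ) = ((deriv w1 z * w2 z - w1 z * deriv w2 z) *
      star (deriv w1 z * w2 z - w1 z * deriv w2 z)) / (Dc w1 w2 z) ^ 2 := by
  rw [Dc_eq, star_mul_self_h]
  unfold SS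
  push_cast
  rfl

theorem Dpos {w1 w2 : ℂ → ℂ} {z : ℂ} (h : w1 z ≠ 0 ∨ w2 z ≠ 0) :
    0 < ‖w1 z‖ ^ 2 + ‖w2 z‖ ^ 2 := by
  rcases h with h | h
  · have := norm_pos_iff.2 h
    positivity
  · have := norm_pos_iff.2 h
    positivity

/-- derivative of `Φ` along a curve -/
theorem Ph_curve {w1 w2 : ℂ → ℂ} (h1 : DifferentiableOn ℂ w1 (ball 0 1))
    (h2 : DifferentiableOn ℂ w2 (ball 0 1))
    (hne : ∀ z ∈ ball (0:ℂ) 1, w1 z ≠ 0 ∨ w2 z ≠ 0) {c : ℝ → ℂ} {ξ : ℂ} {τ : ℝ}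
    (hc : HasDerivAt c ξ τ) (hz : c τ ∈ ball (0:ℂ) 1) :
    HasDerivAt (fun t => Ph w1 w2 (c t))
      (ξ * Pz w1 w2 (c τ) + star ξ * (SS w1 w2 (c τ) : ℂ)) τ := by
  have hD : Dc w1 w2 (c τ) ≠ 0 := by
    rw [Dc_eq]
    exact_mod_cast (Dpos (hne _ hz)).ne'
  have hop : ball (0:ℂ) 1 ∈ 𝓝 (c τ) := isOpen_ball.mem_nhds hz
  have d1 : HasDerivAt (fun t => w1 (c t)) (ξ * deriv w1 (c τ)) τ := by
    have := (h1.differentiableAt hop).hasDerivAt.scomp τ hc
    simpa [smul_eq_mul, Function.comp_def] using this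
  have d2 : HasDerivAt (fun t => w2 (c t)) (ξ * deriv w2 (c τ)) τ := by
    have := (h2.differentiableAt hop).hasDerivAt.scomp τ hc
    simpa [smul_eq_mul, Function.comp_def] using this
  have e1 : HasDerivAt (fun t => deriv w1 (c t)) (ξ * deriv (deriv w1) (c τ)) τ := by
    have := ((h1.deriv isOpen_ball).differentiableAt hop).hasDerivAt.scomp τ hc
    simpa [smul_eq_mul, Function.comp_def] using this
  have e2 : HasDerivAt (fun t => deriv w2 (c t)) (ξ * deriv (deriv w2) (c τ)) τ := by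
    have := ((h2.deriv isOpen_ball).differentiableAt hop).hasDerivAt.scomp τ hc
    simpa [smul_eq_mul, Function.comp_def] using this
  have s1 := d1.star
  have s2 := d2.star
  have hN : HasDerivAt (fun t => Nc w1 w2 (c t)) _ τ := (e1.mul s1).add (e2.mul s2)
  have hDD : HasDerivAt (fun t => Dc w1 w2 (c t)) _ τ := (d1.mul s1).add (d2.mul s2)
  have hP := hN.div hDD hD
  refine hP.congr_deriv ?_
  rw [SS_eq]
  unfold Pz
  have hD2 : Dc w1 w2 (c τ) ^ 2 ≠ 0 := pow_ne_zero 2 hD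
  simp only [Pi.star_apply, star_mul, star_sub]
  field_simp
  unfold Nc Ac Dc
  ring

section main

variable {w1 w2 : ℂ → ℂ} (h1 : DifferentiableOn ℂ w1 (ball 0 1))
    (h2 : DifferentiableOn ℂ w2 (ball 0 1))
    (hne : ∀ z ∈ ball (0:ℂ) 1, w1 z ≠ 0 ∨ w2 z ≠ 0)

include h1 h2 hne

theorem Ph_cont : ContinuousOn (Ph w1 w2) (ball 0 1) := by
  have c1 := h1.continuousOn
  have c2 := h2.continuousOn
  have d1 := (h1.deriv isOpen_ball).continuousOn
  have d2 := (h2.deriv isOpen_ball).continuousOn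
  unfold Ph
  apply ContinuousOn.div
  · unfold Nc
    exact (d1.mul c1.star).add (d2.mul c2.star)
  · unfold Dc
    exact (c1.mul c1.star).add (c2.mul c2.star)
  · intro z hz
    rw [Dc_eq]
    exact_mod_cast (Dpos (hne _ hz)).ne'

theorem Pz_cont : ContinuousOn (Pz w1 w2) (ball 0 1) := by
  have c1 := h1.continuousOn
  have c2 := h2.continuousOn
  have d1 := (h1.deriv isOpen_ball).continuousOn
  have d2 := (h2.deriv isOpen_ball).continuousOn
  have e1 := ((h1.deriv isOpen_ball).deriv isOpen_ball).continuousOn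
  have e2 := ((h2.deriv isOpen_ball).deriv isOpen_ball).continuousOn
  have hD : ContinuousOn (Dc w1 w2) (ball 0 1) := by
    unfold Dc
    exact (c1.mul c1.star).add (c2.mul c2.star)
  have hD0 : ∀ z ∈ ball (0:ℂ) 1, Dc w1 w2 z ≠ 0 := by
    intro z hz
    rw [Dc_eq]
    exact_mod_cast (Dpos (hne _ hz)).ne'
  have hN : ContinuousOn (Nc w1 w2) (ball 0 1) := by
    unfold Nc
    exact (d1.mul c1.star).add (d2.mul c2.star)
  have hA : ContinuousOn (Ac w1 w2) (ball 0 1) := by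
    unfold Ac
    exact (e1.mul c1.star).add (e2.mul c2.star)
  unfold Pz
  exact (hA.div hD hD0).sub ((hN.pow 2).div (hD.pow 2) fun z hz => pow_ne_zero 2 (hD0 z hz))

theorem SS_cont : ContinuousOn (SS w1 w2) (ball 0 1) := by
  have c1 := h1.continuousOn
  have c2 := h2.continuousOn
  have d1 := (h1.deriv isOpen_ball).continuousOn
  have d2 := (h2.deriv isOpen_ball).continuousOn
  unfold SS
  apply ContinuousOn.div
  · exact (((d1.mul c2).sub (c1.mul d2)).norm).pow 2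
  · exact ((c1.norm.pow 2).add (c2.norm.pow 2)).pow 2
  · intro z hz
    exact pow_ne_zero 2 (Dpos (hne _ hz)).ne'

omit h1 h2 hne in
theorem circ_mem {ρ : ℝ} (h0 : 0 ≤ ρ) (hρ : ρ < 1) (θ : ℝ) : circleMap 0 ρ θ ∈ ball (0:ℂ) 1 := by
  rw [mem_ball_zero_iff, norm_circleMap_zero, abs_of_nonneg h0]
  exact hρ

omit h1 h2 hne in
theorem circ_cont : Continuous fun p : ℝ × ℝ => circleMap 0 p.1 p.2 := by
  unfold circleMap
  fun_prop

omit h1 h2 hne in
theorem circ_maps {r : ℝ} (hr1 : r < 1) :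
    Set.MapsTo (fun p : ℝ × ℝ => circleMap 0 p.1 p.2) (Set.Icc 0 r ×ˢ Set.univ)
      (ball (0:ℂ) 1) := by
  rintro ⟨ρ, θ⟩ ⟨hρ, _⟩
  exact circ_mem hρ.1 (hρ.2.trans_lt hr1) θ

omit h1 h2 hne in
/-- continuity transfer -/
theorem cont_transfer {r : ℝ} (hr1 : r < 1) {G : ℂ → ℂ} (hG : ContinuousOn G (ball 0 1)) :
    ContinuousOn (fun p : ℝ × ℝ => G (circleMap 0 p.1 p.2)) (Set.Icc 0 r ×ˢ Set.univ) :=
  hG.comp circ_cont.continuousOn (circ_maps hr1)

end main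

/-- radial derivative of `z Φ(z)` -/
noncomputable def Fr (w1 w2 : ℂ → ℂ) (ρ θ : ℝ) : ℂ :=
  Complex.exp (θ * Complex.I) * Ph w1 w2 (circleMap 0 ρ θ) + circleMap 0 ρ θ *
    (Complex.exp (θ * Complex.I) * Pz w1 w2 (circleMap 0 ρ θ) +
      star (Complex.exp (θ * Complex.I)) * (SS w1 w2 (circleMap 0 ρ θ) : ℂ))

/-- angular derivative of `z Φ(z)` -/
noncomputable def Ft (w1 w2 : ℂ → ℂ) (ρ θ : ℝ) : ℂ :=
  circleMap 0 ρ θ * Complex.I * Ph w1 w2 (circleMap 0 ρ θ) + circleMap 0 ρ θ *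
    (circleMap 0 ρ θ * Complex.I * Pz w1 w2 (circleMap 0 ρ θ) +
      star (circleMap 0 ρ θ * Complex.I) * (SS w1 w2 (circleMap 0 ρ θ) : ℂ))

noncomputable def FF (w1 w2 : ℂ → ℂ) (ρ θ : ℝ) : ℂ :=
  circleMap 0 ρ θ * Ph w1 w2 (circleMap 0 ρ θ)

theorem polar_identity (w1 w2 : ℂ → ℂ) (ρ θ : ℝ) :
    ρ * Fr w1 w2 ρ θ + Complex.I * Ft w1 w2 ρ θ =
      ((2 * ρ ^ 2 * SS w1 w2 (circleMap 0 ρ θ) : ℝ) : ℂ) := by
  have e : circleMap 0 ρ θ = ρ * Complex.exp (θ * Complex.I) := by simp [circleMap]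
  have hee : Complex.exp (θ * Complex.I) * star (Complex.exp (θ * Complex.I)) = 1 := by
    rw [star_mul_self_h, Complex.norm_exp_ofReal_mul_I]; norm_num
  have hI : star Complex.I = - Complex.I := by simp
  have hρ : star (ρ : ℂ) = ρ := by simp
  unfold Fr Ft
  generalize Ph w1 w2 (circleMap 0 ρ θ) = P
  generalize Pz w1 w2 (circleMap 0 ρ θ) = Q
  generalize SS w1 w2 (circleMap 0 ρ θ) = S
  rw [e]
  generalize Complex.exp (θ * Complex.I) = E at hee ⊢
  simp only [star_mul, hI, hρ]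
  push_cast
  have hI2 : Complex.I ^ 2 = -1 := Complex.I_sq
  linear_combination (ρ * E * P + ρ ^ 2 * E ^ 2 * Q - ρ ^ 2 * E * star E * S) * hI2 +
    (2 * ρ ^ 2 * S) * hee

section main2

variable {w1 w2 : ℂ → ℂ} (h1 : DifferentiableOn ℂ w1 (ball 0 1))
    (h2 : DifferentiableOn ℂ w2 (ball 0 1))
    (hne : ∀ z ∈ ball (0:ℂ) 1, w1 z ≠ 0 ∨ w2 z ≠ 0)

include h1 h2 hne

theorem FF_r {ρ : ℝ} (h0 : 0 ≤ ρ) (hρ : ρ < 1) (θ : ℝ) :
    HasDerivAt (fun s => FF w1 w2 s θ) (Fr w1 w2 ρ θ) ρ := by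
  have hc : HasDerivAt (fun s : ℝ => circleMap 0 s θ) (Complex.exp (θ * Complex.I)) ρ := by
    have : HasDerivAt (fun s : ℝ => (s : ℂ) * Complex.exp (θ * Complex.I))
        (1 * Complex.exp (θ * Complex.I)) ρ :=
      (Complex.ofRealCLM.hasDerivAt (x := ρ)).mul_const _
    simpa [circleMap] using this
  have h := hc.mul (Ph_curve h1 h2 hne hc (circ_mem h0 hρ θ))
  exact h

theorem FF_t {ρ : ℝ} (h0 : 0 ≤ ρ) (hρ : ρ < 1) (θ : ℝ) :
    HasDerivAt (fun s => FF w1 w2 ρ s) (Ft w1 w2 ρ θ) θ := by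
  have hc := hasDerivAt_circleMap 0 ρ θ
  have h := hc.mul (Ph_curve h1 h2 hne hc (circ_mem h0 hρ θ))
  exact h

theorem Fr_cont {r : ℝ} (hr1 : r < 1) :
    ContinuousOn (fun p : ℝ × ℝ => Fr w1 w2 p.1 p.2) (Set.Icc 0 r ×ˢ Set.univ) := by
  have a := cont_transfer hr1 (Ph_cont h1 h2 hne)
  have b := cont_transfer hr1 (Pz_cont h1 h2 hne)
  have c := cont_transfer hr1
    (Complex.continuous_ofReal.comp_continuousOn (SS_cont h1 h2 hne))
  have d : Continuous fun p : ℝ × ℝ => Complex.exp (p.2 * Complex.I) := by fun_prop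
  unfold Fr
  exact (d.continuousOn.mul a).add (circ_cont.continuousOn.mul
    ((d.continuousOn.mul b).add (d.star.continuousOn.mul c)))

theorem Ft_cont {r : ℝ} (hr1 : r < 1) :
    ContinuousOn (fun p : ℝ × ℝ => Ft w1 w2 p.1 p.2) (Set.Icc 0 r ×ˢ Set.univ) := by
  have a := cont_transfer hr1 (Ph_cont h1 h2 hne)
  have b := cont_transfer hr1 (Pz_cont h1 h2 hne)
  have c := cont_transfer hr1
    (Complex.continuous_ofReal.comp_continuousOn (SS_cont h1 h2 hne))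
  have d : Continuous fun p : ℝ × ℝ => circleMap 0 p.1 p.2 * Complex.I :=
    circ_cont.mul continuous_const
  unfold Ft
  exact (d.continuousOn.mul a).add (circ_cont.continuousOn.mul
    ((d.continuousOn.mul b).add (d.star.continuousOn.mul c)))

omit h1 h2 hne in
theorem slice_cont {r : ℝ} {G : ℝ → ℝ → ℂ}
    (hG : ContinuousOn (fun p : ℝ × ℝ => G p.1 p.2) (Set.Icc 0 r ×ˢ Set.univ)) {ρ : ℝ}
    (h0 : 0 ≤ ρ) (hρ : ρ ≤ r) : Continuous (G ρ) := by
  rw [← continuousOn_univ]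
  exact hG.comp (f := fun θ : ℝ => (ρ, θ)) (by fun_prop) (fun θ _ => ⟨⟨h0, hρ⟩, Set.mem_univ _⟩)

omit h1 h2 hne in
theorem slice_cont' {r : ℝ} {G : ℝ → ℝ → ℂ}
    (hG : ContinuousOn (fun p : ℝ × ℝ => G p.1 p.2) (Set.Icc 0 r ×ˢ Set.univ)) (θ : ℝ) :
    ContinuousOn (fun ρ => G ρ θ) (Set.Icc 0 r) :=
  hG.comp (f := fun ρ : ℝ => (ρ, θ)) (by fun_prop) (fun ρ hρ => ⟨hρ, Set.mem_univ _⟩)

omit h1 h2 hne in
theorem swap_h {E : Type*} [NormedAddCommGroup E] [NormedSpace ℝ E] {r : ℝ} (hr0 : 0 ≤ r)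
    {G : ℝ → ℝ → E}
    (hG : ContinuousOn (fun p : ℝ × ℝ => G p.1 p.2) (Set.Icc 0 r ×ˢ Set.univ)) :
    ∫ θ in (0:ℝ)..(2 * Real.pi), ∫ ρ in (0:ℝ)..r, G ρ θ =
      ∫ ρ in (0:ℝ)..r, ∫ θ in (0:ℝ)..(2 * Real.pi), G ρ θ := by
  symm
  apply intervalIntegral_intervalIntegral_swap
  have hc : ContinuousOn (Function.uncurry G) (Set.Icc 0 r ×ˢ Set.Icc 0 (2 * Real.pi)) :=
    hG.mono (Set.prod_mono le_rfl (Set.subset_univ _))
  have hi := hc.integrableOn_compact (μ := volume) (isCompact_Icc.prod isCompact_Icc)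
  refine hi.mono_set (Set.prod_mono ?_ ?_)
  · rw [Set.uIoc_of_le hr0]; exact Set.Ioc_subset_Icc_self
  · rw [Set.uIoc_of_le (by positivity)]; exact Set.Ioc_subset_Icc_self

/-- the angular mean of `z Φ(z)` -/
theorem B_eq {t : ℝ} (h0 : 0 ≤ t) (ht : t < 1) :
    ∫ θ in (0:ℝ)..(2 * Real.pi), FF w1 w2 t θ =
      ((∫ ρ in (0:ℝ)..t, 2 * ρ * ∫ θ in (0:ℝ)..(2 * Real.pi), SS w1 w2 (circleMap 0 ρ θ) : ℝ) : ℂ) := by
  have hFr := Fr_cont h1 h2 hne ht
  have e1 : ∀ θ : ℝ, FF w1 w2 t θ = ∫ ρ in (0:ℝ)..t, Fr w1 w2 ρ θ := by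
    intro θ
    have := intervalIntegral.integral_eq_sub_of_hasDerivAt (a := 0) (b := t)
      (f := fun s => FF w1 w2 s θ) (f' := fun s => Fr w1 w2 s θ) ?_ ?_
    · rw [this]
      simp [FF]
    · intro s hs
      rw [Set.uIcc_of_le h0] at hs
      exact FF_r h1 h2 hne hs.1 (hs.2.trans_lt ht) θ
    · apply ContinuousOn.intervalIntegrable
      rw [Set.uIcc_of_le h0]
      exact slice_cont' hFr θ
  simp only [e1]
  rw [swap_h h0 hFr, ← intervalIntegral.integral_ofReal]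
  apply intervalIntegral.integral_congr_ae
  refine Filter.Eventually.of_forall fun ρ hρ => ?_
  rw [Set.uIoc_of_le h0] at hρ
  have hρ0 : 0 ≤ ρ := hρ.1.le
  have hρ1 : ρ < 1 := hρ.2.trans_lt ht
  have hFtc : Continuous (Ft w1 w2 ρ) := slice_cont (Ft_cont h1 h2 hne ht) hρ0 hρ.2
  have hFrc : Continuous (Fr w1 w2 ρ) := slice_cont (Fr_cont h1 h2 hne ht) hρ0 hρ.2
  have e2 : ∫ θ in (0:ℝ)..(2 * Real.pi), Ft w1 w2 ρ θ = 0 := by
    have := intervalIntegral.integral_eq_sub_of_hasDerivAt (a := 0) (b := 2 * Real.pi)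
      (f := fun s => FF w1 w2 ρ s) (f' := fun s => Ft w1 w2 ρ s)
      (fun s _ => FF_t h1 h2 hne hρ0 hρ1 s) (hFtc.intervalIntegrable _ _)
    rw [this]
    have : circleMap 0 ρ (2 * Real.pi) = circleMap 0 ρ 0 := by
      have := periodic_circleMap 0 ρ 0
      rwa [zero_add] at this
    simp only [FF, this, sub_self]
  have e3 : (ρ : ℂ) * ∫ θ in (0:ℝ)..(2 * Real.pi), Fr w1 w2 ρ θ =
      ((2 * ρ ^ 2 * ∫ θ in (0:ℝ)..(2 * Real.pi), SS w1 w2 (circleMap 0 ρ θ) : ℝ) : ℂ) := by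
    rw [← intervalIntegral.integral_const_mul]
    have e4 : ∀ θ, (ρ : ℂ) * Fr w1 w2 ρ θ =
        ((2 * ρ ^ 2 * SS w1 w2 (circleMap 0 ρ θ) : ℝ) : ℂ) - Complex.I * Ft w1 w2 ρ θ := by
      intro θ
      rw [← polar_identity]; ring
    simp only [e4]
    have hSc : Continuous fun θ => SS w1 w2 (circleMap 0 ρ θ) := by
      rw [← continuousOn_univ]
      exact (SS_cont h1 h2 hne).comp (continuous_circleMap 0 ρ).continuousOn
        (fun θ _ => circ_mem hρ0 hρ1 θ)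
    rw [intervalIntegral.integral_sub, intervalIntegral.integral_const_mul, e2, mul_zero, sub_zero,
      intervalIntegral.integral_ofReal, intervalIntegral.integral_const_mul]
    · apply Continuous.intervalIntegrable
      exact Complex.continuous_ofReal.comp (continuous_const.mul hSc)
    · apply Continuous.intervalIntegrable
      exact continuous_const.mul hFtc
  have hρne : (ρ : ℂ) ≠ 0 := by exact_mod_cast hρ.1.ne'
  apply mul_left_cancel₀ hρne
  rw [e3]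
  push_cast
  ring

end main2

theorem polar_symm_eq (p : ℝ × ℝ) : Complex.polarCoord.symm p = circleMap 0 p.1 p.2 := by
  rw [Complex.polarCoord_symm_apply, circleMap, zero_add, Complex.exp_mul_I]
  push_cast
  rfl

theorem area_eq {S : ℂ → ℝ} (hS : ContinuousOn S (ball 0 1)) {t : ℝ} (h0 : 0 < t) (ht : t < 1) :
    ∫ z in ball (0:ℂ) t, S z =
      ∫ ρ in (0:ℝ)..t, ρ * ∫ θ in (0:ℝ)..(2 * Real.pi), S (circleMap 0 ρ θ) := by
  have hcomp : ContinuousOn (fun p : ℝ × ℝ => S (circleMap 0 p.1 p.2)) (Set.Icc 0 t ×ˢ Set.univ) :=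
    hS.comp circ_cont.continuousOn (circ_maps ht)
  rw [← integral_indicator measurableSet_ball, ← Complex.integral_comp_polarCoord_symm]
  have e1 : ∀ p ∈ polarCoord.target,
      p.1 • (ball (0:ℂ) t).indicator S (Complex.polarCoord.symm p) =
      (Set.Ioo 0 t ×ˢ Set.Ioo (-Real.pi) Real.pi).indicator
        (fun p : ℝ × ℝ => p.1 * S (circleMap 0 p.1 p.2)) p := by
    rintro ⟨ρ, θ⟩ hp
    rw [polarCoord_target] at hp
    obtain ⟨hρ, hθ⟩ := hp
    simp only [Set.mem_Ioi] at hρ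
    rw [polar_symm_eq]
    by_cases h : ρ < t
    · rw [Set.indicator_of_mem, Set.indicator_of_mem]
      · rfl
      · exact ⟨⟨hρ, h⟩, hθ⟩
      · rw [mem_ball_zero_iff, norm_circleMap_zero, abs_of_pos hρ]
        exact h
    · rw [Set.indicator_of_notMem, Set.indicator_of_notMem, smul_zero]
      · rintro ⟨h', _⟩
        exact h h'.2
      · rw [mem_ball_zero_iff, norm_circleMap_zero, abs_of_pos hρ]
        exact h
  rw [setIntegral_congr_fun polarCoord.open_target.measurableSet e1,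
    setIntegral_indicator (measurableSet_Ioo.prod measurableSet_Ioo)]
  have e2 : polarCoord.target ∩ Set.Ioo 0 t ×ˢ Set.Ioo (-Real.pi) Real.pi =
      Set.Ioo 0 t ×ˢ Set.Ioo (-Real.pi) Real.pi := by
    rw [polarCoord_target]
    apply Set.inter_eq_right.2
    exact Set.prod_mono Set.Ioo_subset_Ioi_self le_rfl
  rw [e2, Measure.volume_eq_prod, setIntegral_prod]
  · rw [intervalIntegral.integral_of_le h0.le, ← integral_Ioc_eq_integral_Ioo]
    apply setIntegral_congr_fun measurableSet_Ioc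
    intro ρ hρ
    simp only
    rw [← integral_Ioc_eq_integral_Ioo, ← intervalIntegral.integral_of_le (by linarith [Real.pi_pos]),
      intervalIntegral.integral_const_mul]
    congr 1
    have hper : Function.Periodic (fun θ => S (circleMap 0 ρ θ)) (2 * Real.pi) := by
      intro θ
      simp only
      rw [periodic_circleMap 0 ρ θ]
    have := hper.intervalIntegral_add_eq (-Real.pi) 0
    rw [zero_add, show -Real.pi + 2 * Real.pi = Real.pi by ring] at this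
    exact this
  · rw [← Measure.volume_eq_prod]
    have hc : ContinuousOn (fun p : ℝ × ℝ => p.1 * S (circleMap 0 p.1 p.2))
        (Set.Icc 0 t ×ˢ Set.Icc (-Real.pi) Real.pi) :=
      continuousOn_fst.mul (hcomp.mono (Set.prod_mono le_rfl (Set.subset_univ _)))
    have hi := hc.integrableOn_compact (μ := volume) (isCompact_Icc.prod isCompact_Icc)
    exact hi.mono_set (Set.prod_mono Set.Ioo_subset_Icc_self Set.Ioo_subset_Icc_self)

noncomputable def LL (w1 w2 : ℂ → ℂ) (z : ℂ) : ℝ :=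
  Real.log (Real.sqrt (‖w1 z‖ ^ 2 + ‖w2 z‖ ^ 2))

section main3

variable {w1 w2 : ℂ → ℂ} (h1 : DifferentiableOn ℂ w1 (ball 0 1))
    (h2 : DifferentiableOn ℂ w2 (ball 0 1))
    (hne : ∀ z ∈ ball (0:ℂ) 1, w1 z ≠ 0 ∨ w2 z ≠ 0)

include h1 h2 hne

theorem LL_r {ρ : ℝ} (h0 : 0 ≤ ρ) (hρ : ρ < 1) (θ : ℝ) :
    HasDerivAt (fun s : ℝ => LL w1 w2 (circleMap 0 s θ))
      (Complex.exp (θ * Complex.I) * Ph w1 w2 (circleMap 0 ρ θ)).re ρ := by
  have hz := circ_mem h0 hρ θ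
  have hop : ball (0:ℂ) 1 ∈ 𝓝 (circleMap 0 ρ θ) := isOpen_ball.mem_nhds hz
  have hc : HasDerivAt (fun s : ℝ => circleMap 0 s θ) (Complex.exp (θ * Complex.I)) ρ := by
    have : HasDerivAt (fun s : ℝ => (s : ℂ) * Complex.exp (θ * Complex.I))
        (1 * Complex.exp (θ * Complex.I)) ρ :=
      (Complex.ofRealCLM.hasDerivAt (x := ρ)).mul_const _
    simpa [circleMap] using this
  have d1 : HasDerivAt (fun s => w1 (circleMap 0 s θ))
      (Complex.exp (θ * Complex.I) * deriv w1 (circleMap 0 ρ θ)) ρ := by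
    have := (h1.differentiableAt hop).hasDerivAt.scomp ρ hc
    simpa [smul_eq_mul, Function.comp_def] using this
  have d2 : HasDerivAt (fun s => w2 (circleMap 0 s θ))
      (Complex.exp (θ * Complex.I) * deriv w2 (circleMap 0 ρ θ)) ρ := by
    have := (h2.differentiableAt hop).hasDerivAt.scomp ρ hc
    simpa [smul_eq_mul, Function.comp_def] using this
  have hD := d1.norm_sq.add d2.norm_sq
  have hpos := Dpos (hne _ hz)
  have hL := (hD.log hpos.ne').div_const 2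
  have e : (fun s : ℝ => LL w1 w2 (circleMap 0 s θ)) = fun s : ℝ =>
      Real.log (‖w1 (circleMap 0 s θ)‖ ^ 2 + ‖w2 (circleMap 0 s θ)‖ ^ 2) / 2 := by
    funext s
    unfold LL
    rw [Real.log_sqrt (by positivity)]
  rw [e]
  refine hL.congr_deriv ?_
  unfold Ph
  rw [Dc_eq, ← mul_div_assoc, Complex.div_ofReal_re]
  have e3 : (Complex.exp (θ * Complex.I) * Nc w1 w2 (circleMap 0 ρ θ)).re =
      inner ℝ (w1 (circleMap 0 ρ θ)) (Complex.exp (θ * Complex.I) * deriv w1 (circleMap 0 ρ θ)) +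
      inner ℝ (w2 (circleMap 0 ρ θ)) (Complex.exp (θ * Complex.I) * deriv w2 (circleMap 0 ρ θ)) := by
    unfold Nc
    rw [Complex.inner, Complex.inner, ← Complex.add_re]
    congr 1
    simp only [Complex.star_def]
    ring
  rw [e3]
  simp only [Pi.add_apply]
  ring

/-- the circle mean of the logarithm -/
theorem M_eq {r : ℝ} (hr0 : 0 ≤ r) (hr1 : r < 1) :
    ∫ θ in (0:ℝ)..(2 * Real.pi), LL w1 w2 (circleMap 0 r θ) - LL w1 w2 0 =
      ∫ ρ in (0:ℝ)..r, ∫ θ in (0:ℝ)..(2 * Real.pi),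
        (Complex.exp (θ * Complex.I) * Ph w1 w2 (circleMap 0 ρ θ)).re := by
  have hG : ContinuousOn (fun p : ℝ × ℝ =>
      (Complex.exp (p.2 * Complex.I) * Ph w1 w2 (circleMap 0 p.1 p.2)).re)
      (Set.Icc 0 r ×ˢ Set.univ) := by
    have a := cont_transfer hr1 (Ph_cont h1 h2 hne)
    have d : Continuous fun p : ℝ × ℝ => Complex.exp (p.2 * Complex.I) := by fun_prop
    exact Complex.continuous_re.comp_continuousOn (d.continuousOn.mul a)
  rw [← swap_h hr0 (G := fun ρ θ =>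
    (Complex.exp (θ * Complex.I) * Ph w1 w2 (circleMap 0 ρ θ)).re) hG]
  congr 1
  funext θ
  have := intervalIntegral.integral_eq_sub_of_hasDerivAt (a := 0) (b := r)
      (f := fun s => LL w1 w2 (circleMap 0 s θ))
      (f' := fun s => (Complex.exp (θ * Complex.I) * Ph w1 w2 (circleMap 0 s θ)).re) ?_ ?_
  · rw [this]
    simp
  · intro s hs
    rw [Set.uIcc_of_le hr0] at hs
    exact LL_r h1 h2 hne hs.1 (hs.2.trans_lt hr1) θ
  · apply ContinuousOn.intervalIntegrable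
    rw [Set.uIcc_of_le hr0]
    exact hG.comp (f := fun ρ : ℝ => (ρ, θ)) (by fun_prop) (fun ρ hρ => ⟨hρ, Set.mem_univ _⟩)

theorem inner_eq {ρ : ℝ} (h0 : 0 < ρ) (hρ : ρ < 1) :
    ∫ θ in (0:ℝ)..(2 * Real.pi), (Complex.exp (θ * Complex.I) * Ph w1 w2 (circleMap 0 ρ θ)).re =
      (∫ s in (0:ℝ)..ρ, 2 * s * ∫ θ in (0:ℝ)..(2 * Real.pi), SS w1 w2 (circleMap 0 s θ)) / ρ := by
  have hB := B_eq h1 h2 hne h0.le hρ
  have hPc : Continuous fun θ => Ph w1 w2 (circleMap 0 ρ θ) := by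
    rw [← continuousOn_univ]
    exact (Ph_cont h1 h2 hne).comp (continuous_circleMap 0 ρ).continuousOn
      (fun θ _ => circ_mem h0.le hρ θ)
  have hc : Continuous fun θ : ℝ => Complex.exp (θ * Complex.I) * Ph w1 w2 (circleMap 0 ρ θ) :=
    (by fun_prop : Continuous fun θ : ℝ => Complex.exp (θ * Complex.I)).mul hPc
  have e1 : ∫ θ in (0:ℝ)..(2 * Real.pi), FF w1 w2 ρ θ =
      ρ * ∫ θ in (0:ℝ)..(2 * Real.pi), Complex.exp (θ * Complex.I) * Ph w1 w2 (circleMap 0 ρ θ) := by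
    rw [← intervalIntegral.integral_const_mul]
    congr 1
    funext θ
    unfold FF
    rw [circleMap, zero_add, mul_assoc]
  have e2 : ∫ θ in (0:ℝ)..(2 * Real.pi),
      (Complex.exp (θ * Complex.I) * Ph w1 w2 (circleMap 0 ρ θ)).re =
      (∫ θ in (0:ℝ)..(2 * Real.pi), Complex.exp (θ * Complex.I) * Ph w1 w2 (circleMap 0 ρ θ)).re := by
    have := Complex.reCLM.intervalIntegral_comp_comm (μ := volume) (a := 0) (b := 2 * Real.pi)
      (f := fun θ : ℝ => Complex.exp (θ * Complex.I) * Ph w1 w2 (circleMap 0 ρ θ))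
      (hc.intervalIntegrable _ _)
    simpa using this
  rw [e2, eq_div_iff h0.ne']
  rw [e1] at hB
  have := congrArg Complex.re hB
  rw [Complex.re_ofReal_mul, Complex.ofReal_re] at this
  rw [← this]; ring

end main3

/-- pointwise formula for the spherical derivative -/
theorem sph_eq {w1 w2 : ℂ → ℂ} {z : ℂ} (h1 : DifferentiableAt ℂ w1 z)
    (h2 : DifferentiableAt ℂ w2 z) (h : w2 z ≠ 0) :
    (‖deriv (fun z => w1 z / w2 z) z‖ / (1 + ‖w1 z / w2 z‖ ^ 2)) ^ 2 = SS w1 w2 z := by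
  have e : deriv (fun z => w1 z / w2 z) z =
      (deriv w1 z * w2 z - w1 z * deriv w2 z) / w2 z ^ 2 := by
    rw [← deriv_div h1 h2 h]; rfl
  rw [e, norm_div, norm_div, norm_pow]
  unfold SS
  have hn : 0 < ‖w2 z‖ := norm_pos_iff.2 h
  have hp : 0 < ‖w1 z‖ ^ 2 + ‖w2 z‖ ^ 2 := by positivity
  field_simp
  ring


/-- **Ahlfors–Shimizu characteristic as a circle mean.** -/
theorem ahlfors_shimizu (w1 w2 : ℂ → ℂ)
    (h1 : ∀ z ∈ ball (0:ℂ) 1, DifferentiableAt ℂ w1 z)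
    (h2 : ∀ z ∈ ball (0:ℂ) 1, DifferentiableAt ℂ w2 z)
    (hne : ∀ z ∈ ball (0:ℂ) 1, w1 z ≠ 0 ∨ w2 z ≠ 0)
    (h20 : ∃ z ∈ ball (0:ℂ) 1, w2 z ≠ 0) (r : ℝ) (hr0 : 0 < r) (hr1 : r < 1) :
    ∫ t in (0 : ℝ)..r,
        (1 / Real.pi * ∫ z in Metric.ball (0 : ℂ) t,
          (‖deriv (fun z => w1 z / w2 z) z‖ / (1 + ‖w1 z / w2 z‖ ^ 2)) ^ 2) / t
      = (2 * Real.pi)⁻¹ * (∫ θ in (0 : ℝ)..(2 * Real.pi),
          Real.log (Real.sqrt (‖w1 (circleMap 0 r θ)‖ ^ 2 + ‖w2 (circleMap 0 r θ)‖ ^ 2)))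
        - Real.log (Real.sqrt (‖w1 0‖ ^ 2 + ‖w2 0‖ ^ 2)) := by
  have h1' : DifferentiableOn ℂ w1 (ball 0 1) := fun z hz => (h1 z hz).differentiableWithinAt
  have h2' : DifferentiableOn ℂ w2 (ball 0 1) := fun z hz => (h2 z hz).differentiableWithinAt
  have hSS := SS_cont h1' h2' hne
  -- zeros of `w2` are negligible
  have hcod : ∀ᶠ z in codiscreteWithin (ball (0:ℂ) 1), w2 z ≠ 0 := by
    have hA : AnalyticOnNhd ℂ w2 (ball 0 1) := h2'.analyticOnNhd isOpen_ball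
    rcases hA.eqOn_zero_or_eventually_ne_zero_of_preconnected
      (convex_ball (0:ℂ) 1).isPreconnected with h | h
    · obtain ⟨z, hz, hz2⟩ := h20
      exact absurd (h hz) hz2
    · exact h
  have hae : ∀ᵐ z ∂(volume.restrict (ball (0:ℂ) 1)), w2 z ≠ 0 :=
    ae_restrict_le_codiscreteWithin measurableSet_ball hcod
  have hin : ∀ t : ℝ, 0 < t → t < 1 → ∫ z in ball (0:ℂ) t,
      (‖deriv (fun z => w1 z / w2 z) z‖ / (1 + ‖w1 z / w2 z‖ ^ 2)) ^ 2 =
      ∫ ρ in (0:ℝ)..t, ρ * ∫ θ in (0:ℝ)..(2 * Real.pi), SS w1 w2 (circleMap 0 ρ θ) := by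
    intro t ht0 ht1
    rw [← area_eq hSS ht0 ht1]
    apply setIntegral_congr_ae measurableSet_ball
    have hsub : ball (0:ℂ) t ⊆ ball 0 1 := ball_subset_ball ht1.le
    have := (ae_restrict_iff' measurableSet_ball).1 hae
    filter_upwards [this] with z hz hzt
    exact sph_eq (h1 z (hsub hzt)) (h2 z (hsub hzt)) (hz (hsub hzt))
  have hM := M_eq h1' h2' hne hr0.le hr1
  have hcL : Continuous fun θ => LL w1 w2 (circleMap 0 r θ) := by
    have c1 := h1'.continuousOn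
    have c2 := h2'.continuousOn
    have hL : ContinuousOn (LL w1 w2) (ball 0 1) := by
      unfold LL
      apply ContinuousOn.log
      · exact ((c1.norm.pow 2).add (c2.norm.pow 2)).sqrt
      · intro z hz
        exact (Real.sqrt_pos.2 (Dpos (hne _ hz))).ne'
    rw [← continuousOn_univ]
    exact hL.comp (continuous_circleMap 0 r).continuousOn
      (fun θ _ => circ_mem hr0.le hr1 θ)
  rw [intervalIntegral.integral_sub (hcL.intervalIntegrable _ _) (by simp),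
    intervalIntegral.integral_const, sub_zero, smul_eq_mul] at hM
  have hfin : (∫ ρ in (0:ℝ)..r, ∫ θ in (0:ℝ)..(2 * Real.pi),
        (Complex.exp (θ * Complex.I) * Ph w1 w2 (circleMap 0 ρ θ)).re) =
      (2 * Real.pi) * ∫ t in (0 : ℝ)..r,
        (1 / Real.pi * ∫ z in Metric.ball (0 : ℂ) t,
          (‖deriv (fun z => w1 z / w2 z) z‖ / (1 + ‖w1 z / w2 z‖ ^ 2)) ^ 2) / t := by
    rw [← intervalIntegral.integral_const_mul]
    apply intervalIntegral.integral_congr_ae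
    refine Filter.Eventually.of_forall fun ρ hρ => ?_
    rw [Set.uIoc_of_le hr0.le] at hρ
    have hρ1 : ρ < 1 := hρ.2.trans_lt hr1
    rw [inner_eq h1' h2' hne hρ.1 hρ1, hin ρ hρ.1 hρ1]
    have e : (∫ s in (0:ℝ)..ρ, 2 * s * ∫ θ in (0:ℝ)..(2 * Real.pi), SS w1 w2 (circleMap 0 s θ)) =
        2 * ∫ s in (0:ℝ)..ρ, s * ∫ θ in (0:ℝ)..(2 * Real.pi), SS w1 w2 (circleMap 0 s θ) := by
      rw [← intervalIntegral.integral_const_mul]
      congr 1
      funext s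
      ring
    rw [e]
    have hpi := Real.pi_pos
    have := hρ.1
    field_simp
  rw [hfin] at hM
  have hpi := Real.pi_pos
  have e : ∫ t in (0 : ℝ)..r,
        (1 / Real.pi * ∫ z in Metric.ball (0 : ℂ) t,
          (‖deriv (fun z => w1 z / w2 z) z‖ / (1 + ‖w1 z / w2 z‖ ^ 2)) ^ 2) / t =
      (2 * Real.pi)⁻¹ * ((2 * Real.pi) * ∫ t in (0 : ℝ)..r,
        (1 / Real.pi * ∫ z in Metric.ball (0 : ℂ) t,
          (‖deriv (fun z => w1 z / w2 z) z‖ / (1 + ‖w1 z / w2 z‖ ^ 2)) ^ 2) / t) := by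
    rw [← mul_assoc, inv_mul_cancel₀ (by positivity), one_mul]
  rw [e, ← hM, mul_sub, ← mul_assoc (2 * Real.pi)⁻¹, inv_mul_cancel₀ (by positivity), one_mul]
  rfl


end Pool.Agent.H343N.J1
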