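import Mathlib
import Pool.Agent.Helper343.NDefs

set_option autoImplicit false
set_option maxHeartbeats 4000000
open MeasureTheory Filter Topology Metric

namespace Pool.Agent.H343N.J2

theorem polar_aux (g : ℂ → ENNReal) (hg : Measurable g) :
    ∫⁻ z, g z
      = ∫⁻ r in Set.Ioi (0:ℝ), (∫⁻ θ in Set.Ioo (-Real.pi) Real.pi, g (circleMap 0 r θ)) * ENNReal.ofReal r := by
  rw [← Complex.lintegral_comp_polarCoord_symm]
  rw [polarCoord_target]
  have hvol : (volume : Measure (ℝ × ℝ)).restrict (Set.Ioi (0:ℝ) ×ˢ Set.Ioo (-Real.pi) Real.pi)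
      = ((volume : Measure ℝ).restrict (Set.Ioi 0)).prod ((volume : Measure ℝ).restrict (Set.Ioo (-Real.pi) Real.pi)) := by
    rw [Measure.prod_restrict]; rfl
  rw [hvol]
  have hpc : ∀ p : ℝ × ℝ, Complex.polarCoord.symm p = circleMap 0 p.1 p.2 := by
    intro p
    rw [Complex.polarCoord_symm_apply, circleMap, zero_add, Complex.exp_mul_I]
    push_cast
    rfl
  simp only [hpc, smul_eq_mul]
  have hm : Measurable (fun p : ℝ × ℝ => circleMap 0 p.1 p.2) := by
    unfold circleMap
    fun_prop
  rw [lintegral_prod]
  · refine lintegral_congr fun r => ?_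
    dsimp only
    rw [lintegral_const_mul, mul_comm]
    exact hg.comp (by unfold circleMap; fun_prop)
  · apply Measurable.aemeasurable
    exact (ENNReal.measurable_ofReal.comp measurable_fst).mul (hg.comp hm)

/-- polar coordinates on an annulus -/
theorem annulus_polar (g : ℂ → ENNReal) (hg : Measurable g) (r1 r2 : ℝ) (h0 : 0 < r1) (h12 : r1 < r2) :
    ∫⁻ z in {z : ℂ | r1 < ‖z‖ ∧ ‖z‖ < r2}, g z
      = ∫⁻ r in Set.Ioo r1 r2, (∫⁻ θ in Set.Ioo (-Real.pi) Real.pi, g (circleMap 0 r θ)) * ENNReal.ofReal r := by
  have hms : MeasurableSet {z : ℂ | r1 < ‖z‖ ∧ ‖z‖ < r2} := by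
    have h1 : Measurable (fun z : ℂ => ‖z‖) := measurable_norm
    exact (measurableSet_lt measurable_const h1).inter (measurableSet_lt h1 measurable_const)
  rw [← lintegral_indicator hms, polar_aux _ (hg.indicator hms)]
  have hsub : Set.Ioo r1 r2 ⊆ Set.Ioi (0:ℝ) := fun r hr => lt_trans h0 hr.1
  rw [← lintegral_indicator measurableSet_Ioi, ← lintegral_indicator measurableSet_Ioo]
  refine lintegral_congr fun r => ?_
  by_cases hr : r ∈ Set.Ioo r1 r2
  · rw [Set.indicator_of_mem (hsub hr), Set.indicator_of_mem hr]
    congr 1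
    refine lintegral_congr fun θ => ?_
    apply Set.indicator_of_mem
    have : ‖circleMap 0 r θ‖ = r := by
      rw [norm_circleMap_zero, abs_of_pos (hsub hr)]
    show r1 < ‖circleMap 0 r θ‖ ∧ ‖circleMap 0 r θ‖ < r2
    rw [this]; exact hr
  · rw [Set.indicator_of_notMem hr]
    by_cases hr' : r ∈ Set.Ioi (0:ℝ)
    · rw [Set.indicator_of_mem hr']
      have : ∀ θ, ({z : ℂ | r1 < ‖z‖ ∧ ‖z‖ < r2}.indicator g) (circleMap 0 r θ) = 0 := by
        intro θ
        apply Set.indicator_of_notMem
        intro h
        have h2 : ‖circleMap 0 r θ‖ = r := by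
          rw [norm_circleMap_zero, abs_of_pos hr']
        have h3 : r1 < ‖circleMap 0 r θ‖ ∧ ‖circleMap 0 r θ‖ < r2 := h
        rw [h2] at h3
        exact hr h3
      simp [this]
    · rw [Set.indicator_of_notMem hr']

/-- smoothing by Tonelli -/
theorem smoothing (γ B : ℂ → ENNReal) (hγ : Measurable γ) (hB : Measurable B) (M : Set ℂ)
    (hM : MeasurableSet M) (s : ℝ) (hs : 0 < s)
    (h : ∀ z w, w ∈ M → ‖z - w‖ < s → ∫⁻ u in ball z s, γ u ≤ ENNReal.ofReal (Real.pi * s ^ 2) * B z) :
    ∫⁻ w in M, γ w ≤ ∫⁻ z in {z | ∃ w ∈ M, ‖z - w‖ < s}, B z := by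
  set V : ENNReal := ENNReal.ofReal (Real.pi * s ^ 2) with hV
  have hV0 : V ≠ 0 := by
    have : 0 < Real.pi * s ^ 2 := by positivity
    simpa [hV] using this
  have hVt : V ≠ ⊤ := ENNReal.ofReal_ne_top
  set N : Set ℂ := {z | ∃ w ∈ M, ‖z - w‖ < s} with hN
  have hNo : IsOpen N := by
    have : N = ⋃ w ∈ M, ball w s := by
      ext z
      simp only [hN, Set.mem_iUnion, mem_ball, dist_eq_norm, exists_prop]
      rfl
    rw [this]
    exact isOpen_biUnion fun w _ => isOpen_ball
  have hNm : MeasurableSet N := hNo.measurableSet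
  have hball : ∀ w : ℂ, ∫⁻ z, (ball w s).indicator (fun _ => (1 : ENNReal)) z = V := by
    intro w
    rw [lintegral_indicator measurableSet_ball, setLIntegral_one, Complex.volume_ball, hV]
    rw [← ENNReal.ofReal_pow hs.le, mul_comm, ENNReal.ofReal_mul Real.pi_pos.le]
    congr 1
    rw [← NNReal.coe_real_pi, ENNReal.ofReal_coe_nnreal]
  have hjm : Measurable (fun p : ℂ × ℂ => (ball p.1 s).indicator (fun _ => (1 : ENNReal)) p.2) := by
    have : (fun p : ℂ × ℂ => (ball p.1 s).indicator (fun _ => (1 : ENNReal)) p.2)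
        = {p : ℂ × ℂ | dist p.2 p.1 < s}.indicator (fun _ => (1 : ENNReal)) := by
      ext p
      simp only [Set.indicator, mem_ball]
      rfl
    rw [this]
    apply measurable_const.indicator
    exact measurableSet_lt (by fun_prop) measurable_const
  have key : V * ∫⁻ w in M, γ w ≤ V * ∫⁻ z in N, B z := by
    calc V * ∫⁻ w in M, γ w = ∫⁻ w in M, V * γ w := by
          rw [lintegral_const_mul _ hγ]
      _ = ∫⁻ w in M, ∫⁻ z, (ball w s).indicator (fun _ => (1 : ENNReal)) z * γ w := by
          refine lintegral_congr fun w => ?_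
          rw [lintegral_mul_const, hball]
          exact measurable_const.indicator measurableSet_ball
      _ = ∫⁻ z, ∫⁻ w in M, (ball w s).indicator (fun _ => (1 : ENNReal)) z * γ w := by
          rw [lintegral_lintegral_swap]
          apply Measurable.aemeasurable
          exact hjm.mul (hγ.comp measurable_fst)
      _ ≤ ∫⁻ z, N.indicator (fun z => V * B z) z := by
          refine lintegral_mono fun z => ?_
          dsimp only
          by_cases hz : z ∈ N
          · rw [Set.indicator_of_mem hz]
            obtain ⟨w, hw, hzw⟩ := hz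
            refine le_trans ?_ (h z w hw hzw)
            rw [← lintegral_indicator hM, ← lintegral_indicator measurableSet_ball]
            refine lintegral_mono fun u => ?_
            by_cases hu : u ∈ M
            · rw [Set.indicator_of_mem hu]
              by_cases hu2 : z ∈ ball u s
              · have : u ∈ ball z s := by rwa [mem_ball_comm]
                rw [Set.indicator_of_mem hu2, Set.indicator_of_mem this, one_mul]
              · rw [Set.indicator_of_notMem hu2]; simp
            · rw [Set.indicator_of_notMem hu]; simp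
          · rw [Set.indicator_of_notMem hz]
            rw [← lintegral_indicator hM]
            apply le_of_eq
            rw [lintegral_eq_zero_iff']
            · refine Filter.Eventually.of_forall fun u => ?_
              by_cases hu : u ∈ M
              · rw [Set.indicator_of_mem hu, Set.indicator_of_notMem]
                · simp
                · intro h2
                  apply hz
                  exact ⟨u, hu, by rwa [mem_ball, dist_eq_norm] at h2⟩
              · rw [Set.indicator_of_notMem hu]; rfl
            · apply Measurable.aemeasurable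
              apply Measurable.indicator _ hM
              apply Measurable.mul _ hγ
              exact hjm.comp (measurable_id.prodMk measurable_const)
      _ = V * ∫⁻ z in N, B z := by
          rw [lintegral_indicator hNm, lintegral_const_mul _ hB]
  exact (ENNReal.mul_le_mul_iff_right hV0 hVt).1 key

theorem circ_aux (f : ℂ → ℂ) (c : ℂ) (t B : ℝ) (ht : 0 < t)
    (hf : AnalyticOnNhd ℂ f (closedBall c t)) (hc : f c ≠ 0) (hB0 : 0 ≤ B)
    (hB : ∀ z ∈ closedBall c t, ‖f z‖ ≤ Real.exp B) :
    ∫⁻ θ in Set.Ioo (-Real.pi) Real.pi, ENNReal.ofReal (B - Real.log ‖f (circleMap c t θ)‖)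
      ≤ ENNReal.ofReal (2 * Real.pi * (B - Real.log ‖f c‖)) := by
  have habs : |t| = t := abs_of_pos ht
  have hf' : AnalyticOnNhd ℂ f (closedBall c |t|) := by rwa [habs]
  have hJ := hf'.circleAverage_log_norm ht.ne' hc
  have hS : 0 ≤ ∑ᶠ u, (MeromorphicOn.divisor f (closedBall c |t|) u : ℝ) * Real.log (t * ‖c - u‖⁻¹) := by
    apply finsum_nonneg
    intro u
    by_cases hu : u ∈ closedBall c |t|
    · refine mul_nonneg (mod_cast MeromorphicOn.AnalyticOnNhd.divisor_nonneg hf' ..) ?_
      rcases eq_or_ne u c with h | h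
      · simp [h]
      · apply Real.log_nonneg
        have h1 : 0 < ‖c - u‖ := by
          rw [norm_pos_iff]; exact sub_ne_zero.2 h.symm
        rw [← div_eq_mul_inv, le_div_iff₀ h1, one_mul]
        rw [mem_closedBall, dist_eq_norm', habs] at hu
        exact hu
    · simp [hu]
  have hci : CircleIntegrable (fun z => Real.log ‖f z‖) c t := by
    apply MeromorphicOn.circleIntegrable_log_norm
    exact (hf'.mono sphere_subset_closedBall).meromorphicOn
  set u : ℝ → ℝ := fun θ => B - Real.log ‖f (circleMap c t θ)‖ with hu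
  have hper : Function.Periodic u (2 * Real.pi) := by
    intro θ
    simp only [hu, (periodic_circleMap c t) θ]
  have hii : IntervalIntegrable u volume 0 (2 * Real.pi) := by
    apply IntervalIntegrable.sub (by simp)
    exact hci
  have hii2 : IntervalIntegrable u volume (-Real.pi) Real.pi :=
    hper.intervalIntegrable₀ (by positivity) hii _ _
  have hint : ∫ θ in (-Real.pi)..Real.pi, u θ = ∫ θ in (0:ℝ)..(2 * Real.pi), u θ := by
    have := hper.intervalIntegral_add_eq (-Real.pi) 0
    rw [show -Real.pi + 2 * Real.pi = Real.pi by ring, zero_add] at this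
    exact this
  have hnn : ∀ θ, 0 ≤ u θ := by
    intro θ
    simp only [hu]
    have h1 : ‖f (circleMap c t θ)‖ ≤ Real.exp B := hB _ (circleMap_mem_closedBall c ht.le θ)
    rcases (norm_nonneg (f (circleMap c t θ))).eq_or_lt with h | h
    · rw [← h]; simp [hB0]
    · have := Real.log_le_log h h1
      rw [Real.log_exp] at this
      linarith
  have hval : ∫ θ in (0:ℝ)..(2 * Real.pi), u θ ≤ 2 * Real.pi * (B - Real.log ‖f c‖) := by
    have h1 : ∫ θ in (0:ℝ)..(2 * Real.pi), u θ = 2 * Real.pi * B - ∫ θ in (0:ℝ)..(2 * Real.pi), Real.log ‖f (circleMap c t θ)‖ := by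
      simp only [hu]
      rw [intervalIntegral.integral_sub (by simp) hci]
      simp
    have h2 : ∫ θ in (0:ℝ)..(2 * Real.pi), Real.log ‖f (circleMap c t θ)‖ = 2 * Real.pi * Real.circleAverage (fun z => Real.log ‖f z‖) c t := by
      rw [Real.circleAverage_def, smul_eq_mul, ← mul_assoc, mul_inv_cancel₀ (by positivity), one_mul]
    rw [h1, h2, hJ]
    have : 0 ≤ 2 * Real.pi * ∑ᶠ u, (MeromorphicOn.divisor f (closedBall c |t|) u : ℝ) * Real.log (t * ‖c - u‖⁻¹) := by positivity
    nlinarith
  calc ∫⁻ θ in Set.Ioo (-Real.pi) Real.pi, ENNReal.ofReal (u θ)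
      = ∫⁻ θ in Set.Ioc (-Real.pi) Real.pi, ENNReal.ofReal (u θ) := by
        rw [setLIntegral_congr Ioo_ae_eq_Ioc]
    _ = ENNReal.ofReal (∫ θ in Set.Ioc (-Real.pi) Real.pi, u θ) := by
        rw [ofReal_integral_eq_lintegral_ofReal]
        · rw [intervalIntegrable_iff_integrableOn_Ioc_of_le (by linarith [Real.pi_pos])] at hii2
          exact hii2
        · exact Filter.Eventually.of_forall hnn
    _ = ENNReal.ofReal (∫ θ in (-Real.pi)..Real.pi, u θ) := by
        rw [intervalIntegral.integral_of_le (by linarith [Real.pi_pos])]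
    _ ≤ _ := by
        rw [hint]
        exact ENNReal.ofReal_le_ofReal hval

theorem area_submean_nn (f : ℂ → ℂ) (c : ℂ) (D B : ℝ) (hD : 0 < D)
    (hf : ∀ z ∈ closedBall c D, DifferentiableAt ℂ f z) (hc : f c ≠ 0) (hB0 : 0 ≤ B)
    (hB : ∀ z ∈ closedBall c D, ‖f z‖ ≤ Real.exp B) :
    ∫⁻ z in ball c D, ENNReal.ofReal (B - Real.log ‖f z‖)
      ≤ ENNReal.ofReal (Real.pi * D ^ 2 * (B - Real.log ‖f c‖)) := by
  have hdo : DifferentiableOn ℂ f (ball c D) := fun z hz =>
    (hf z (ball_subset_closedBall hz)).differentiableWithinAt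
  have han : AnalyticOnNhd ℂ f (ball c D) := hdo.analyticOnNhd isOpen_ball
  set h : ℂ → ENNReal := (ball c D).indicator (fun z => ENNReal.ofReal (B - Real.log ‖f z‖)) with hh
  have hhm : Measurable h := by
    have h1 : Measurable ((ball c D).indicator f) := by
      classical
      have := ContinuousOn.measurable_piecewise (f := f) (g := fun _ => (0:ℂ)) hdo.continuousOn continuousOn_const (measurableSet_ball (x := c) (ε := D))
      have he : (ball c D).indicator f = (ball c D).piecewise f (fun _ => (0:ℂ)) := by
        ext z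
        by_cases hz : z ∈ ball c D
        · rw [Set.indicator_of_mem hz, Set.piecewise_eq_of_mem _ _ _ hz]
        · rw [Set.indicator_of_notMem hz, Set.piecewise_eq_of_notMem _ _ _ hz]
      rw [he]
      exact this
    have h2 : h = (ball c D).indicator (fun z => ENNReal.ofReal (B - Real.log ‖(ball c D).indicator f z‖)) := by
      ext z
      by_cases hz : z ∈ ball c D
      · simp only [hh, Set.indicator_of_mem hz]
      · simp only [hh, Set.indicator_of_notMem hz]
    rw [h2]
    apply Measurable.indicator _ measurableSet_ball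
    apply ENNReal.measurable_ofReal.comp
    exact measurable_const.sub (Real.measurable_log.comp h1.norm)
  have hnnc : 0 ≤ B - Real.log ‖f c‖ := by
    have := Real.log_le_log (norm_pos_iff.2 hc) (hB c (mem_closedBall_self hD.le))
    rw [Real.log_exp] at this
    linarith
  set K : ENNReal := ENNReal.ofReal (2 * Real.pi * (B - Real.log ‖f c‖)) with hK
  have hcm : ∀ r θ, circleMap 0 r θ + c = circleMap c r θ := by
    intro r θ; simp [circleMap, add_comm]
  calc ∫⁻ z in ball c D, ENNReal.ofReal (B - Real.log ‖f z‖) = ∫⁻ z, h z := by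
        rw [hh, lintegral_indicator measurableSet_ball]
    _ = ∫⁻ z, h (z + c) := by
        rw [lintegral_add_right_eq_self]
    _ = ∫⁻ r in Set.Ioi (0:ℝ), (∫⁻ θ in Set.Ioo (-Real.pi) Real.pi, h (circleMap 0 r θ + c)) * ENNReal.ofReal r := by
        rw [polar_aux (fun z => h (z + c)) (hhm.comp (measurable_id.add_const c))]
    _ ≤ ∫⁻ r in Set.Ioo (0:ℝ) D, K * ENNReal.ofReal r := by
        rw [← lintegral_indicator measurableSet_Ioi, ← lintegral_indicator measurableSet_Ioo]
        refine lintegral_mono fun r => ?_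
        dsimp only
        by_cases hr : r ∈ Set.Ioo 0 D
        · have hr0 : r ∈ Set.Ioi (0:ℝ) := hr.1
          rw [Set.indicator_of_mem hr0, Set.indicator_of_mem hr]
          gcongr
          have hsub : closedBall c r ⊆ ball c D := closedBall_subset_ball hr.2
          have := circ_aux f c r B hr.1 (han.mono hsub) hc hB0
            (fun z hz => hB z (ball_subset_closedBall (hsub hz)))
          refine le_trans (le_of_eq ?_) this
          refine lintegral_congr fun θ => ?_
          rw [hcm, hh, Set.indicator_of_mem]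
          exact hsub (circleMap_mem_closedBall c hr.1.le θ)
        · rw [Set.indicator_of_notMem hr]
          by_cases hr0 : r ∈ Set.Ioi (0:ℝ)
          · rw [Set.indicator_of_mem hr0]
            have : ∀ θ, h (circleMap 0 r θ + c) = 0 := by
              intro θ
              rw [hcm, hh, Set.indicator_of_notMem]
              intro hmem
              rw [mem_ball, dist_eq_norm, circleMap_sub_center, norm_circleMap_zero, abs_of_pos hr0] at hmem
              exact hr ⟨hr0, hmem⟩
            simp [this]
          · rw [Set.indicator_of_notMem hr0]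
    _ = K * ENNReal.ofReal (D ^ 2 / 2) := by
        rw [lintegral_const_mul _ ENNReal.measurable_ofReal]
        congr 1
        rw [setLIntegral_congr Ioo_ae_eq_Ioc, ← ofReal_integral_eq_lintegral_ofReal]
        · rw [← intervalIntegral.integral_of_le hD.le, integral_id]
          congr 1; ring
        · have : IntervalIntegrable (fun x : ℝ => x) volume 0 D := intervalIntegral.intervalIntegrable_id
          rwa [intervalIntegrable_iff_integrableOn_Ioc_of_le hD.le] at this
        · rw [Filter.EventuallyLE, ae_restrict_iff' measurableSet_Ioc]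
          exact Filter.Eventually.of_forall fun x hx => hx.1.le
    _ = ENNReal.ofReal (Real.pi * D ^ 2 * (B - Real.log ‖f c‖)) := by
        rw [hK, ← ENNReal.ofReal_mul (by positivity)]
        congr 1; ring

/-- area version of Jensen's inequality -/
theorem area_submean (f : ℂ → ℂ) (c : ℂ) (D B : ℝ) (hD : 0 < D)
    (hf : ∀ z ∈ closedBall c D, DifferentiableAt ℂ f z) (hc : f c ≠ 0)
    (hB : ∀ z ∈ closedBall c D, ‖f z‖ ≤ Real.exp B) :
    ∫⁻ z in ball c D, ENNReal.ofReal (B - Real.log ‖f z‖)
      ≤ ENNReal.ofReal (Real.pi * D ^ 2 * (B - Real.log ‖f c‖)) := by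
  rcases le_or_gt 0 B with hB0 | hB0
  · exact area_submean_nn f c D B hD hf hc hB0 hB
  · set k : ℂ := ((Real.exp (-B) : ℝ) : ℂ) with hk
    have hkn : ‖k‖ = Real.exp (-B) := by
      rw [hk, Complex.norm_real, Real.norm_eq_abs, abs_of_pos (Real.exp_pos _)]
    have hk0 : k ≠ 0 := by
      rw [← norm_ne_zero_iff, hkn]; exact (Real.exp_pos _).ne'
    have hlog : ∀ z, f z ≠ 0 → 0 - Real.log ‖k * f z‖ = B - Real.log ‖f z‖ := by
      intro z hz
      rw [norm_mul, Real.log_mul (norm_ne_zero_iff.2 hk0) (norm_ne_zero_iff.2 hz), hkn, Real.log_exp]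
      ring
    have := area_submean_nn (fun z => k * f z) c D 0 hD
      (fun z hz => (hf z hz).const_mul k) (mul_ne_zero hk0 hc) le_rfl
      (fun z hz => by
        rw [norm_mul, hkn, Real.exp_zero]
        calc Real.exp (-B) * ‖f z‖ ≤ Real.exp (-B) * Real.exp B := by
              gcongr; exact hB z hz
          _ = 1 := by rw [← Real.exp_add]; simp)
    rw [hlog c hc] at this
    refine le_trans (le_of_eq ?_) this
    refine lintegral_congr fun z => ?_
    by_cases hz : f z = 0
    · rw [hz]; simp [ENNReal.ofReal_eq_zero, hB0.le]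
    · rw [hlog z hz]

end Pool.Agent.H343N.J2
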