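import Mathlib
import Pool.Agent.Helper343.NDefs

set_option autoImplicit false
set_option maxHeartbeats 4000000
open MeasureTheory Filter Topology Metric

namespace Pool.Agent.H343N.J3



section aux

/-- `h = 1 / (1 - r e^{i θ})` -/
noncomputable def hh (r θ : ℝ) : ℂ := (1 - circleMap 0 r θ)⁻¹

noncomputable def xx (r θ : ℝ) : ℝ := (Zf (circleMap 0 r θ)).re
noncomputable def yy (r θ : ℝ) : ℝ := (Zf (circleMap 0 r θ)).im

variable {r : ℝ}

lemma cm_re (r θ : ℝ) : (circleMap 0 r θ).re = r * Real.cos θ := by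
  simp [circleMap, Complex.exp_re]

lemma cm_im (r θ : ℝ) : (circleMap 0 r θ).im = r * Real.sin θ := by
  simp [circleMap, Complex.exp_im]

lemma om_re_pos (h0 : 0 < r) (h1 : r < 1) (θ : ℝ) : 0 < (1 - circleMap 0 r θ).re := by
  rw [Complex.sub_re, cm_re, Complex.one_re]
  have := Real.cos_le_one θ
  nlinarith

lemma om_ne (h0 : 0 < r) (h1 : r < 1) (θ : ℝ) : (1 - circleMap 0 r θ) ≠ 0 := by
  intro h
  have := om_re_pos h0 h1 θ
  rw [h] at this
  simp at this

lemma om_norm (h0 : 0 < r) (θ : ℝ) : 1 - r ≤ ‖1 - circleMap 0 r θ‖ := by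
  have h2 : ‖circleMap 0 r θ‖ = r := by
    rw [norm_circleMap_zero, abs_of_pos h0]
  have := norm_sub_norm_le (1 : ℂ) (circleMap 0 r θ)
  rw [norm_one, h2] at this
  exact this

lemma hh_ne (h0 : 0 < r) (h1 : r < 1) (θ : ℝ) : hh r θ ≠ 0 := inv_ne_zero (om_ne h0 h1 θ)

lemma hh_norm (h0 : 0 < r) (h1 : r < 1) (θ : ℝ) : ‖hh r θ‖ ≤ 1 / (1 - r) := by
  rw [hh, norm_inv, ← one_div]
  exact one_div_le_one_div_of_le (by linarith) (om_norm h0 θ)

lemma hh_re_pos (h0 : 0 < r) (h1 : r < 1) (θ : ℝ) : 0 < (hh r θ).re := by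
  rw [hh, Complex.inv_re]
  exact div_pos (om_re_pos h0 h1 θ) (Complex.normSq_pos.2 (om_ne h0 h1 θ))

lemma hh_im (r θ : ℝ) : (hh r θ).im = r * Real.sin θ / Complex.normSq (1 - circleMap 0 r θ) := by
  rw [hh, Complex.inv_im, Complex.sub_im, cm_im, Complex.one_im]
  ring

lemma hh_im_nonneg (h0 : 0 < r) {θ : ℝ} (hθ : 0 ≤ θ) (hθ' : θ ≤ Real.pi) : 0 ≤ (hh r θ).im := by
  rw [hh_im]
  exact div_nonneg (mul_nonneg h0.le (Real.sin_nonneg_of_nonneg_of_le_pi hθ hθ'))
    (Complex.normSq_nonneg _)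

lemma hh_im_le (h0 : 0 < r) (h1 : r < 1) {θ : ℝ} (hθ : 0 ≤ θ) :
    (hh r θ).im ≤ (1 / (1 - r)) ^ 2 * θ := by
  rw [hh_im]
  have h2 : (1 - r) ^ 2 ≤ Complex.normSq (1 - circleMap 0 r θ) := by
    rw [Complex.normSq_eq_norm_sq]
    exact pow_le_pow_left₀ (by linarith) (om_norm h0 θ) 2
  have h3 : 0 < (1 - r) ^ 2 := by
    have : 0 < 1 - r := by linarith
    positivity
  have h4 : r * Real.sin θ ≤ θ := by
    have h5 := Real.sin_le hθ
    nlinarith [Real.sin_le hθ]
  rw [div_le_iff₀ (h3.trans_le h2)]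
  have h5 : (1 / (1 - r)) ^ 2 * θ * (1 - r) ^ 2 = θ := by
    have : 1 - r ≠ 0 := by linarith
    field_simp
  calc r * Real.sin θ ≤ θ := h4
    _ = (1 / (1 - r)) ^ 2 * θ * (1 - r) ^ 2 := h5.symm
    _ ≤ _ := by gcongr

lemma hh_re_le (h0 : 0 < r) (h1 : r < 1) (θ : ℝ) : (hh r θ).re ≤ 1 / (1 - r) :=
  (Complex.re_le_norm _).trans (hh_norm h0 h1 θ)

/-- the circle relation -/
lemma circle_rel (h0 : 0 < r) (h1 : r < 1) (θ : ℝ) :
    (1 - r ^ 2) * ((hh r θ).re ^ 2 + (hh r θ).im ^ 2) = 2 * (hh r θ).re - 1 := by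
  have hne := om_ne h0 h1 θ
  have hn : Complex.normSq (1 - circleMap 0 r θ) ≠ 0 := (Complex.normSq_pos.2 hne).ne'
  have e : Complex.normSq (1 - circleMap 0 r θ) = 1 - 2 * (r * Real.cos θ) + r ^ 2 := by
    rw [Complex.normSq_apply, Complex.sub_re, Complex.sub_im, cm_re, cm_im, Complex.one_re,
      Complex.one_im]
    have := Real.sin_sq_add_cos_sq θ
    linear_combination r ^ 2 * this
  rw [hh_im, hh, Complex.inv_re, Complex.sub_re, cm_re, Complex.one_re]
  have e2 : (1 - r * Real.cos θ) ^ 2 + (r * Real.sin θ) ^ 2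
      = Complex.normSq (1 - circleMap 0 r θ) := by
    rw [e]
    have := Real.sin_sq_add_cos_sq θ
    linear_combination r ^ 2 * this
  set N := Complex.normSq (1 - circleMap 0 r θ) with hN
  rw [div_pow, div_pow, ← add_div, e2]
  have e3 : 2 * ((1 - r * Real.cos θ) / N) - 1 = (2 * (1 - r * Real.cos θ) - N) / N := by
    field_simp
  rw [e3, e]
  have hN' : 1 - 2 * (r * Real.cos θ) + r ^ 2 ≠ 0 := by rw [← e]; exact hn
  rw [e] at hn
  field_simp
  ring

lemma hasDerivAt_hh (h0 : 0 < r) (h1 : r < 1) (θ : ℝ) :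
    HasDerivAt (hh r) (Complex.I * (hh r θ ^ 2 - hh r θ)) θ := by
  have hne := om_ne h0 h1 θ
  have h2 : HasDerivAt (fun θ : ℝ => 1 - circleMap 0 r θ) (-(circleMap 0 r θ * Complex.I)) θ :=
    (hasDerivAt_circleMap 0 r θ).const_sub 1
  have h3 := h2.inv hne
  refine h3.congr_deriv ?_
  rw [hh]
  field_simp
  ring

lemma hh_slit (h0 : 0 < r) (h1 : r < 1) (θ : ℝ) : hh r θ ∈ Complex.slitPlane :=
  Or.inl (hh_re_pos h0 h1 θ)

lemma hasDerivAt_Zf (h0 : 0 < r) (h1 : r < 1) (θ : ℝ) :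
    HasDerivAt (fun θ : ℝ => Zf (circleMap 0 r θ)) (100 * (Complex.I * (hh r θ ^ 2 - 1))) θ := by
  have h2 := hasDerivAt_hh h0 h1 θ
  have h3 := h2.clog_real (hh_slit h0 h1 θ)
  have h4 := (h2.add h3).const_mul (100 : ℂ)
  refine h4.congr_deriv ?_
  have hne := hh_ne h0 h1 θ
  field_simp
  ring

lemma hasDerivAt_xx (h0 : 0 < r) (h1 : r < 1) (θ : ℝ) :
    HasDerivAt (xx r) (-200 * (hh r θ).re * (hh r θ).im) θ := by
  have h2 := (Complex.reCLM.hasFDerivAt (x := Zf (circleMap 0 r θ))).comp_hasDerivAt θ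
    (hasDerivAt_Zf h0 h1 θ)
  refine h2.congr_deriv ?_
  simp [Complex.mul_re, Complex.mul_im, sq]
  ring

lemma hasDerivAt_yy (h0 : 0 < r) (h1 : r < 1) (θ : ℝ) :
    HasDerivAt (yy r) (100 * ((hh r θ).re ^ 2 - (hh r θ).im ^ 2 - 1)) θ := by
  have h2 := (Complex.imCLM.hasFDerivAt (x := Zf (circleMap 0 r θ))).comp_hasDerivAt θ
    (hasDerivAt_Zf h0 h1 θ)
  refine h2.congr_deriv ?_
  simp [Complex.mul_re, Complex.mul_im, sq]

lemma hasDerivAt_X (h0 : 0 < r) (h1 : r < 1) (θ : ℝ) :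
    HasDerivAt (fun θ => (hh r θ).re) (-(hh r θ).im * (2 * (hh r θ).re - 1)) θ := by
  have h2 := (Complex.reCLM.hasFDerivAt (x := hh r θ)).comp_hasDerivAt θ
    (hasDerivAt_hh h0 h1 θ)
  refine h2.congr_deriv ?_
  simp [Complex.mul_re, Complex.mul_im, sq]
  ring

lemma hasDerivAt_Y (h0 : 0 < r) (h1 : r < 1) (θ : ℝ) :
    HasDerivAt (fun θ => (hh r θ).im) ((hh r θ).re ^ 2 - (hh r θ).im ^ 2 - (hh r θ).re) θ := by
  have h2 := (Complex.imCLM.hasFDerivAt (x := hh r θ)).comp_hasDerivAt θ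
    (hasDerivAt_hh h0 h1 θ)
  refine h2.congr_deriv ?_
  simp [Complex.mul_re, Complex.mul_im, sq]

lemma xx_eq (h0 : 0 < r) (h1 : r < 1) (θ : ℝ) :
    xx r θ = 100 * ((hh r θ).re + Real.log ‖hh r θ‖) := by
  rw [xx, Zf, ← hh]
  simp [Complex.log_re]

lemma yy_eq (h0 : 0 < r) (h1 : r < 1) (θ : ℝ) :
    yy r θ = 100 * ((hh r θ).im + Complex.arg (hh r θ)) := by
  rw [yy, Zf, ← hh]
  simp [Complex.log_im]

lemma hh_zero (h1 : r < 1) : hh r 0 = ((1 / (1 - r) : ℝ) : ℂ) := by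
  rw [hh, circleMap]
  simp

lemma xx_zero (h0 : 0 < r) (h1 : r < 1) :
    xx r 0 = 100 * (1 / (1 - r) + Real.log (1 / (1 - r))) := by
  rw [xx_eq h0 h1, hh_zero h1, Complex.ofReal_re, Complex.norm_real, Real.norm_of_nonneg]
  have : 0 < 1 - r := by linarith
  positivity

lemma yy_zero (h0 : 0 < r) (h1 : r < 1) : yy r 0 = 0 := by
  rw [yy_eq h0 h1, hh_zero h1, Complex.ofReal_im, Complex.arg_ofReal_of_nonneg]
  · simp
  · have : 0 < 1 - r := by linarith
    positivity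

lemma yy_nonneg (h0 : 0 < r) (h1 : r < 1) {θ : ℝ} (hθ : 0 ≤ θ) (hθ' : θ ≤ Real.pi) :
    0 ≤ yy r θ := by
  rw [yy_eq h0 h1]
  have h2 := hh_im_nonneg h0 hθ hθ'
  have h3 := Complex.arg_nonneg_iff.2 h2
  positivity

lemma hh_neg (r θ : ℝ) : hh r (-θ) = (starRingEnd ℂ) (hh r θ) := by
  rw [hh, hh, map_inv₀, map_sub, map_one]
  congr 2
  apply Complex.ext
  · rw [Complex.conj_re, cm_re, cm_re, Real.cos_neg]
  · rw [Complex.conj_im, cm_im, cm_im, Real.sin_neg]; ring

lemma xx_neg (h0 : 0 < r) (h1 : r < 1) (θ : ℝ) : xx r (-θ) = xx r θ := by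
  rw [xx_eq h0 h1, xx_eq h0 h1, hh_neg, Complex.conj_re, Complex.norm_conj]

lemma yy_neg (h0 : 0 < r) (h1 : r < 1) (θ : ℝ) : yy r (-θ) = - yy r θ := by
  rw [yy_eq h0 h1, yy_eq h0 h1, hh_neg, Complex.conj_im, Complex.arg_conj, if_neg]
  · ring
  · intro h
    have := Complex.arg_eq_pi_iff.1 h
    have h2 := hh_re_pos h0 h1 θ
    linarith [this.1]

lemma continuous_hh (h0 : 0 < r) (h1 : r < 1) : Continuous (hh r) :=
  continuous_iff_continuousAt.2 fun θ => (hasDerivAt_hh h0 h1 θ).continuousAt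

lemma continuous_xx (h0 : 0 < r) (h1 : r < 1) : Continuous (xx r) :=
  continuous_iff_continuousAt.2 fun θ => (hasDerivAt_xx h0 h1 θ).continuousAt

lemma continuous_yy (h0 : 0 < r) (h1 : r < 1) : Continuous (yy r) :=
  continuous_iff_continuousAt.2 fun θ => (hasDerivAt_yy h0 h1 θ).continuousAt

/-- upper bound of the weight by the real part -/
lemma exp_xx_le (h0 : 0 < r) (h1 : r < 1) {θ c : ℝ} (hc : (hh r θ).re ≤ c) :
    Real.exp (xx r θ) ≤ Real.exp (100 * c) * (1 / (1 - r)) ^ 100 := by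
  have hn : 0 < ‖hh r θ‖ := norm_pos_iff.2 (hh_ne h0 h1 θ)
  have e1 : Real.exp (xx r θ) = Real.exp (100 * (hh r θ).re) * ‖hh r θ‖ ^ 100 := by
    rw [xx_eq h0 h1, mul_add, Real.exp_add]
    congr 1
    rw [show (100 : ℝ) * Real.log ‖hh r θ‖ = ((100 : ℕ) : ℝ) * Real.log ‖hh r θ‖ by norm_num,
      Real.exp_nat_mul, Real.exp_log hn]
  rw [e1]
  have h2 := hh_norm h0 h1 θ
  gcongr

lemma exp_xx_zero (h0 : 0 < r) (h1 : r < 1) :
    Real.exp (xx r 0) = Real.exp (100 * (1 / (1 - r))) * (1 / (1 - r)) ^ 100 := by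
  have hR : 0 < 1 / (1 - r) := by
    have : 0 < 1 - r := by linarith
    positivity
  rw [xx_zero h0 h1, mul_add, Real.exp_add]
  congr 1
  rw [show (100 : ℝ) * Real.log (1 / (1 - r)) = ((100 : ℕ) : ℝ) * Real.log (1 / (1 - r)) by
    norm_num, Real.exp_nat_mul, Real.exp_log hR]


lemma two_re_sub_one_nonneg (h0 : 0 < r) (h1 : r < 1) (θ : ℝ) : 0 ≤ 2 * (hh r θ).re - 1 := by
  rw [← circle_rel h0 h1 θ]
  have : 0 ≤ 1 - r ^ 2 := by nlinarith
  positivity

lemma norm_sq_le (h0 : 0 < r) (h1 : r < 1) (θ : ℝ) :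
    (hh r θ).re ^ 2 + (hh r θ).im ^ 2 ≤ (hh r θ).re * (1 / (1 - r)) := by
  have h2 := circle_rel h0 h1 θ
  have h3 := hh_re_le h0 h1 θ
  have h4 : 0 < 1 - r := by linarith
  have h5 : (1 - r) * (1 / (1 - r)) = 1 := by field_simp
  have h6 : 0 < (1 - r ^ 2) := by nlinarith
  have h7 : (1 - r ^ 2) * ((hh r θ).re ^ 2 + (hh r θ).im ^ 2)
      ≤ (1 - r ^ 2) * ((hh r θ).re * (1 / (1 - r))) := by
    rw [h2]
    have h8 : (1 - r ^ 2) * ((hh r θ).re * (1 / (1 - r))) = (1 + r) * (hh r θ).re := by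
      field_simp
      ring
    rw [h8]
    have h9 : (1 - r) * (hh r θ).re ≤ 1 := by
      calc (1 - r) * (hh r θ).re ≤ (1 - r) * (1 / (1 - r)) := by gcongr
        _ = 1 := h5
    nlinarith
  exact le_of_mul_le_mul_left h7 h6

/-- the real part decreases on `[0, π]` -/
lemma X_antitone (h0 : 0 < r) (h1 : r < 1) :
    AntitoneOn (fun θ => (hh r θ).re) (Set.Icc 0 Real.pi) := by
  apply antitoneOn_of_deriv_nonpos (convex_Icc _ _)
  · exact (Complex.continuous_re.comp (continuous_hh h0 h1)).continuousOn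
  · exact fun θ _ => (hasDerivAt_X h0 h1 θ).differentiableAt.differentiableWithinAt
  · intro θ hθ
    rw [interior_Icc] at hθ
    rw [(hasDerivAt_X h0 h1 θ).deriv]
    have h2 := hh_im_nonneg h0 hθ.1.le hθ.2.le
    have h3 := two_re_sub_one_nonneg h0 h1 θ
    nlinarith

lemma R_gt (h0 : 1 / 2 < r) (h1 : r < 1) : 2 < 1 / (1 - r) := by
  rw [lt_div_iff₀ (by linarith)]
  linarith

/-- near the maximum the weight is at least `exp (xx 0 - 1)` -/
lemma xx_lower (h0 : 0 < r) (h1 : r < 1) {θ : ℝ} (hθ : 0 ≤ θ) (hθ' : θ ≤ Real.pi) :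
    xx r 0 - 100 * (1 / (1 - r)) ^ 3 * θ ^ 2 ≤ xx r θ := by
  set R := 1 / (1 - r) with hR
  have hR0 : 0 < R := by
    have : 0 < 1 - r := by linarith
    positivity
  have hder : ∀ t, HasDerivAt (fun t => xx r t + 100 * R ^ 3 * t ^ 2)
      (-200 * (hh r t).re * (hh r t).im + 100 * R ^ 3 * (2 * t)) t := by
    intro t
    have h2 : HasDerivAt (fun t : ℝ => t ^ 2) (2 * t) t := by
      simpa using hasDerivAt_pow 2 t
    exact (hasDerivAt_xx h0 h1 t).add (h2.const_mul _)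
  have hmono : MonotoneOn (fun t => xx r t + 100 * R ^ 3 * t ^ 2) (Set.Icc 0 Real.pi) := by
    apply monotoneOn_of_deriv_nonneg (convex_Icc _ _)
    · exact (continuous_iff_continuousAt.2 fun t => (hder t).continuousAt).continuousOn
    · exact fun t _ => (hder t).differentiableAt.differentiableWithinAt
    · intro t ht
      rw [interior_Icc] at ht
      rw [(hder t).deriv]
      have h2 := hh_im_nonneg h0 ht.1.le ht.2.le
      have h3 := hh_im_le h0 h1 ht.1.le
      have h4 := hh_re_le h0 h1 t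
      have h5 := hh_re_pos h0 h1 t
      rw [← hR] at h3 h4
      have h6 : (hh r t).re * (hh r t).im ≤ R * (R ^ 2 * t) := mul_le_mul h4 h3 h2 hR0.le
      nlinarith
  have h2 := hmono (Set.left_mem_Icc.2 Real.pi_pos.le) ⟨hθ, hθ'⟩ hθ
  simp only at h2
  nlinarith

/-- half of the mass -/
noncomputable def II (r : ℝ) : ℝ := ∫ θ in (0 : ℝ)..Real.pi, Real.exp (xx r θ)

lemma even_integral {f : ℝ → ℝ} (hf : Continuous f) (he : ∀ θ, f (-θ) = f θ) :
    ∫ θ in (-Real.pi)..Real.pi, f θ = 2 * ∫ θ in (0 : ℝ)..Real.pi, f θ := by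
  rw [← intervalIntegral.integral_add_adjacent_intervals (b := 0)
    (hf.intervalIntegrable _ _) (hf.intervalIntegrable _ _)]
  have h1 : ∫ θ in (-Real.pi)..0, f θ = ∫ θ in (0 : ℝ)..Real.pi, f θ := by
    have h2 := intervalIntegral.integral_comp_neg (a := 0) (b := Real.pi) f
    simp only [neg_zero] at h2
    rw [← h2]
    exact intervalIntegral.integral_congr fun θ _ => he θ
  rw [h1]; ring

lemma Ef_eq (h0 : 0 < r) (h1 : r < 1) : Ef r = 2 * II r := by
  rw [Ef, II]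
  exact even_integral (Real.continuous_exp.comp (continuous_xx h0 h1))
    (fun θ => by rw [← xx, ← xx, xx_neg h0 h1])

lemma mass (h0 : 1 / 2 < r) (h1 : r < 1) :
    Real.exp (xx r 0) / (30 * (1 / (1 - r) * √(1 / (1 - r)))) ≤ II r := by
  have h0' : 0 < r := by linarith
  set R := 1 / (1 - r) with hR
  have hR2 : 2 < R := R_gt h0 h1
  have hs : 0 < √R := Real.sqrt_pos.2 (by linarith)
  have hs2 : √R ^ 2 = R := Real.sq_sqrt (by linarith)
  have hs1 : 1 ≤ √R := by
    rw [Real.one_le_sqrt]; linarith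
  set δ := 1 / (10 * (R * √R)) with hδ
  have hδ0 : 0 < δ := by positivity
  have hδ1 : δ ≤ 1 := by
    rw [hδ, div_le_one (by positivity)]
    nlinarith
  have hδπ : δ ≤ Real.pi := by linarith [Real.pi_gt_three]
  have hδsq : 100 * R ^ 3 * δ ^ 2 = 1 := by
    have h7 : (R * √R) ^ 2 = R ^ 3 := by rw [mul_pow, hs2]; ring
    have h8 : δ ^ 2 = 1 / (100 * R ^ 3) := by
      rw [hδ, div_pow, mul_pow, h7]; norm_num
    have hR3 : 0 < R ^ 3 := by positivity
    rw [h8, mul_one_div, div_self (by positivity)]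
  have hcont : Continuous (fun θ => Real.exp (xx r θ)) :=
    Real.continuous_exp.comp (continuous_xx h0' h1)
  have h2 : ∫ θ in (0 : ℝ)..δ, Real.exp (xx r 0 - 1) ≤ ∫ θ in (0 : ℝ)..δ, Real.exp (xx r θ) := by
    apply intervalIntegral.integral_mono_on hδ0.le (by simp) (hcont.intervalIntegrable _ _)
    intro θ hθ
    rw [Real.exp_le_exp]
    have h3 := xx_lower h0' h1 hθ.1 (hθ.2.trans hδπ)
    rw [← hR] at h3
    have h4 : 100 * R ^ 3 * θ ^ 2 ≤ 100 * R ^ 3 * δ ^ 2 := by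
      have := pow_le_pow_left₀ hθ.1 hθ.2 2
      gcongr
    linarith
  have h3 : ∫ θ in (0 : ℝ)..δ, Real.exp (xx r θ) ≤ II r := by
    rw [II]
    apply intervalIntegral.integral_mono_interval le_rfl hδ0.le hδπ
    · exact Eventually.of_forall fun θ => (Real.exp_pos _).le
    · exact hcont.intervalIntegrable _ _
  rw [intervalIntegral.integral_const, smul_eq_mul, sub_zero] at h2
  refine le_trans ?_ (h2.trans h3)
  rw [Real.exp_sub, hδ]
  have he : Real.exp 1 ≤ 3 := by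
    have := Real.exp_one_lt_d9
    linarith
  have he0 := Real.exp_pos 1
  have hx0 := Real.exp_pos (xx r 0)
  rw [one_div, ← div_eq_inv_mul, div_div]
  apply div_le_div_of_nonneg_left hx0.le (by positivity)
  have : 0 < R * √R := by positivity
  nlinarith

lemma II_pos (h0 : 1 / 2 < r) (h1 : r < 1) : 0 < II r := by
  refine lt_of_lt_of_le ?_ (mass h0 h1)
  have := R_gt h0 h1
  positivity

/-- the splitting point -/
lemma exists_split (h0 : 1 / 2 < r) (h1 : r < 1) :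
    ∃ θm, 0 ≤ θm ∧ θm ≤ Real.pi ∧
      (∀ θ, 0 ≤ θ → θ ≤ θm → 7 / 10 * (1 / (1 - r)) ≤ (hh r θ).re) ∧
      (∀ θ, θm ≤ θ → θ ≤ Real.pi → (hh r θ).re ≤ 7 / 10 * (1 / (1 - r))) := by
  have h0' : 0 < r := by linarith
  set R := 1 / (1 - r) with hR
  have hR2 : 2 < R := R_gt h0 h1
  have hc : ContinuousOn (fun θ => (hh r θ).re) (Set.Icc 0 Real.pi) :=
    (Complex.continuous_re.comp (continuous_hh h0' h1)).continuousOn
  have hX0 : (hh r 0).re = R := by rw [hh_zero h1, Complex.ofReal_re]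
  have hXπ : (hh r Real.pi).re ≤ 1 := by
    have h2 : ‖hh r Real.pi‖ ≤ 1 := by
      rw [hh, norm_inv]
      apply inv_le_one_of_one_le₀
      refine le_trans ?_ (Complex.re_le_norm _)
      rw [Complex.sub_re, cm_re, Real.cos_pi, Complex.one_re]
      linarith
    exact (Complex.re_le_norm _).trans h2
  obtain ⟨θm, hθm, hval⟩ := intermediate_value_Icc' Real.pi_pos.le hc
    (show 7 / 10 * R ∈ Set.Icc (hh r Real.pi).re (hh r 0).re by
      rw [hX0]; constructor <;> linarith)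
  have hanti := X_antitone h0' h1
  refine ⟨θm, hθm.1, hθm.2, ?_, ?_⟩
  · intro θ hθ hθ'
    have := hanti ⟨hθ, hθ'.trans hθm.2⟩ hθm hθ'
    simp only at this hval
    rw [hval] at this
    exact this
  · intro θ hθ hθ'
    have := hanti hθm ⟨hθm.1.trans hθ, hθ'⟩ hθ
    simp only at this hval
    rw [hval] at this
    exact this

/-- the main integration by parts estimate -/
lemma main_est (h0 : 1 / 2 < r) (h1 : r < 1) {θm : ℝ} (hθ0 : 0 ≤ θm) (hθπ : θm ≤ Real.pi)
    (hX : ∀ θ, 0 ≤ θ → θ ≤ θm → 7 / 10 * (1 / (1 - r)) ≤ (hh r θ).re)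
    (φ Φ : ℝ → ℝ) (hφ : Continuous φ) (hΦ : ∀ u, HasDerivAt Φ (φ u) u) (hΦ0 : Φ 0 = 0)
    (ε C : ℝ) (hε : 0 ≤ ε) (hC : 0 ≤ C) (hb : ∀ u, 0 ≤ u → |Φ u| ≤ ε * u + C) :
    |∫ θ in (0 : ℝ)..θm, Real.exp (xx r θ) * φ (yy r θ)|
      ≤ C * (Real.exp (xx r 0) / (100 * ((1 / (1 - r)) ^ 2 - 1))) +
        ε * ∫ θ in (0 : ℝ)..θm, Real.exp (xx r θ) := by
  have h0' : 0 < r := by linarith
  set R := 1 / (1 - r) with hR
  have hR2 : 2 < R := R_gt h0 h1
  -- the denominator
  set v : ℝ → ℝ := fun θ => 100 * ((hh r θ).re ^ 2 - (hh r θ).im ^ 2 - 1) with hv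
  have hvlow : ∀ θ, 0 ≤ θ → θ ≤ θm → 28 * R ^ 2 - 100 ≤ v θ := by
    intro θ h2 h3
    have h4 := hX θ h2 h3
    have h5 := norm_sq_le h0' h1 θ
    rw [← hR] at h5
    simp only [hv]
    nlinarith
  have hvpos : ∀ θ, 0 ≤ θ → θ ≤ θm → 0 < v θ := by
    intro θ h2 h3
    have := hvlow θ h2 h3
    nlinarith
  have hv' : ∀ θ, HasDerivAt v
      (-200 * (hh r θ).im * (3 * (hh r θ).re ^ 2 - (hh r θ).im ^ 2 - 2 * (hh r θ).re)) θ := by
    intro θ
    have h2 := (((hasDerivAt_X h0' h1 θ).pow 2).sub ((hasDerivAt_Y h0' h1 θ).pow 2)).sub_const 1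
    refine (h2.const_mul 100).congr_deriv ?_
    simp
    ring
  -- the quotient
  set q : ℝ → ℝ := fun θ => Real.exp (xx r θ) / v θ with hq
  set q' : ℝ → ℝ := fun θ => (Real.exp (xx r θ) * (-200 * (hh r θ).re * (hh r θ).im) * v θ -
      Real.exp (xx r θ) * (-200 * (hh r θ).im *
        (3 * (hh r θ).re ^ 2 - (hh r θ).im ^ 2 - 2 * (hh r θ).re))) / v θ ^ 2 with hq'
  have hqd : ∀ θ, 0 ≤ θ → θ ≤ θm → HasDerivAt q (q' θ) θ := by
    intro θ h2 h3
    exact ((hasDerivAt_xx h0' h1 θ).exp).div (hv' θ) (hvpos θ h2 h3).ne'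
  have hq'neg : ∀ θ, 0 ≤ θ → θ ≤ θm → q' θ ≤ 0 := by
    intro θ h2 h3
    have hv0 := hvpos θ h2 h3
    have hvl := hvlow θ h2 h3
    have hY := hh_im_nonneg h0' h2 (h3.trans hθπ)
    have hXp := hh_re_pos h0' h1 θ
    have hXR := hh_re_le h0' h1 θ
    rw [← hR] at hXR
    have e1 : q' θ = -(200 * Real.exp (xx r θ) * (hh r θ).im * ((hh r θ).re * v θ -
        (3 * (hh r θ).re ^ 2 - (hh r θ).im ^ 2 - 2 * (hh r θ).re))) / v θ ^ 2 := by
      simp only [hq']
      ring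
    rw [e1]
    apply div_nonpos_of_nonpos_of_nonneg _ (sq_nonneg _)
    rw [neg_nonpos]
    apply mul_nonneg
    · have := Real.exp_pos (xx r θ)
      positivity
    · have h4 : 3 * (hh r θ).re ≤ v θ := by nlinarith
      have h5 : 3 * (hh r θ).re ^ 2 ≤ (hh r θ).re * v θ := by nlinarith
      nlinarith [sq_nonneg (hh r θ).im]
  have hqv : ∀ θ, 0 ≤ θ → θ ≤ θm → q θ * v θ = Real.exp (xx r θ) := by
    intro θ h2 h3
    simp only [hq]
    have := (hvpos θ h2 h3).ne'
    field_simp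
  have hqpos : ∀ θ, 0 ≤ θ → θ ≤ θm → 0 < q θ := fun θ h2 h3 =>
    div_pos (Real.exp_pos _) (hvpos θ h2 h3)
  -- the two integrals
  have hce : Continuous (fun θ => Real.exp (xx r θ)) :=
    Real.continuous_exp.comp (continuous_xx h0' h1)
  have hcf : Continuous (fun θ => Real.exp (xx r θ) * φ (yy r θ)) :=
    hce.mul (hφ.comp (continuous_yy h0' h1))
  set J : ℝ → ℝ := fun θ => ∫ t in (0 : ℝ)..θ, Real.exp (xx r t) * φ (yy r t) with hJ
  set E : ℝ → ℝ := fun θ => ∫ t in (0 : ℝ)..θ, Real.exp (xx r t) with hE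
  have hJd : ∀ θ, HasDerivAt J (Real.exp (xx r θ) * φ (yy r θ)) θ := fun θ =>
    intervalIntegral.integral_hasDerivAt_right (hcf.intervalIntegrable _ _)
      (hcf.stronglyMeasurableAtFilter _ _) hcf.continuousAt
  have hEd : ∀ θ, HasDerivAt E (Real.exp (xx r θ)) θ := fun θ =>
    intervalIntegral.integral_hasDerivAt_right (hce.intervalIntegrable _ _)
      (hce.stronglyMeasurableAtFilter _ _) hce.continuousAt
  -- the monotone functions
  have key : ∀ σ : ℝ, (σ = 1 ∨ σ = -1) →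
      -(q 0 * C) ≤ σ * (J θm - q θm * Φ (yy r θm)) - (q θm * (ε * yy r θm + C) - ε * E θm) := by
    intro σ hσ
    set Kf : ℝ → ℝ := fun θ => σ * (J θ - q θ * Φ (yy r θ)) -
      (q θ * (ε * yy r θ + C) - ε * E θ) with hKf
    have hKd : ∀ θ, 0 ≤ θ → θ ≤ θm → HasDerivAt Kf
        (-(q' θ) * (ε * yy r θ + C + σ * Φ (yy r θ))) θ := by
      intro θ h2 h3
      have d1 := hqd θ h2 h3
      have d2 := hasDerivAt_yy h0' h1 θ
      have d3 : HasDerivAt (fun θ => Φ (yy r θ)) (φ (yy r θ) * v θ) θ :=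
        (hΦ (yy r θ)).comp θ d2
      have d4 : HasDerivAt (fun θ => ε * yy r θ + C) (ε * v θ) θ :=
        (d2.const_mul ε).add_const C
      have d5 := (((hJd θ).sub (d1.mul d3)).const_mul σ).sub
        ((d1.mul d4).sub ((hEd θ).const_mul ε))
      refine d5.congr_deriv ?_
      have e1 := hqv θ h2 h3
      rw [← e1]
      ring
    have hmono : MonotoneOn Kf (Set.Icc 0 θm) := by
      apply monotoneOn_of_deriv_nonneg (convex_Icc _ _)
      · exact fun θ hθ => (hKd θ hθ.1 hθ.2).continuousAt.continuousWithinAt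
      · intro θ hθ
        rw [interior_Icc] at hθ
        exact (hKd θ hθ.1.le hθ.2.le).differentiableAt.differentiableWithinAt
      · intro θ hθ
        rw [interior_Icc] at hθ
        rw [(hKd θ hθ.1.le hθ.2.le).deriv]
        have h4 := hq'neg θ hθ.1.le hθ.2.le
        have h5 := hb (yy r θ) (yy_nonneg h0' h1 hθ.1.le (hθ.2.le.trans hθπ))
        rw [abs_le] at h5
        apply mul_nonneg (by linarith)
        rcases hσ with rfl | rfl
        · linarith [h5.1]
        · linarith [h5.2]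
    have h2 := hmono (Set.left_mem_Icc.2 hθ0) (Set.right_mem_Icc.2 hθ0) hθ0
    have h3 : Kf 0 = -(q 0 * C) := by
      simp only [hKf, hJ, hE, yy_zero h0' h1, hΦ0, intervalIntegral.integral_same]
      ring
    rw [h3] at h2
    exact h2
  have k1 := key 1 (Or.inl rfl)
  have k2 := key (-1) (Or.inr rfl)
  have hbm := hb (yy r θm) (yy_nonneg h0' h1 hθ0 hθπ)
  have hqm := hqpos θm hθ0 le_rfl
  have hq0 : q 0 = Real.exp (xx r 0) / (100 * (R ^ 2 - 1)) := by
    simp only [hq, hv, hh_zero h1, Complex.ofReal_re, Complex.ofReal_im]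
    rw [← hR]
    norm_num
  rw [← hq0]
  have h6 : |q θm * Φ (yy r θm)| ≤ q θm * (ε * yy r θm + C) := by
    rw [abs_mul, abs_of_pos hqm]
    gcongr
  rw [abs_le] at h6 ⊢
  constructor <;> linarith [h6.1, h6.2]

lemma full_est (h0 : 1 / 2 < r) (h1 : r < 1)
    (φ Φ : ℝ → ℝ) (hφ : Continuous φ) (hΦ : ∀ u, HasDerivAt Φ (φ u) u) (hΦ0 : Φ 0 = 0)
    (ε C B : ℝ) (hε : 0 ≤ ε) (hC : 0 ≤ C) (hb : ∀ u, 0 ≤ u → |Φ u| ≤ ε * u + C)
    (hB : ∀ u, |φ u| ≤ B) :
    |∫ θ in (0 : ℝ)..Real.pi, Real.exp (xx r θ) * φ (yy r θ)|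
      ≤ C * (Real.exp (xx r 0) / (100 * ((1 / (1 - r)) ^ 2 - 1))) + ε * II r +
        B * Real.pi * (Real.exp (70 * (1 / (1 - r))) * (1 / (1 - r)) ^ 100) := by
  have h0' : 0 < r := by linarith
  obtain ⟨θm, hθ0, hθπ, hX1, hX2⟩ := exists_split h0 h1
  have hm := main_est h0 h1 hθ0 hθπ hX1 φ Φ hφ hΦ hΦ0 ε C hε hC hb
  set R := 1 / (1 - r) with hR
  have hR2 : 2 < R := R_gt h0 h1
  have hB0 : 0 ≤ B := (abs_nonneg _).trans (hB 0)
  have hce : Continuous (fun θ => Real.exp (xx r θ)) :=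
    Real.continuous_exp.comp (continuous_xx h0' h1)
  have hcf : Continuous (fun θ => Real.exp (xx r θ) * φ (yy r θ)) :=
    hce.mul (hφ.comp (continuous_yy h0' h1))
  rw [← intervalIntegral.integral_add_adjacent_intervals (b := θm)
    (hcf.intervalIntegrable _ _) (hcf.intervalIntegrable _ _)]
  have h2 : |∫ θ in θm..Real.pi, Real.exp (xx r θ) * φ (yy r θ)|
      ≤ (Real.exp (70 * R) * R ^ 100 * B) * |Real.pi - θm| := by
    rw [← Real.norm_eq_abs]
    apply intervalIntegral.norm_integral_le_of_norm_le_const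
    intro θ hθ
    rw [Set.uIoc_of_le hθπ] at hθ
    rw [norm_mul, Real.norm_eq_abs, Real.norm_eq_abs, abs_of_pos (Real.exp_pos _)]
    have h3 := exp_xx_le h0' h1 (hX2 θ hθ.1.le hθ.2)
    rw [← hR] at h3
    have e1 : 100 * (7 / 10 * R) = 70 * R := by ring
    rw [e1] at h3
    have h4 := hB (yy r θ)
    gcongr
  have h3 : |Real.pi - θm| ≤ Real.pi := by
    rw [abs_of_nonneg (by linarith)]
    linarith
  have h4 : ∫ θ in (0 : ℝ)..θm, Real.exp (xx r θ) ≤ II r := by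
    rw [II]
    apply intervalIntegral.integral_mono_interval le_rfl hθ0 hθπ
    · exact Eventually.of_forall fun θ => (Real.exp_pos _).le
    · exact hce.intervalIntegrable _ _
  have h5 : (Real.exp (70 * R) * R ^ 100 * B) * |Real.pi - θm|
      ≤ (Real.exp (70 * R) * R ^ 100 * B) * Real.pi := by
    have := Real.exp_pos (70 * R)
    gcongr
  have h6 : ε * ∫ θ in (0 : ℝ)..θm, Real.exp (xx r θ) ≤ ε * II r := by gcongr
  calc _ ≤ _ := abs_add_le _ _
    _ ≤ _ := add_le_add hm h2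
    _ ≤ _ := by nlinarith

lemma tendsto_R : Tendsto (fun r : ℝ => 1 / (1 - r)) (𝓝[<] 1) atTop := by
  have h1 : Tendsto (fun r : ℝ => 1 - r) (𝓝[<] 1) (𝓝[>] 0) := by
    rw [tendsto_nhdsWithin_iff]
    constructor
    · have : Tendsto (fun r : ℝ => 1 - r) (𝓝 1) (𝓝 (1 - 1)) := by
        apply Continuous.tendsto; fun_prop
      rw [sub_self] at this
      exact this.mono_left nhdsWithin_le_nhds
    · filter_upwards [self_mem_nhdsWithin] with r hr
      simp only [Set.mem_Iio] at hr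
      simp only [Set.mem_Ioi]
      linarith
  exact (tendsto_inv_nhdsGT_zero.comp h1).congr (fun r => by simp)

lemma eventually_r : ∀ᶠ r : ℝ in 𝓝[<] 1, 1 / 2 < r ∧ r < 1 :=
  Ioo_mem_nhdsLT (by norm_num)

/-- decay of a power against an exponential -/
lemma tendsto_pow_exp (n : ℕ) (a b : ℝ) (ha : 0 < a) :
    Tendsto (fun R : ℝ => b * (R ^ n * Real.exp (-a * R))) atTop (𝓝 0) := by
  have h1 := Real.tendsto_pow_mul_exp_neg_atTop_nhds_zero n
  have h2 := h1.comp (tendsto_id.const_mul_atTop ha)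
  have h3 := h2.const_mul (b / a ^ n)
  rw [mul_zero] at h3
  refine h3.congr fun R => ?_
  simp only [Function.comp, id]
  rw [mul_pow]
  have : a ^ n ≠ 0 := by positivity
  field_simp

lemma inv_II_le (h0 : 1 / 2 < r) (h1 : r < 1) :
    1 / II r ≤ 30 * (1 / (1 - r)) ^ 2 / (Real.exp (100 * (1 / (1 - r))) * (1 / (1 - r)) ^ 100) := by
  have h0' : 0 < r := by linarith
  have hm := mass h0 h1
  have hI := II_pos h0 h1
  rw [exp_xx_zero h0' h1] at hm
  set R := 1 / (1 - r) with hR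
  have hR2 : 2 < R := R_gt h0 h1
  have hs : 0 < √R := Real.sqrt_pos.2 (by linarith)
  have hsR : √R ≤ R := by
    rw [Real.sqrt_le_left (by linarith)]
    nlinarith
  rw [div_le_div_iff₀ hI (by positivity), one_mul]
  rw [div_le_iff₀ (by positivity)] at hm
  calc _ ≤ _ := hm
    _ = 30 * (R * √R) * II r := by ring
    _ ≤ 30 * R ^ 2 * II r := by
        have : R * √R ≤ R ^ 2 := by nlinarith
        gcongr

end aux

/-- equidistribution of the phase `Im Zf` on circles with weight `exp (Re Zf)` -/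
theorem equi (ψ : ℝ → ℝ) (hc : Continuous ψ) (B : ℝ) (hb : ∀ y, |ψ y| ≤ B)
    (he : ∀ y, ψ (-y) = ψ y) (D : ℝ)
    (hD : Tendsto (fun L : ℝ => (∫ y in (0:ℝ)..L, ψ y) / L) atTop (𝓝 D)) :
    Tendsto (fun r : ℝ => (∫ θ in (-Real.pi)..Real.pi,
        Real.exp (Zf (circleMap 0 r θ)).re * ψ (Zf (circleMap 0 r θ)).im) / Ef r)
      (𝓝[<] 1) (𝓝 D) := by
  set φ : ℝ → ℝ := fun u => ψ u - D with hφ
  set Φ : ℝ → ℝ := fun u => ∫ y in (0 : ℝ)..u, φ y with hΦ
  have hφc : Continuous φ := hc.sub continuous_const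
  have hΦd : ∀ u, HasDerivAt Φ (φ u) u := fun u =>
    intervalIntegral.integral_hasDerivAt_right (hφc.intervalIntegrable _ _)
      (hφc.stronglyMeasurableAtFilter _ _) hφc.continuousAt
  have hΦ0 : Φ 0 = 0 := by simp [hΦ]
  have hB0 : 0 ≤ B := (abs_nonneg _).trans (hb 0)
  set B' := B + |D| with hB'
  have hφB : ∀ u, |φ u| ≤ B' := fun u => by
    calc |ψ u - D| ≤ |ψ u| + |D| := abs_sub _ _
      _ ≤ B + |D| := by linarith [hb u]
  have hB'0 : 0 ≤ B' := (abs_nonneg _).trans (hφB 0)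
  have hΦeq : ∀ u, Φ u = (∫ y in (0:ℝ)..u, ψ y) - D * u := by
    intro u
    simp only [hΦ, hφ]
    rw [intervalIntegral.integral_sub (hc.intervalIntegrable _ _) (by simp)]
    simp [mul_comm]
  -- sublinear growth of Φ
  have hgrow : ∀ ε > 0, ∃ C, 0 ≤ C ∧ ∀ u, 0 ≤ u → |Φ u| ≤ ε * u + C := by
    intro ε hε
    have h1 := (Metric.tendsto_atTop.1 hD) ε hε
    obtain ⟨U, hU⟩ := h1
    set U' := max U 1 with hU'
    have hU'1 : 1 ≤ U' := le_max_right _ _
    refine ⟨B' * U', by positivity, fun u hu => ?_⟩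
    rcases le_total u U' with h | h
    · have h2 : |Φ u| ≤ B' * |u - 0| := by
        rw [← Real.norm_eq_abs]
        apply intervalIntegral.norm_integral_le_of_norm_le_const
        intro y _
        exact hφB y
      rw [sub_zero, abs_of_nonneg hu] at h2
      have h3 : B' * u ≤ B' * U' := by gcongr
      have h4 : 0 ≤ ε * u := by positivity
      linarith
    · have hu0 : 0 < u := by linarith
      have h2 := hU u ((le_max_left _ _).trans h)
      rw [Real.dist_eq] at h2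
      have h3 : Φ u = ((∫ y in (0:ℝ)..u, ψ y) / u - D) * u := by
        rw [hΦeq]; field_simp
      rw [h3, abs_mul, abs_of_pos hu0]
      have h4 : |(∫ y in (0:ℝ)..u, ψ y) / u - D| * u ≤ ε * u := by gcongr
      have h5 : 0 ≤ B' * U' := by positivity
      linarith
  rw [Metric.tendsto_nhds]
  intro ε hε
  obtain ⟨C, hC0, hC⟩ := hgrow (ε / 4) (by positivity)
  -- the error terms
  have t1 : Tendsto (fun r : ℝ => C * (2 / √(1 / (1 - r)))) (𝓝[<] 1) (𝓝 0) := by
    have h1 : Tendsto (fun R : ℝ => C * (2 / √R)) atTop (𝓝 (C * 0)) := by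
      apply Tendsto.const_mul
      exact tendsto_const_nhds.div_atTop Real.tendsto_sqrt_atTop
    rw [mul_zero] at h1
    exact h1.comp tendsto_R
  have t2 : Tendsto (fun r : ℝ => (B' * Real.pi * 30) *
      ((1 / (1 - r)) ^ 2 * Real.exp (-30 * (1 / (1 - r))))) (𝓝[<] 1) (𝓝 0) :=
    (tendsto_pow_exp 2 30 (B' * Real.pi * 30) (by norm_num)).comp tendsto_R
  have t1' := (Metric.tendsto_nhds.1 t1) (ε / 4) (by positivity)
  have t2' := (Metric.tendsto_nhds.1 t2) (ε / 4) (by positivity)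
  filter_upwards [eventually_r, t1', t2'] with r hr e1 e2
  obtain ⟨h0, h1⟩ := hr
  have h0' : 0 < r := by linarith
  have hI := II_pos h0 h1
  have hm := mass h0 h1
  have hest := full_est h0 h1 φ Φ hφc hΦd hΦ0 (ε / 4) C B' (by positivity) hC0 hC hφB
  have hcexp : Continuous (fun θ => Real.exp (xx r θ)) :=
    Real.continuous_exp.comp (continuous_xx h0' h1)
  have hN : ∫ θ in (-Real.pi)..Real.pi,
      Real.exp (Zf (circleMap 0 r θ)).re * ψ (Zf (circleMap 0 r θ)).im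
      = 2 * ∫ θ in (0 : ℝ)..Real.pi, Real.exp (xx r θ) * ψ (yy r θ) := by
    apply even_integral (f := fun θ => Real.exp (xx r θ) * ψ (yy r θ))
      (hcexp.mul (hc.comp (continuous_yy h0' h1)))
    intro θ
    simp only [xx_neg h0' h1, yy_neg h0' h1, he]
  have hint : ∫ θ in (0 : ℝ)..Real.pi, Real.exp (xx r θ) * φ (yy r θ)
      = (∫ θ in (0 : ℝ)..Real.pi, Real.exp (xx r θ) * ψ (yy r θ)) - D * II r := by
    rw [II, ← intervalIntegral.integral_const_mul, ← intervalIntegral.integral_sub]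
    · apply intervalIntegral.integral_congr
      intro θ _
      simp only [hφ]
      ring
    · exact (hcexp.mul (hc.comp (continuous_yy h0' h1))).intervalIntegrable _ _
    · exact (continuous_const.mul hcexp).intervalIntegrable _ _
  rw [hN, Ef_eq h0' h1, Real.dist_eq]
  have e3 : 2 * (∫ θ in (0 : ℝ)..Real.pi, Real.exp (xx r θ) * ψ (yy r θ)) / (2 * II r) - D
      = (∫ θ in (0 : ℝ)..Real.pi, Real.exp (xx r θ) * φ (yy r θ)) / II r := by
    rw [hint]; field_simp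
  rw [e3, abs_div, abs_of_pos hI]
  refine lt_of_le_of_lt (div_le_div_of_nonneg_right hest hI.le) ?_
  have hinv := inv_II_le h0 h1
  rw [Real.dist_eq, sub_zero] at e1 e2
  have e1' := lt_of_le_of_lt (le_abs_self _) e1
  have e2' := lt_of_le_of_lt (le_abs_self _) e2
  set R := 1 / (1 - r) with hR
  have hR2 : 2 < R := R_gt h0 h1
  have hs : 0 < √R := Real.sqrt_pos.2 (by linarith)
  have hs2 : √R * √R = R := Real.mul_self_sqrt (by linarith)
  rw [add_div, add_div]
  -- first term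
  have f1 : C * (Real.exp (xx r 0) / (100 * (R ^ 2 - 1))) / II r ≤ C * (2 / √R) := by
    rw [mul_div_assoc]
    apply mul_le_mul_of_nonneg_left _ hC0
    have hR21 : 0 < R ^ 2 - 1 := by nlinarith
    rw [div_div, div_le_div_iff₀ (by positivity) hs]
    rw [div_le_iff₀ (by positivity)] at hm
    have h5 : Real.exp (xx r 0) * √R ≤ II r * (30 * (R * √R)) * √R := by gcongr
    have h6 : II r * (30 * (R * √R)) * √R = 30 * R ^ 2 * II r := by
      calc _ = II r * 30 * R * (√R * √R) := by ring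
        _ = _ := by rw [hs2]; ring
    rw [h6] at h5
    refine h5.trans ?_
    have h7 : 30 * R ^ 2 ≤ 2 * (100 * (R ^ 2 - 1)) := by nlinarith
    nlinarith
  have f2 : ε / 4 * II r / II r = ε / 4 := by field_simp
  have f3 : B' * Real.pi * (Real.exp (70 * R) * R ^ 100) / II r
      ≤ (B' * Real.pi * 30) * (R ^ 2 * Real.exp (-30 * R)) := by
    have h5 : B' * Real.pi * (Real.exp (70 * R) * R ^ 100) / II r
        = B' * Real.pi * (Real.exp (70 * R) * R ^ 100) * (1 / II r) := by ring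
    rw [h5]
    have h6 : B' * Real.pi * (Real.exp (70 * R) * R ^ 100) * (1 / II r)
        ≤ B' * Real.pi * (Real.exp (70 * R) * R ^ 100) *
          (30 * R ^ 2 / (Real.exp (100 * R) * R ^ 100)) := by
      have := Real.pi_pos
      gcongr
    refine h6.trans (le_of_eq ?_)
    have h7 : Real.exp (100 * R) = Real.exp (70 * R) * Real.exp (30 * R) := by
      rw [← Real.exp_add]; congr 1; ring
    have h8 : Real.exp (-30 * R) = (Real.exp (30 * R))⁻¹ := by
      rw [← Real.exp_neg]; congr 1; ring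
    rw [h7, h8]
    have := Real.exp_pos (70 * R)
    have := Real.exp_pos (30 * R)
    field_simp
  linarith

/-- `Ef` beats every power of `1/(1-r)` -/
theorem Ef_large (n : ℕ) : Tendsto (fun r : ℝ => (1 / (1 - r)) ^ n / Ef r) (𝓝[<] 1) (𝓝 0) := by
  have h1 : Tendsto (fun r : ℝ => 15 * ((1 / (1 - r)) ^ (n + 2) * Real.exp (-100 * (1 / (1 - r)))))
      (𝓝[<] 1) (𝓝 0) := (tendsto_pow_exp (n + 2) 100 15 (by norm_num)).comp tendsto_R
  refine squeeze_zero' ?_ ?_ h1
  · filter_upwards [eventually_r] with r hr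
    have := II_pos hr.1 hr.2
    have h2 := R_gt hr.1 hr.2
    rw [Ef_eq (by linarith [hr.1]) hr.2]
    positivity
  · filter_upwards [eventually_r] with r hr
    have hI := II_pos hr.1 hr.2
    have h2 := R_gt hr.1 hr.2
    rw [Ef_eq (by linarith [hr.1]) hr.2]
    have hinv := inv_II_le hr.1 hr.2
    set R := 1 / (1 - r) with hR
    have e1 : R ^ n / (2 * II r) = R ^ n / 2 * (1 / II r) := by field_simp
    rw [e1]
    have h3 : R ^ n / 2 * (1 / II r) ≤ R ^ n / 2 * (30 * R ^ 2 / (Real.exp (100 * R) * R ^ 100)) := by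
      gcongr
    refine h3.trans ?_
    have h8 : Real.exp (-100 * R) = (Real.exp (100 * R))⁻¹ := by
      rw [← Real.exp_neg]; congr 1; ring
    have h9 : 1 ≤ R ^ 100 := one_le_pow₀ (by linarith)
    have h10 := Real.exp_pos (100 * R)
    rw [h8]
    have e2 : R ^ n / 2 * (30 * R ^ 2 / (Real.exp (100 * R) * R ^ 100))
        = 15 * (R ^ (n + 2) * (Real.exp (100 * R))⁻¹) / R ^ 100 := by
      rw [pow_add]; field_simp; ring
    rw [e2]
    apply div_le_self _ h9
    positivity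

/-- the tail is negligible -/
theorem tail_small (n : ℕ) (lam : ℝ) (h0 : 0 < lam) (h1 : lam < 1) :
    Tendsto (fun r : ℝ => (1 / (1 - r)) ^ n * (∫ θ in (-Real.pi)..Real.pi,
        (if ((1 - circleMap 0 r θ)⁻¹).re < lam * (1 / (1 - r)) then
          Real.exp (Zf (circleMap 0 r θ)).re else 0)) / Ef r)
      (𝓝[<] 1) (𝓝 0) := by
  have ha : 0 < 100 * (1 - lam) := by linarith
  have h2 : Tendsto (fun r : ℝ => (30 * Real.pi) *
      ((1 / (1 - r)) ^ (n + 2) * Real.exp (-(100 * (1 - lam)) * (1 / (1 - r)))))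
      (𝓝[<] 1) (𝓝 0) := (tendsto_pow_exp (n + 2) (100 * (1 - lam)) (30 * Real.pi) ha).comp tendsto_R
  refine squeeze_zero_norm' ?_ h2
  filter_upwards [eventually_r] with r hr
  have hr0 : 0 < r := by linarith [hr.1]
  have hI := II_pos hr.1 hr.2
  have h3 := R_gt hr.1 hr.2
  rw [Ef_eq hr0 hr.2]
  have hinv := inv_II_le hr.1 hr.2
  set R := 1 / (1 - r) with hR
  have hbound : ‖∫ θ in (-Real.pi)..Real.pi,
      (if ((1 - circleMap 0 r θ)⁻¹).re < lam * R then
          Real.exp (Zf (circleMap 0 r θ)).re else 0)‖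
      ≤ (Real.exp (100 * (lam * R)) * R ^ 100) * |Real.pi - (-Real.pi)| := by
    apply intervalIntegral.norm_integral_le_of_norm_le_const
    intro θ _
    split_ifs with h
    · rw [Real.norm_eq_abs, abs_of_pos (Real.exp_pos _)]
      exact exp_xx_le hr0 hr.2 (c := lam * R) (by exact le_of_lt h)
    · rw [norm_zero]
      have := Real.exp_pos (100 * (lam * R))
      positivity
  have hπ : |Real.pi - (-Real.pi)| = 2 * Real.pi := by
    rw [sub_neg_eq_add, abs_of_pos (by positivity)]; ring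
  rw [hπ] at hbound
  rw [norm_div, norm_mul, Real.norm_of_nonneg (by positivity : 0 ≤ R ^ n),
    Real.norm_of_nonneg (by positivity : 0 ≤ 2 * II r)]
  have h4 : R ^ n * ‖∫ θ in (-Real.pi)..Real.pi,
      (if ((1 - circleMap 0 r θ)⁻¹).re < lam * R then
          Real.exp (Zf (circleMap 0 r θ)).re else 0)‖ / (2 * II r)
      ≤ R ^ n * ((Real.exp (100 * (lam * R)) * R ^ 100) * (2 * Real.pi)) / (2 * II r) := by
    gcongr
  refine h4.trans ?_
  have e1 : R ^ n * ((Real.exp (100 * (lam * R)) * R ^ 100) * (2 * Real.pi)) / (2 * II r)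
      = R ^ n * ((Real.exp (100 * (lam * R)) * R ^ 100) * Real.pi) * (1 / II r) := by
    field_simp
  rw [e1]
  have h5 : R ^ n * ((Real.exp (100 * (lam * R)) * R ^ 100) * Real.pi) * (1 / II r)
      ≤ R ^ n * ((Real.exp (100 * (lam * R)) * R ^ 100) * Real.pi) *
        (30 * R ^ 2 / (Real.exp (100 * R) * R ^ 100)) := by
    have := Real.pi_pos
    have := Real.exp_pos (100 * (lam * R))
    gcongr
  refine h5.trans (le_of_eq ?_)
  have h7 : Real.exp (100 * (lam * R)) = Real.exp (100 * R) * Real.exp (-(100 * (1 - lam)) * R) := by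
    rw [← Real.exp_add]; congr 1; ring
  rw [h7, pow_add]
  have := Real.exp_pos (100 * R)
  field_simp

end Pool.Agent.H343N.J3
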