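import Mathlib
import Pool.Agent.Helper343.NDefs

set_option autoImplicit false
set_option maxHeartbeats 4000000
open MeasureTheory Filter Topology Metric

namespace Pool.Agent.H343N.J4




section density
open Classical in
/-- counting function of a predicate -/
noncomputable def cN (P : ℕ → Prop) (K : ℕ) : ℕ := ((Finset.range K).filter P).card

theorem card_eq_cN (P : ℕ → Prop) (K : ℕ) : Nat.card {k : ℕ | k < K ∧ P k} = cN P K := by
  classical
  have h : {k : ℕ | k < K ∧ P k} = ↑((Finset.range K).filter P) := by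
    ext k; simp
  rw [h, Nat.card_coe_set_eq, Set.ncard_coe_finset, cN]

theorem cN_eq (P : ℕ → Prop) [DecidablePred P] (K : ℕ) : cN P K = ((Finset.range K).filter P).card := by
  unfold cN
  congr

theorem cN_mono (P Q : ℕ → Prop) (h : ∀ k, P k → Q k) (K : ℕ) : cN P K ≤ cN Q K := by
  classical
  unfold cN
  apply Finset.card_le_card
  intro k hk
  rw [Finset.mem_filter] at hk ⊢
  exact ⟨hk.1, h k hk.2⟩

theorem cN_or (P Q R : ℕ → Prop) (h : ∀ k, R k → P k ∨ Q k) (K : ℕ) : cN R K ≤ cN P K + cN Q K := by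
  classical
  unfold cN
  refine le_trans ?_ (Finset.card_union_le _ _)
  apply Finset.card_le_card
  intro k hk
  rw [Finset.mem_filter] at hk
  rw [Finset.mem_union, Finset.mem_filter, Finset.mem_filter]
  rcases h k hk.2 with h1 | h1
  · left; exact ⟨hk.1, h1⟩
  · right; exact ⟨hk.1, h1⟩

theorem cN_succ (P : ℕ → Prop) [DecidablePred P] (K : ℕ) : cN P (K + 1) = cN P K + if P K then 1 else 0 := by
  classical
  unfold cN
  rw [Finset.range_add_one, Finset.filter_insert]
  split_ifs with h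
  · rw [Finset.card_insert_of_notMem (by simp)]
  · simp

theorem cN_mono_right (P : ℕ → Prop) {K L : ℕ} (h : K ≤ L) : cN P K ≤ cN P L := by
  classical
  unfold cN
  apply Finset.card_le_card
  apply Finset.filter_subset_filter
  exact Finset.range_mono h

theorem cN_add_le (P : ℕ → Prop) (K j : ℕ) : cN P (K + j) ≤ cN P K + j := by
  classical
  induction j with
  | zero => simp
  | succ j ih =>
    rw [← add_assoc, cN_succ]
    split_ifs <;> omega

theorem cN_split (P : ℕ → Prop) (K : ℕ) :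
    cN P K = cN (fun p => P (2 * p)) ((K + 1) / 2) + cN (fun p => P (2 * p + 1)) (K / 2) := by
  classical
  induction K with
  | zero => simp [cN]
  | succ K ih =>
    rcases Nat.even_or_odd' K with ⟨m, hm | hm⟩
    · have e1 : (K + 1) / 2 = m := by omega
      have e2 : K / 2 = m := by omega
      have e3 : (K + 1 + 1) / 2 = m + 1 := by omega
      rw [e1, e2] at ih
      rw [cN_succ, ih, e3, e1, cN_succ, hm]
      omega
    · have e1 : (K + 1) / 2 = m + 1 := by omega
      have e2 : K / 2 = m := by omega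
      have e3 : (K + 1 + 1) / 2 = m + 1 := by omega
      rw [e1, e2] at ih
      rw [cN_succ, ih, e3, e1, cN_succ (fun p => P (2 * p + 1)), hm]
      omega

/-- density -/
def Dens (P : ℕ → Prop) (δ : ℝ) : Prop := Tendsto (fun K : ℕ => (cN P K : ℝ) / K) atTop (𝓝 δ)

theorem dens_of_bound (P : ℕ → Prop) (δ C : ℝ) (h : ∀ K : ℕ, |(cN P K : ℝ) - δ * K| ≤ C * (√(K : ℝ) + 1)) :
    Dens P δ := by
  unfold Dens
  rw [tendsto_iff_norm_sub_tendsto_zero]
  have hb : Tendsto (fun K : ℕ => C * (1 / √(K : ℝ) + 1 / (K : ℝ))) atTop (𝓝 0) := by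
    have h1 : Tendsto (fun K : ℕ => 1 / √(K : ℝ)) atTop (𝓝 0) := by
      simp only [one_div]
      exact tendsto_inv_atTop_zero.comp ((Real.tendsto_sqrt_atTop).comp tendsto_natCast_atTop_atTop)
    have h2 : Tendsto (fun K : ℕ => 1 / (K : ℝ)) atTop (𝓝 0) := tendsto_one_div_atTop_nhds_zero_nat
    have h3 := (h1.add h2).const_mul C
    simpa using h3
  refine squeeze_zero' (Eventually.of_forall (fun _ => norm_nonneg _)) ?_ hb
  filter_upwards [eventually_gt_atTop 0] with K hK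
  have hK' : (0 : ℝ) < K := by exact_mod_cast hK
  have h1 := h K
  have h2 : (cN P K : ℝ) / K - δ = ((cN P K : ℝ) - δ * K) / K := by field_simp
  rw [Real.norm_eq_abs, h2, abs_div, abs_of_pos hK', div_le_iff₀ hK']
  refine h1.trans (le_of_eq ?_)
  have h3 : √(K : ℝ) ≠ 0 := (Real.sqrt_pos.2 hK').ne'
  have h4 : √(K : ℝ) * √(K : ℝ) = K := Real.mul_self_sqrt hK'.le
  have h5 : 1 / √(K : ℝ) * K = √(K : ℝ) := by
    rw [div_mul_eq_mul_div, one_mul, div_eq_iff h3, h4]
  have h6 : 1 / (K : ℝ) * K = 1 := by field_simp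
  rw [mul_assoc, add_mul, h5, h6]

theorem dens_zero_of_le (P : ℕ → Prop) (h : ∀ ε : ℝ, 0 < ε → ∀ᶠ K : ℕ in atTop, (cN P K : ℝ) / K ≤ ε) :
    Dens P 0 := by
  unfold Dens
  rw [Metric.tendsto_atTop]
  intro ε hε
  obtain ⟨N, hN⟩ := eventually_atTop.1 (h (ε / 2) (by linarith))
  refine ⟨N, fun K hK => ?_⟩
  have h1 := hN K hK
  have h2 : (0 : ℝ) ≤ (cN P K : ℝ) / K := by positivity
  rw [Real.dist_eq, sub_zero, abs_of_nonneg h2]
  linarith

theorem dens_lt (P : ℕ → Prop) {δ ε : ℝ} (h : Dens P δ) (hε : δ < ε) : ∀ᶠ K : ℕ in atTop, (cN P K : ℝ) / K < ε :=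
  (h.eventually (gt_mem_nhds hε))

theorem dens_zero_mono {P Q : ℕ → Prop} (h : ∀ k, P k → Q k) (hQ : Dens Q 0) : Dens P 0 := by
  apply dens_zero_of_le
  intro ε hε
  filter_upwards [dens_lt Q hQ hε] with K hK
  refine le_trans ?_ hK.le
  apply div_le_div_of_nonneg_right _ (by positivity)
  exact_mod_cast cN_mono P Q h K

theorem dens_zero_or {P Q R : ℕ → Prop} (h : ∀ k, R k → P k ∨ Q k) (hP : Dens P 0) (hQ : Dens Q 0) :
    Dens R 0 := by
  apply dens_zero_of_le
  intro ε hε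
  filter_upwards [dens_lt P hP (half_pos hε), dens_lt Q hQ (half_pos hε)] with K hK1 hK2
  have h1 : (cN R K : ℝ) ≤ cN P K + cN Q K := by exact_mod_cast cN_or P Q R h K
  have h2 : (cN R K : ℝ) / K ≤ (cN P K + cN Q K) / K := div_le_div_of_nonneg_right h1 (by positivity)
  rw [add_div] at h2
  linarith

theorem dens_zero_lt (N : ℕ) : Dens (fun k => k < N) 0 := by
  apply dens_of_bound _ _ (N : ℝ)
  intro K
  have h1 : cN (fun k => k < N) K ≤ N := by
    classical
    rw [cN_eq]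
    calc ((Finset.range K).filter (fun k => k < N)).card ≤ (Finset.range N).card := by
          apply Finset.card_le_card
          intro k hk
          rw [Finset.mem_filter] at hk
          exact Finset.mem_range.2 hk.2
      _ = N := Finset.card_range N
  have h2 : (cN (fun k => k < N) K : ℝ) ≤ N := by exact_mod_cast h1
  rw [zero_mul, sub_zero, abs_of_nonneg (by positivity)]
  have h3 := Real.sqrt_nonneg (K : ℝ)
  have h4 : (0 : ℝ) ≤ N := by positivity
  nlinarith

theorem dens_zero_shift {P : ℕ → Prop} (hP : Dens P 0) : Dens (fun k => ∃ j, k = j + 1 ∧ P j) 0 := by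
  classical
  apply dens_zero_of_le
  intro ε hε
  filter_upwards [dens_lt P hP hε] with K hK
  refine le_trans ?_ hK.le
  apply div_le_div_of_nonneg_right _ (by positivity)
  have h1 : cN (fun k => ∃ j, k = j + 1 ∧ P j) K ≤ cN P K := by
    unfold cN
    refine Finset.card_le_card_of_injOn (fun k => k - 1) ?_ ?_
    · intro k hk
      rw [Finset.mem_coe, Finset.mem_filter, Finset.mem_range] at hk
      obtain ⟨h1, j, rfl, hj⟩ := hk
      rw [Finset.mem_coe, Finset.mem_filter, Finset.mem_range]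
      exact ⟨by simp; omega, by simpa using hj⟩
    · intro k hk l hl hkl
      rw [Finset.mem_coe, Finset.mem_filter] at hk hl
      obtain ⟨-, j, rfl, -⟩ := hk
      obtain ⟨-, i, rfl, -⟩ := hl
      simpa using hkl
  exact_mod_cast h1

theorem dens_symmDiff {P Q : ℕ → Prop} {δ : ℝ} (hP : Dens P δ) (h1 : Dens (fun k => P k ∧ ¬ Q k) 0)
    (h2 : Dens (fun k => Q k ∧ ¬ P k) 0) : Dens Q δ := by
  unfold Dens at *
  have hlow := hP.sub h1
  have hup := hP.add h2
  rw [sub_zero] at hlow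
  rw [add_zero] at hup
  refine tendsto_of_tendsto_of_tendsto_of_le_of_le hlow hup ?_ ?_
  · intro K
    show (cN P K : ℝ) / K - (cN (fun k => P k ∧ ¬ Q k) K : ℝ) / K ≤ (cN Q K : ℝ) / K
    rw [← sub_div]
    apply div_le_div_of_nonneg_right _ (by positivity)
    have := cN_or Q (fun k => P k ∧ ¬ Q k) P (fun k hk => by by_cases h : Q k; exact Or.inl h; exact Or.inr ⟨hk, h⟩) K
    have h' : (cN P K : ℝ) ≤ cN Q K + cN (fun k => P k ∧ ¬ Q k) K := by exact_mod_cast this
    linarith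
  · intro K
    show (cN Q K : ℝ) / K ≤ (cN P K : ℝ) / K + (cN (fun k => Q k ∧ ¬ P k) K : ℝ) / K
    rw [← add_div]
    apply div_le_div_of_nonneg_right _ (by positivity)
    have := cN_or P (fun k => Q k ∧ ¬ P k) Q (fun k hk => by by_cases h : P k; exact Or.inl h; exact Or.inr ⟨hk, h⟩) K
    exact_mod_cast this

end density

section slow

/-- slowly moving point -/
noncomputable def xx (p : ℕ) : ℝ := ((p : ℝ) - (Nat.sqrt p : ℝ) ^ 2) / (2 * (Nat.sqrt p : ℝ) + 1)

theorem xx_block (M j : ℕ) (hj : j < 2 * M + 1) : xx (M ^ 2 + j) = (j : ℝ) / (2 * (M : ℝ) + 1) := by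
  have h : Nat.sqrt (M ^ 2 + j) = M := by
    symm
    rw [Nat.eq_sqrt]
    constructor
    · nlinarith
    · nlinarith
  unfold xx
  rw [h]
  push_cast
  congr 1
  ring

theorem exists_block (p : ℕ) : ∃ M j, j < 2 * M + 1 ∧ p = M ^ 2 + j ∧ Nat.sqrt p = M := by
  refine ⟨Nat.sqrt p, p - (Nat.sqrt p) ^ 2, ?_, ?_, rfl⟩
  · have h1 := Nat.lt_succ_sqrt p
    have h2 := Nat.sqrt_le p
    have h3 : (Nat.sqrt p + 1) * (Nat.sqrt p + 1) = Nat.sqrt p ^ 2 + 2 * Nat.sqrt p + 1 := by ring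
    rw [Nat.succ_eq_add_one, h3] at h1
    omega
  · have h2 := Nat.sqrt_le p
    rw [← sq] at h2
    omega

theorem xx_nonneg (p : ℕ) : 0 ≤ xx p := by
  obtain ⟨M, j, hj, rfl, -⟩ := exists_block p
  rw [xx_block M j hj]
  positivity

theorem xx_lt_one (p : ℕ) : xx p < 1 := by
  obtain ⟨M, j, hj, rfl, -⟩ := exists_block p
  rw [xx_block M j hj, div_lt_one (by positivity)]
  exact_mod_cast hj

theorem count_sq (β : ℝ) (h0 : 0 ≤ β) (h1 : β ≤ 1) (M : ℕ) :
    β * (M : ℝ) ^ 2 ≤ (cN (fun p => xx p < β) (M ^ 2) : ℝ) ∧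
      (cN (fun p => xx p < β) (M ^ 2) : ℝ) ≤ β * (M : ℝ) ^ 2 + M := by
  classical
  induction M with
  | zero => simp [cN]
  | succ M ih =>
    have key : ∀ j ≤ 2 * M + 1, cN (fun p => xx p < β) (M ^ 2 + j) =
        cN (fun p => xx p < β) (M ^ 2) + ((Finset.range j).filter (fun i : ℕ => (i : ℝ) < β * (2 * (M : ℝ) + 1))).card := by
      intro j
      induction j with
      | zero => intro _; simp
      | succ j ihj =>
        intro hj
        rw [← add_assoc, cN_succ, ihj (by omega), Finset.range_add_one, Finset.filter_insert, xx_block M j (by omega)]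
        have : ((j : ℝ) / (2 * (M : ℝ) + 1) < β) ↔ ((j : ℝ) < β * (2 * (M : ℝ) + 1)) := div_lt_iff₀ (by positivity)
        by_cases h : (j : ℝ) < β * (2 * (M : ℝ) + 1)
        · rw [if_pos (this.2 h), if_pos h, Finset.card_insert_of_notMem (by simp)]
          ring
        · rw [if_neg (fun h' => h (this.1 h')), if_neg h, add_zero]
    have h2 := key (2 * M + 1) le_rfl
    have h3 : (Finset.range (2 * M + 1)).filter (fun i : ℕ => (i : ℝ) < β * (2 * (M : ℝ) + 1)) =
        Finset.range ⌈β * (2 * (M : ℝ) + 1)⌉₊ := by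
      ext i
      rw [Finset.mem_filter, Finset.mem_range, Finset.mem_range, Nat.lt_ceil]
      constructor
      · exact fun h => h.2
      · intro h
        refine ⟨?_, h⟩
        have h4 : (i : ℝ) < 2 * (M : ℝ) + 1 := by
          refine lt_of_lt_of_le h ?_
          have : (0 : ℝ) ≤ 2 * (M : ℝ) + 1 := by positivity
          nlinarith
        exact_mod_cast h4
    have h4 : (M + 1) ^ 2 = M ^ 2 + (2 * M + 1) := by ring
    rw [h3, Finset.card_range] at h2
    rw [h4, h2]
    have h5 := Nat.le_ceil (β * (2 * (M : ℝ) + 1))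
    have h6 := Nat.ceil_lt_add_one (a := β * (2 * (M : ℝ) + 1)) (by positivity)
    push_cast
    constructor
    · nlinarith [ih.1]
    · nlinarith [ih.2]

theorem count_xx (β : ℝ) (h0 : 0 ≤ β) (h1 : β ≤ 1) (P : ℕ) :
    |(cN (fun p => xx p < β) P : ℝ) - β * P| ≤ 3 * √(P : ℝ) := by
  obtain ⟨M, j, hj, hP, hM⟩ := exists_block P
  have h2 := count_sq β h0 h1 M
  have h3 : (cN (fun p => xx p < β) (M ^ 2) : ℝ) ≤ (cN (fun p => xx p < β) P : ℝ) := by
    exact_mod_cast cN_mono_right _ (by omega)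
  have h4 : (cN (fun p => xx p < β) P : ℝ) ≤ (cN (fun p => xx p < β) (M ^ 2) : ℝ) + j := by
    rw [hP]; exact_mod_cast cN_add_le _ _ _
  have h5 : (P : ℝ) = (M : ℝ) ^ 2 + j := by rw [hP]; push_cast; ring
  have h6 : (j : ℝ) ≤ 2 * M := by
    have : j ≤ 2 * M := by omega
    exact_mod_cast this
  have h7 : (M : ℝ) ≤ √(P : ℝ) := by
    apply Real.le_sqrt_of_sq_le
    rw [h5]; have : (0:ℝ) ≤ j := by positivity
    linarith
  have h8 : (0 : ℝ) ≤ j := by positivity
  have h9 : β * j ≤ 1 * j := mul_le_mul_of_nonneg_right h1 h8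
  have h10 : 0 ≤ β * j := by positivity
  rw [h5] at h7 ⊢
  rw [abs_le]
  constructor
  · nlinarith
  · nlinarith

/-- the point in `[0,2)` -/
noncomputable def yy (k : ℕ) : ℝ := xx (k / 2) + (k % 2 : ℕ)

theorem yy_even (p : ℕ) : yy (2 * p) = xx p := by
  unfold yy
  have h1 : 2 * p / 2 = p := by omega
  have h2 : 2 * p % 2 = 0 := by omega
  rw [h1, h2]; simp

theorem yy_odd (p : ℕ) : yy (2 * p + 1) = xx p + 1 := by
  unfold yy
  have h1 : (2 * p + 1) / 2 = p := by omega
  have h2 : (2 * p + 1) % 2 = 1 := by omega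
  rw [h1, h2]; simp

theorem dens_yy (s : ℝ) (h0 : 0 ≤ s) (h2 : s ≤ 2) : Dens (fun k => yy k < s) (s / 2) := by
  apply dens_of_bound _ _ 6
  intro K
  rw [cN_split]
  have e1 : cN (fun p => yy (2 * p) < s) ((K + 1) / 2) = cN (fun p => xx p < min s 1) ((K + 1) / 2) := by
    congr 1
    funext p
    rw [yy_even, eq_iff_iff, lt_min_iff]
    exact ⟨fun h => ⟨h, xx_lt_one p⟩, fun h => h.1⟩
  have e2 : cN (fun p => yy (2 * p + 1) < s) (K / 2) = cN (fun p => xx p < max (s - 1) 0) (K / 2) := by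
    congr 1
    funext p
    rw [yy_odd, eq_iff_iff, lt_max_iff]
    constructor
    · intro h; left; linarith
    · rintro (h | h)
      · linarith
      · exact absurd h (not_lt.2 (xx_nonneg p))
  rw [e1, e2]
  have c1 := count_xx (min s 1) (le_min h0 (by norm_num)) (min_le_right _ _) ((K + 1) / 2)
  have c2 := count_xx (max (s - 1) 0) (le_max_right _ _) (max_le (by linarith) (by norm_num)) (K / 2)
  have hs : min s 1 + max (s - 1) 0 = s := by
    rcases le_total s 1 with h | h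
    · rw [min_eq_left h, max_eq_right (by linarith)]; ring
    · rw [min_eq_right h, max_eq_left (by linarith)]; ring
  rcases Nat.eq_zero_or_pos K with hK0 | hKpos
  · subst hK0
    simp [cN]
  have hK1 : ((((K + 1) / 2 : ℕ)) : ℝ) ≤ (K : ℝ) / 2 + 1 / 2 ∧ (K : ℝ) / 2 ≤ ((((K + 1) / 2 : ℕ)) : ℝ) := by
    constructor
    · have : 2 * ((K + 1) / 2) ≤ K + 1 := by omega
      have : (2 : ℝ) * ((((K + 1) / 2 : ℕ)) : ℝ) ≤ K + 1 := by exact_mod_cast this
      linarith
    · have : K ≤ 2 * ((K + 1) / 2) := by omega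
      have : (K : ℝ) ≤ 2 * ((((K + 1) / 2 : ℕ)) : ℝ) := by exact_mod_cast this
      linarith
  have hK2 : (((K / 2 : ℕ)) : ℝ) ≤ (K : ℝ) / 2 ∧ (K : ℝ) / 2 - 1 / 2 ≤ (((K / 2 : ℕ)) : ℝ) := by
    constructor
    · have : 2 * (K / 2) ≤ K := by omega
      have : (2 : ℝ) * (((K / 2 : ℕ)) : ℝ) ≤ K := by exact_mod_cast this
      linarith
    · have : K ≤ 2 * (K / 2) + 1 := by omega
      have : (K : ℝ) ≤ 2 * (((K / 2 : ℕ)) : ℝ) + 1 := by exact_mod_cast this
      linarith
  have hr1 : √((((K + 1) / 2 : ℕ)) : ℝ) ≤ √(K : ℝ) := by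
    apply Real.sqrt_le_sqrt
    have : (K + 1) / 2 ≤ K := by omega
    exact_mod_cast this
  have hr2 : √(((K / 2 : ℕ)) : ℝ) ≤ √(K : ℝ) := by
    apply Real.sqrt_le_sqrt
    have : K / 2 ≤ K := by omega
    exact_mod_cast this
  have hm0 : 0 ≤ min s 1 := le_min h0 (by norm_num)
  have hm1 : min s 1 ≤ 1 := min_le_right _ _
  have hx0 : 0 ≤ max (s - 1) 0 := le_max_right _ _
  have hx1 : max (s - 1) 0 ≤ 1 := max_le (by linarith) (by norm_num)
  set u := min s 1
  set v := max (s - 1) 0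
  set A : ℝ := ((((K + 1) / 2 : ℕ)) : ℝ)
  set B : ℝ := (((K / 2 : ℕ)) : ℝ)
  have q1 : u * A ≤ u * (K / 2 + 1 / 2) := mul_le_mul_of_nonneg_left hK1.1 hm0
  have q2 : u * (K / 2) ≤ u * A := mul_le_mul_of_nonneg_left hK1.2 hm0
  have q3 : v * B ≤ v * (K / 2) := mul_le_mul_of_nonneg_left hK2.1 hx0
  have q4 : v * (K / 2 - 1 / 2) ≤ v * B := mul_le_mul_of_nonneg_left hK2.2 hx0
  have q5 : s / 2 * K = u * (K / 2) + v * (K / 2) := by rw [← hs]; ring
  rw [abs_le] at c1 c2 ⊢
  push_cast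
  rw [q5]
  constructor
  · nlinarith [c1.1, c2.1]
  · nlinarith [c1.2, c2.2]

theorem dens_interval (s t : ℝ) (h0 : 0 ≤ s) (hst : s ≤ t) (h2 : t ≤ 2) :
    Dens (fun k => s ≤ yy k ∧ yy k < t) ((t - s) / 2) := by
  classical
  have h1 := dens_yy s h0 (hst.trans h2)
  have h3 := dens_yy t (h0.trans hst) h2
  unfold Dens at *
  have h4 := h3.sub h1
  have h5 : t / 2 - s / 2 = (t - s) / 2 := by ring
  rw [h5] at h4
  refine h4.congr (fun K => ?_)
  rw [← sub_div]
  congr 1
  have h6 : cN (fun k => yy k < t) K = cN (fun k => yy k < s) K + cN (fun k => s ≤ yy k ∧ yy k < t) K := by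
    rw [cN_eq, cN_eq, cN_eq, ← Finset.card_union_of_disjoint]
    · congr 1
      ext k
      rw [Finset.mem_union, Finset.mem_filter, Finset.mem_filter, Finset.mem_filter]
      constructor
      · rintro ⟨ha, hb⟩
        rcases lt_or_ge (yy k) s with h | h
        · left; exact ⟨ha, h⟩
        · right; exact ⟨ha, h, hb⟩
      · rintro (⟨ha, hb⟩ | ⟨ha, hb, hc⟩)
        · exact ⟨ha, lt_of_lt_of_le hb hst⟩
        · exact ⟨ha, hc⟩
    · rw [Finset.disjoint_left]
      intro k hk hk'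
      rw [Finset.mem_filter] at hk hk'
      exact absurd hk.2 (not_lt.2 hk'.2.1)
  rw [h6]
  push_cast
  ring

theorem collision (s t : ℝ) (hst : t ≤ s + 1) :
    Dens (fun k => (s ≤ yy k ∧ yy k < t) ∧ (s ≤ yy (k + 1) ∧ yy (k + 1) < t)) 0 := by
  classical
  apply dens_of_bound _ _ 1
  intro K
  rw [zero_mul, sub_zero, abs_of_nonneg (by positivity), one_mul, cN_split]
  have e1 : cN (fun p => (s ≤ yy (2 * p) ∧ yy (2 * p) < t) ∧ (s ≤ yy (2 * p + 1) ∧ yy (2 * p + 1) < t)) ((K + 1) / 2) = 0 := by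
    rw [cN_eq, Finset.card_eq_zero, Finset.filter_eq_empty_iff]
    rintro p - ⟨⟨h1, h2⟩, h3, h4⟩
    rw [yy_even] at h1 h2
    rw [yy_odd] at h3 h4
    linarith
  have e2 : cN (fun p => (s ≤ yy (2 * p + 1) ∧ yy (2 * p + 1) < t) ∧ (s ≤ yy (2 * p + 1 + 1) ∧ yy (2 * p + 1 + 1) < t)) (K / 2) ≤
      Nat.sqrt (K / 2) + 1 := by
    have e3 : cN (fun p => (s ≤ yy (2 * p + 1) ∧ yy (2 * p + 1) < t) ∧ (s ≤ yy (2 * p + 1 + 1) ∧ yy (2 * p + 1 + 1) < t)) (K / 2) ≤
        cN (fun p => xx p < s ∧ s ≤ xx (p + 1)) (K / 2) := by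
      apply cN_mono
      rintro p ⟨⟨h1, h2⟩, h3, h4⟩
      have h5 : 2 * p + 1 + 1 = 2 * (p + 1) := by ring
      rw [h5, yy_even] at h3 h4
      rw [yy_odd] at h1 h2
      exact ⟨by linarith, h3⟩
    refine e3.trans ?_
    rw [cN_eq, ← Finset.card_range (Nat.sqrt (K / 2) + 1)]
    refine Finset.card_le_card_of_injOn Nat.sqrt ?_ ?_
    · intro p hp
      rw [Finset.mem_coe, Finset.mem_filter, Finset.mem_range] at hp
      rw [Finset.mem_coe, Finset.mem_range]
      have := Nat.sqrt_le_sqrt hp.1.le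
      omega
    · have hmono : ∀ p q, p < q → Nat.sqrt p = Nat.sqrt q → xx (p + 1) ≤ xx q := by
        intro p q hpq hs
        have h1 : Nat.sqrt (p + 1) = Nat.sqrt q := by
          have h2 := Nat.sqrt_le_sqrt (show p ≤ p + 1 by omega)
          have h3 := Nat.sqrt_le_sqrt (show p + 1 ≤ q by omega)
          omega
        unfold xx
        rw [h1]
        apply div_le_div_of_nonneg_right _ (by positivity)
        have : ((p + 1 : ℕ) : ℝ) ≤ q := by exact_mod_cast hpq
        linarith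
      intro p hp q hq hpq
      rw [Finset.mem_coe, Finset.mem_filter] at hp hq
      rcases lt_trichotomy p q with h | h | h
      · have := hmono p q h hpq
        linarith [hp.2.2, hq.2.1]
      · exact h
      · have := hmono q p h hpq.symm
        linarith [hq.2.2, hp.2.1]
  rw [e1, zero_add]
  have e4 : (((cN (fun p => (s ≤ yy (2 * p + 1) ∧ yy (2 * p + 1) < t) ∧ (s ≤ yy (2 * p + 1 + 1) ∧ yy (2 * p + 1 + 1) < t)) (K / 2) : ℕ)) : ℝ) ≤
      (Nat.sqrt (K / 2) : ℝ) + 1 := by exact_mod_cast e2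
  have e5 : (Nat.sqrt (K / 2) : ℝ) ≤ √(K : ℝ) := by
    apply Real.le_sqrt_of_sq_le
    have h1 := Nat.sqrt_le (K / 2)
    have h2 : Nat.sqrt (K / 2) ^ 2 ≤ K := by
      rw [sq]; omega
    exact_mod_cast h2
  linarith

end slow

section construction

open Classical in
/-- next point -/
noncomputable def nxt (a : ℕ → Option ℂ) (σ : ℕ → ℝ) (k : ℕ) (prev : Option ℂ) : Option ℂ :=
  if h : ∃ n, (σ n ≤ yy (k + 1) ∧ yy (k + 1) < σ (n + 1)) ∧ ‖(uv (a n)).1‖ ≤ Real.exp ((k : ℝ) + 2) ∧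
      Real.exp (-((k : ℝ) + 1)) ≤ ‖dt (uv prev) (uv (a n))‖ then a h.choose
  else if Real.exp (-((k : ℝ) + 1)) ≤ ‖dt (uv prev) (uv (some (2 * ((k : ℂ) + 1))))‖ then some (2 * ((k : ℂ) + 1))
  else some (2 * ((k : ℂ) + 1) + 1)

/-- the sequence -/
noncomputable def bb (a : ℕ → Option ℂ) (σ : ℕ → ℝ) : ℕ → Option ℂ
  | 0 => some 0
  | (k + 1) => nxt a σ k (bb a σ k)

theorem bb_cases (a : ℕ → Option ℂ) (σ : ℕ → ℝ) (k : ℕ) :
    (∃ n, (σ n ≤ yy (k + 1) ∧ yy (k + 1) < σ (n + 1)) ∧ ‖(uv (a n)).1‖ ≤ Real.exp ((k : ℝ) + 2) ∧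
      Real.exp (-((k : ℝ) + 1)) ≤ ‖dt (uv (bb a σ k)) (uv (a n))‖ ∧ bb a σ (k + 1) = a n) ∨
    ((¬ ∃ n, (σ n ≤ yy (k + 1) ∧ yy (k + 1) < σ (n + 1)) ∧ ‖(uv (a n)).1‖ ≤ Real.exp ((k : ℝ) + 2) ∧
      Real.exp (-((k : ℝ) + 1)) ≤ ‖dt (uv (bb a σ k)) (uv (a n))‖) ∧
      Real.exp (-((k : ℝ) + 1)) ≤ ‖dt (uv (bb a σ k)) (uv (bb a σ (k + 1)))‖ ∧
      ∃ z : ℂ, bb a σ (k + 1) = some z ∧ 2 * ((k : ℝ) + 1) ≤ ‖z‖ ∧ ‖z‖ ≤ 2 * ((k : ℝ) + 1) + 1) := by
  classical
  have hrec : bb a σ (k + 1) = nxt a σ k (bb a σ k) := rfl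
  by_cases h : ∃ n, (σ n ≤ yy (k + 1) ∧ yy (k + 1) < σ (n + 1)) ∧ ‖(uv (a n)).1‖ ≤ Real.exp ((k : ℝ) + 2) ∧
      Real.exp (-((k : ℝ) + 1)) ≤ ‖dt (uv (bb a σ k)) (uv (a n))‖
  · left
    rw [hrec, nxt, dif_pos h]
    exact ⟨h.choose, h.choose_spec.1, h.choose_spec.2.1, h.choose_spec.2.2, rfl⟩
  · right
    refine ⟨h, ?_⟩
    have hn1 : ‖(2 * ((k : ℂ) + 1))‖ = 2 * ((k : ℝ) + 1) := by
      have : (2 * ((k : ℂ) + 1)) = ((2 * (k + 1) : ℕ) : ℂ) := by push_cast; ring
      rw [this, Complex.norm_natCast]; push_cast; ring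
    have hn2 : ‖(2 * ((k : ℂ) + 1) + 1)‖ = 2 * ((k : ℝ) + 1) + 1 := by
      have : (2 * ((k : ℂ) + 1) + 1) = ((2 * (k + 1) + 1 : ℕ) : ℂ) := by push_cast; ring
      rw [this, Complex.norm_natCast]; push_cast; ring
    by_cases h2 : Real.exp (-((k : ℝ) + 1)) ≤ ‖dt (uv (bb a σ k)) (uv (some (2 * ((k : ℂ) + 1))))‖
    · have h3 : bb a σ (k + 1) = some (2 * ((k : ℂ) + 1)) := by
        rw [hrec, nxt, dif_neg h, if_pos h2]
      rw [h3]
      exact ⟨h2, _, rfl, hn1.ge, by rw [hn1]; linarith⟩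
    · have h3 : bb a σ (k + 1) = some (2 * ((k : ℂ) + 1) + 1) := by
        rw [hrec, nxt, dif_neg h, if_neg h2]
      rw [h3]
      refine ⟨?_, _, rfl, by rw [hn2]; linarith, hn2.le⟩
      rw [not_le] at h2
      have hexp : Real.exp (-((k : ℝ) + 1)) ≤ 1 / 2 := by
        have h4 : Real.exp (-((k : ℝ) + 1)) ≤ Real.exp (-1) := by
          apply Real.exp_le_exp.2
          have : (0 : ℝ) ≤ k := by positivity
          linarith
        have h5 : Real.exp (-1) ≤ 1 / 2 := by
          rw [Real.exp_neg, inv_eq_one_div]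
          apply div_le_div_of_nonneg_left (by norm_num) (by norm_num)
          have := Real.add_one_le_exp (1 : ℝ)
          linarith
        linarith
      cases hb : bb a σ k with
      | none =>
        rw [hb] at h2
        simp only [uv, dt] at h2 ⊢
        simp only [mul_one, zero_mul, sub_zero, norm_one] at h2 ⊢
        linarith
      | some w =>
        rw [hb] at h2
        simp only [uv, dt, mul_one, one_mul] at h2 ⊢
        have h6 : (1 : ℂ) = (w - (2 * ((k : ℂ) + 1))) - (w - (2 * ((k : ℂ) + 1) + 1)) := by ring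
        have h7 := norm_sub_le (w - (2 * ((k : ℂ) + 1))) (w - (2 * ((k : ℂ) + 1) + 1))
        rw [← h6, norm_one] at h7
        linarith

end construction

theorem seq_exists (a : ℕ → Option ℂ) (d : ℕ → ℝ) (ha : Function.Injective a)
    (hd : ∀ n, 0 ≤ d n ∧ d n ≤ 1) (hs : Summable d) (hle : ∑' n, d n ≤ 2) :
    ∃ b : ℕ → Option ℂ,
      (∀ k : ℕ, Real.exp (-((k:ℝ) + 1)) ≤ ‖dt (uv (b k)) (uv (b (k + 1)))‖) ∧
      (∀ k : ℕ, ‖(uv (b k)).1‖ ≤ Real.exp ((k:ℝ) + 1)) ∧
      (∀ n, Tendsto (fun K : ℕ => (Nat.card {k : ℕ | k < K ∧ b k = a n} : ℝ) / K) atTop (𝓝 (d n / 2))) ∧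
      (∀ c, (∀ n, a n ≠ c) →
        Tendsto (fun K : ℕ => (Nat.card {k : ℕ | k < K ∧ b k = c} : ℝ) / K) atTop (𝓝 0)) ∧
      (∀ c, Tendsto (fun K : ℕ => (Nat.card {k : ℕ | k < K ∧ b k ≠ c ∧
        ‖dt (uv (b k)) (uv c)‖ < Real.exp (-((k:ℝ) + 1))} : ℝ) / K) atTop (𝓝 0)) := by
  classical
  set σ : ℕ → ℝ := fun n => ∑ i ∈ Finset.range n, d i with hσ
  have hσs : ∀ n, σ (n + 1) = σ n + d n := fun n => Finset.sum_range_succ _ _
  have hσmono : Monotone σ := monotone_nat_of_le_succ (fun n => by rw [hσs]; linarith [(hd n).1])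
  have hσ0 : ∀ n, 0 ≤ σ n := fun n => Finset.sum_nonneg (fun i _ => (hd i).1)
  have hσT : ∀ n, σ n ≤ ∑' n, d n := fun n => hs.sum_le_tsum _ (fun i _ => (hd i).1)
  have hσ2 : ∀ n, σ n ≤ 2 := fun n => (hσT n).trans hle
  have hσlim : Tendsto σ atTop (𝓝 (∑' n, d n)) := hs.hasSum.tendsto_sum_nat
  have huniq : ∀ (y : ℝ) (n m : ℕ), σ n ≤ y ∧ y < σ (n + 1) → σ m ≤ y ∧ y < σ (m + 1) → n = m := by
    intro y n m h1 h2
    by_contra hne
    rcases lt_or_gt_of_ne hne with h | h
    · have := hσmono (show n + 1 ≤ m by omega)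
      linarith
    · have := hσmono (show m + 1 ≤ n by omega)
      linarith
  set b := bb a σ with hb
  -- filler positions near `c` are finite in number
  have hfill : ∀ c : Option ℂ, ∃ N : ℕ, ∀ k : ℕ, N ≤ k → ∀ z : ℂ, 2 * ((k : ℝ) + 1) ≤ ‖z‖ →
      (some z ≠ c ∧ Real.exp (-((k : ℝ) + 2)) ≤ ‖dt (uv (some z)) (uv c)‖) := by
    intro c
    cases c with
    | none =>
      refine ⟨0, fun k _ z _ => ⟨by simp, ?_⟩⟩
      simp only [uv, dt, mul_zero, one_mul, zero_sub, norm_neg, norm_one]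
      rw [Real.exp_le_one_iff]
      have : (0 : ℝ) ≤ k := by positivity
      linarith
    | some w =>
      obtain ⟨N, hN⟩ := exists_nat_ge ‖w‖
      refine ⟨N, fun k hk z hz => ?_⟩
      have h1 : ‖w‖ ≤ k := hN.trans (by exact_mod_cast hk)
      have h2 : 1 ≤ ‖z - w‖ := by
        have h3 := norm_sub_norm_le z w
        have : (0 : ℝ) ≤ k := by positivity
        linarith
      constructor
      · intro h
        rw [Option.some.injEq] at h
        rw [h, sub_self, norm_zero] at h2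
        linarith
      · simp only [uv, dt, mul_one, one_mul]
        refine le_trans ?_ h2
        rw [Real.exp_le_one_iff]
        have : (0 : ℝ) ≤ k := by positivity
        linarith
  have hb1 : ∀ k : ℕ, Real.exp (-((k:ℝ) + 1)) ≤ ‖dt (uv (b k)) (uv (b (k + 1)))‖ := by
    intro k
    rcases bb_cases a σ k with ⟨n, -, -, h3, h4⟩ | ⟨-, h2, -⟩
    · rw [hb, h4]; exact h3
    · exact h2
  have hb2 : ∀ k : ℕ, ‖(uv (b k)).1‖ ≤ Real.exp ((k:ℝ) + 1) := by
    intro k
    rcases Nat.eq_zero_or_pos k with h0 | h0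
    · subst h0
      have : b 0 = some 0 := rfl
      rw [this]
      simp only [uv, norm_zero]
      exact (Real.exp_pos _).le
    · obtain ⟨j, rfl⟩ : ∃ j, k = j + 1 := ⟨k - 1, by omega⟩
      have hj : ((j + 1 : ℕ) : ℝ) + 1 = (j : ℝ) + 2 := by push_cast; ring
      rw [hj]
      rcases bb_cases a σ j with ⟨n, -, h2, -, h4⟩ | ⟨-, -, z, hz, hz1, hz2⟩
      · rw [hb, h4]; exact h2
      · rw [hb, hz]
        simp only [uv]
        refine hz2.trans ?_
        have h5 : Real.exp ((j : ℝ) + 2) = Real.exp 1 * Real.exp ((j : ℝ) + 1) := by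
          rw [← Real.exp_add]; congr 1; ring
        rw [h5]
        have h6 := Real.add_one_le_exp (1 : ℝ)
        have h7 := Real.add_one_le_exp ((j : ℝ) + 1)
        have h8 : (0 : ℝ) ≤ j := by positivity
        have h9 : 2 * ((j : ℝ) + 2) ≤ Real.exp 1 * Real.exp ((j : ℝ) + 1) := by
          apply mul_le_mul
          · linarith
          · linarith
          · linarith
          · exact (Real.exp_pos _).le
        linarith
  -- (5)
  have hb5 : ∀ c, Dens (fun k => b k ≠ c ∧ ‖dt (uv (b k)) (uv c)‖ < Real.exp (-((k:ℝ) + 1))) 0 := by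
    intro c
    apply dens_zero_of_le
    intro ε hε
    -- choose the tail
    obtain ⟨N, hN⟩ : ∃ N, (∑' n, d n) - σ N < ε := by
      have h1 := hσlim.eventually (lt_mem_nhds (show (∑' n, d n) - ε < ∑' n, d n by linarith))
      obtain ⟨N, hN⟩ := h1.exists
      exact ⟨N, by linarith⟩
    -- finitely many small n
    have hfin : ∀ N : ℕ, ∃ L : ℕ, ∀ n < N, ∀ k : ℕ, L ≤ k → a n ≠ c →
        Real.exp (-((k:ℝ) + 1)) ≤ ‖dt (uv (a n)) (uv c)‖ := by
      intro N
      induction N with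
      | zero => exact ⟨0, fun n hn => absurd hn (by omega)⟩
      | succ N ih =>
        obtain ⟨L, hL⟩ := ih
        have hdt : a N ≠ c → 0 < ‖dt (uv (a N)) (uv c)‖ := by
          intro hne
          rw [norm_pos_iff]
          cases h1 : a N with
          | none =>
            cases hc : c with
            | none => exact absurd (by rw [h1, hc]) hne
            | some w => simp [uv, dt]
          | some z =>
            cases hc : c with
            | none => simp [uv, dt]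
            | some w =>
              simp only [uv, dt, mul_one, one_mul]
              intro h0
              apply hne
              rw [h1, hc, sub_eq_zero.1 h0]
        by_cases hne : a N = c
        · refine ⟨L, fun n hn k hk hnc => ?_⟩
          rcases Nat.lt_succ_iff_lt_or_eq.1 hn with h | h
          · exact hL n h k hk hnc
          · subst h; exact absurd hne hnc
        · have hpos := hdt hne
          have htend : Tendsto (fun k : ℕ => Real.exp (-((k:ℝ) + 1))) atTop (𝓝 0) := by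
            apply Real.tendsto_exp_atBot.comp
            apply Filter.tendsto_neg_atTop_atBot.comp
            exact tendsto_atTop_add_const_right _ _ tendsto_natCast_atTop_atTop
          obtain ⟨L', hL'⟩ := eventually_atTop.1 (htend.eventually (gt_mem_nhds hpos))
          refine ⟨max L L', fun n hn k hk hnc => ?_⟩
          rcases Nat.lt_succ_iff_lt_or_eq.1 hn with h | h
          · exact hL n h k (le_trans (le_max_left _ _) hk) hnc
          · subst h; exact (hL' k (le_trans (le_max_right _ _) hk)).le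
    obtain ⟨L, hL⟩ := hfin N
    obtain ⟨N', hN'⟩ := hfill c
    have hsub : ∀ k, (b k ≠ c ∧ ‖dt (uv (b k)) (uv c)‖ < Real.exp (-((k:ℝ) + 1))) →
        (k < L + N' + 1) ∨ (σ N ≤ yy k ∧ yy k < ∑' n, d n) := by
      rintro k ⟨h1, h2⟩
      by_cases hk : k < L + N' + 1
      · exact Or.inl hk
      · right
        obtain ⟨j, rfl⟩ : ∃ j, k = j + 1 := ⟨k - 1, by omega⟩
        rcases bb_cases a σ j with ⟨n, hn, -, -, h4⟩ | ⟨-, -, z, hz, hz1, -⟩
        · have hnN : N ≤ n := by
            by_contra hlt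
            rw [hb, h4] at h1 h2
            have := hL n (by omega) (j + 1) (by omega) h1
            linarith
          exact ⟨(hσmono hnN).trans hn.1, lt_of_lt_of_le hn.2 (hσT _)⟩
        · exfalso
          have h5 := hN' j (by omega) z hz1
          rw [hb, hz] at h2
          have h6 : ((j + 1 : ℕ) : ℝ) + 1 = (j : ℝ) + 2 := by push_cast; ring
          rw [h6] at h2
          linarith [h5.2]
    have hD1 := dens_zero_lt (L + N' + 1)
    have hD2 := dens_interval (σ N) (∑' n, d n) (hσ0 N) (hσT N) hle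
    filter_upwards [dens_lt _ hD1 (half_pos hε), dens_lt _ hD2 (show ((∑' n, d n) - σ N) / 2 < ε / 2 by linarith)] with K hK1 hK2
    have h1 : (cN (fun k => b k ≠ c ∧ ‖dt (uv (b k)) (uv c)‖ < Real.exp (-((k:ℝ) + 1))) K : ℝ) ≤
        cN (fun k => k < L + N' + 1) K + cN (fun k => σ N ≤ yy k ∧ yy k < ∑' n, d n) K := by
      exact_mod_cast cN_or _ _ _ hsub K
    have h2 := div_le_div_of_nonneg_right h1 (show (0 : ℝ) ≤ K by positivity)
    rw [add_div] at h2
    linarith
  refine ⟨b, hb1, hb2, ?_, ?_, ?_⟩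
  · -- (3)
    intro n
    simp only [card_eq_cN]
    have hDn : Dens (fun k => σ n ≤ yy k ∧ yy k < σ (n + 1)) (d n / 2) := by
      have h1 := dens_interval (σ n) (σ (n + 1)) (hσ0 n) (hσmono (Nat.le_succ n)) (hσ2 _)
      have h2 : σ (n + 1) - σ n = d n := by rw [hσs]; ring
      rwa [h2] at h1
    obtain ⟨N', hN'⟩ := hfill (a n)
    refine dens_symmDiff hDn ?_ ?_
    · -- desired but not taken
      have hcol := collision (σ n) (σ (n + 1)) (by rw [hσs]; linarith [(hd n).2])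
      have h5 := hb5 (a n)
      obtain ⟨L, hL⟩ : ∃ L : ℕ, ∀ k : ℕ, L ≤ k → ‖(uv (a n)).1‖ ≤ Real.exp ((k : ℝ) + 2) := by
        obtain ⟨L, hL⟩ := exists_nat_ge ‖(uv (a n)).1‖
        refine ⟨L, fun k hk => ?_⟩
        have h6 : (L : ℝ) ≤ k := by exact_mod_cast hk
        have h7 := Real.add_one_le_exp ((k : ℝ) + 2)
        linarith
      refine dens_zero_or (P := fun k => k < L + N' + 2)
        (Q := fun k => ∃ j, k = j + 1 ∧ ((b j ≠ a n ∧ ‖dt (uv (b j)) (uv (a n))‖ < Real.exp (-((j:ℝ) + 1))) ∨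
          ((σ n ≤ yy j ∧ yy j < σ (n + 1)) ∧ (σ n ≤ yy (j + 1) ∧ yy (j + 1) < σ (n + 1))))) ?_
          (dens_zero_lt _) (dens_zero_shift (dens_zero_or (fun k hk => hk) h5 hcol))
      rintro k ⟨hk1, hk2⟩
      by_cases hk : k < L + N' + 2
      · exact Or.inl hk
      · right
        obtain ⟨j, rfl⟩ : ∃ j, k = j + 1 := ⟨k - 1, by omega⟩
        refine ⟨j, rfl, ?_⟩
        rcases bb_cases a σ j with ⟨m, hm, -, -, h4⟩ | ⟨hno, -, -⟩
        · exfalso
          have := huniq _ n m hk1 hm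
          subst this
          exact hk2 h4
        · by_cases hbj : b j = a n
          · right
            refine ⟨?_, hk1⟩
            obtain ⟨i, rfl⟩ : ∃ i, j = i + 1 := ⟨j - 1, by omega⟩
            rcases bb_cases a σ i with ⟨m, hm, -, -, h4⟩ | ⟨-, -, z, hz, hz1, -⟩
            · have : m = n := ha (by rw [← h4]; exact hbj)
              subst this
              exact hm
            · exfalso
              exact (hN' i (by omega) z hz1).1 (by rw [← hz]; exact hbj)
          · left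
            refine ⟨hbj, ?_⟩
            by_contra hcon
            rw [not_lt] at hcon
            exact hno ⟨n, hk1, hL j (by omega), hcon⟩
    · -- taken but not desired
      refine dens_zero_mono (Q := fun k => k < N' + 1) ?_ (dens_zero_lt _)
      rintro k ⟨hk1, hk2⟩
      by_contra hk
      obtain ⟨j, rfl⟩ : ∃ j, k = j + 1 := ⟨k - 1, by omega⟩
      rcases bb_cases a σ j with ⟨m, hm, -, -, h4⟩ | ⟨-, -, z, hz, hz1, -⟩
      · have : m = n := ha (by rw [← h4]; exact hk1)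
        subst this
        exact hk2 hm
      · exact (hN' j (by omega) z hz1).1 (by rw [← hz]; exact hk1)
  · -- (4)
    intro c hc
    simp only [card_eq_cN]
    obtain ⟨N', hN'⟩ := hfill c
    refine dens_zero_mono (Q := fun k => k < N' + 1) ?_ (dens_zero_lt _)
    intro k hk1
    by_contra hk
    obtain ⟨j, rfl⟩ : ∃ j, k = j + 1 := ⟨k - 1, by omega⟩
    rcases bb_cases a σ j with ⟨m, hm, -, -, h4⟩ | ⟨-, -, z, hz, hz1, -⟩
    · exact hc m (by rw [← h4]; exact hk1)
    · exact (hN' j (by omega) z hz1).1 (by rw [← hz]; exact hk1)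
  · intro c
    simp only [card_eq_cN]
    exact hb5 c

end Pool.Agent.H343N.J4
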