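import Mathlib
import Pool.Agent.Helper343.NDefs

set_option autoImplicit false
set_option maxHeartbeats 4000000
open MeasureTheory Filter Topology Metric

namespace Pool.Agent.H343N.J5


open Classical in
noncomputable def PsB (S : Set ℕ) (B : ℝ → ℝ) (y : ℝ) : ℝ :=
  ∑' k : ℤ, if k.natAbs ∈ S then B (y - k * Real.pi) else 0

/-- bump conditions -/
structure Bmp (B : ℝ → ℝ) : Prop where
  cont : Continuous B
  even : ∀ t, B (-t) = B t
  nonneg : ∀ t, 0 ≤ B t
  le_one : ∀ t, B t ≤ 1
  supp : ∀ t, Real.pi ≤ |t| → B t = 0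

open Classical in
theorem PsB_fin (S : Set ℕ) {B : ℝ → ℝ} (hB : Bmp B) (M : ℕ) (y : ℝ) (hy : |y| ≤ M * Real.pi) :
    PsB S B y = ∑ k ∈ Finset.Icc (-(M:ℤ)) M, if k.natAbs ∈ S then B (y - k * Real.pi) else 0 := by
  unfold PsB
  apply tsum_eq_sum
  intro k hk
  have hpi := Real.pi_pos
  have h1 : Real.pi ≤ |y - k * Real.pi| := by
    rw [Finset.mem_Icc, not_and_or] at hk
    rw [abs_le] at hy
    rcases hk with hk | hk
    · have h2 : k ≤ -(M:ℤ) - 1 := by omega
      have h3 : (k:ℝ) ≤ -(M:ℝ) - 1 := by exact_mod_cast h2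
      rw [le_abs]; left
      nlinarith
    · have h2 : (M:ℤ) + 1 ≤ k := by omega
      have h3 : (M:ℝ) + 1 ≤ k := by exact_mod_cast h2
      rw [le_abs]; right
      nlinarith
  rw [hB.supp _ h1]
  simp

theorem PsB_cont (S : Set ℕ) {B : ℝ → ℝ} (hB : Bmp B) : Continuous (PsB S B) := by
  classical
  rw [continuous_iff_continuousAt]
  intro y
  obtain ⟨M, hM⟩ := exists_nat_gt (|y| / Real.pi)
  rw [div_lt_iff₀ Real.pi_pos] at hM
  have hev : ∀ᶠ z in 𝓝 y, |z| < M * Real.pi := (continuous_abs.tendsto y).eventually (gt_mem_nhds hM)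
  have hc : ContinuousAt (fun z => ∑ k ∈ Finset.Icc (-(M:ℤ)) M, if k.natAbs ∈ S then B (z - k * Real.pi) else 0) y := by
    apply Continuous.continuousAt
    apply continuous_finsetSum
    intro k _
    split_ifs
    · exact hB.cont.comp (by fun_prop)
    · exact continuous_const
  apply hc.congr
  filter_upwards [hev] with z hz
  exact (PsB_fin S hB M z hz.le).symm

theorem PsB_even (S : Set ℕ) {B : ℝ → ℝ} (hB : Bmp B) (y : ℝ) : PsB S B (-y) = PsB S B y := by
  classical
  unfold PsB
  rw [← (Equiv.neg ℤ).tsum_eq]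
  congr 1
  ext k
  simp only [Equiv.neg_apply, Int.natAbs_neg]
  have : -y - ((-k : ℤ) : ℝ) * Real.pi = -(y - k * Real.pi) := by push_cast; ring
  rw [this, hB.even]

theorem PsB_nonneg (S : Set ℕ) {B : ℝ → ℝ} (hB : Bmp B) (y : ℝ) : 0 ≤ PsB S B y := by
  classical
  unfold PsB
  apply tsum_nonneg
  intro k
  split_ifs
  · exact hB.nonneg _
  · exact le_rfl

open Classical in
theorem PsB_three (S : Set ℕ) {B : ℝ → ℝ} (hB : Bmp B) (y : ℝ) :
    PsB S B y = ∑ k ∈ Finset.Icc (round (y / Real.pi) - 1) (round (y / Real.pi) + 1),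
      if k.natAbs ∈ S then B (y - k * Real.pi) else 0 := by
  unfold PsB
  apply tsum_eq_sum
  intro k hk
  have hpi := Real.pi_pos
  have hr := abs_sub_round (y / Real.pi)
  have hr2 : |y - round (y / Real.pi) * Real.pi| ≤ Real.pi / 2 := by
    have : y - round (y / Real.pi) * Real.pi = (y / Real.pi - round (y / Real.pi)) * Real.pi := by
      field_simp
    rw [this, abs_mul, abs_of_pos hpi]
    nlinarith
  have h1 : Real.pi ≤ |y - k * Real.pi| := by
    rw [Finset.mem_Icc, not_and_or] at hk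
    rw [abs_le] at hr2
    rcases hk with hk | hk
    · have h2 : k ≤ round (y / Real.pi) - 2 := by omega
      have h3 : (k:ℝ) ≤ (round (y / Real.pi) : ℝ) - 2 := by exact_mod_cast h2
      rw [le_abs]; left
      nlinarith
    · have h2 : round (y / Real.pi) + 2 ≤ k := by omega
      have h3 : (round (y / Real.pi) : ℝ) + 2 ≤ k := by exact_mod_cast h2
      rw [le_abs]; right
      nlinarith
  rw [hB.supp _ h1]
  simp

theorem PsB_le (S : Set ℕ) {B : ℝ → ℝ} (hB : Bmp B) (y : ℝ) : PsB S B y ≤ 3 := by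
  classical
  rw [PsB_three S hB y]
  calc _ ≤ ∑ k ∈ Finset.Icc (round (y / Real.pi) - 1) (round (y / Real.pi) + 1), (1:ℝ) := by
        apply Finset.sum_le_sum
        intro k _
        split_ifs
        · exact hB.le_one _
        · norm_num
    _ = 3 := by
        rw [Finset.sum_const, Int.card_Icc]
        have : (round (y / Real.pi) + 1 + 1 - (round (y / Real.pi) - 1)) = 3 := by ring
        have h3 : (3:ℤ).toNat = 3 := rfl
        rw [this, h3]
        norm_num

open Classical in
theorem PsB_nat (S : Set ℕ) {B : ℝ → ℝ} (hB : Bmp B) (M : ℕ) (y : ℝ) (hy0 : 0 ≤ y)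
    (hy : y ≤ M * Real.pi) :
    PsB S B y = ∑ k ∈ Finset.range (M + 1), if k ∈ S then B (y - k * Real.pi) else 0 := by
  have hpi := Real.pi_pos
  have h1 : PsB S B y = ∑ k ∈ (Finset.range (M + 1)).image (fun k : ℕ => (k : ℤ)),
      if k.natAbs ∈ S then B (y - k * Real.pi) else 0 := by
    unfold PsB
    apply tsum_eq_sum
    intro k hk
    have h1 : Real.pi ≤ |y - k * Real.pi| := by
      rcases lt_or_ge k 0 with h | h
      · have h2 : k ≤ -1 := by omega
        have h3 : (k:ℝ) ≤ -1 := by exact_mod_cast h2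
        rw [le_abs]; left
        nlinarith
      · have h2 : (M:ℤ) + 1 ≤ k := by
          by_contra hcon
          apply hk
          rw [Finset.mem_image]
          exact ⟨k.natAbs, by rw [Finset.mem_range]; omega, by omega⟩
        have h3 : (M:ℝ) + 1 ≤ k := by exact_mod_cast h2
        rw [le_abs]; right
        nlinarith
    rw [hB.supp _ h1]
    simp
  rw [h1, Finset.sum_image (by intro a _ b _ h; simpa using h)]
  simp


/-- half integral -/
noncomputable def JB (B : ℝ → ℝ) (b : ℝ) : ℝ := ∫ t in (0:ℝ)..b, B t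

theorem JB_mono {B : ℝ → ℝ} (hB : Bmp B) {a b : ℝ} (hab : a ≤ b) : JB B a ≤ JB B b := by
  have h := intervalIntegral.integral_add_adjacent_intervals
    (hB.cont.intervalIntegrable 0 a) (hB.cont.intervalIntegrable a b) (μ := volume)
  have h2 : 0 ≤ ∫ t in a..b, B t := intervalIntegral.integral_nonneg hab (fun t _ => hB.nonneg t)
  unfold JB
  linarith

theorem JB_eq {B : ℝ → ℝ} (hB : Bmp B) {b : ℝ} (hb : Real.pi ≤ b) : JB B b = JB B Real.pi := by
  have h := intervalIntegral.integral_add_adjacent_intervals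
    (hB.cont.intervalIntegrable 0 Real.pi) (hB.cont.intervalIntegrable Real.pi b) (μ := volume)
  have h2 : ∫ t in Real.pi..b, B t = 0 := by
    have : ∫ t in Real.pi..b, B t = ∫ t in Real.pi..b, (0:ℝ) := by
      apply intervalIntegral.integral_congr
      intro t ht
      rw [Set.uIcc_of_le hb] at ht
      exact hB.supp t (by rw [abs_of_nonneg (by linarith [Real.pi_pos, ht.1])]; exact ht.1)
    rw [this]; simp
  unfold JB
  linarith

theorem JB_le {B : ℝ → ℝ} (hB : Bmp B) (b : ℝ) : JB B b ≤ JB B Real.pi := by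
  rcases le_total b Real.pi with h | h
  · exact JB_mono hB h
  · exact (JB_eq hB h).le

theorem JB_zero (B : ℝ → ℝ) : JB B 0 = 0 := by simp [JB]

theorem int_shift {B : ℝ → ℝ} (hB : Bmp B) (M k : ℝ) :
    ∫ y in (0:ℝ)..(M * Real.pi), B (y - k * Real.pi) = JB B (k * Real.pi) + JB B ((M - k) * Real.pi) := by
  rw [intervalIntegral.integral_comp_sub_right]
  have h := intervalIntegral.integral_add_adjacent_intervals
    (hB.cont.intervalIntegrable (0 - k * Real.pi) 0) (hB.cont.intervalIntegrable 0 (M * Real.pi - k * Real.pi)) (μ := volume)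
  have h2 : ∫ t in (0 - k * Real.pi)..0, B t = JB B (k * Real.pi) := by
    have h3 : ∫ t in (0 - k * Real.pi)..0, B t = ∫ t in (0 - k * Real.pi)..0, B (-t) := by
      simp only [hB.even]
    rw [h3, intervalIntegral.integral_comp_neg]
    simp [JB]
  rw [← h, h2]
  unfold JB
  congr 2
  ring

open Classical in
theorem int_PsB (S : Set ℕ) {B : ℝ → ℝ} (hB : Bmp B) (M : ℕ) :
    ∫ y in (0:ℝ)..(M * Real.pi), PsB S B y =
      ∑ k ∈ Finset.range (M + 1), if k ∈ S then JB B (k * Real.pi) + JB B (((M:ℝ) - k) * Real.pi) else 0 := by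
  have hpi := Real.pi_pos
  have h1 : ∫ y in (0:ℝ)..(M * Real.pi), PsB S B y =
      ∫ y in (0:ℝ)..(M * Real.pi), ∑ k ∈ Finset.range (M + 1), if k ∈ S then B (y - k * Real.pi) else 0 := by
    apply intervalIntegral.integral_congr
    intro y hy
    rw [Set.uIcc_of_le (by positivity)] at hy
    exact PsB_nat S hB M y hy.1 hy.2
  rw [h1, intervalIntegral.integral_finsetSum]
  · apply Finset.sum_congr rfl
    intro k _
    split_ifs
    · exact int_shift hB M k
    · simp
  · intro k _
    apply Continuous.intervalIntegrable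
    split_ifs
    · exact hB.cont.comp (by fun_prop)
    · exact continuous_const

open Classical in
theorem card_eq (S : Set ℕ) (K : ℕ) :
    (Nat.card {k : ℕ | k < K ∧ k ∈ S} : ℝ) = ∑ k ∈ Finset.range K, if k ∈ S then (1:ℝ) else 0 := by
  have h : {k : ℕ | k < K ∧ k ∈ S} = ((Finset.range K).filter (· ∈ S) : Finset ℕ) := by
    ext k; simp
  rw [h, Nat.card_eq_fintype_card]
  simp

theorem int_bounds (S : Set ℕ) {B : ℝ → ℝ} (hB : Bmp B) (M : ℕ) :
    2 * JB B Real.pi * ((Nat.card {k : ℕ | k < M ∧ k ∈ S} : ℝ) - 1) ≤ ∫ y in (0:ℝ)..(M * Real.pi), PsB S B y ∧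
    ∫ y in (0:ℝ)..(M * Real.pi), PsB S B y ≤ 2 * JB B Real.pi * ((Nat.card {k : ℕ | k < M ∧ k ∈ S} : ℝ) + 1) := by
  classical
  have hpi := Real.pi_pos
  have hJ : 0 ≤ JB B Real.pi := by
    have := JB_mono hB hpi.le
    rwa [JB_zero] at this
  have hJn : ∀ b, 0 ≤ b → 0 ≤ JB B b := by
    intro b hb
    have := JB_mono hB hb
    rwa [JB_zero] at this
  rw [int_PsB S hB M, card_eq]
  constructor
  · rcases Nat.eq_zero_or_pos M with h0 | h0
    · subst h0
      simp [JB_zero]
      linarith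
    obtain ⟨m, rfl⟩ : ∃ m, M = m + 1 := ⟨M - 1, by omega⟩
    rw [Finset.sum_range_succ _ (m + 1), Finset.sum_range_succ' _ m, Finset.sum_range_succ' _ m]
    have h1 : ∀ k ∈ Finset.range m, 2 * JB B Real.pi * (if k + 1 ∈ S then (1:ℝ) else 0) ≤
        if k + 1 ∈ S then JB B (((k+1 : ℕ) : ℝ) * Real.pi) + JB B ((((m+1 : ℕ):ℝ) - ((k+1 : ℕ):ℝ)) * Real.pi) else 0 := by
      intro k hk
      rw [Finset.mem_range] at hk
      split_ifs
      · have hk' : (k:ℝ) + 1 ≤ m := by exact_mod_cast hk
        rw [JB_eq hB (b := ((k+1 : ℕ) : ℝ) * Real.pi), JB_eq hB (b := (((m+1 : ℕ):ℝ) - ((k+1 : ℕ):ℝ)) * Real.pi)]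
        · linarith
        · push_cast; nlinarith
        · push_cast
          have : (0:ℝ) ≤ k := by positivity
          nlinarith
      · simp
    have h2 := Finset.sum_le_sum h1
    rw [← Finset.mul_sum] at h2
    have h3 : (0:ℝ) ≤ (if 0 ∈ S then JB B (((0:ℕ):ℝ) * Real.pi) + JB B ((((m+1 : ℕ):ℝ) - ((0:ℕ):ℝ)) * Real.pi) else 0) := by
      split_ifs
      · apply add_nonneg
        · apply hJn; simp
        · apply hJn; simp; positivity
      · exact le_rfl
    have h4 : (0:ℝ) ≤ (if m + 1 ∈ S then JB B (((m+1:ℕ):ℝ) * Real.pi) + JB B ((((m+1 : ℕ):ℝ) - ((m+1:ℕ):ℝ)) * Real.pi) else 0) := by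
      split_ifs
      · apply add_nonneg <;> apply hJn
        · positivity
        · simp
      · exact le_rfl
    have h5 : (if 0 ∈ S then (1:ℝ) else 0) ≤ 1 := by split_ifs <;> norm_num
    nlinarith
  · rw [Finset.sum_range_succ]
    have h1 : ∀ k ∈ Finset.range M, (if k ∈ S then JB B ((k : ℝ) * Real.pi) + JB B (((M:ℝ) - (k:ℝ)) * Real.pi) else 0) ≤
        2 * JB B Real.pi * (if k ∈ S then (1:ℝ) else 0) := by
      intro k hk
      split_ifs
      · have := JB_le hB ((k : ℝ) * Real.pi)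
        have := JB_le hB (((M:ℝ) - (k:ℝ)) * Real.pi)
        linarith
      · simp
    have h2 := Finset.sum_le_sum h1
    rw [← Finset.mul_sum] at h2
    have h3 : (if M ∈ S then JB B ((M : ℝ) * Real.pi) + JB B (((M:ℝ) - (M:ℝ)) * Real.pi) else 0) ≤ 2 * JB B Real.pi := by
      split_ifs
      · have := JB_le hB ((M : ℝ) * Real.pi)
        have := JB_le hB (((M:ℝ) - (M:ℝ)) * Real.pi)
        linarith
      · linarith
    linarith

theorem mean_PsB (S : Set ℕ) {B : ℝ → ℝ} (hB : Bmp B) (D : ℝ)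
    (h : Tendsto (fun K : ℕ => (Nat.card {k : ℕ | k < K ∧ k ∈ S} : ℝ) / K) atTop (𝓝 D)) :
    Tendsto (fun L : ℝ => (∫ y in (0:ℝ)..L, PsB S B y) / L) atTop (𝓝 (2 * JB B Real.pi * D / Real.pi)) := by
  have hpi := Real.pi_pos
  set c : ℕ → ℝ := fun K => (Nat.card {k : ℕ | k < K ∧ k ∈ S} : ℝ) with hc
  set J := 2 * JB B Real.pi with hJ
  have hmono : ∀ a b : ℝ, a ≤ b → ∫ y in (0:ℝ)..a, PsB S B y ≤ ∫ y in (0:ℝ)..b, PsB S B y := by
    intro a b hab
    have h := intervalIntegral.integral_add_adjacent_intervals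
      ((PsB_cont S hB).intervalIntegrable 0 a) ((PsB_cont S hB).intervalIntegrable a b) (μ := volume)
    have h2 : 0 ≤ ∫ t in a..b, PsB S B t := intervalIntegral.integral_nonneg hab (fun t _ => PsB_nonneg S hB t)
    linarith
  -- M(L)
  have hM : Tendsto (fun L : ℝ => ⌊L / Real.pi⌋₊) atTop atTop :=
    tendsto_nat_floor_atTop.comp (tendsto_id.atTop_div_const hpi)
  have hM1 : Tendsto (fun L : ℝ => ((⌊L / Real.pi⌋₊ : ℕ) : ℝ) / L) atTop (𝓝 (1 / Real.pi)) := by
    have h1 : Tendsto (fun L : ℝ => ((⌊L / Real.pi⌋₊ : ℕ) : ℝ) / (L / Real.pi)) atTop (𝓝 1) :=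
      (tendsto_nat_floor_div_atTop (R := ℝ)).comp (tendsto_id.atTop_div_const hpi)
    have h2 := h1.mul_const (1 / Real.pi)
    rw [one_mul] at h2
    refine h2.congr' ?_
    filter_upwards [eventually_gt_atTop 0] with L hL
    field_simp
  have hinv : Tendsto (fun L : ℝ => 1 / L) atTop (𝓝 0) := by
    simpa using tendsto_inv_atTop_zero (𝕜 := ℝ)
  have hlow : Tendsto (fun L : ℝ => J * (c ⌊L / Real.pi⌋₊ - 1) / L) atTop (𝓝 (J * D / Real.pi)) := by
    have h1 := (h.comp hM).mul hM1
    have h2 := (h1.sub hinv).const_mul J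
    have h3 : J * (D * (1 / Real.pi) - 0) = J * D / Real.pi := by ring
    rw [h3] at h2
    refine h2.congr' ?_
    filter_upwards [eventually_gt_atTop 0, hM.eventually (eventually_gt_atTop 0)] with L hL hm
    have : ((⌊L / Real.pi⌋₊ : ℕ) : ℝ) ≠ 0 := by exact_mod_cast hm.ne'
    simp only [Function.comp_apply, hc]
    field_simp
  have hup : Tendsto (fun L : ℝ => J * (c (⌊L / Real.pi⌋₊ + 1) + 1) / L) atTop (𝓝 (J * D / Real.pi)) := by
    have hM' : Tendsto (fun L : ℝ => ⌊L / Real.pi⌋₊ + 1) atTop atTop :=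
      (tendsto_add_atTop_nat 1).comp hM
    have h1 := (h.comp hM').mul (hM1.add hinv)
    have h2 := (h1.add hinv).const_mul J
    have h3 : J * (D * (1 / Real.pi + 0) + 0) = J * D / Real.pi := by ring
    rw [h3] at h2
    refine h2.congr' ?_
    filter_upwards [eventually_gt_atTop 0] with L hL
    have : (((⌊L / Real.pi⌋₊ : ℕ) : ℝ) + 1) ≠ 0 := by positivity
    simp only [Function.comp_apply, hc]
    push_cast
    field_simp
  apply tendsto_of_tendsto_of_tendsto_of_le_of_le' hlow hup
  · filter_upwards [eventually_gt_atTop 0] with L hL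
    apply div_le_div_of_nonneg_right _ hL.le
    refine (int_bounds S hB _).1.trans (hmono _ _ ?_)
    rw [← le_div_iff₀ hpi]
    exact Nat.floor_le (by positivity)
  · filter_upwards [eventually_gt_atTop 0] with L hL
    apply div_le_div_of_nonneg_right _ hL.le
    refine (hmono _ _ ?_).trans (int_bounds S hB _).2
    rw [← div_le_iff₀ hpi]
    push_cast
    exact (Nat.lt_floor_add_one _).le


noncomputable def B1 (t : ℝ) : ℝ := max 0 (Real.cos (min |t| Real.pi))

theorem B1_bmp : Bmp B1 where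
  cont := by unfold B1; fun_prop
  even := by intro t; unfold B1; rw [abs_neg]
  nonneg := by intro t; exact le_max_left _ _
  le_one := by intro t; exact max_le zero_le_one (Real.cos_le_one _)
  supp := by
    intro t ht
    unfold B1
    rw [min_eq_right ht, Real.cos_pi]
    norm_num

theorem psiS_eq (S : Set ℕ) (y : ℝ) : psiS S y = PsB S B1 y := by
  classical
  have hpi := Real.pi_pos
  have hr := abs_sub_round (y / Real.pi)
  have hr2 : |y - round (y / Real.pi) * Real.pi| ≤ Real.pi / 2 := by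
    have : y - round (y / Real.pi) * Real.pi = (y / Real.pi - round (y / Real.pi)) * Real.pi := by
      field_simp
    rw [this, abs_mul, abs_of_pos hpi]
    nlinarith
  unfold PsB psiS
  rw [tsum_eq_single (round (y / Real.pi))]
  · split_ifs
    · unfold B1
      rw [min_eq_left (by linarith), Real.cos_abs]
      have h1 : 0 ≤ Real.cos (y - round (y / Real.pi) * Real.pi) := by
        apply Real.cos_nonneg_of_neg_pi_div_two_le_of_le
        · linarith [(abs_le.1 hr2).1]
        · linarith [(abs_le.1 hr2).2]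
      rw [max_eq_right h1, ← abs_of_nonneg h1, Real.cos_sub_int_mul_pi, abs_mul]
      simp
    · rfl
  · intro k hk
    have h1 : Real.pi / 2 ≤ |y - k * Real.pi| := by
      rw [abs_le] at hr2
      rcases lt_or_gt_of_ne hk with hk | hk
      · have h2 : k ≤ round (y / Real.pi) - 1 := by omega
        have h3 : (k:ℝ) ≤ (round (y / Real.pi) : ℝ) - 1 := by exact_mod_cast h2
        rw [le_abs]; left
        nlinarith
      · have h2 : round (y / Real.pi) + 1 ≤ k := by omega
        have h3 : (round (y / Real.pi) : ℝ) + 1 ≤ k := by exact_mod_cast h2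
        rw [le_abs]; right
        nlinarith
    have h2 : B1 (y - k * Real.pi) = 0 := by
      unfold B1
      apply max_eq_left
      apply Real.cos_nonpos_of_pi_div_two_le_of_le
      · exact le_min h1 (by linarith)
      · have := min_le_right |y - k * Real.pi| Real.pi
        linarith
    rw [h2]; simp

theorem JB_B1 : JB B1 Real.pi = 1 := by
  have hpi := Real.pi_pos
  unfold JB
  have h := intervalIntegral.integral_add_adjacent_intervals
    (B1_bmp.cont.intervalIntegrable 0 (Real.pi / 2)) (B1_bmp.cont.intervalIntegrable (Real.pi / 2) Real.pi) (μ := volume)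
  rw [← h]
  have h1 : ∫ t in (0:ℝ)..(Real.pi / 2), B1 t = ∫ t in (0:ℝ)..(Real.pi / 2), Real.cos t := by
    apply intervalIntegral.integral_congr
    intro t ht
    rw [Set.uIcc_of_le (by positivity)] at ht
    change max 0 (Real.cos (min |t| Real.pi)) = Real.cos t
    rw [abs_of_nonneg ht.1, min_eq_left (by linarith [ht.2])]
    apply max_eq_right
    apply Real.cos_nonneg_of_neg_pi_div_two_le_of_le <;> linarith [ht.1, ht.2]
  have h2 : ∫ t in (Real.pi / 2)..Real.pi, B1 t = ∫ t in (Real.pi / 2)..Real.pi, (0:ℝ) := by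
    apply intervalIntegral.integral_congr
    intro t ht
    rw [Set.uIcc_of_le (by linarith)] at ht
    change max 0 (Real.cos (min |t| Real.pi)) = 0
    rw [abs_of_nonneg (by linarith [ht.1]), min_eq_left ht.2]
    apply max_eq_left
    apply Real.cos_nonpos_of_pi_div_two_le_of_le <;> linarith [ht.1, ht.2]
  rw [h1, h2]
  simp

theorem psiS_cont (S : Set ℕ) : Continuous (psiS S) := by
  have : psiS S = PsB S B1 := funext (psiS_eq S)
  rw [this]
  exact PsB_cont S B1_bmp

theorem psiS_even (S : Set ℕ) (y : ℝ) : psiS S (-y) = psiS S y := by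
  rw [psiS_eq, psiS_eq, PsB_even S B1_bmp]

theorem psiS_bound (S : Set ℕ) (y : ℝ) : |psiS S y| ≤ 1 := by
  classical
  unfold psiS
  split_ifs
  · rw [abs_abs]; exact Real.abs_cos_le_one y
  · simp

theorem psiS_mean (S : Set ℕ) (D : ℝ)
    (h : Tendsto (fun K : ℕ => (Nat.card {k : ℕ | k < K ∧ k ∈ S} : ℝ) / K) atTop (𝓝 D)) :
    Tendsto (fun L : ℝ => (∫ y in (0:ℝ)..L, psiS S y) / L) atTop (𝓝 (2 * D / Real.pi)) := by
  have : psiS S = PsB S B1 := funext (psiS_eq S)
  rw [this]
  have h1 := mean_PsB S B1_bmp D h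
  rw [JB_B1, mul_one] at h1
  exact h1

noncomputable def B2 (t : ℝ) : ℝ := max 0 (1 - max 0 (|t| - 2))

theorem B2_bmp : Bmp B2 where
  cont := by unfold B2; fun_prop
  even := by intro t; unfold B2; rw [abs_neg]
  nonneg := by intro t; exact le_max_left _ _
  le_one := by
    intro t
    apply max_le zero_le_one
    have := le_max_left 0 (|t| - 2)
    linarith
  supp := by
    intro t ht
    unfold B2
    apply max_eq_left
    have := le_max_right 0 (|t| - 2)
    have := Real.pi_gt_three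
    linarith

/-- a continuous majorant (mean zero) of the indicator of a neighbourhood of the tracts in a set of density zero -/
theorem bad_majorant (S : Set ℕ)
    (h : Tendsto (fun K : ℕ => (Nat.card {k : ℕ | k < K ∧ k ∈ S} : ℝ) / K) atTop (𝓝 0)) :
    ∃ ψ : ℝ → ℝ, Continuous ψ ∧ (∀ y, 0 ≤ ψ y) ∧ (∃ B, ∀ y, |ψ y| ≤ B) ∧ (∀ y, ψ (-y) = ψ y) ∧
      (∀ y, ∀ k : ℤ, k.natAbs ∈ S → |y - k * Real.pi| ≤ 2 → 1 ≤ ψ y) ∧
      Tendsto (fun L : ℝ => (∫ y in (0:ℝ)..L, ψ y) / L) atTop (𝓝 0) := by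
  classical
  refine ⟨PsB S B2, PsB_cont S B2_bmp, PsB_nonneg S B2_bmp, ⟨3, ?_⟩, PsB_even S B2_bmp, ?_, ?_⟩
  · intro y
    rw [abs_of_nonneg (PsB_nonneg S B2_bmp y)]
    exact PsB_le S B2_bmp y
  · intro y k hk hy
    have hpi := Real.pi_gt_three
    obtain ⟨M, hM⟩ := exists_nat_gt (max (|y| / Real.pi) |(k:ℝ)|)
    have hM1 := (le_max_left _ _).trans_lt hM
    have hM2 := (le_max_right _ _).trans_lt hM
    rw [div_lt_iff₀ Real.pi_pos] at hM1
    rw [PsB_fin S B2_bmp M y hM1.le]
    have hkM : k ∈ Finset.Icc (-(M:ℤ)) M := by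
      rw [Finset.mem_Icc, ← abs_le]
      have : ((|k| : ℤ) : ℝ) < M := by push_cast; exact hM2
      exact_mod_cast this.le
    have h1 : (if k.natAbs ∈ S then B2 (y - k * Real.pi) else 0) = 1 := by
      rw [if_pos hk]
      unfold B2
      rw [max_eq_left (a := (0:ℝ)) (b := |y - k * Real.pi| - 2) (by linarith)]
      norm_num
    calc (1:ℝ) = (if k.natAbs ∈ S then B2 (y - k * Real.pi) else 0) := h1.symm
      _ ≤ _ := Finset.single_le_sum (f := fun k : ℤ => if k.natAbs ∈ S then B2 (y - k * Real.pi) else 0)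
        (fun i _ => by
          split_ifs
          · exact B2_bmp.nonneg _
          · exact le_rfl) hkM
  · have h1 := mean_PsB S B2_bmp 0 h
    simpa using h1

end Pool.Agent.H343N.J5
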