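import Mathlib

set_option autoImplicit false
set_option maxHeartbeats 4000000
open Filter Topology

namespace Pool.Agent.H343N.J6

/-- homogeneous coordinates of a point of the Riemann sphere -/
noncomputable def uv' : Option ℂ → ℂ × ℂ
  | none => (1, 0)
  | some c => (c, 1)

noncomputable def dt' (p q : ℂ × ℂ) : ℂ := p.1 * q.2 - p.2 * q.1

theorem dk_zero_iff (p c : Option ℂ) (T : ℂ) (hT : T ≠ 0) (N : ℝ) (hN : 0 < N) :
    (T * (uv' p).1) * ((uv' c).2 / N) - (T * (uv' p).2) * ((uv' c).1 / N) = 0 ↔ p = c := by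
  have hN' : (N : ℂ) ≠ 0 := by exact_mod_cast hN.ne'
  rcases p with _ | p <;> rcases c with _ | c
  · simp [uv']
  · simp [uv', hT, hN']
  · simp [uv', hT, hN']
  · simp only [uv', Option.some.injEq, mul_one]
    have e : T * p * (1 / (N : ℂ)) - T * (c / N) = T / N * (p - c) := by ring
    rw [e, mul_eq_zero, sub_eq_zero]
    constructor
    · rintro (h | h)
      · exact absurd h (div_ne_zero hT hN')
      · exact h
    · intro h; exact Or.inr h

/-- the bad set has density zero.  `‖T (p × c)/N‖ ≥ exp(-(k+3)^2) exp(-(k+1)) / N ≥ exp(-(k+7)^2)` as soon as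
`7 k + 39 ≥ log N`, so the bad set is contained in the set of `hbad` together with a finite set. -/
theorem dens_bad (b : ℕ → Option ℂ) (T : ℕ → ℂ) (hT : ∀ k : ℕ, Real.exp (-((k:ℝ)+3)^2) ≤ ‖T k‖)
    (c : Option ℂ) (N : ℝ) (hN : 0 < N)
    (hbad : Tendsto (fun K : ℕ => (Nat.card {k : ℕ | k < K ∧ b k ≠ c ∧
        ‖dt' (uv' (b k)) (uv' c)‖ < Real.exp (-((k:ℝ) + 1))} : ℝ) / K) atTop (𝓝 0)) :
    Tendsto (fun K : ℕ => (Nat.card {k : ℕ | k < K ∧
        k ∈ {k : ℕ | (T k * (uv' (b k)).1) * ((uv' c).2 / N) - (T k * (uv' (b k)).2) * ((uv' c).1 / N) ≠ 0 ∧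
          ¬ Real.exp (-((k:ℝ)+7)^2) ≤ ‖(T k * (uv' (b k)).1) * ((uv' c).2 / N) - (T k * (uv' (b k)).2) * ((uv' c).1 / N)‖}} : ℝ)
          / K) atTop (𝓝 0) := by
  obtain ⟨N0, hN0⟩ := exists_nat_ge (Real.log N)
  have hlim2 : Tendsto (fun K : ℕ => (N0 : ℝ) / K) atTop (𝓝 0) :=
    tendsto_const_div_atTop_nhds_zero_nat _
  have hlim := hbad.add hlim2
  rw [add_zero] at hlim
  refine tendsto_of_tendsto_of_tendsto_of_le_of_le tendsto_const_nhds hlim
    (fun K => by positivity) (fun K => ?_)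
  simp only
  rw [← add_div]
  refine div_le_div_of_nonneg_right ?_ (by positivity)
  have key : ∀ k : ℕ, N0 ≤ k →
      ((T k * (uv' (b k)).1) * ((uv' c).2 / N) - (T k * (uv' (b k)).2) * ((uv' c).1 / N) ≠ 0) →
      (¬ Real.exp (-((k:ℝ)+7)^2) ≤ ‖(T k * (uv' (b k)).1) * ((uv' c).2 / N) - (T k * (uv' (b k)).2) * ((uv' c).1 / N)‖) →
      b k ≠ c ∧ ‖dt' (uv' (b k)) (uv' c)‖ < Real.exp (-((k:ℝ) + 1)) := by
    intro k hk h1 h2
    have hTk : T k ≠ 0 := by
      intro h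
      have := hT k
      rw [h, norm_zero] at this
      exact absurd this (not_le.2 (Real.exp_pos _))
    refine ⟨fun h => h1 ((dk_zero_iff (b k) c (T k) hTk N hN).2 h), ?_⟩
    by_contra hcon
    push Not at hcon
    apply h2
    have e : (T k * (uv' (b k)).1) * ((uv' c).2 / N) - (T k * (uv' (b k)).2) * ((uv' c).1 / N)
        = T k * dt' (uv' (b k)) (uv' c) / N := by
      unfold dt'; ring
    rw [e, norm_div, norm_mul, Complex.norm_real, Real.norm_eq_abs, abs_of_pos hN, le_div_iff₀ hN]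
    calc Real.exp (-((k:ℝ)+7)^2) * N = Real.exp (-((k:ℝ)+7)^2) * Real.exp (Real.log N) := by
          rw [Real.exp_log hN]
      _ = Real.exp (-((k:ℝ)+7)^2 + Real.log N) := by rw [Real.exp_add]
      _ ≤ Real.exp (-((k:ℝ)+3)^2 + -((k:ℝ) + 1)) := by
          apply Real.exp_le_exp.2
          have : (N0 : ℝ) ≤ k := by exact_mod_cast hk
          nlinarith
      _ = Real.exp (-((k:ℝ)+3)^2) * Real.exp (-((k:ℝ) + 1)) := by rw [Real.exp_add]
      _ ≤ ‖T k‖ * ‖dt' (uv' (b k)) (uv' c)‖ :=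
          mul_le_mul (hT k) hcon (Real.exp_pos _).le (norm_nonneg _)
  rw [Nat.card_coe_set_eq, Nat.card_coe_set_eq]
  have hsub : {k : ℕ | k < K ∧
        k ∈ {k : ℕ | (T k * (uv' (b k)).1) * ((uv' c).2 / N) - (T k * (uv' (b k)).2) * ((uv' c).1 / N) ≠ 0 ∧
          ¬ Real.exp (-((k:ℝ)+7)^2) ≤ ‖(T k * (uv' (b k)).1) * ((uv' c).2 / N) - (T k * (uv' (b k)).2) * ((uv' c).1 / N)‖}}
      ⊆ {k : ℕ | k < K ∧ b k ≠ c ∧ ‖dt' (uv' (b k)) (uv' c)‖ < Real.exp (-((k:ℝ) + 1))} ∪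
        {k : ℕ | k < N0} := by
    rintro k ⟨hk, h1, h2⟩
    by_cases hk2 : k < N0
    · exact Or.inr hk2
    · exact Or.inl ⟨hk, key k (not_lt.1 hk2) h1 h2⟩
  have hf1 : {k : ℕ | k < K ∧ b k ≠ c ∧ ‖dt' (uv' (b k)) (uv' c)‖ < Real.exp (-((k:ℝ) + 1))}.Finite :=
    (Set.finite_lt_nat K).subset fun k hk => hk.1
  have hf2 : {k : ℕ | k < N0}.Finite := Set.finite_lt_nat N0
  have h3 := Set.ncard_le_ncard hsub (hf1.union hf2)
  have h4 := Set.ncard_union_le {k : ℕ | k < K ∧ b k ≠ c ∧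
    ‖dt' (uv' (b k)) (uv' c)‖ < Real.exp (-((k:ℝ) + 1))} {k : ℕ | k < N0}
  have h5 : {k : ℕ | k < N0}.ncard = N0 := by
    have : {k : ℕ | k < N0} = ((Finset.range N0 : Finset ℕ) : Set ℕ) := by
      ext k; simp
    rw [this, Set.ncard_coe_finset, Finset.card_range]
  rw [h5] at h4
  exact_mod_cast h3.trans h4

end Pool.Agent.H343N.J6
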