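import Mathlib

set_option autoImplicit false
set_option maxHeartbeats 4000000
open Filter Topology MeasureTheory

namespace Pool.Agent.H343N.J7

theorem posLog_eq_log_max (t : ℝ) (ht0 : 0 ≤ t) : Real.posLog t = Real.log (max 1 t) := by
  rw [Real.posLog]
  rcases le_total 1 t with h | h
  · rw [max_eq_right h, max_eq_right (Real.log_nonneg h)]
  · rw [max_eq_left h, Real.log_one, max_eq_left]
    exact Real.log_nonpos ht0 h

theorem cmp_none (w1 w2 : ℂ) (h2 : w2 ≠ 0) :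
    |Real.posLog ‖w1 / w2‖ - (Real.log (Real.sqrt (‖w1‖^2 + ‖w2‖^2)) - Real.log ‖w1 * 0 - w2 * 1‖)|
      ≤ Real.log 2 := by
  have hb : 0 < ‖w2‖ := norm_pos_iff.mpr h2
  have e1 : ‖w1 * 0 - w2 * 1‖ = ‖w2‖ := by simp
  rw [e1, norm_div]
  set a := ‖w1‖ with ha
  set b := ‖w2‖ with hb'
  have ha0 : 0 ≤ a := norm_nonneg _
  have hs : 0 < a^2 + b^2 := by positivity
  have hsq : Real.sqrt (a^2+b^2) / b = Real.sqrt ((a/b)^2 + 1) := by
    have : (a/b)^2 + 1 = (a^2+b^2)/b^2 := by field_simp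
    rw [this, Real.sqrt_div hs.le, Real.sqrt_sq hb.le]
  rw [← Real.log_div (by positivity) (by positivity), hsq]
  set t := a / b with ht
  have ht0 : 0 ≤ t := by positivity
  rw [posLog_eq_log_max t ht0]
  have hm0 : 0 < max 1 t := lt_of_lt_of_le one_pos (le_max_left _ _)
  have hs1 : max 1 t ≤ Real.sqrt (t^2+1) := by
    apply Real.le_sqrt_of_sq_le
    rcases le_total 1 t with h | h
    · rw [max_eq_right h]; linarith
    · rw [max_eq_left h]; nlinarith
  have hs2 : Real.sqrt (t^2+1) ≤ 2 * max 1 t := by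
    apply Real.sqrt_le_iff.mpr
    refine ⟨by positivity, ?_⟩
    have h1 : t ≤ max 1 t := le_max_right _ _
    have h2 : (1:ℝ) ≤ max 1 t := le_max_left _ _
    nlinarith
  have l1 := Real.log_le_log hm0 hs1
  have l2 := Real.log_le_log (lt_of_lt_of_le hm0 hs1) hs2
  rw [Real.log_mul (by norm_num) hm0.ne'] at l2
  rw [abs_le]
  constructor <;> linarith [Real.log_nonneg (show (1:ℝ) ≤ 2 by norm_num)]

theorem cmp_some (w1 w2 c : ℂ) (h2 : w2 ≠ 0) (h : w1 / w2 - c ≠ 0) (N : ℝ) (hN : N = Real.sqrt (‖c‖^2 + 1)) :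
    |Real.posLog ‖w1 / w2 - c‖⁻¹ -
      (Real.log (Real.sqrt (‖w1‖^2 + ‖w2‖^2)) - Real.log ‖w1 * (1 / (N:ℂ)) - w2 * (c / (N:ℂ))‖)|
      ≤ Real.log ((2 + ‖c‖) * N) := by
  have hb : 0 < ‖w2‖ := norm_pos_iff.mpr h2
  have hN1 : 1 ≤ N := by
    rw [hN]
    apply Real.le_sqrt_of_sq_le
    nlinarith [sq_nonneg ‖c‖]
  have hN0 : 0 < N := by linarith
  have hNN : N^2 = ‖c‖^2+1 := by rw [hN]; exact Real.sq_sqrt (by positivity)
  have ht : 0 < ‖w1 / w2 - c‖ := norm_pos_iff.mpr h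
  set f := w1 / w2 with hf
  have hw1 : w1 = f * w2 := by rw [hf]; field_simp
  have e1 : ‖w1 * (1 / (N:ℂ)) - w2 * (c / (N:ℂ))‖ = ‖w2‖ * ‖f - c‖ / N := by
    have : w1 * (1 / (N:ℂ)) - w2 * (c / (N:ℂ)) = w2 * (f - c) / (N:ℂ) := by
      rw [hw1]; ring
    rw [this, norm_div, norm_mul, Complex.norm_real, Real.norm_of_nonneg hN0.le]
  have e2 : Real.sqrt (‖w1‖^2 + ‖w2‖^2) = Real.sqrt (1 + ‖f‖^2) * ‖w2‖ := by
    have : ‖w1‖^2 + ‖w2‖^2 = (1 + ‖f‖^2) * ‖w2‖^2 := by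
      rw [hw1, norm_mul]; ring
    rw [this, Real.sqrt_mul (by positivity), Real.sqrt_sq hb.le]
  rw [e1, e2]
  have hS0 : 0 < Real.sqrt (1 + ‖f‖^2) := Real.sqrt_pos.mpr (by positivity)
  set S := Real.sqrt (1 + ‖f‖^2) with hS
  set t := ‖f - c‖ with htdef
  rw [← Real.log_div (by positivity) (by positivity)]
  have e3 : S * ‖w2‖ / (‖w2‖ * t / N) = S * N / t := by field_simp
  rw [e3]
  have hfle : ‖f‖ ≤ t + ‖c‖ := by
    calc ‖f‖ = ‖(f - c) + c‖ := by ring_nf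
      _ ≤ _ := norm_add_le _ _
  have hSle : S ≤ 1 + ‖f‖ := by
    rw [hS]
    apply Real.sqrt_le_iff.mpr
    refine ⟨by positivity, by nlinarith [norm_nonneg f]⟩
  have hcs : t ≤ S * N := by
    have h1 : t ≤ ‖f‖ + ‖c‖ := norm_sub_le _ _
    have h2 : (‖f‖ + ‖c‖)^2 ≤ (S * N)^2 := by
      have : S^2 = 1 + ‖f‖^2 := Real.sq_sqrt (by positivity)
      rw [mul_pow, this, hNN]
      nlinarith [sq_nonneg (‖f‖ * ‖c‖ - 1)]
    have h3 : ‖f‖ + ‖c‖ ≤ S * N := by
      apply le_of_sq_le_sq h2 (by positivity)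
    linarith
  have hc0 : 0 ≤ ‖c‖ := norm_nonneg _
  rw [posLog_eq_log_max _ (by positivity)]
  have hm0 : 0 < max 1 t⁻¹ := lt_of_lt_of_le one_pos (le_max_left _ _)
  -- bounds
  have hup : S * N / t ≤ (2 + ‖c‖) * N * max 1 t⁻¹ := by
    rcases le_total t 1 with h' | h'
    · have : 1 ≤ t⁻¹ := (one_le_inv₀ ht).mpr h'
      rw [max_eq_right this, div_eq_mul_inv]
      have : S ≤ 2 + ‖c‖ := by linarith
      gcongr
    · have : t⁻¹ ≤ 1 := inv_le_one_of_one_le₀ h'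
      rw [max_eq_left this, mul_one, div_le_iff₀ ht]
      have : S ≤ (2 + ‖c‖) * t := by nlinarith
      nlinarith
  have hlo : max 1 t⁻¹ ≤ (2 + ‖c‖) * N * (S * N / t) := by
    have hS1 : 1 ≤ S := by
      rw [hS]; apply Real.le_sqrt_of_sq_le; nlinarith [sq_nonneg ‖f‖]
    have h2c : 1 ≤ (2 + ‖c‖) * N := by nlinarith
    have h1 : 1 ≤ S * N / t := by rw [le_div_iff₀ ht]; linarith
    have h3 : t⁻¹ ≤ S * N / t := by
      rw [div_eq_mul_inv]
      have : 1 ≤ S * N := by nlinarith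
      have hti : 0 < t⁻¹ := by positivity
      nlinarith
    have h4 : max 1 t⁻¹ ≤ S * N / t := max_le h1 h3
    have h5 : 0 ≤ S * N / t := by positivity
    nlinarith
  have hA : 0 < (2 + ‖c‖) * N := by positivity
  have l1 := Real.log_le_log (by positivity) hup
  have l2 := Real.log_le_log hm0 hlo
  rw [Real.log_mul hA.ne' hm0.ne'] at l1
  rw [Real.log_mul hA.ne' (by positivity)] at l2
  rw [abs_le]
  constructor <;> linarith

theorem ae_circle (f : ℂ → ℂ) (hf : ∀ z ∈ Metric.ball (0:ℂ) 1, DifferentiableAt ℂ f z)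
    (h0 : ∃ z ∈ Metric.ball (0:ℂ) 1, f z ≠ 0) (r : ℝ) (hr0 : 0 < r) (hr1 : r < 1) :
    ∀ᵐ θ : ℝ, f (circleMap 0 r θ) ≠ 0 := by
  have a1 : AnalyticOnNhd ℂ f (Metric.ball (0:ℂ) 1) := by
    apply DifferentiableOn.analyticOnNhd _ Metric.isOpen_ball
    exact fun z hz => (hf z hz).differentiableWithinAt
  rcases a1.eqOn_zero_or_eventually_ne_zero_of_preconnected (convex_ball (0:ℂ) 1).isPreconnected with h | h
  · obtain ⟨z, hz, hz'⟩ := h0
    exact absurd (h hz) hz'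
  · have hsub : Metric.sphere (0:ℂ) |r| ⊆ Metric.ball (0:ℂ) 1 := by
      rw [abs_of_pos hr0]
      intro z hz
      rw [mem_sphere_zero_iff_norm] at hz
      rw [mem_ball_zero_iff, hz]; exact hr1
    have h' := h.filter_mono (codiscreteWithin_mono hsub)
    have h'' := h'.filter_mono (circleMap_preimage_codiscrete (c := (0:ℂ)) hr0.ne')
    rw [eventually_map] at h''
    have h3 : ae (volume.restrict (Set.univ : Set ℝ)) ≤ codiscreteWithin (Set.univ : Set ℝ) :=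
      ae_restrict_le_codiscreteWithin MeasurableSet.univ
    rw [Measure.restrict_univ] at h3
    exact h''.filter_mono h3

theorem shift (g : ℂ → ℝ) (r : ℝ) :
    ∫ θ in (0 : ℝ)..(2 * Real.pi), g (circleMap 0 r θ) = ∫ θ in (-Real.pi)..Real.pi, g (circleMap 0 r θ) := by
  have hp : Function.Periodic (fun θ : ℝ => g (circleMap 0 r θ)) (2 * Real.pi) := by
    intro θ
    simp only
    rw [periodic_circleMap 0 r θ]
  have := hp.intervalIntegral_add_eq 0 (-Real.pi)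
  simp only [zero_add] at this
  rw [this]
  congr 1
  ring

theorem mero (F1 F2 : ℂ → ℂ) (h1 : ∀ z ∈ Metric.ball (0:ℂ) 1, DifferentiableAt ℂ F1 z)
    (h2 : ∀ z ∈ Metric.ball (0:ℂ) 1, DifferentiableAt ℂ F2 z) :
    MeromorphicOn (fun z => F1 z / F2 z) (Metric.ball (0 : ℂ) 1) := by
  have a1 : AnalyticOnNhd ℂ F1 (Metric.ball (0:ℂ) 1) := by
    apply DifferentiableOn.analyticOnNhd _ Metric.isOpen_ball
    exact fun z hz => (h1 z hz).differentiableWithinAt
  have a2 : AnalyticOnNhd ℂ F2 (Metric.ball (0:ℂ) 1) := by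
    apply DifferentiableOn.analyticOnNhd _ Metric.isOpen_ball
    exact fun z hz => (h2 z hz).differentiableWithinAt
  exact a1.meromorphicOn.div a2.meromorphicOn

theorem pl_integrable (F1 F2 : ℂ → ℂ) (h1 : ∀ z ∈ Metric.ball (0:ℂ) 1, DifferentiableAt ℂ F1 z)
    (h2 : ∀ z ∈ Metric.ball (0:ℂ) 1, DifferentiableAt ℂ F2 z) (c : Option ℂ) (r : ℝ) (hr0 : 0 < r) (hr1 : r < 1) :
    IntervalIntegrable (fun θ : ℝ => (Option.elim c (fun z : ℂ => Real.posLog ‖F1 z / F2 z‖)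
      (fun (c : ℂ) (z : ℂ) => Real.posLog ‖F1 z / F2 z - c‖⁻¹)) (circleMap 0 r θ)) volume (-Real.pi) Real.pi := by
  have hm := mero F1 F2 h1 h2
  have hsub : Metric.sphere (0:ℂ) |r| ⊆ Metric.ball (0:ℂ) 1 := by
    rw [abs_of_pos hr0]
    intro z hz
    rw [mem_sphere_zero_iff_norm] at hz
    rw [mem_ball_zero_iff, hz]; exact hr1
  have hm' : MeromorphicOn (fun z => F1 z / F2 z) (Metric.sphere (0:ℂ) |r|) := fun z hz => hm z (hsub hz)
  have key : ∀ g : ℂ → ℝ, CircleIntegrable g 0 r → IntervalIntegrable (fun θ : ℝ => g (circleMap 0 r θ)) volume (-Real.pi) Real.pi := by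
    intro g hg
    rw [circleIntegrable_def] at hg
    have hp : Function.Periodic (fun θ : ℝ => g (circleMap 0 r θ)) (2 * Real.pi) := by
      intro θ
      simp only
      rw [periodic_circleMap 0 r θ]
    exact hp.intervalIntegrable₀ Real.two_pi_pos.ne' hg (-Real.pi) Real.pi
  cases c with
  | none =>
    exact key (fun z => Real.posLog ‖F1 z / F2 z‖) hm'.circleIntegrable_posLog_norm
  | some c =>
    have hm2 : MeromorphicOn (fun z => (F1 z / F2 z - c)⁻¹) (Metric.sphere (0:ℂ) |r|) := by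
      have := (hm'.sub (MeromorphicOn.const c)).inv
      exact this
    have := key _ hm2.circleIntegrable_posLog_norm
    simpa [norm_inv] using this

end Pool.Agent.H343N.J7
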