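import Mathlib
import Pool.Agent.Helper343.M1

set_option autoImplicit false
set_option maxHeartbeats 4000000
open Filter Topology Complex MeasureTheory Set BoundedContinuousFunction

namespace Pool.Agent.H343N

noncomputable def ln (l : ℤ) (t : ℝ) : ℂ := (t:ℂ) + ((l * Real.pi : ℝ) : ℂ) * I

lemma ln_re (l : ℤ) (t : ℝ) : (ln l t).re = t := by simp [ln]
lemma ln_im (l : ℤ) (t : ℝ) : (ln l t).im = l * Real.pi := by simp [ln]

structure Dat where
  β : ℤ → ℂ
  h : ℤ → ℝ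
  h0 : ∀ l, 0 ≤ h l
  hβ : ∀ l, ‖β l‖ * Real.exp (-(1/2) * Real.exp (h l)) ≤ (1/100) * (1/2:ℝ)^(l.natAbs)

variable (D : Dat)

noncomputable def Dat.M (_D : Dat) (l : ℤ) : ℝ := (1/100) * (1/2:ℝ)^(l.natAbs)

lemma M_nonneg (l : ℤ) : 0 ≤ D.M l := by unfold Dat.M; positivity

lemma M_hasSum : HasSum D.M (3/100) := by
  have h1 : HasSum (fun n : ℕ => (1/100) * (1/2:ℝ)^n) ((1/100) * 2) := by
    have := hasSum_geometric_two
    exact this.mul_left _
  have h2 : HasSum (fun n : ℕ => (1/100) * (1/2:ℝ)^(n+1)) ((1/100) * 1) := by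
    have := (hasSum_geometric_two.mul_left ((1/100) * (1/2:ℝ)))
    have e1 : (fun n : ℕ => (1/100) * (1/2:ℝ)^(n+1)) = fun n : ℕ => (1/100) * (1/2:ℝ) * (1/2)^n := by
      funext n
      rw [pow_succ]; ring
    have e2 : (1/100 * 1 : ℝ) = 1/100 * (1/2) * 2 := by norm_num
    rw [e1, e2]
    exact this
  have := HasSum.of_nat_of_neg_add_one (f := D.M) (m := (1/100) * 2) (m' := (1/100) * 1) ?_ ?_
  · convert this using 1; norm_num
  · simpa [Dat.M] using h1
  · have e : (fun n : ℕ => D.M (-((n:ℤ) + 1))) = (fun n : ℕ => (1/100) * (1/2:ℝ)^(n+1)) := by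
      ext n
      unfold Dat.M
      congr 2
    rw [e]
    exact h2

lemma M_summable : Summable D.M := (M_hasSum D).summable

/-- weights on the lines -/
noncomputable def Dat.w (D : Dat) (l : ℤ) (t : ℝ) : ℂ := D.β l * ((Real.exp (-2 * Real.exp t) : ℝ) : ℂ)

lemma w_bound (l : ℤ) (t : ℝ) (ht : D.h l < t) : ‖D.w l t‖ ≤ D.M l * Real.exp (-(1 + t)) := by
  unfold Dat.w Dat.M
  rw [norm_mul, norm_real, Real.norm_eq_abs, abs_of_pos (Real.exp_pos _)]
  have h1 : Real.exp (-2 * Real.exp t) ≤ Real.exp (-(1/2) * Real.exp (D.h l)) * Real.exp (-(1+t)) := by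
    rw [← Real.exp_add]
    apply Real.exp_le_exp.2
    have := Real.exp_le_exp.2 ht.le
    have := Real.add_one_le_exp t
    have := Real.exp_pos t
    linarith
  calc ‖D.β l‖ * Real.exp (-2 * Real.exp t)
      ≤ ‖D.β l‖ * (Real.exp (-(1/2) * Real.exp (D.h l)) * Real.exp (-(1+t))) := by gcongr
    _ = (‖D.β l‖ * Real.exp (-(1/2) * Real.exp (D.h l))) * Real.exp (-(1+t)) := by ring
    _ ≤ _ := by
        have := D.hβ l
        gcongr

lemma exp_int' (a : ℝ) : IntegrableOn (fun t : ℝ => Real.exp (-(1+t))) (Ioi a) := by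
  have := integrableOn_exp_neg_Ioi a
  have h2 := this.const_mul (Real.exp (-1))
  have e : (fun t : ℝ => Real.exp (-(1+t))) = (fun t : ℝ => Real.exp (-1) * Real.exp (-t)) := by
    ext t
    rw [← Real.exp_add]
    ring_nf
  rw [e]
  exact h2

lemma exp_int_val' (a : ℝ) : ∫ t in Ioi a, Real.exp (-(1+t)) = Real.exp (-(1+a)) := by
  have : (fun t : ℝ => Real.exp (-(1+t))) = (fun t : ℝ => Real.exp (-1) * Real.exp (-t)) := by
    ext t
    rw [← Real.exp_add]
    ring_nf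
  rw [this, integral_const_mul, integral_exp_neg_Ioi, ← Real.exp_add]
  ring_nf

noncomputable def Dat.J (D : Dat) (Φ : ℤ × ℝ → ℂ) (l : ℤ) (z : ℂ) : ℂ :=
  (2 * Real.pi * I)⁻¹ * ∫ t in Ioi (D.h l), D.w l t * Φ (l, t) / (ln l t - z)

lemma w_cont (l : ℤ) : Continuous (D.w l) := by
  unfold Dat.w
  fun_prop

lemma wPhi_int (Φ : (ℤ × ℝ) →ᵇ ℂ) (l : ℤ) :
    IntegrableOn (fun t => D.w l t * Φ (l, t)) (Ioi (D.h l)) := by
  apply Integrable.mono' (g := fun t => (D.M l * ‖Φ‖) * Real.exp (-(1+t)))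
    ((exp_int' (D.h l)).const_mul _)
  · apply Continuous.aestronglyMeasurable
    exact (w_cont D l).mul (Φ.continuous.comp (by fun_prop))
  · filter_upwards [ae_restrict_mem measurableSet_Ioi] with t ht
    rw [norm_mul]
    calc _ ≤ (D.M l * Real.exp (-(1+t))) * ‖Φ‖ := by
          apply mul_le_mul (w_bound D l t ht) (Φ.norm_coe_le_norm _) (norm_nonneg _)
          have := M_nonneg D l
          positivity
      _ = _ := by ring

lemma wPhi_int_le (Φ : (ℤ × ℝ) →ᵇ ℂ) (l : ℤ) :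
    ∫ t in Ioi (D.h l), ‖D.w l t * Φ (l, t)‖ ≤ D.M l * ‖Φ‖ := by
  have hM := M_nonneg D l
  calc ∫ t in Ioi (D.h l), ‖D.w l t * Φ (l, t)‖ ≤ ∫ t in Ioi (D.h l), (D.M l * ‖Φ‖) * Real.exp (-(1+t)) := by
        apply setIntegral_mono_on (wPhi_int D Φ l).norm ((exp_int' _).const_mul _) measurableSet_Ioi
        intro t ht
        rw [norm_mul]
        calc _ ≤ (D.M l * Real.exp (-(1+t))) * ‖Φ‖ := by
              apply mul_le_mul (w_bound D l t ht) (Φ.norm_coe_le_norm _) (norm_nonneg _)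
              positivity
          _ = _ := by ring
    _ = (D.M l * ‖Φ‖) * Real.exp (-(1+D.h l)) := by
        rw [integral_const_mul, exp_int_val']
    _ ≤ (D.M l * ‖Φ‖) * 1 := by
        gcongr
        apply Real.exp_le_one_iff.2
        have := D.h0 l
        linarith
    _ = _ := mul_one _

lemma norm_2pi : ‖(2 * Real.pi * I : ℂ)⁻¹‖ ≤ 1 := by
  rw [Pool.Agent.H343.M.norm_two_pi_I]
  apply inv_le_one_of_one_le₀
  have := Real.pi_gt_three
  linarith

lemma J_bound (Φ : (ℤ × ℝ) →ᵇ ℂ) (l : ℤ) (z : ℂ) (d : ℝ) (hd : 0 < d)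
    (h : ∀ t, D.h l < t → d ≤ ‖ln l t - z‖) : ‖D.J Φ l z‖ ≤ D.M l * ‖Φ‖ / d := by
  unfold Dat.J
  rw [norm_mul]
  have h1 := Pool.Agent.H343.M.cauchy_bound measurableSet_Ioi (φ := fun t => D.w l t * Φ (l,t))
    (γ := fun t => ln l t) (z := z) hd h (wPhi_int D Φ l) (wPhi_int_le D Φ l)
  calc _ ≤ 1 * (D.M l * ‖Φ‖ / d) := by
        apply mul_le_mul norm_2pi h1 (norm_nonneg _) zero_le_one
    _ = _ := one_mul _

lemma J_diff (Φ : (ℤ × ℝ) →ᵇ ℂ) (l : ℤ) (z : ℂ) (d : ℝ) (hd : 0 < d)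
    (h : ∀ t, D.h l < t → d ≤ ‖ln l t - z‖) : DifferentiableAt ℂ (D.J Φ l) z := by
  unfold Dat.J
  apply DifferentiableAt.const_mul
  exact Pool.Agent.H343.M.cauchy_diff measurableSet_Ioi (φ := fun t => D.w l t * Φ (l,t))
    (γ := fun t => ln l t) (wPhi_int D Φ l) (by unfold ln; fun_prop) hd h

lemma ln_dist (l : ℤ) (t : ℝ) (z : ℂ) : |l * Real.pi - z.im| ≤ ‖ln l t - z‖ := by
  have := Complex.abs_im_le_norm (ln l t - z)
  simpa [ln_im] using this

lemma J_sub (Φ Ψ : (ℤ × ℝ) →ᵇ ℂ) (l : ℤ) (z : ℂ) (hz : (l:ℝ) * Real.pi ≠ z.im) :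
    D.J Φ l z - D.J Ψ l z = D.J (Φ - Ψ) l z := by
  have hint : ∀ Θ : (ℤ × ℝ) →ᵇ ℂ, IntegrableOn (fun t => D.w l t * Θ (l, t) / (ln l t - z)) (Ioi (D.h l)) := by
    intro Θ
    have h0 : 0 < |l * Real.pi - z.im| := abs_pos.2 (sub_ne_zero.2 hz)
    apply Integrable.mono' (g := fun t => ‖D.w l t * Θ (l, t)‖ * (1/|l * Real.pi - z.im|))
      ((wPhi_int D Θ l).norm.mul_const _)
    · apply Continuous.aestronglyMeasurable
      apply Continuous.div ((w_cont D l).mul (Θ.continuous.comp (by fun_prop)))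
      · unfold ln; fun_prop
      · intro t ht
        have := ln_dist l t z
        rw [ht, norm_zero] at this
        linarith
    · apply Eventually.of_forall
      intro t
      rw [norm_div, div_eq_mul_inv]
      apply mul_le_mul_of_nonneg_left _ (norm_nonneg _)
      rw [one_div]
      exact inv_anti₀ h0 (ln_dist l t z)
  unfold Dat.J
  rw [← mul_sub, ← integral_sub (hint Φ) (hint Ψ)]
  congr 1
  apply integral_congr_ae
  apply Eventually.of_forall
  intro t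
  simp only [Pi.sub_apply]
  ring

noncomputable def Dat.AA (D : Dat) (Φ : ℤ × ℝ → ℂ) (p : ℤ) (z : ℂ) : ℂ :=
  1 - ∑' l : ℤ, if Even (l - p) then D.J Φ l z else 0

lemma AA_per (Φ : ℤ × ℝ → ℂ) (p : ℤ) (z : ℂ) : D.AA Φ (p + 2) z = D.AA Φ p z := by
  unfold Dat.AA
  congr 2
  ext l
  congr 1
  have : l - (p + 2) = (l - p) - 2 := by ring
  rw [this]
  exact propext (by simp [Int.even_sub])

/-- distance from a point near line `k` to lines of the other parity -/
lemma dist_odd {k l : ℤ} (hkl : Odd (l - k)) {z : ℂ} {r : ℝ} (hz : |z.im - k * Real.pi| ≤ r) :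
    Real.pi - r ≤ |l * Real.pi - z.im| := by
  have hpi := Real.pi_pos
  have h1 : (1:ℝ) ≤ |((l - k : ℤ) : ℝ)| := by
    have : l - k ≠ 0 := by
      intro h
      rw [h] at hkl
      exact absurd hkl (by decide)
    have := Int.one_le_abs this
    exact_mod_cast this
  have h2 : |((l - k : ℤ):ℝ) * Real.pi| ≤ |l * Real.pi - z.im| + |z.im - k * Real.pi| := by
    have e : ((l - k : ℤ):ℝ) * Real.pi = (l * Real.pi - z.im) + (z.im - k * Real.pi) := by
      push_cast; ring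
    rw [e]
    exact abs_add_le _ _
  rw [abs_mul, abs_of_pos hpi] at h2
  nlinarith

lemma term_bound (Φ : (ℤ × ℝ) →ᵇ ℂ) {p k : ℤ} (hk : Odd (k - p)) {z : ℂ} {r : ℝ} (hr : r < Real.pi)
    (hz : |z.im - k * Real.pi| ≤ r) (l : ℤ) :
    ‖(if Even (l - p) then D.J Φ l z else 0)‖ ≤ D.M l * (‖Φ‖ / (Real.pi - r)) := by
  have hM := M_nonneg D l
  split_ifs with hl
  · have h1 : Odd (l - k) := by
      have : l - k = (l - p) - (k - p) := by ring
      rw [this]
      exact hl.sub_odd hk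
    have h2 := J_bound D Φ l z (Real.pi - r) (by linarith)
      (fun t _ => (dist_odd h1 hz).trans (ln_dist l t z))
    rw [mul_div_assoc] at h2
    exact h2
  · rw [norm_zero]
    have : 0 < Real.pi - r := by linarith
    positivity

lemma AA_sub_one (Φ : (ℤ × ℝ) →ᵇ ℂ) {p k : ℤ} (hk : Odd (k - p)) {z : ℂ} {r : ℝ} (hr : r < Real.pi)
    (hz : |z.im - k * Real.pi| ≤ r) : ‖D.AA Φ p z - 1‖ ≤ (3/100) * (‖Φ‖ / (Real.pi - r)) := by
  have h1 : ‖D.AA Φ p z - 1‖ = ‖∑' l : ℤ, if Even (l - p) then D.J Φ l z else 0‖ := by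
    unfold Dat.AA
    rw [← norm_neg]
    congr 1
    ring
  rw [h1]
  have h2 := ((M_hasSum D).mul_right (‖Φ‖ / (Real.pi - r)))
  exact tsum_of_norm_bounded h2 (term_bound D Φ hk hr hz)

lemma AA_diff (Φ : (ℤ × ℝ) →ᵇ ℂ) {p k : ℤ} (hk : Odd (k - p)) {z : ℂ}
    (hz : |z.im - k * Real.pi| < Real.pi) : DifferentiableAt ℂ (D.AA Φ p) z := by
  obtain ⟨r, hr1, hr2⟩ := exists_between hz
  let U : Set ℂ := {w | |w.im - k * Real.pi| < r}
  have hU : IsOpen U := by
    apply isOpen_lt _ continuous_const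
    fun_prop
  have hzU : z ∈ U := hr1
  unfold Dat.AA
  apply DifferentiableAt.const_sub
  have := differentiableOn_tsum_of_summable_norm (u := fun l => D.M l * (‖Φ‖ / (Real.pi - r)))
    (F := fun l w => if Even (l - p) then D.J Φ l w else 0) (U := U)
    ((M_summable D).mul_right _) ?_ hU ?_
  · exact (this z hzU).differentiableAt (hU.mem_nhds hzU)
  · intro l
    by_cases hl : Even (l - p)
    · simp only [hl, if_true]
      intro w hw
      apply DifferentiableAt.differentiableWithinAt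
      have h1 : Odd (l - k) := by
        have : l - k = (l - p) - (k - p) := by ring
        rw [this]
        exact hl.sub_odd hk
      have hw' : |w.im - k * Real.pi| ≤ r := le_of_lt hw
      exact J_diff D Φ l w (Real.pi - r) (by linarith)
        (fun t _ => (dist_odd h1 hw').trans (ln_dist l t w))
    · simp only [hl, if_false]
      exact differentiableOn_const _
  · intro l w hw
    exact term_bound D Φ hk hr2 (le_of_lt hw) l

/-- the fixed point operator -/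
noncomputable def Dat.T (D : Dat) (Φ : (ℤ × ℝ) →ᵇ ℂ) : (ℤ × ℝ) →ᵇ ℂ :=
  BoundedContinuousFunction.ofNormedAddCommGroup (fun q => D.AA Φ (q.1 + 1) (ln q.1 q.2))
    (by
      rw [continuous_prod_of_discrete_left]
      intro j
      rw [continuous_iff_continuousAt]
      intro x
      have h1 : DifferentiableAt ℂ (D.AA Φ (j+1)) (ln j x) := by
        apply AA_diff D Φ (k := j) (p := j+1)
        · have : j - (j+1) = -1 := by ring
          rw [this]; decide
        · rw [ln_im]; simp [Real.pi_pos]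
      exact ContinuousAt.comp (f := fun x => ln j x) h1.continuousAt
        (by unfold ln; fun_prop))
    (1 + (3/100) * (‖Φ‖ / Real.pi))
    (by
      intro q
      have h1 := AA_sub_one D Φ (p := q.1 + 1) (k := q.1) (z := ln q.1 q.2) (r := 0)
        (by have : q.1 - (q.1+1) = -1 := by ring
            rw [this]; decide) Real.pi_pos (by rw [ln_im]; simp)
      rw [sub_zero] at h1
      calc ‖D.AA Φ (q.1 + 1) (ln q.1 q.2)‖ = ‖1 + (D.AA Φ (q.1 + 1) (ln q.1 q.2) - 1)‖ := by ring_nf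
        _ ≤ ‖(1:ℂ)‖ + ‖D.AA Φ (q.1 + 1) (ln q.1 q.2) - 1‖ := norm_add_le _ _
        _ ≤ _ := by rw [norm_one]; linarith)

lemma T_apply (Φ : (ℤ × ℝ) →ᵇ ℂ) (q : ℤ × ℝ) : D.T Φ q = D.AA Φ (q.1 + 1) (ln q.1 q.2) := rfl

lemma AA_sub (Φ Ψ : (ℤ × ℝ) →ᵇ ℂ) {p k : ℤ} (hk : Odd (k - p)) {z : ℂ} {r : ℝ} (hr : r < Real.pi)
    (hz : |z.im - k * Real.pi| ≤ r) :
    ‖D.AA Φ p z - D.AA Ψ p z‖ ≤ (3/100) * (‖Φ - Ψ‖ / (Real.pi - r)) := by
  have hs : ∀ Θ : (ℤ × ℝ) →ᵇ ℂ, Summable (fun l : ℤ => if Even (l - p) then D.J Θ l z else 0) := by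
    intro Θ
    exact Summable.of_norm_bounded ((M_summable D).mul_right _) (term_bound D Θ hk hr hz)
  have h1 : D.AA Φ p z - D.AA Ψ p z = -(∑' l : ℤ, (if Even (l - p) then D.J (Φ - Ψ) l z else 0)) := by
    unfold Dat.AA
    rw [show (1 - ∑' l : ℤ, (if Even (l - p) then D.J Φ l z else 0)) -
      (1 - ∑' l : ℤ, if Even (l - p) then D.J Ψ l z else 0) =
      -((∑' l : ℤ, (if Even (l - p) then D.J Φ l z else 0)) -
        (∑' l : ℤ, if Even (l - p) then D.J Ψ l z else 0)) by ring]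
    rw [← (hs Φ).tsum_sub (hs Ψ)]
    congr 1
    apply tsum_congr
    intro l
    split_ifs with hl
    · have h1 : Odd (l - k) := by
        have : l - k = (l - p) - (k - p) := by ring
        rw [this]
        exact hl.sub_odd hk
      have h2 := dist_odd h1 hz
      have h3 : (l:ℝ) * Real.pi ≠ z.im := by
        intro h
        rw [h, sub_self, abs_zero] at h2
        linarith
      exact J_sub D Φ Ψ l z h3
    · simp
  rw [h1, norm_neg]
  have h2 := ((M_hasSum D).mul_right (‖Φ - Ψ‖ / (Real.pi - r)))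
  exact tsum_of_norm_bounded h2 (term_bound D (Φ - Ψ) hk hr hz)

lemma T_contr : ContractingWith (1/2) D.T := by
  refine ⟨by norm_num, ?_⟩
  apply LipschitzWith.of_dist_le_mul
  intro Φ Ψ
  rw [dist_eq_norm, dist_eq_norm]
  apply (BoundedContinuousFunction.norm_le (by positivity)).2
  intro q
  simp only [BoundedContinuousFunction.coe_sub, Pi.sub_apply, T_apply]
  have h1 := AA_sub D Φ Ψ (p := q.1 + 1) (k := q.1) (z := ln q.1 q.2) (r := 0)
    (by have : q.1 - (q.1+1) = -1 := by ring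
        rw [this]; decide) Real.pi_pos (by rw [ln_im]; simp)
  rw [sub_zero] at h1
  apply h1.trans
  have h2 : ‖Φ - Ψ‖ / Real.pi ≤ ‖Φ - Ψ‖ / 1 := by
    gcongr
    linarith [Real.pi_gt_three]
  have h3 : (((1/2 : NNReal)) : ℝ) = 1/2 := by norm_num
  rw [h3]
  have := norm_nonneg (Φ - Ψ)
  linarith

noncomputable def Dat.Φ (D : Dat) : (ℤ × ℝ) →ᵇ ℂ := (T_contr D).fixedPoint

lemma Phi_fix (q : ℤ × ℝ) : D.Φ q = D.AA D.Φ (q.1 + 1) (ln q.1 q.2) := by
  have := (T_contr D).fixedPoint_isFixedPt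
  have h2 := congrArg (fun f : (ℤ × ℝ) →ᵇ ℂ => f q) this
  exact h2.symm

lemma Phi_norm : ‖D.Φ‖ ≤ 2 := by
  have h : ‖D.Φ‖ ≤ 1 + (3/100) * (‖D.Φ‖ / Real.pi) := by
    apply (BoundedContinuousFunction.norm_le (by positivity)).2
    intro q
    rw [Phi_fix]
    have h1 := AA_sub_one D D.Φ (p := q.1 + 1) (k := q.1) (z := ln q.1 q.2) (r := 0)
        (by have : q.1 - (q.1+1) = -1 := by ring
            rw [this]; decide) Real.pi_pos (by rw [ln_im]; simp)
    rw [sub_zero] at h1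
    calc ‖D.AA D.Φ (q.1 + 1) (ln q.1 q.2)‖ = ‖1 + (D.AA D.Φ (q.1 + 1) (ln q.1 q.2) - 1)‖ := by ring_nf
        _ ≤ ‖(1:ℂ)‖ + ‖D.AA D.Φ (q.1 + 1) (ln q.1 q.2) - 1‖ := norm_add_le _ _
        _ ≤ _ := by rw [norm_one]; linarith
  have h2 : ‖D.Φ‖ / Real.pi ≤ ‖D.Φ‖ / 1 := by
    gcongr
    linarith [Real.pi_gt_three]
  linarith

end Pool.Agent.H343N
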