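import Mathlib
import Pool.Agent.Helper343.NR1

set_option autoImplicit false
set_option maxHeartbeats 4000000
open Filter Topology Complex MeasureTheory Set BoundedContinuousFunction

namespace Pool.Agent.H343N

lemma rect_cauchy' (g : ℂ → ℂ) (a b c d : ℝ) (hg : DifferentiableOn ℂ g (uIcc a b ×ℂ uIcc c d)) (p : ℂ)
    (ha : a < p.re) (hb : p.re < b) (hc : c < p.im) (hd : p.im < d) :
    (∫ x in a..b, g ((x:ℂ) + c * I) / ((x:ℂ) + c * I - p))
      - (∫ x in a..b, g ((x:ℂ) + d * I) / ((x:ℂ) + d * I - p))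
      + I * (∫ y in c..d, g ((b:ℂ) + y * I) / ((b:ℂ) + y * I - p))
      - I * (∫ y in c..d, g ((a:ℂ) + y * I) / ((a:ℂ) + y * I - p))
      = 2 * Real.pi * I * g p := by
  have hab : a ≤ b := by linarith
  have hcd : c ≤ d := by linarith
  have hnhds : (uIcc a b ×ℂ uIcc c d) ∈ 𝓝 p := by
    rw [uIcc_of_le hab, uIcc_of_le hcd]
    have : IsOpen (Ioo a b ×ℂ Ioo c d) := isOpen_Ioo.reProdIm isOpen_Ioo
    apply mem_of_superset (this.mem_nhds ⟨⟨ha, hb⟩, ⟨hc, hd⟩⟩)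
    exact fun w hw => ⟨Ioo_subset_Icc_self hw.1, Ioo_subset_Icc_self hw.2⟩
  have hds : DifferentiableOn ℂ (dslope g p) (uIcc a b ×ℂ uIcc c d) :=
    (Complex.differentiableOn_dslope hnhds).2 hg
  have H := Complex.integral_boundary_rect_eq_zero_of_differentiableOn (dslope g p)
    (a + c * I) (b + d * I) (by simpa using hds)
  simp only [add_re, ofReal_re, mul_re, I_re, mul_zero, ofReal_im, I_im, mul_one, sub_self, add_zero,
    add_im, mul_im, zero_add, smul_eq_mul] at H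
  have R := Pool.Agent.H343.M.rect_inv a b c d p ha hb hc hd
  have hsub : ∀ w : ℂ, w ≠ p → dslope g p w = g w / (w - p) - g p * (w - p)⁻¹ := by
    intro w hw
    rw [dslope_of_ne _ hw, slope_def_field]
    ring
  have gc : ContinuousOn g (uIcc a b ×ℂ uIcc c d) := hg.continuousOn
  have b1 : ∀ e : ℝ, p.im ≠ e → ∀ x : ℝ, (x:ℂ) + e * I - p ≠ 0 := by
    intro e he x h
    have := congrArg Complex.im h
    simp at this
    exact he (by linarith)
  have b2 : ∀ e : ℝ, p.re ≠ e → ∀ y : ℝ, (e:ℂ) + y * I - p ≠ 0 := by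
    intro e he x h
    have := congrArg Complex.re h
    simp at this
    exact he (by linarith)
  have c1 : ∀ e : ℝ, e ∈ uIcc c d → ContinuousOn (fun x : ℝ => g ((x:ℂ) + e * I)) (uIcc a b) := by
    intro e he
    apply gc.comp (by fun_prop)
    intro x hx
    refine ⟨?_, ?_⟩ <;> simpa
  have c2 : ∀ e : ℝ, e ∈ uIcc a b → ContinuousOn (fun y : ℝ => g ((e:ℂ) + y * I)) (uIcc c d) := by
    intro e he
    apply gc.comp (by fun_prop)
    intro x hx
    refine ⟨?_, ?_⟩ <;> simpa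
  have s1 : ∀ e : ℝ, e ∈ uIcc c d → p.im ≠ e → (∫ x in a..b, dslope g p ((x:ℂ) + e * I))
      = (∫ x in a..b, g ((x:ℂ) + e * I) / ((x:ℂ) + e * I - p))
        - g p * ∫ x in a..b, ((x:ℂ) + e * I - p)⁻¹ := by
    intro e he' he
    rw [← intervalIntegral.integral_const_mul, ← intervalIntegral.integral_sub]
    · apply intervalIntegral.integral_congr
      intro x _
      simp only
      rw [hsub]
      exact fun h => b1 e he x (by rw [h, sub_self])
    · apply ContinuousOn.intervalIntegrable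
      exact ContinuousOn.div (c1 e he') (by fun_prop) (fun x _ => b1 e he x)
    · apply Continuous.intervalIntegrable
      exact continuous_const.mul (Continuous.inv₀ (by fun_prop) (b1 e he))
  have s2 : ∀ e : ℝ, e ∈ uIcc a b → p.re ≠ e → (∫ y in c..d, dslope g p ((e:ℂ) + y * I))
      = (∫ y in c..d, g ((e:ℂ) + y * I) / ((e:ℂ) + y * I - p))
        - g p * ∫ y in c..d, ((e:ℂ) + y * I - p)⁻¹ := by
    intro e he' he
    rw [← intervalIntegral.integral_const_mul, ← intervalIntegral.integral_sub]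
    · apply intervalIntegral.integral_congr
      intro x _
      simp only
      rw [hsub]
      exact fun h => b2 e he x (by rw [h, sub_self])
    · apply ContinuousOn.intervalIntegrable
      exact ContinuousOn.div (c2 e he') (by fun_prop) (fun x _ => b2 e he x)
    · apply Continuous.intervalIntegrable
      exact continuous_const.mul (Continuous.inv₀ (by fun_prop) (b2 e he))
  rw [s1 c left_mem_uIcc hc.ne', s1 d right_mem_uIcc hd.ne, s2 b right_mem_uIcc hb.ne,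
    s2 a left_mem_uIcc ha.ne'] at H
  linear_combination H + g p * R

lemma rect_cauchy0 (g : ℂ → ℂ) (a b c d : ℝ) (hcd : c ≤ d) (hg : DifferentiableOn ℂ g (uIcc a b ×ℂ uIcc c d)) (p : ℂ)
    (hp : p.im < c ∨ d < p.im) :
    (∫ x in a..b, g ((x:ℂ) + c * I) / ((x:ℂ) + c * I - p))
      - (∫ x in a..b, g ((x:ℂ) + d * I) / ((x:ℂ) + d * I - p))
      + I * (∫ y in c..d, g ((b:ℂ) + y * I) / ((b:ℂ) + y * I - p))
      - I * (∫ y in c..d, g ((a:ℂ) + y * I) / ((a:ℂ) + y * I - p))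
      = 0 := by
  have hds : DifferentiableOn ℂ (fun w => g w / (w - p)) (uIcc a b ×ℂ uIcc c d) := by
    apply hg.div (by fun_prop)
    intro w hw h
    have h1 : w = p := sub_eq_zero.1 h
    have h2 := hw.2
    rw [h1, uIcc_of_le hcd] at h2
    simp only [mem_preimage, mem_Icc] at h2
    rcases hp with hp | hp <;> linarith [h2.1, h2.2]
  have H := Complex.integral_boundary_rect_eq_zero_of_differentiableOn (fun w => g w / (w - p))
    (a + c * I) (b + d * I) (by simpa using hds)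
  simp only [add_re, ofReal_re, mul_re, I_re, mul_zero, ofReal_im, I_im, mul_one, sub_self, add_zero,
    add_im, mul_im, zero_add, smul_eq_mul] at H
  exact H

/-- line integral -/
noncomputable def LI (g : ℂ → ℂ) (a c : ℝ) (z : ℂ) : ℂ :=
  (2 * Real.pi * I)⁻¹ * ∫ t in Ioi a, g ((t:ℂ) + c * I) / ((t:ℂ) + c * I - z)

/-- vertical side -/
noncomputable def VI (g : ℂ → ℂ) (a c1 c2 : ℝ) (z : ℂ) : ℂ :=
  (2 * Real.pi : ℂ)⁻¹ * ∫ y in c1..c2, g ((a:ℂ) + y * I) / ((a:ℂ) + y * I - z)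

lemma exph_int (a : ℝ) : IntegrableOn (fun t : ℝ => Real.exp (-(1+t)/2)) (Ioi a) := by
  have := (integrableOn_exp_mul_Ioi (a := -(1/2)) (by norm_num) a).const_mul (Real.exp (-1/2))
  have e : (fun t : ℝ => Real.exp (-(1+t)/2)) = (fun t : ℝ => Real.exp (-1/2) * Real.exp (-(1/2) * t)) := by
    ext t
    rw [← Real.exp_add]
    ring_nf
  rw [e]
  exact this

lemma exph_int_le (a : ℝ) (ha : 0 ≤ a) : ∫ t in Ioi a, Real.exp (-(1+t)/2) ≤ 2 := by
  have e : (fun t : ℝ => Real.exp (-(1+t)/2)) = (fun t : ℝ => Real.exp (-1/2) * Real.exp (-(1/2) * t)) := by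
    ext t
    rw [← Real.exp_add]
    ring_nf
  rw [e, integral_const_mul, integral_exp_mul_Ioi (by norm_num)]
  have h1 : Real.exp (-1/2) ≤ 1 := Real.exp_le_one_iff.2 (by norm_num)
  have h2 : Real.exp (-(1/2) * a) ≤ 1 := Real.exp_le_one_iff.2 (by nlinarith)
  have h3 := Real.exp_pos (-1/2)
  have h4 := Real.exp_pos (-(1/2) * a)
  have : -Real.exp (-(1/2) * a) / -(1/2) = 2 * Real.exp (-(1/2) * a) := by ring
  rw [this]
  nlinarith

section HS
variable {g : ℂ → ℂ} {a c1 c2 K : ℝ}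

lemma HS_cont (hg : ∀ s : ℂ, c1 ≤ s.im → s.im ≤ c2 → DifferentiableAt ℂ g s) {c : ℝ} (h1 : c1 ≤ c)
    (h2 : c ≤ c2) : Continuous (fun t : ℝ => g ((t:ℂ) + c * I)) := by
  rw [continuous_iff_continuousAt]
  intro t
  have := (hg ((t:ℂ) + c * I) (by simpa) (by simpa)).continuousAt
  exact ContinuousAt.comp (f := fun t : ℝ => (t:ℂ) + c * I) this (by fun_prop)

lemma HS_int (hg : ∀ s : ℂ, c1 ≤ s.im → s.im ≤ c2 → DifferentiableAt ℂ g s)
    (hb : ∀ t y : ℝ, a < t → c1 ≤ y → y ≤ c2 → ‖g ((t:ℂ) + y * I)‖ ≤ K * Real.exp (-(1+t)/2))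
    {c : ℝ} (h1 : c1 ≤ c) (h2 : c ≤ c2) : IntegrableOn (fun t : ℝ => g ((t:ℂ) + c * I)) (Ioi a) := by
  apply Integrable.mono' ((exph_int a).const_mul K) (HS_cont hg h1 h2).aestronglyMeasurable
  filter_upwards [ae_restrict_mem measurableSet_Ioi] with t ht
  exact hb t c ht h1 h2

lemma HS_int2 (hg : ∀ s : ℂ, c1 ≤ s.im → s.im ≤ c2 → DifferentiableAt ℂ g s)
    (hb : ∀ t y : ℝ, a < t → c1 ≤ y → y ≤ c2 → ‖g ((t:ℂ) + y * I)‖ ≤ K * Real.exp (-(1+t)/2))
    {c : ℝ} (h1 : c1 ≤ c) (h2 : c ≤ c2) {p : ℂ} (hcp : c ≠ p.im) :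
    IntegrableOn (fun t : ℝ => g ((t:ℂ) + c * I) / ((t:ℂ) + c * I - p)) (Ioi a) := by
  apply Integrable.mono' (g := fun u : ℝ => ‖g ((u:ℂ) + c * I)‖ * (1/|c - p.im|))
    ((HS_int hg hb h1 h2).norm.mul_const _)
  · apply Continuous.aestronglyMeasurable
    apply Continuous.div (HS_cont hg h1 h2) (by fun_prop)
    intro u h
    have := congrArg Complex.im h
    simp at this
    exact hcp (by linarith)
  · apply Eventually.of_forall
    intro u
    rw [norm_div, div_eq_mul_inv]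
    apply mul_le_mul_of_nonneg_left _ (norm_nonneg _)
    rw [one_div]
    exact inv_anti₀ (abs_pos.2 (sub_ne_zero.2 hcp)) (Pool.Agent.H343.M.dist_line u c p)

lemma HS_key (hc : c1 ≤ c2) (hg : ∀ s : ℂ, c1 ≤ s.im → s.im ≤ c2 → DifferentiableAt ℂ g s)
    (hK : 0 ≤ K) (hb : ∀ t y : ℝ, a < t → c1 ≤ y → y ≤ c2 → ‖g ((t:ℂ) + y * I)‖ ≤ K * Real.exp (-(1+t)/2))
    {p : ℂ} (hp1 : c1 ≠ p.im) (hp2 : c2 ≠ p.im) (R : ℂ)
    (hR : ∀ᶠ n : ℕ in atTop,
      (∫ x in a..n, g ((x:ℂ) + c1 * I) / ((x:ℂ) + c1 * I - p))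
      - (∫ x in a..n, g ((x:ℂ) + c2 * I) / ((x:ℂ) + c2 * I - p))
      + I * (∫ y in c1..c2, g (((n:ℝ):ℂ) + y * I) / (((n:ℝ):ℂ) + y * I - p))
      - I * (∫ y in c1..c2, g ((a:ℂ) + y * I) / ((a:ℂ) + y * I - p)) = 2 * Real.pi * I * R) :
    LI g a c1 p - LI g a c2 p - VI g a c1 c2 p = R := by
  have hpi := Real.pi_pos
  have t1 := intervalIntegral_tendsto_integral_Ioi a
    (HS_int2 hg hb le_rfl hc hp1) (tendsto_natCast_atTop_atTop (R := ℝ))
  have t2 := intervalIntegral_tendsto_integral_Ioi a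
    (HS_int2 hg hb hc le_rfl hp2) (tendsto_natCast_atTop_atTop (R := ℝ))
  have t3 : Tendsto (fun n : ℕ => I * ∫ y in c1..c2,
      g (((n:ℝ):ℂ) + y * I) / (((n:ℝ):ℂ) + y * I - p)) atTop (𝓝 0) := by
    have t4 : Tendsto (fun n : ℕ => (K * ((n:ℝ) - p.re)⁻¹) * |c2 - c1|) atTop (𝓝 0) := by
      have : Tendsto (fun n : ℕ => ((n:ℝ) - p.re)⁻¹) atTop (𝓝 0) :=
        tendsto_inv_atTop_zero.comp
          (tendsto_atTop_add_const_right _ (-p.re) tendsto_natCast_atTop_atTop)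
      simpa using (this.const_mul K).mul_const (|c2 - c1|)
    apply squeeze_zero_norm' _ t4
    filter_upwards [eventually_gt_atTop ⌈p.re⌉₊, eventually_gt_atTop ⌈a⌉₊] with n hn hn2
    have hn' : p.re < n := (Nat.le_ceil _).trans_lt (by exact_mod_cast hn)
    have hn2' : a < n := (Nat.le_ceil _).trans_lt (by exact_mod_cast hn2)
    rw [norm_mul, norm_I, one_mul]
    apply intervalIntegral.norm_integral_le_of_norm_le_const
    intro y hy
    rw [uIoc_of_le hc] at hy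
    rw [norm_div, div_eq_mul_inv]
    have h3 : ‖g (((n:ℝ):ℂ) + y * I)‖ ≤ K := by
      apply (hb n y hn2' hy.1.le hy.2).trans
      have : Real.exp (-(1+(n:ℝ))/2) ≤ 1 := Real.exp_le_one_iff.2 (by
        have := Nat.cast_nonneg (α := ℝ) n
        linarith)
      nlinarith
    have h4 : ‖((n:ℝ):ℂ) + y * I - p‖⁻¹ ≤ ((n:ℝ) - p.re)⁻¹ := by
      apply inv_anti₀ (by linarith)
      have := Pool.Agent.H343.M.dist_vline y n p
      rw [abs_sub_comm] at this
      exact (le_abs_self _).trans this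
    exact mul_le_mul h3 h4 (by positivity) hK
  have T := ((t1.sub t2).add t3).sub_const (I * (∫ y in c1..c2,
      g ((a:ℂ) + y * I) / ((a:ℂ) + y * I - p)))
  have T2 : Tendsto (fun n : ℕ => 2 * Real.pi * I * R) atTop (𝓝 (2 * Real.pi * I * R)) :=
    tendsto_const_nhds
  have key := tendsto_nhds_unique (T.congr' hR) T2
  unfold LI VI
  have hP : (Real.pi : ℂ) ≠ 0 := by simp [hpi.ne']
  have alg : ∀ A B C P : ℂ, A - B + 0 - I * C = 2 * Real.pi * I * P →
      (2 * Real.pi * I)⁻¹ * A - (2 * Real.pi * I)⁻¹ * B - (2 * Real.pi : ℂ)⁻¹ * C = P := by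
    intro A B C P h
    have hI : (I:ℂ) ≠ 0 := I_ne_zero
    field_simp
    linear_combination h
  exact alg _ _ _ _ key

lemma HS_in (hc : c1 ≤ c2) (hg : ∀ s : ℂ, c1 ≤ s.im → s.im ≤ c2 → DifferentiableAt ℂ g s)
    (hK : 0 ≤ K) (hb : ∀ t y : ℝ, a < t → c1 ≤ y → y ≤ c2 → ‖g ((t:ℂ) + y * I)‖ ≤ K * Real.exp (-(1+t)/2))
    {p : ℂ} (hp0 : a < p.re) (hp1 : c1 < p.im) (hp2 : p.im < c2) :
    LI g a c1 p - LI g a c2 p - VI g a c1 c2 p = g p := by
  apply HS_key hc hg hK hb hp1.ne hp2.ne'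
  filter_upwards [eventually_gt_atTop ⌈p.re⌉₊] with n hn
  have hn' : p.re < n := (Nat.le_ceil _).trans_lt (by exact_mod_cast hn)
  apply rect_cauchy' g a n c1 c2 _ p hp0 hn' hp1 hp2
  intro s hs
  have h2 := hs.2
  rw [uIcc_of_le hc] at h2
  exact (hg s h2.1 h2.2).differentiableWithinAt

lemma HS_out (hc : c1 ≤ c2) (hg : ∀ s : ℂ, c1 ≤ s.im → s.im ≤ c2 → DifferentiableAt ℂ g s)
    (hK : 0 ≤ K) (hb : ∀ t y : ℝ, a < t → c1 ≤ y → y ≤ c2 → ‖g ((t:ℂ) + y * I)‖ ≤ K * Real.exp (-(1+t)/2))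
    {p : ℂ} (hp : p.im < c1 ∨ c2 < p.im) :
    LI g a c1 p - LI g a c2 p - VI g a c1 c2 p = 0 := by
  apply HS_key hc hg hK hb (R := 0)
  · rcases hp with h | h <;> linarith
  · rcases hp with h | h <;> linarith
  rw [mul_zero]
  apply Eventually.of_forall
  intro n
  apply rect_cauchy0 g a n c1 c2 hc _ p hp
  intro s hs
  have h2 := hs.2
  rw [uIcc_of_le hc] at h2
  exact (hg s h2.1 h2.2).differentiableWithinAt

lemma LI_diff (hg : ∀ s : ℂ, c1 ≤ s.im → s.im ≤ c2 → DifferentiableAt ℂ g s)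
    (hb : ∀ t y : ℝ, a < t → c1 ≤ y → y ≤ c2 → ‖g ((t:ℂ) + y * I)‖ ≤ K * Real.exp (-(1+t)/2))
    {c : ℝ} (h1 : c1 ≤ c) (h2 : c ≤ c2) {p : ℂ} (hcp : c ≠ p.im) :
    DifferentiableAt ℂ (LI g a c) p := by
  unfold LI
  apply DifferentiableAt.const_mul
  apply Pool.Agent.H343.M.cauchy_diff measurableSet_Ioi (φ := fun t : ℝ => g ((t:ℂ) + c * I))
    (γ := fun t : ℝ => (t:ℂ) + c * I) (HS_int hg hb h1 h2) (by fun_prop)
    (abs_pos.2 (sub_ne_zero.2 hcp))
  intro u _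
  exact Pool.Agent.H343.M.dist_line u c p

lemma VI_diff (hg : ∀ s : ℂ, c1 ≤ s.im → s.im ≤ c2 → DifferentiableAt ℂ g s)
    {d1 d2 : ℝ} (hd : d1 ≤ d2) (h1 : c1 ≤ d1) (h2 : d2 ≤ c2) {p : ℂ} (hp : a < p.re) :
    DifferentiableAt ℂ (VI g a d1 d2) p := by
  unfold VI
  apply DifferentiableAt.const_mul
  simp only [intervalIntegral.integral_of_le hd]
  apply Pool.Agent.H343.M.cauchy_diff measurableSet_Ioc (φ := fun y : ℝ => g ((a:ℂ) + y * I))
    (γ := fun y : ℝ => (a:ℂ) + y * I) (r := p.re - a) _ (by fun_prop) (by linarith)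
  · intro u _
    have := Pool.Agent.H343.M.dist_vline u a p
    exact (le_abs_self _).trans this
  · have hcont : ContinuousOn (fun y : ℝ => g ((a:ℂ) + y * I)) (Icc d1 d2) := by
      intro y hy
      have := (hg ((a:ℂ) + y * I) (by simp; linarith [hy.1]) (by simp; linarith [hy.2])).continuousAt
      exact (ContinuousAt.comp (f := fun y : ℝ => (a:ℂ) + y * I) this (by fun_prop)).continuousWithinAt
    exact (hcont.integrableOn_Icc).mono_set Ioc_subset_Icc_self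

lemma LI_bound (hg : ∀ s : ℂ, c1 ≤ s.im → s.im ≤ c2 → DifferentiableAt ℂ g s) (ha : 0 ≤ a)
    (hK : 0 ≤ K) (hb : ∀ t y : ℝ, a < t → c1 ≤ y → y ≤ c2 → ‖g ((t:ℂ) + y * I)‖ ≤ K * Real.exp (-(1+t)/2))
    {c : ℝ} (h1 : c1 ≤ c) (h2 : c ≤ c2) {p : ℂ} {d : ℝ} (hd : 0 < d) (hcp : d ≤ |c - p.im|) :
    ‖LI g a c p‖ ≤ 2 * K / d := by
  unfold LI
  rw [norm_mul]
  have h3 := Pool.Agent.H343.M.cauchy_bound measurableSet_Ioi (φ := fun t : ℝ => g ((t:ℂ) + c * I))
    (γ := fun t : ℝ => (t:ℂ) + c * I) (C := 2 * K) (z := p) hd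
    (fun u _ => hcp.trans (Pool.Agent.H343.M.dist_line u c p)) (HS_int hg hb h1 h2) ?_
  · calc _ ≤ 1 * (2 * K / d) := by
          apply mul_le_mul norm_2pi h3 (norm_nonneg _) zero_le_one
      _ = _ := one_mul _
  · calc ∫ t in Ioi a, ‖g ((t:ℂ) + c * I)‖ ≤ ∫ t in Ioi a, K * Real.exp (-(1+t)/2) := by
          apply setIntegral_mono_on (HS_int hg hb h1 h2).norm ((exph_int a).const_mul K) measurableSet_Ioi
          intro t ht
          exact hb t c ht h1 h2
      _ = K * ∫ t in Ioi a, Real.exp (-(1+t)/2) := integral_const_mul _ _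
      _ ≤ K * 2 := by
          have := exph_int_le a ha
          gcongr
      _ = 2 * K := by ring

lemma VI_bound (hg : ∀ s : ℂ, c1 ≤ s.im → s.im ≤ c2 → DifferentiableAt ℂ g s) (ha : 0 ≤ a)
    (hK : 0 ≤ K) (hb : ∀ t y : ℝ, a < t → c1 ≤ y → y ≤ c2 → ‖g ((t:ℂ) + y * I)‖ ≤ K * Real.exp (-(1+t)/2))
    {d1 d2 : ℝ} (hd : d1 ≤ d2) (h1 : c1 ≤ d1) (h2 : d2 ≤ c2) {p : ℂ} {d : ℝ} (hd0 : 0 < d) (hp : d ≤ p.re - a) :
    ‖VI g a d1 d2 p‖ ≤ K * (d2 - d1) / d := by
  have hbd : ∀ y ∈ Icc c1 c2, ‖g ((a:ℂ) + y * I)‖ ≤ K := by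
    intro y hy
    have hcont : Continuous (fun t : ℝ => g ((t:ℂ) + y * I)) := HS_cont hg hy.1 hy.2
    have h3 : Tendsto (fun t : ℝ => ‖g ((t:ℂ) + y * I)‖) (𝓝[>] a) (𝓝 ‖g ((a:ℂ) + y * I)‖) :=
      (hcont.norm.tendsto a).mono_left nhdsWithin_le_nhds
    apply le_of_tendsto h3
    filter_upwards [self_mem_nhdsWithin] with t ht
    apply (hb t y ht hy.1 hy.2).trans
    have : Real.exp (-(1+t)/2) ≤ 1 := Real.exp_le_one_iff.2 (by
      have : a < t := ht
      linarith)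
    nlinarith
  unfold VI
  rw [norm_mul]
  have h3 : ‖∫ y in d1..d2, g ((a:ℂ) + y * I) / ((a:ℂ) + y * I - p)‖ ≤ (K / d) * |d2 - d1| := by
    apply intervalIntegral.norm_integral_le_of_norm_le_const
    intro y hy
    rw [uIoc_of_le hd] at hy
    rw [norm_div]
    have h4 := hbd y ⟨by linarith [hy.1], by linarith [hy.2]⟩
    have h5 : d ≤ ‖(a:ℂ) + y * I - p‖ := by
      have := Pool.Agent.H343.M.dist_vline y a p
      exact hp.trans ((le_abs_self _).trans this)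
    gcongr
  rw [abs_of_nonneg (by linarith)] at h3
  have h6 : ‖(2 * Real.pi : ℂ)⁻¹‖ ≤ 1 := by
    rw [norm_inv]
    apply inv_le_one_of_one_le₀
    simp only [norm_mul, Complex.norm_ofNat, norm_real, Real.norm_eq_abs, abs_of_pos Real.pi_pos]
    have := Real.pi_gt_three
    linarith
  calc _ ≤ 1 * ((K / d) * (d2 - d1)) := by
        apply mul_le_mul h6 h3 (norm_nonneg _) zero_le_one
    _ = _ := by ring

lemma VI_add (hg : ∀ s : ℂ, c1 ≤ s.im → s.im ≤ c2 → DifferentiableAt ℂ g s)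
    {d1 d2 d3 : ℝ} (h1 : c1 ≤ d1) (h12 : d1 ≤ d2) (h23 : d2 ≤ d3) (h3 : d3 ≤ c2) {p : ℂ} (hp : a < p.re) :
    VI g a d1 d2 p + VI g a d2 d3 p = VI g a d1 d3 p := by
  unfold VI
  rw [← mul_add, intervalIntegral.integral_add_adjacent_intervals]
  · apply ContinuousOn.intervalIntegrable
    intro y hy
    rw [uIcc_of_le h12] at hy
    apply ContinuousAt.continuousWithinAt
    apply ContinuousAt.div
    · have := (hg ((a:ℂ) + y * I) (by simp; linarith [hy.1]) (by simp; linarith [hy.2])).continuousAt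
      exact (ContinuousAt.comp (f := fun y : ℝ => (a:ℂ) + y * I) this (by fun_prop))
    · fun_prop
    · intro h
      have := congrArg Complex.re h
      simp at this
      linarith
  · apply ContinuousOn.intervalIntegrable
    intro y hy
    rw [uIcc_of_le h23] at hy
    apply ContinuousAt.continuousWithinAt
    apply ContinuousAt.div
    · have := (hg ((a:ℂ) + y * I) (by simp; linarith [hy.1]) (by simp; linarith [hy.2])).continuousAt
      exact (ContinuousAt.comp (f := fun y : ℝ => (a:ℂ) + y * I) this (by fun_prop))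
    · fun_prop
    · intro h
      have := congrArg Complex.re h
      simp at this
      linarith

end HS

end Pool.Agent.H343N
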