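import Mathlib
import Pool.Agent.Helper343.NR2

set_option autoImplicit false
set_option maxHeartbeats 4000000
open Filter Topology Complex MeasureTheory Set BoundedContinuousFunction

namespace Pool.Agent.H343N

variable (D : Dat)

noncomputable def G (k : ℤ) (z : ℂ) : ℂ := exp (z - ((k * Real.pi : ℝ) : ℂ) * I)

lemma G_re (k : ℤ) (z : ℂ) : (G k z).re = Real.exp z.re * Real.cos (z.im - k * Real.pi) := by
  unfold G
  rw [exp_re]
  simp

lemma G_succ (k : ℤ) (z : ℂ) : G (k+1) z = - G k z := by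
  unfold G
  have : z - (((k+1 : ℤ) * Real.pi : ℝ) : ℂ) * I = (z - ((k * Real.pi : ℝ) : ℂ) * I) - Real.pi * I := by
    push_cast; ring
  rw [this, exp_sub, exp_pi_mul_I]
  ring

lemma G_pred (k : ℤ) (z : ℂ) : G (k-1) z = - G k z := by
  have := G_succ (k-1) z
  rw [sub_add_cancel] at this
  rw [this, neg_neg]

noncomputable def Dat.gk (D : Dat) (k : ℤ) (s : ℂ) : ℂ := D.β k * exp (-2 * G k s) * D.AA D.Φ (k+1) s

lemma odd_aux (k : ℤ) : Odd (k - (k+1)) := by
  have : k - (k+1) = -1 := by ring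
  rw [this]; decide

lemma AA_le_two {k : ℤ} {z : ℂ} (hz : |z.im - k * Real.pi| ≤ 1) : ‖D.AA D.Φ (k+1) z‖ ≤ 2 := by
  have h1 := AA_sub_one D D.Φ (p := k + 1) (k := k) (z := z) (r := 1) (odd_aux k)
    (by linarith [Real.pi_gt_three]) hz
  have h2 := Phi_norm D
  have h3 : ‖D.Φ‖ / (Real.pi - 1) ≤ 2 / 1 := by
    gcongr
    linarith [Real.pi_gt_three]
  calc ‖D.AA D.Φ (k + 1) z‖ = ‖1 + (D.AA D.Φ (k + 1) z - 1)‖ := by ring_nf
    _ ≤ ‖(1:ℂ)‖ + ‖D.AA D.Φ (k + 1) z - 1‖ := norm_add_le _ _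
    _ ≤ 2 := by rw [norm_one]; linarith

lemma gk_diff (k : ℤ) (s : ℂ) (hs : |s.im - k * Real.pi| < Real.pi) : DifferentiableAt ℂ (D.gk k) s := by
  unfold Dat.gk G
  apply DifferentiableAt.mul _ (AA_diff D D.Φ (odd_aux k) hs)
  fun_prop

lemma gk_bound (k : ℤ) (t y : ℝ) (ht : D.h k < t) (h1 : k * Real.pi - 1 ≤ y) (h2 : y ≤ k * Real.pi + 1) :
    ‖D.gk k ((t:ℂ) + y * I)‖ ≤ (2 * D.M k) * Real.exp (-(1+t)/2) := by
  unfold Dat.gk
  rw [norm_mul, norm_mul, norm_exp]
  have him : ((t:ℂ) + y * I).im = y := by simp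
  have hre : ((t:ℂ) + y * I).re = t := by simp
  have hA := AA_le_two D (k := k) (z := (t:ℂ) + y * I) (by rw [him, abs_le]; constructor <;> linarith)
  have e1 : (-2 * G k ((t:ℂ) + y * I)).re = -2 * (Real.exp t * Real.cos (y - k * Real.pi)) := by
    have h0 := G_re k ((t:ℂ) + y * I)
    rw [him, hre] at h0
    rw [← h0]
    simp
  rw [e1]
  have hcos : 1/2 ≤ Real.cos (y - k * Real.pi) := by
    have := Real.one_sub_sq_div_two_le_cos (x := y - k * Real.pi)
    have h3 : (y - k * Real.pi)^2 ≤ 1 := by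
      have : |y - k * Real.pi| ≤ 1 := by rw [abs_le]; constructor <;> linarith
      rw [← sq_abs]
      have := abs_nonneg (y - k * Real.pi)
      nlinarith
    linarith
  have h3 : Real.exp (-2 * (Real.exp t * Real.cos (y - k * Real.pi))) ≤
      Real.exp (-(1/2) * Real.exp (D.h k)) * Real.exp (-(1+t)/2) := by
    rw [← Real.exp_add]
    apply Real.exp_le_exp.2
    have a1 := Real.exp_le_exp.2 ht.le
    have a2 := Real.add_one_le_exp t
    have a3 := Real.exp_pos t
    nlinarith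
  have hM := D.hβ k
  have hb := norm_nonneg (D.β k)
  calc ‖D.β k‖ * Real.exp (-2 * (Real.exp t * Real.cos (y - k * Real.pi))) * ‖D.AA D.Φ (k + 1) (↑t + ↑y * I)‖
      ≤ ‖D.β k‖ * (Real.exp (-(1/2) * Real.exp (D.h k)) * Real.exp (-(1+t)/2)) * 2 := by
        gcongr
    _ = 2 * (‖D.β k‖ * Real.exp (-(1/2) * Real.exp (D.h k))) * Real.exp (-(1+t)/2) := by ring
    _ ≤ _ := by
        unfold Dat.M
        gcongr

lemma gk_line (k : ℤ) (t : ℝ) : D.gk k ((t:ℂ) + ((k * Real.pi : ℝ) : ℂ) * I) = D.w k t * D.Φ (k, t) := by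
  have h1 := Phi_fix D (k, t)
  simp only at h1
  rw [h1]
  unfold Dat.gk Dat.w ln G
  congr 2
  rw [add_sub_cancel_right]
  push_cast
  rfl

lemma J_eq_LI (k : ℤ) (z : ℂ) : D.J D.Φ k z = LI (D.gk k) (D.h k) (k * Real.pi) z := by
  unfold Dat.J LI
  congr 1
  apply integral_congr_ae
  apply Eventually.of_forall
  intro t
  simp only
  rw [gk_line]
  rfl

lemma gk_hg (k : ℤ) : ∀ s : ℂ, k * Real.pi - 1 ≤ s.im → s.im ≤ k * Real.pi + 1 →
    DifferentiableAt ℂ (D.gk k) s := by
  intro s h1 h2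
  apply gk_diff
  rw [abs_lt]
  have := Real.pi_gt_three
  constructor <;> linarith

lemma M_le (k : ℤ) : D.M k ≤ 1/100 := by
  unfold Dat.M
  have : (1/2:ℝ)^(k.natAbs) ≤ 1 := pow_le_one₀ (by norm_num) (by norm_num)
  linarith

/-- sum over the other lines of the same parity -/
noncomputable def Dat.S (D : Dat) (k : ℤ) (z : ℂ) : ℂ :=
  ∑' l : ℤ, if Even (l - k) ∧ l ≠ k then D.J D.Φ l z else 0

lemma dist_even {k l : ℤ} (h1 : Even (l - k)) (h2 : l ≠ k) {z : ℂ} {r : ℝ} (hz : |z.im - k * Real.pi| ≤ r) :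
    2 * Real.pi - r ≤ |l * Real.pi - z.im| := by
  have hpi := Real.pi_pos
  have h3 : (2:ℝ) ≤ |((l - k : ℤ) : ℝ)| := by
    have h4 : l - k ≠ 0 := sub_ne_zero.2 h2
    obtain ⟨m, hm⟩ := h1
    have h5 : (2:ℤ) ≤ |l - k| := by
      rw [hm] at h4 ⊢
      have : m ≠ 0 := by rintro rfl; simp at h4
      have := Int.one_le_abs this
      have e : m + m = 2 * m := by ring
      rw [e, abs_mul]
      simp only [abs_two] at *
      linarith
    exact_mod_cast h5
  have h4 : |((l - k : ℤ):ℝ) * Real.pi| ≤ |l * Real.pi - z.im| + |z.im - k * Real.pi| := by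
    have e : ((l - k : ℤ):ℝ) * Real.pi = (l * Real.pi - z.im) + (z.im - k * Real.pi) := by
      push_cast; ring
    rw [e]
    exact abs_add_le _ _
  rw [abs_mul, abs_of_pos hpi] at h4
  nlinarith

lemma S_term {k : ℤ} {z : ℂ} {r : ℝ} (hr : r < 2 * Real.pi)
    (hz : |z.im - k * Real.pi| ≤ r) (l : ℤ) :
    ‖(if Even (l - k) ∧ l ≠ k then D.J D.Φ l z else 0)‖ ≤ D.M l * (‖D.Φ‖ / (2 * Real.pi - r)) := by
  have hM := M_nonneg D l
  split_ifs with hl
  · have h2 := J_bound D D.Φ l z (2 * Real.pi - r) (by linarith)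
      (fun t _ => (dist_even hl.1 hl.2 hz).trans (ln_dist l t z))
    rw [mul_div_assoc] at h2
    exact h2
  · rw [norm_zero]
    have : 0 < 2 * Real.pi - r := by linarith
    positivity

lemma S_bound {k : ℤ} {z : ℂ} {r : ℝ} (hr : r < 2 * Real.pi)
    (hz : |z.im - k * Real.pi| ≤ r) : ‖D.S k z‖ ≤ (3/100) * (‖D.Φ‖ / (2 * Real.pi - r)) := by
  exact tsum_of_norm_bounded ((M_hasSum D).mul_right (‖D.Φ‖ / (2 * Real.pi - r))) (S_term D hr hz)

lemma S_diff {k : ℤ} {z : ℂ} (hz : |z.im - k * Real.pi| < 2 * Real.pi) : DifferentiableAt ℂ (D.S k) z := by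
  obtain ⟨r, hr1, hr2⟩ := exists_between hz
  let U : Set ℂ := {w | |w.im - k * Real.pi| < r}
  have hU : IsOpen U := by
    apply isOpen_lt _ continuous_const
    fun_prop
  have hzU : z ∈ U := hr1
  unfold Dat.S
  have := differentiableOn_tsum_of_summable_norm (u := fun l => D.M l * (‖D.Φ‖ / (2 * Real.pi - r)))
    (F := fun l w => if Even (l - k) ∧ l ≠ k then D.J D.Φ l w else 0) (U := U)
    ((M_summable D).mul_right _) ?_ hU ?_
  · exact (this z hzU).differentiableAt (hU.mem_nhds hzU)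
  · intro l
    by_cases hl : Even (l - k) ∧ l ≠ k
    · intro w hw
      apply DifferentiableAt.differentiableWithinAt
      have hw' : |w.im - k * Real.pi| ≤ r := le_of_lt hw
      have := J_diff D D.Φ l w (2 * Real.pi - r) (by linarith)
        (fun t _ => (dist_even hl.1 hl.2 hw').trans (ln_dist l t w))
      have e : (fun w => if Even (l - k) ∧ l ≠ k then D.J D.Φ l w else 0) = D.J D.Φ l := by
        funext w
        rw [if_pos hl]
      rw [e]
      exact this
    · simp only [hl, if_false]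
      exact differentiableOn_const _
  · intro l w hw
    exact S_term D hr2 (le_of_lt hw) l

lemma AA_split {k : ℤ} {z : ℂ} (hz : |z.im - k * Real.pi| < 2 * Real.pi) :
    D.AA D.Φ k z = 1 - D.S k z - D.J D.Φ k z := by
  obtain ⟨r, hr1, hr2⟩ := exists_between hz
  have hs : Summable (fun l : ℤ => if Even (l - k) ∧ l ≠ k then D.J D.Φ l z else 0) :=
    Summable.of_norm_bounded ((M_summable D).mul_right _) (S_term D hr2 hr1.le)
  have e : (fun l : ℤ => if Even (l - k) then D.J D.Φ l z else 0) =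
      fun l => (if Even (l - k) ∧ l ≠ k then D.J D.Φ l z else 0) + (if l = k then D.J D.Φ k z else 0) := by
    funext l
    by_cases hl : l = k
    · subst hl; simp
    · simp [hl]
  unfold Dat.AA Dat.S
  rw [e, Summable.tsum_add hs (by
    apply summable_of_ne_finset_zero (s := {k})
    intro l hl
    simp at hl
    simp [hl]), tsum_ite_eq]
  ring

/-- continuation from above line `k` -/
noncomputable def Dat.U (D : Dat) (k : ℤ) (z : ℂ) : ℂ :=
  1 - D.S k z - (LI (D.gk k) (D.h k) (k * Real.pi - 1) z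
    - VI (D.gk k) (D.h k) (k * Real.pi - 1) (k * Real.pi) z)

/-- continuation from below line `k` -/
noncomputable def Dat.Dn (D : Dat) (k : ℤ) (z : ℂ) : ℂ :=
  1 - D.S k z - (LI (D.gk k) (D.h k) (k * Real.pi + 1) z
    + VI (D.gk k) (D.h k) (k * Real.pi) (k * Real.pi + 1) z)

lemma U_eq {k : ℤ} {z : ℂ} (h1 : k * Real.pi < z.im) (h2 : z.im < k * Real.pi + 2 * Real.pi) :
    D.U k z = D.AA D.Φ k z := by
  have hpi := Real.pi_pos
  rw [AA_split D (by rw [abs_lt]; constructor <;> linarith), J_eq_LI]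
  unfold Dat.U
  have hM := M_nonneg D k
  have := HS_out (g := D.gk k) (a := D.h k) (c1 := k * Real.pi - 1) (c2 := k * Real.pi) (K := 2 * D.M k)
    (by linarith) (fun s a b => gk_hg D k s a (by linarith)) (by positivity)
    (fun t y a b c => gk_bound D k t y a b (by linarith)) (p := z) (Or.inr h1)
  linear_combination (-1) * this

lemma Dn_eq {k : ℤ} {z : ℂ} (h1 : z.im < k * Real.pi) (h2 : k * Real.pi - 2 * Real.pi < z.im) :
    D.Dn k z = D.AA D.Φ k z := by
  have hpi := Real.pi_pos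
  rw [AA_split D (by rw [abs_lt]; constructor <;> linarith), J_eq_LI]
  unfold Dat.Dn
  have hM := M_nonneg D k
  have := HS_out (g := D.gk k) (a := D.h k) (c1 := k * Real.pi) (c2 := k * Real.pi + 1) (K := 2 * D.M k)
    (by linarith) (fun s a b => gk_hg D k s (by linarith) b) (by positivity)
    (fun t y a b c => gk_bound D k t y a (by linarith) c) (p := z) (Or.inl h1)
  linear_combination this

lemma U_sub_Dn {k : ℤ} {z : ℂ} (h1 : |z.im - k * Real.pi| < 1) (h2 : D.h k < z.re) :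
    D.U k z - D.Dn k z = - D.gk k z := by
  rw [abs_lt] at h1
  have hM := M_nonneg D k
  have h3 := HS_in (g := D.gk k) (a := D.h k) (c1 := k * Real.pi - 1) (c2 := k * Real.pi + 1) (K := 2 * D.M k)
    (by linarith) (gk_hg D k) (by positivity)
    (fun t y a b c => gk_bound D k t y a b c) (p := z) h2 (by linarith) (by linarith)
  have h4 := VI_add (g := D.gk k) (a := D.h k) (gk_hg D k) (d1 := k * Real.pi - 1) (d2 := k * Real.pi)
    (d3 := k * Real.pi + 1) le_rfl (by linarith) (by linarith) le_rfl (p := z) h2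
  unfold Dat.U Dat.Dn
  linear_combination (-1) * h3 + h4

lemma U_diff {k : ℤ} {z : ℂ} (h1 : k * Real.pi - 1 < z.im) (h2 : z.im < k * Real.pi + 2 * Real.pi)
    (h3 : D.h k < z.re) : DifferentiableAt ℂ (D.U k) z := by
  have hpi := Real.pi_gt_three
  unfold Dat.U
  apply DifferentiableAt.sub
  · apply DifferentiableAt.const_sub
    exact S_diff D (by rw [abs_lt]; constructor <;> linarith)
  · apply DifferentiableAt.sub
    · exact LI_diff (gk_hg D k) (fun t y a b c => gk_bound D k t y a b c) le_rfl (by linarith) h1.ne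
    · exact VI_diff (gk_hg D k) (by linarith) le_rfl (by linarith) h3

lemma Dn_diff {k : ℤ} {z : ℂ} (h1 : z.im < k * Real.pi + 1) (h2 : k * Real.pi - 2 * Real.pi < z.im)
    (h3 : D.h k < z.re) : DifferentiableAt ℂ (D.Dn k) z := by
  have hpi := Real.pi_gt_three
  unfold Dat.Dn
  apply DifferentiableAt.sub
  · apply DifferentiableAt.const_sub
    exact S_diff D (by rw [abs_lt]; constructor <;> linarith)
  · apply DifferentiableAt.add
    · exact LI_diff (gk_hg D k) (fun t y a b c => gk_bound D k t y a b c) (by linarith) le_rfl h1.ne'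
    · exact VI_diff (gk_hg D k) (by linarith) (by linarith) le_rfl h3

lemma U_bound {k : ℤ} {z : ℂ} (h1 : k * Real.pi ≤ z.im) (h2 : z.im ≤ k * Real.pi + Real.pi)
    (h3 : D.h k + 1 ≤ z.re) : ‖D.U k z - 1‖ ≤ 1/2 := by
  have hpi := Real.pi_gt_three
  have hM := M_nonneg D k
  have hM2 := M_le D k
  have a1 := S_bound D (k := k) (z := z) (r := Real.pi) (by linarith) (by rw [abs_le]; constructor <;> linarith)
  have a2 := LI_bound (g := D.gk k) (a := D.h k) (K := 2 * D.M k) (gk_hg D k) (D.h0 k) (by positivity)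
    (fun t y a b c => gk_bound D k t y a b c) (c := k * Real.pi - 1) le_rfl (by linarith) (p := z) (d := 1)
    one_pos (by rw [abs_sub_comm]; apply le_trans _ (le_abs_self _); linarith)
  have a3 := VI_bound (g := D.gk k) (a := D.h k) (K := 2 * D.M k) (gk_hg D k) (D.h0 k) (by positivity)
    (fun t y a b c => gk_bound D k t y a b c) (d1 := k * Real.pi - 1) (d2 := k * Real.pi) (by linarith)
    le_rfl (by linarith) (p := z) (d := 1) one_pos (by linarith)
  have h4 := Phi_norm D
  have h5 : ‖D.Φ‖ / (2 * Real.pi - Real.pi) ≤ 2 / 1 := by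
    gcongr
    linarith
  have e : D.U k z - 1 = -(D.S k z) - LI (D.gk k) (D.h k) (k * Real.pi - 1) z
    + VI (D.gk k) (D.h k) (k * Real.pi - 1) (k * Real.pi) z := by
    unfold Dat.U; ring
  rw [e]
  calc _ ≤ ‖-(D.S k z) - LI (D.gk k) (D.h k) (k * Real.pi - 1) z‖
        + ‖VI (D.gk k) (D.h k) (k * Real.pi - 1) (k * Real.pi) z‖ := norm_add_le _ _
    _ ≤ (‖-(D.S k z)‖ + ‖LI (D.gk k) (D.h k) (k * Real.pi - 1) z‖)
        + ‖VI (D.gk k) (D.h k) (k * Real.pi - 1) (k * Real.pi) z‖ := by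
        gcongr; exact norm_sub_le _ _
    _ ≤ 1/2 := by
        rw [norm_neg]
        have : 2 * D.M k * (k * Real.pi - (k * Real.pi - 1)) / 1 = 2 * D.M k := by ring
        linarith

lemma Dn_bound {k : ℤ} {z : ℂ} (h1 : z.im ≤ k * Real.pi) (h2 : k * Real.pi - Real.pi ≤ z.im)
    (h3 : D.h k + 1 ≤ z.re) : ‖D.Dn k z - 1‖ ≤ 1/2 := by
  have hpi := Real.pi_gt_three
  have hM := M_nonneg D k
  have hM2 := M_le D k
  have a1 := S_bound D (k := k) (z := z) (r := Real.pi) (by linarith) (by rw [abs_le]; constructor <;> linarith)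
  have a2 := LI_bound (g := D.gk k) (a := D.h k) (K := 2 * D.M k) (gk_hg D k) (D.h0 k) (by positivity)
    (fun t y a b c => gk_bound D k t y a b c) (c := k * Real.pi + 1) (by linarith) le_rfl (p := z) (d := 1)
    one_pos (by apply le_trans _ (le_abs_self _); linarith)
  have a3 := VI_bound (g := D.gk k) (a := D.h k) (K := 2 * D.M k) (gk_hg D k) (D.h0 k) (by positivity)
    (fun t y a b c => gk_bound D k t y a b c) (d1 := k * Real.pi) (d2 := k * Real.pi + 1) (by linarith)
    (by linarith) le_rfl (p := z) (d := 1) one_pos (by linarith)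
  have h4 := Phi_norm D
  have h5 : ‖D.Φ‖ / (2 * Real.pi - Real.pi) ≤ 2 / 1 := by
    gcongr
    linarith
  have e : D.Dn k z - 1 = -(D.S k z) - LI (D.gk k) (D.h k) (k * Real.pi + 1) z
    - VI (D.gk k) (D.h k) (k * Real.pi) (k * Real.pi + 1) z := by
    unfold Dat.Dn; ring
  rw [e]
  calc _ ≤ ‖-(D.S k z) - LI (D.gk k) (D.h k) (k * Real.pi + 1) z‖
        + ‖VI (D.gk k) (D.h k) (k * Real.pi) (k * Real.pi + 1) z‖ := norm_sub_le _ _
    _ ≤ (‖-(D.S k z)‖ + ‖LI (D.gk k) (D.h k) (k * Real.pi + 1) z‖)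
        + ‖VI (D.gk k) (D.h k) (k * Real.pi) (k * Real.pi + 1) z‖ := by
        gcongr; exact norm_sub_le _ _
    _ ≤ 1/2 := by
        rw [norm_neg]
        have : 2 * D.M k * (k * Real.pi + 1 - k * Real.pi) / 1 = 2 * D.M k := by ring
        linarith

/-- recursion satisfied by the coordinates of the vectors -/
def Dat.Rec (D : Dat) (c : ℤ → ℂ) : Prop := ∀ k, c (k+1) = c (k-1) + D.β k * c k

noncomputable def Dat.F (D : Dat) (c : ℤ → ℂ) (k : ℤ) (z : ℂ) : ℂ :=
  D.U k z * exp (G k z) * c k + D.Dn (k+1) z * exp (- G k z) * c (k+1)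

lemma F_match {c : ℤ → ℂ} (hc : D.Rec c) {k : ℤ} {z : ℂ} (h1 : |z.im - k * Real.pi| < 1)
    (h2 : D.h k < z.re) : D.F c (k-1) z = D.F c k z := by
  have hpi := Real.pi_gt_three
  have h1' := abs_lt.1 h1
  unfold Dat.F
  rw [G_pred, neg_neg, sub_add_cancel]
  have e1 : D.U (k-1) z = D.AA D.Φ (k+1) z := by
    rw [U_eq D (by push_cast; linarith) (by push_cast; linarith)]
    have := AA_per D D.Φ (k-1) z
    rw [← this]
    congr 1
    ring
  have e2 : D.Dn (k+1) z = D.AA D.Φ (k+1) z := by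
    rw [Dn_eq D (by push_cast; linarith) (by push_cast; linarith)]
  have e3 := U_sub_Dn D h1 h2
  rw [e1, e2, hc k]
  have e4 : D.gk k z * exp (G k z) = D.β k * D.AA D.Φ (k+1) z * exp (- G k z) := by
    unfold Dat.gk
    have : exp (-2 * G k z) * exp (G k z) = exp (- G k z) := by
      rw [← exp_add]
      ring_nf
    linear_combination (D.β k * D.AA D.Φ (k+1) z) * this
  linear_combination (-(exp (G k z)) * c k) * e3 + c k * e4

noncomputable def Dat.W (D : Dat) (c : ℤ → ℂ) (z : ℂ) : ℂ := D.F c ⌊z.im / Real.pi⌋ z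

def Dat.Om (D : Dat) (z : ℂ) : Prop := ∀ j : ℤ, |z.im - j * Real.pi| ≤ 2 * Real.pi → D.h j + 1 < z.re

lemma W_eq1 {c : ℤ → ℂ} {k : ℤ} {z : ℂ} (h1 : k * Real.pi ≤ z.im) (h2 : z.im < k * Real.pi + Real.pi) :
    D.W c z = D.F c k z := by
  have hpi := Real.pi_pos
  unfold Dat.W
  have : ⌊z.im / Real.pi⌋ = k := by
    rw [Int.floor_eq_iff]
    constructor
    · rw [le_div_iff₀ hpi]; exact h1
    · rw [div_lt_iff₀ hpi]; linarith
  rw [this]

lemma W_eq2 {c : ℤ → ℂ} (hc : D.Rec c) {k : ℤ} {z : ℂ} (hz : D.Om z) (h1 : k * Real.pi ≤ z.im)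
    (h2 : z.im ≤ k * Real.pi + Real.pi) : D.W c z = D.F c k z := by
  have hpi := Real.pi_pos
  rcases h2.lt_or_eq with h | h
  · exact W_eq1 D h1 h
  · have e : ((k+1 : ℤ):ℝ) * Real.pi = z.im := by push_cast; linarith
    rw [W_eq1 D (k := k+1) e.le (by linarith)]
    have h3 := hz (k+1) (by rw [e]; simp; positivity)
    have := F_match D hc (k := k+1) (z := z) (by rw [e]; simp) (by linarith)
    rw [← this]
    congr 1
    ring

lemma F_diff {c : ℤ → ℂ} {k : ℤ} {z : ℂ} (h1 : k * Real.pi - 1 < z.im)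
    (h2 : z.im < k * Real.pi + Real.pi + 1) (h3 : D.h k < z.re) (h4 : D.h (k+1) < z.re) :
    DifferentiableAt ℂ (D.F c k) z := by
  have hpi := Real.pi_gt_three
  unfold Dat.F
  have a1 : DifferentiableAt ℂ (G k) z := by unfold G; fun_prop
  apply DifferentiableAt.add
  · apply DifferentiableAt.mul_const
    exact (U_diff D h1 (by linarith) h3).mul a1.cexp
  · apply DifferentiableAt.mul_const
    exact (Dn_diff D (by push_cast; linarith) (by push_cast; linarith) h4).mul a1.neg.cexp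

theorem W_diff {c : ℤ → ℂ} (hc : D.Rec c) {z : ℂ} (hz : D.Om z) : DifferentiableAt ℂ (D.W c) z := by
  have hpi := Real.pi_gt_three
  set k := ⌊z.im / Real.pi⌋ with hk
  have h1 : k * Real.pi ≤ z.im := by
    have := Int.floor_le (z.im / Real.pi)
    rwa [← hk, le_div_iff₀ (by linarith)] at this
  have h2 : z.im < k * Real.pi + Real.pi := by
    have := Int.lt_floor_add_one (z.im / Real.pi)
    rw [← hk, div_lt_iff₀ (by linarith)] at this
    linarith
  have h3 := hz k (by rw [abs_le]; constructor <;> linarith)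
  have h4 := hz (k+1) (by push_cast; rw [abs_le]; constructor <;> linarith)
  have hF := F_diff D (c := c) (k := k) (z := z) (by linarith) (by linarith) (by linarith) (by linarith)
  apply hF.congr_of_eventuallyEq
  have ho : IsOpen {w : ℂ | D.h k < w.re ∧ k * Real.pi - 1 < w.im ∧ w.im < k * Real.pi + Real.pi} := by
    have o1 : IsOpen {w : ℂ | D.h k < w.re} := isOpen_lt (by fun_prop) (by fun_prop)
    have o2 : IsOpen {w : ℂ | k * Real.pi - 1 < w.im} := isOpen_lt (by fun_prop) (by fun_prop)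
    have o3 : IsOpen {w : ℂ | w.im < k * Real.pi + Real.pi} := isOpen_lt (by fun_prop) (by fun_prop)
    exact o1.inter (o2.inter o3)
  filter_upwards [ho.mem_nhds (show z ∈ _ from ⟨by linarith, by linarith, h2⟩)] with w hw
  obtain ⟨w1, w2, w3⟩ := hw
  rcases le_or_gt (k * Real.pi) w.im with h | h
  · exact W_eq1 D h w3
  · rw [W_eq1 D (k := k-1) (by push_cast; linarith) (by push_cast; linarith)]
    exact F_match D hc (by rw [abs_lt]; constructor <;> linarith) w1

theorem W_rep {z : ℂ} (hz : D.Om z) (k : ℤ) (hk : |z.im - k * Real.pi| ≤ Real.pi) :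
    ∃ α α' : ℂ, ∃ k' : ℤ, (k' = k + 1 ∨ k' = k - 1) ∧ ‖α - 1‖ ≤ 1/2 ∧ ‖α' - 1‖ ≤ 1/2 ∧
      ∀ c : ℤ → ℂ, D.Rec c → D.W c z = α * exp (G k z) * c k + α' * exp (- G k z) * c k' := by
  have hpi := Real.pi_gt_three
  rw [abs_le] at hk
  rcases le_total (k * Real.pi) z.im with h | h
  · refine ⟨D.U k z, D.Dn (k+1) z, k+1, Or.inl rfl, ?_, ?_, ?_⟩
    · apply U_bound D h (by linarith)
      have := hz k (by rw [abs_le]; constructor <;> linarith)
      linarith
    · apply Dn_bound D (by push_cast; linarith) (by push_cast; linarith)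
      have := hz (k+1) (by push_cast; rw [abs_le]; constructor <;> linarith)
      linarith
    · intro c hc
      rw [W_eq2 D hc hz h (by linarith)]
      rfl
  · refine ⟨D.Dn k z, D.U (k-1) z, k-1, Or.inr rfl, ?_, ?_, ?_⟩
    · apply Dn_bound D h (by linarith)
      have := hz k (by rw [abs_le]; constructor <;> linarith)
      linarith
    · apply U_bound D (by push_cast; linarith) (by push_cast; linarith)
      have := hz (k-1) (by push_cast; rw [abs_le]; constructor <;> linarith)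
      linarith
    · intro c hc
      rw [W_eq2 D hc hz (k := k-1) (by push_cast; linarith) (by push_cast; linarith)]
      unfold Dat.F
      rw [G_pred, neg_neg, sub_add_cancel]
      ring

end Pool.Agent.H343N
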