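import Mathlib
import Pool.Agent.Helper343.NR3
import Pool.Agent.Helper343.NDefs

set_option autoImplicit false
set_option maxHeartbeats 4000000
open Filter Topology Complex MeasureTheory Set

namespace Pool.Agent.H343N

noncomputable def TT (b : ℕ → Option ℂ) : ℕ → ℂ
  | 0 => 1
  | k+1 => (-1)^k / (TT b k * dt (uv (b k)) (uv (b (k+1))))

structure Good (b : ℕ → Option ℂ) : Prop where
  h1 : ∀ k : ℕ, Real.exp (-((k:ℝ) + 1)) ≤ ‖dt (uv (b k)) (uv (b (k + 1)))‖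
  h2 : ∀ k : ℕ, ‖(uv (b k)).1‖ ≤ Real.exp ((k:ℝ) + 1)

variable {b : ℕ → Option ℂ} (hb : Good b)
include hb

lemma dt_ne (k : ℕ) : dt (uv (b k)) (uv (b (k + 1))) ≠ 0 := by
  intro h
  have := hb.h1 k
  rw [h, norm_zero] at this
  exact absurd this (not_le.2 (Real.exp_pos _))

lemma TT_ne (k : ℕ) : TT b k ≠ 0 := by
  induction k with
  | zero => simp [TT]
  | succ k ih =>
    rw [TT]
    exact div_ne_zero (pow_ne_zero _ (by norm_num)) (mul_ne_zero ih (dt_ne hb k))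

lemma TT_rel (k : ℕ) : TT b k * TT b (k+1) * dt (uv (b k)) (uv (b (k + 1))) = (-1)^k := by
  rw [TT]
  have := TT_ne hb k
  have := dt_ne hb k
  field_simp

omit hb in
lemma uv2_le (p : Option ℂ) : ‖(uv p).2‖ ≤ 1 := by
  cases p <;> simp [uv]

lemma dt_le (k : ℕ) : ‖dt (uv (b k)) (uv (b (k + 1)))‖ ≤ Real.exp ((k:ℝ) + 3) := by
  unfold dt
  have a1 := hb.h2 k
  have a2 := hb.h2 (k+1)
  have a3 := uv2_le (b k)
  have a4 := uv2_le (b (k+1))
  push_cast at a2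
  calc _ ≤ ‖(uv (b k)).1 * (uv (b (k+1))).2‖ + ‖(uv (b k)).2 * (uv (b (k+1))).1‖ := norm_sub_le _ _
    _ = ‖(uv (b k)).1‖ * ‖(uv (b (k+1))).2‖ + ‖(uv (b k)).2‖ * ‖(uv (b (k+1))).1‖ := by
        rw [norm_mul, norm_mul]
    _ ≤ Real.exp ((k:ℝ) + 1) * 1 + 1 * Real.exp ((k:ℝ) + 1 + 1) := by gcongr
    _ ≤ Real.exp ((k:ℝ) + 3) := by
        have e1 : Real.exp ((k:ℝ) + 1 + 1) = Real.exp ((k:ℝ)+1) * Real.exp 1 := by
          rw [← Real.exp_add]
        have e2 : Real.exp ((k:ℝ) + 3) = Real.exp ((k:ℝ)+1) * (Real.exp 1 * Real.exp 1) := by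
          rw [← Real.exp_add, ← Real.exp_add]; ring_nf
        rw [e1, e2]
        have h3 := Real.exp_pos ((k:ℝ)+1)
        have h4 : 2.7 < Real.exp 1 := by have := Real.exp_one_gt_d9; linarith
        have h5 : 1 + Real.exp 1 ≤ Real.exp 1 * Real.exp 1 := by nlinarith
        nlinarith

lemma TT_bound (k : ℕ) : Real.exp (-((k:ℝ)+3)^2) ≤ ‖TT b k‖ ∧ ‖TT b k‖ ≤ Real.exp (((k:ℝ)+3)^2) := by
  induction k with
  | zero =>
    simp only [TT, norm_one]
    constructor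
    · apply Real.exp_le_one_iff.2; norm_num
    · apply Real.one_le_exp; norm_num
  | succ k ih =>
    have hT := norm_pos_iff.2 (TT_ne hb k)
    have hd := norm_pos_iff.2 (dt_ne hb k)
    have e : ‖TT b (k+1)‖ = ‖TT b k‖⁻¹ * ‖dt (uv (b k)) (uv (b (k + 1)))‖⁻¹ := by
      rw [TT, norm_div, norm_pow, norm_neg, norm_one, one_pow, norm_mul, one_div, mul_inv]
    rw [e]
    have i1 : Real.exp (-((k:ℝ)+3)^2) ≤ ‖TT b k‖⁻¹ := by
      rw [Real.exp_neg]
      exact inv_anti₀ hT ih.2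
    have i2 : ‖TT b k‖⁻¹ ≤ Real.exp (((k:ℝ)+3)^2) := by
      have := inv_anti₀ (Real.exp_pos _) ih.1
      rwa [Real.exp_neg, inv_inv] at this
    have i3 : Real.exp (-((k:ℝ)+3)) ≤ ‖dt (uv (b k)) (uv (b (k + 1)))‖⁻¹ := by
      rw [Real.exp_neg]
      exact inv_anti₀ hd (dt_le hb k)
    have i4 : ‖dt (uv (b k)) (uv (b (k + 1)))‖⁻¹ ≤ Real.exp ((k:ℝ)+1) := by
      have := inv_anti₀ (Real.exp_pos _) (hb.h1 k)
      rwa [Real.exp_neg, inv_inv] at this
    push_cast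
    constructor
    · calc Real.exp (-((k:ℝ)+1+3)^2) ≤ Real.exp (-((k:ℝ)+3)^2) * Real.exp (-((k:ℝ)+3)) := by
            rw [← Real.exp_add]
            apply Real.exp_le_exp.2
            have : (0:ℝ) ≤ k := Nat.cast_nonneg k
            nlinarith
        _ ≤ _ := by gcongr
    · calc _ ≤ Real.exp (((k:ℝ)+3)^2) * Real.exp ((k:ℝ)+1) := by gcongr
        _ ≤ Real.exp (((k:ℝ)+1+3)^2) := by
            rw [← Real.exp_add]
            apply Real.exp_le_exp.2
            have : (0:ℝ) ≤ k := Nat.cast_nonneg k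
            nlinarith


omit hb in
/-- coordinates of the vectors -/
noncomputable def c1 (b : ℕ → Option ℂ) (k : ℤ) : ℂ := TT b k.natAbs * (uv (b k.natAbs)).1
omit hb in
noncomputable def c2 (b : ℕ → Option ℂ) (k : ℤ) : ℂ := TT b k.natAbs * (uv (b k.natAbs)).2

lemma det_succ (k : ℤ) : c1 b k * c2 b (k+1) - c2 b k * c1 b (k+1) = (-1)^k.natAbs := by
  unfold c1 c2
  rcases le_or_gt 0 k with hk | hk
  · obtain ⟨n, rfl⟩ := Int.eq_ofNat_of_zero_le hk
    have e : ((n:ℤ) + 1).natAbs = n + 1 := by omega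
    rw [e, Int.natAbs_natCast, ← TT_rel hb n]
    unfold dt
    ring
  · obtain ⟨n, hn⟩ : ∃ n : ℕ, k = -((n:ℤ) + 1) := ⟨(-k - 1).toNat, by omega⟩
    subst hn
    have e : (-((n:ℤ) + 1)).natAbs = n + 1 := by omega
    have e' : (-((n:ℤ) + 1) + 1).natAbs = n := by omega
    rw [e, e', pow_succ, ← TT_rel hb n]
    unfold dt
    ring

lemma det_pred (k : ℤ) : c1 b k * c2 b (k-1) - c2 b k * c1 b (k-1) = (-1)^k.natAbs := by
  have h := det_succ hb (k-1)
  rw [sub_add_cancel] at h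
  have e : ((-1:ℂ))^(k-1).natAbs = - (-1)^k.natAbs := by
    rcases le_or_gt k 0 with hk | hk
    · have : (k-1).natAbs = k.natAbs + 1 := by omega
      rw [this, pow_succ]; ring
    · have : k.natAbs = (k-1).natAbs + 1 := by omega
      rw [this, pow_succ]; ring
  rw [e] at h
  linear_combination -h

lemma c_bound (k : ℤ) : ‖c1 b k‖ ≤ Real.exp (((k.natAbs:ℝ)+3)^2 + (k.natAbs+1)) ∧
    ‖c2 b k‖ ≤ Real.exp (((k.natAbs:ℝ)+3)^2 + (k.natAbs+1)) := by
  unfold c1 c2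
  rw [norm_mul, norm_mul, Real.exp_add]
  have h1 := (TT_bound hb k.natAbs).2
  have h2 := hb.h2 k.natAbs
  have h3 := uv2_le (b k.natAbs)
  have h4 : 1 ≤ Real.exp ((k.natAbs:ℝ)+1) := Real.one_le_exp (by positivity)
  constructor
  · gcongr
  · calc _ ≤ Real.exp (((k.natAbs:ℝ)+3)^2) * 1 := by gcongr
      _ ≤ _ := by gcongr

lemma exists_beta (k : ℤ) : ∃ β : ℂ, c1 b (k+1) = c1 b (k-1) + β * c1 b k ∧
    c2 b (k+1) = c2 b (k-1) + β * c2 b k ∧ ‖β‖ ≤ Real.exp (2 * ((k.natAbs:ℝ)+5)^2) := by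
  have hd : c1 b k * (c2 b (k+1) - c2 b (k-1)) = c2 b k * (c1 b (k+1) - c1 b (k-1)) := by
    have a1 := det_succ hb k
    have a2 := det_pred hb k
    linear_combination a1 - a2
  set n := k.natAbs with hn
  have hn0 : (0:ℝ) ≤ n := Nat.cast_nonneg _
  have hT := TT_ne hb n
  have hTb := (TT_bound hb n).1
  have hnb : ∀ j : ℤ, (j = k + 1 ∨ j = k - 1) → (j.natAbs : ℝ) ≤ n + 1 := by
    intro j hj
    have : j.natAbs ≤ n + 1 := by omega
    exact_mod_cast this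
  have hcb : ∀ j : ℤ, (j = k + 1 ∨ j = k - 1) →
      ‖c1 b j‖ ≤ Real.exp (((n:ℝ)+4)^2 + (n+2)) ∧ ‖c2 b j‖ ≤ Real.exp (((n:ℝ)+4)^2 + (n+2)) := by
    intro j hj
    have h1 := hnb j hj
    have h2 := c_bound hb j
    have h3 : ((j.natAbs:ℝ)+3)^2 + (j.natAbs+1) ≤ ((n:ℝ)+4)^2 + (n+2) := by
      have : (0:ℝ) ≤ j.natAbs := Nat.cast_nonneg _
      nlinarith
    exact ⟨h2.1.trans (Real.exp_le_exp.2 h3), h2.2.trans (Real.exp_le_exp.2 h3)⟩
  have fin : ∀ x y : ℂ, ‖x‖ ≤ Real.exp (((n:ℝ)+4)^2 + (n+2)) → ‖y‖ ≤ Real.exp (((n:ℝ)+4)^2 + (n+2)) →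
      ‖(x - y) / TT b n‖ ≤ Real.exp (2 * ((n:ℝ)+5)^2) := by
    intro x y hx hy
    rw [norm_div, div_le_iff₀ (norm_pos_iff.2 hT)]
    calc ‖x - y‖ ≤ ‖x‖ + ‖y‖ := norm_sub_le _ _
      _ ≤ 2 * Real.exp (((n:ℝ)+4)^2 + (n+2)) := by linarith
      _ ≤ Real.exp 1 * Real.exp (((n:ℝ)+4)^2 + (n+2)) := by
          gcongr
          have := Real.exp_one_gt_d9
          linarith
      _ ≤ Real.exp (2 * ((n:ℝ)+5)^2) * Real.exp (-((n:ℝ)+3)^2) := by
          rw [← Real.exp_add, ← Real.exp_add]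
          apply Real.exp_le_exp.2
          nlinarith
      _ ≤ _ := by gcongr
  rcases hbn : b n with _ | c
  · have e1 : c1 b k = TT b n := by unfold c1; rw [← hn, hbn]; simp [uv]
    have e2 : c2 b k = 0 := by unfold c2; rw [← hn, hbn]; simp [uv]
    refine ⟨(c1 b (k+1) - c1 b (k-1)) / TT b n, ?_, ?_, ?_⟩
    · rw [e1]; field_simp; ring
    · rw [e1, e2, zero_mul] at hd
      rw [e2, mul_zero, add_zero]
      have := (mul_eq_zero.1 hd).resolve_left hT
      exact sub_eq_zero.1 this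
    · exact fin _ _ (hcb _ (Or.inl rfl)).1 (hcb _ (Or.inr rfl)).1
  · have e1 : c1 b k = TT b n * c := by unfold c1; rw [← hn, hbn]; simp [uv]
    have e2 : c2 b k = TT b n := by unfold c2; rw [← hn, hbn]; simp [uv]
    refine ⟨(c2 b (k+1) - c2 b (k-1)) / TT b n, ?_, ?_, ?_⟩
    · rw [e1]
      rw [e1, e2] at hd
      have : c * (c2 b (k+1) - c2 b (k-1)) = c1 b (k+1) - c1 b (k-1) := by
        apply mul_left_cancel₀ hT
        linear_combination hd
      field_simp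
      linear_combination -this
    · rw [e2]; field_simp; ring
    · exact fin _ _ (hcb _ (Or.inl rfl)).2 (hcb _ (Or.inr rfl)).2

/-- the Riemann-Hilbert data -/
noncomputable def mkDat : Dat where
  β := fun k => (exists_beta hb k).choose
  h := fun k => Real.log (8 * ((k.natAbs:ℝ)+10)^2)
  h0 := by
    intro l
    apply Real.log_nonneg
    have : (0:ℝ) ≤ l.natAbs := Nat.cast_nonneg _
    nlinarith
  hβ := by
    intro l
    have h1 := (exists_beta hb l).choose_spec.2.2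
    have h2 : (0:ℝ) ≤ l.natAbs := Nat.cast_nonneg _
    rw [Real.exp_log (by positivity)]
    have h3 : Real.exp (-5 - (l.natAbs:ℝ)) ≤ (1/100) * (1/2)^(l.natAbs) := by
      rw [sub_eq_add_neg, Real.exp_add]
      have h4 : Real.exp (-5) ≤ 1/100 := by
        rw [Real.exp_neg, inv_le_comm₀ (Real.exp_pos _) (by norm_num)]
        have : Real.exp 5 = (Real.exp 1)^5 := by rw [← Real.exp_nat_mul]; norm_num
        rw [this]
        have h5 : 2.7 ≤ Real.exp 1 := by have := Real.exp_one_gt_d9; linarith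
        calc ((1:ℝ)/100)⁻¹ ≤ 2.7^5 := by norm_num
          _ ≤ _ := by gcongr
      have h6 : Real.exp (-(l.natAbs:ℝ)) ≤ (1/2)^(l.natAbs) := by
        have : Real.exp (-(l.natAbs:ℝ)) = (Real.exp (-1))^(l.natAbs) := by
          rw [← Real.exp_nat_mul]; ring_nf
        rw [this]
        gcongr
        rw [Real.exp_neg, inv_le_comm₀ (Real.exp_pos _) (by norm_num)]
        have := Real.exp_one_gt_d9
        linarith
      gcongr
    calc _ ≤ Real.exp (2 * ((l.natAbs:ℝ)+5)^2) * Real.exp (-(1/2) * (8 * ((l.natAbs:ℝ)+10)^2)) := by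
          gcongr
      _ ≤ Real.exp (-5 - (l.natAbs:ℝ)) := by
          rw [← Real.exp_add]
          apply Real.exp_le_exp.2
          nlinarith
      _ ≤ _ := h3

lemma mkDat_rec1 : (mkDat hb).Rec (c1 b) := fun k => (exists_beta hb k).choose_spec.1
lemma mkDat_rec2 : (mkDat hb).Rec (c2 b) := fun k => (exists_beta hb k).choose_spec.2.1

lemma mkDat_Om {z : ℂ} (hz : 24 * (|z.im| + 12)^2 < Real.exp z.re) : (mkDat hb).Om z := by
  intro j hj
  have hpi := Real.pi_gt_three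
  have h1 : |(j:ℝ)| * Real.pi ≤ |z.im| + 2 * Real.pi := by
    have : |(j:ℝ) * Real.pi| ≤ |z.im| + |z.im - j * Real.pi| := by
      have e : (j:ℝ) * Real.pi = z.im - (z.im - j * Real.pi) := by ring
      calc |(j:ℝ) * Real.pi| = |z.im - (z.im - j * Real.pi)| := by rw [← e]
        _ ≤ _ := abs_sub _ _
    rw [abs_mul, abs_of_pos (by linarith : (0:ℝ) < Real.pi)] at this
    linarith
  have h2 : |(j:ℝ)| ≤ |z.im| + 2 := by
    have h3 := abs_nonneg z.im
    have h4 := abs_nonneg (j:ℝ)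
    nlinarith
  have h3 : (j.natAbs : ℝ) = |(j:ℝ)| := by
    rw [Nat.cast_natAbs, Int.cast_abs]
  show Real.log (8 * ((j.natAbs:ℝ)+10)^2) + 1 < z.re
  have h4 : 0 < 8 * ((j.natAbs:ℝ)+10)^2 := by positivity
  rw [← Real.exp_lt_exp, Real.exp_add, Real.exp_log h4, h3]
  have h5 := Real.exp_one_lt_d9
  have h6 := abs_nonneg (j:ℝ)
  have h7 : (|(j:ℝ)| + 10)^2 ≤ (|z.im| + 12)^2 := pow_le_pow_left₀ (by positivity) (by linarith) 2
  have h8 : Real.exp 1 ≤ 3 := by linarith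
  calc 8 * (|(j:ℝ)| + 10)^2 * Real.exp 1 ≤ 8 * (|z.im| + 12)^2 * 3 := by
        apply mul_le_mul _ h8 (Real.exp_pos _).le (by positivity)
        linarith
    _ = 24 * (|z.im| + 12)^2 := by ring
    _ < _ := hz

end Pool.Agent.H343N
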