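import Mathlib
import Pool.Agent.Helper343.NP1

set_option autoImplicit false
set_option maxHeartbeats 4000000
open Filter Topology Complex MeasureTheory Set

namespace Pool.Agent.H343N

variable {b : ℕ → Option ℂ} (hb : Good b)
include hb

noncomputable def w1 (z : ℂ) : ℂ := (mkDat hb).W (c1 b) z
noncomputable def w2 (z : ℂ) : ℂ := (mkDat hb).W (c2 b) z

def HO (z : ℂ) : Prop := 24 * (|z.im| + 12)^2 < Real.exp z.re

lemma w1_diff {z : ℂ} (hz : HO z) : DifferentiableAt ℂ (w1 hb) z :=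
  W_diff _ (mkDat_rec1 hb) (mkDat_Om hb hz)
lemma w2_diff {z : ℂ} (hz : HO z) : DifferentiableAt ℂ (w2 hb) z :=
  W_diff _ (mkDat_rec2 hb) (mkDat_Om hb hz)

lemma w_rep {z : ℂ} (hz : HO z) (k : ℤ) (hk : |z.im - k * Real.pi| ≤ Real.pi) :
    ∃ α α' : ℂ, ∃ k' : ℤ, (k' = k + 1 ∨ k' = k - 1) ∧ ‖α - 1‖ ≤ 1/2 ∧ ‖α' - 1‖ ≤ 1/2 ∧
      w1 hb z = α * exp (G k z) * c1 b k + α' * exp (- G k z) * c1 b k' ∧
      w2 hb z = α * exp (G k z) * c2 b k + α' * exp (- G k z) * c2 b k' := by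
  obtain ⟨α, α', k', h1, h2, h3, h4⟩ := W_rep _ (mkDat_Om hb hz) k hk
  exact ⟨α, α', k', h1, h2, h3, h4 _ (mkDat_rec1 hb), h4 _ (mkDat_rec2 hb)⟩

omit hb in
lemma natAbs_le {z : ℂ} {k : ℤ} (hk : |z.im - k * Real.pi| ≤ Real.pi) : (k.natAbs : ℝ) ≤ |z.im| / 3 + 1 := by
  have hpi := Real.pi_gt_three
  have h1 : |(k:ℝ)| * Real.pi ≤ |z.im| + Real.pi := by
    have : |(k:ℝ) * Real.pi| ≤ |z.im| + |z.im - k * Real.pi| := by
      have e : (k:ℝ) * Real.pi = z.im - (z.im - k * Real.pi) := by ring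
      calc |(k:ℝ) * Real.pi| = |z.im - (z.im - k * Real.pi)| := by rw [← e]
        _ ≤ _ := abs_sub _ _
    rw [abs_mul, abs_of_pos (by linarith : (0:ℝ) < Real.pi)] at this
    linarith
  have h3 : (k.natAbs : ℝ) = |(k:ℝ)| := by
    rw [Nat.cast_natAbs, Int.cast_abs]
  rw [h3]
  have h4 := abs_nonneg (z.im)
  have h5 := abs_nonneg (k:ℝ)
  by_contra hcon
  push Not at hcon
  nlinarith

lemma c_bound' {z : ℂ} {k j : ℤ} (hk : |z.im - k * Real.pi| ≤ Real.pi) (hj : j = k ∨ j = k + 1 ∨ j = k - 1) :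
    ‖c1 b j‖ ≤ Real.exp ((|z.im| + 6)^2) ∧ ‖c2 b j‖ ≤ Real.exp ((|z.im| + 6)^2) := by
  have h1 := natAbs_le hk
  have h2 : (j.natAbs : ℝ) ≤ k.natAbs + 1 := by
    have : j.natAbs ≤ k.natAbs + 1 := by omega
    exact_mod_cast this
  have h3 := abs_nonneg z.im
  have h4 : (0:ℝ) ≤ j.natAbs := Nat.cast_nonneg _
  have h5 : (j.natAbs : ℝ) ≤ |z.im| + 2 := by linarith
  have h6 := c_bound hb j
  have h7 : ((j.natAbs:ℝ)+3)^2 + (j.natAbs+1) ≤ (|z.im| + 6)^2 := by nlinarith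
  exact ⟨h6.1.trans (Real.exp_le_exp.2 h7), h6.2.trans (Real.exp_le_exp.2 h7)⟩

omit hb in
lemma half_le {α : ℂ} (h : ‖α - 1‖ ≤ 1/2) : 1/2 ≤ ‖α‖ ∧ ‖α‖ ≤ 3/2 := by
  constructor
  · have : ‖(1:ℂ)‖ ≤ ‖α‖ + ‖α - 1‖ := by
      calc ‖(1:ℂ)‖ = ‖α - (α - 1)‖ := by ring_nf
        _ ≤ _ := norm_sub_le _ _
    rw [norm_one] at this
    linarith
  · calc ‖α‖ = ‖(α - 1) + 1‖ := by ring_nf
      _ ≤ ‖α - 1‖ + ‖(1:ℂ)‖ := norm_add_le _ _
      _ ≤ 3/2 := by rw [norm_one]; linarith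

noncomputable def nrm (z : ℂ) : ℝ := Real.sqrt (‖w1 hb z‖^2 + ‖w2 hb z‖^2)

lemma w1_le_nrm (z : ℂ) : ‖w1 hb z‖ ≤ nrm hb z := by
  unfold nrm
  apply Real.le_sqrt_of_sq_le
  nlinarith [norm_nonneg (w2 hb z)]

lemma w2_le_nrm (z : ℂ) : ‖w2 hb z‖ ≤ nrm hb z := by
  unfold nrm
  apply Real.le_sqrt_of_sq_le
  nlinarith [norm_nonneg (w1 hb z)]

lemma nrm_le (z : ℂ) : nrm hb z ≤ ‖w1 hb z‖ + ‖w2 hb z‖ := by
  unfold nrm
  apply Real.sqrt_le_iff.2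
  have := norm_nonneg (w1 hb z)
  have := norm_nonneg (w2 hb z)
  constructor
  · positivity
  · nlinarith

omit hb in
lemma exp_two_gt : 7 < Real.exp 2 := by
  have h : Real.exp 2 = Real.exp 1 * Real.exp 1 := by rw [← Real.exp_add]; norm_num
  have := Real.exp_one_gt_d9
  rw [h]
  nlinarith

lemma nrm_upper {z : ℂ} (hz : HO z) (k : ℤ) (hk : |z.im - k * Real.pi| ≤ Real.pi) :
    nrm hb z ≤ Real.exp (|(G k z).re| + (|z.im|+6)^2 + 2) := by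
  obtain ⟨α, α', k', hk', ha, ha', e1, e2⟩ := w_rep hb hz k hk
  obtain ⟨-, ha⟩ := half_le ha
  obtain ⟨-, ha'⟩ := half_le ha'
  have hc := c_bound' hb (j := k) hk (Or.inl rfl)
  have hc' := c_bound' hb (j := k') hk (Or.inr hk')
  have i1 : ‖exp (G k z)‖ ≤ Real.exp (|(G k z).re|) := by
    rw [norm_exp]; exact Real.exp_le_exp.2 (le_abs_self _)
  have i2 : ‖exp (-G k z)‖ ≤ Real.exp (|(G k z).re|) := by
    rw [norm_exp]; apply Real.exp_le_exp.2; rw [neg_re]; exact neg_le_abs _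
  have key : ∀ p q : ℂ, ‖p‖ ≤ Real.exp ((|z.im| + 6)^2) → ‖q‖ ≤ Real.exp ((|z.im| + 6)^2) →
      ‖α * exp (G k z) * p + α' * exp (- G k z) * q‖ ≤
        3 * (Real.exp (|(G k z).re|) * Real.exp ((|z.im| + 6)^2)) := by
    intro p q hp hq
    calc _ ≤ ‖α * exp (G k z) * p‖ + ‖α' * exp (- G k z) * q‖ := norm_add_le _ _
      _ = ‖α‖ * ‖exp (G k z)‖ * ‖p‖ + ‖α'‖ * ‖exp (- G k z)‖ * ‖q‖ := by
          simp only [norm_mul]
      _ ≤ (3/2) * Real.exp (|(G k z).re|) * Real.exp ((|z.im| + 6)^2)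
          + (3/2) * Real.exp (|(G k z).re|) * Real.exp ((|z.im| + 6)^2) := by gcongr
      _ = _ := by ring
  have j1 := key _ _ hc.1 hc'.1
  have j2 := key _ _ hc.2 hc'.2
  rw [← e1] at j1
  rw [← e2] at j2
  have j3 := nrm_le hb z
  rw [Real.exp_add, Real.exp_add]
  have := exp_two_gt
  have h0 : 0 < Real.exp (|(G k z).re|) * Real.exp ((|z.im| + 6)^2) := by positivity
  nlinarith

/-- the determinant with a neighbouring vector -/
lemma det_nb (k k' : ℤ) (hk' : k' = k + 1 ∨ k' = k - 1) :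
    ‖c1 b k * c2 b k' - c2 b k * c1 b k'‖ = 1 := by
  rcases hk' with rfl | rfl
  · rw [det_succ hb, norm_pow, norm_neg, norm_one, one_pow]
  · rw [det_pred hb, norm_pow, norm_neg, norm_one, one_pow]

lemma nrm_lower {z : ℂ} (hz : HO z) (k : ℤ) (hk : |z.im - k * Real.pi| ≤ Real.pi) :
    Real.exp (|(G k z).re| - (|z.im|+6)^2 - 2) ≤ nrm hb z := by
  obtain ⟨α, α', k', hk', ha, ha', e1, e2⟩ := w_rep hb hz k hk
  obtain ⟨ha, -⟩ := half_le ha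
  obtain ⟨ha', -⟩ := half_le ha'
  have hc := c_bound' hb (j := k) hk (Or.inl rfl)
  have hc' := c_bound' hb (j := k') hk (Or.inr hk')
  have hdet := det_nb hb k k' hk'
  have n1 := w1_le_nrm hb z
  have n2 := w2_le_nrm hb z
  have key : ∀ p q t : ℂ, ∀ g : ℝ, ‖p‖ ≤ Real.exp ((|z.im| + 6)^2) → ‖q‖ ≤ Real.exp ((|z.im| + 6)^2) →
      1/2 ≤ ‖t‖ → ‖p * w2 hb z - q * w1 hb z‖ = ‖t‖ * Real.exp g →
      Real.exp (g - (|z.im|+6)^2 - 2) ≤ nrm hb z := by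
    intro p q t g hp hq ht h
    have h1 : ‖p * w2 hb z - q * w1 hb z‖ ≤ 2 * Real.exp ((|z.im| + 6)^2) * nrm hb z := by
      calc _ ≤ ‖p * w2 hb z‖ + ‖q * w1 hb z‖ := norm_sub_le _ _
        _ = ‖p‖ * ‖w2 hb z‖ + ‖q‖ * ‖w1 hb z‖ := by rw [norm_mul, norm_mul]
        _ ≤ Real.exp ((|z.im| + 6)^2) * nrm hb z + Real.exp ((|z.im| + 6)^2) * nrm hb z := by gcongr
        _ = _ := by ring
    rw [h] at h1
    have h2 : (1/2) * Real.exp g ≤ 2 * Real.exp ((|z.im| + 6)^2) * nrm hb z := by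
      refine le_trans ?_ h1
      gcongr
    rw [Real.exp_sub, Real.exp_sub, div_div, div_le_iff₀ (by positivity)]
    have := exp_two_gt
    have h0 : 0 ≤ nrm hb z := Real.sqrt_nonneg _
    have h3 : 0 ≤ Real.exp ((|z.im| + 6)^2) * nrm hb z := by positivity
    nlinarith
  have k1 : Real.exp ((G k z).re - (|z.im|+6)^2 - 2) ≤ nrm hb z := by
    apply key (c1 b k') (c2 b k') α _ hc'.1 hc'.2 ha
    have e : c1 b k' * w2 hb z - c2 b k' * w1 hb z =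
        - (α * exp (G k z) * (c1 b k * c2 b k' - c2 b k * c1 b k')) := by
      rw [e1, e2]; ring
    rw [e, norm_neg, norm_mul, norm_mul, hdet, mul_one, norm_exp]
  have k2 : Real.exp (-(G k z).re - (|z.im|+6)^2 - 2) ≤ nrm hb z := by
    apply key (c1 b k) (c2 b k) α' _ hc.1 hc.2 ha'
    have e : c1 b k * w2 hb z - c2 b k * w1 hb z =
        (α' * exp (-G k z) * (c1 b k * c2 b k' - c2 b k * c1 b k')) := by
      rw [e1, e2]; ring
    rw [e, norm_mul, norm_mul, hdet, mul_one, norm_exp, neg_re]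
  rcases abs_choice (G k z).re with h | h <;> rw [h]
  · exact k1
  · exact k2

section unit
variable {u1 u2 : ℂ} (hu : ‖u1‖^2 + ‖u2‖^2 = 1)
include hu

omit hb in
omit hu in
noncomputable def dk (b : ℕ → Option ℂ) (u1 u2 : ℂ) (k : ℤ) : ℂ := c1 b k * u2 - c2 b k * u1

omit hu in
noncomputable def dd (u1 u2 : ℂ) (z : ℂ) : ℂ := w1 hb z * u2 - w2 hb z * u1

omit hb in
lemma u_le : ‖u1‖ ≤ 1 ∧ ‖u2‖ ≤ 1 := by
  constructor
  · nlinarith [norm_nonneg u1, norm_nonneg u2, sq_nonneg ‖u2‖]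
  · nlinarith [norm_nonneg u1, norm_nonneg u2, sq_nonneg ‖u1‖]

omit hb in
lemma u_ge : 1/2 < ‖u1‖ ∨ 1/2 < ‖u2‖ := by
  by_contra h
  push Not at h
  nlinarith [norm_nonneg u1, norm_nonneg u2]

/-- Cauchy-Schwarz -/
lemma dd_le (z : ℂ) : ‖dd hb u1 u2 z‖ ≤ nrm hb z := by
  unfold dd nrm
  apply Real.le_sqrt_of_sq_le
  have h1 : ‖w1 hb z * u2 - w2 hb z * u1‖ ≤ ‖w1 hb z‖ * ‖u2‖ + ‖w2 hb z‖ * ‖u1‖ := by
    rw [← norm_mul, ← norm_mul]
    exact norm_sub_le _ _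
  have h2 : ‖w1 hb z * u2 - w2 hb z * u1‖^2 ≤ (‖w1 hb z‖ * ‖u2‖ + ‖w2 hb z‖ * ‖u1‖)^2 := by
    gcongr
  have h3 : (‖w1 hb z‖ * ‖u2‖ + ‖w2 hb z‖ * ‖u1‖)^2 + (‖w1 hb z‖ * ‖u1‖ - ‖w2 hb z‖ * ‖u2‖)^2
      = (‖w1 hb z‖^2 + ‖w2 hb z‖^2) * (‖u1‖^2 + ‖u2‖^2) := by ring
  rw [hu, mul_one] at h3
  nlinarith [sq_nonneg (‖w1 hb z‖ * ‖u1‖ - ‖w2 hb z‖ * ‖u2‖)]

omit hb in
/-- the basic identity for two vectors with determinant of norm one -/
lemma two_vec {p1 p2 q1 q2 : ℂ} {A : ℝ} (hA : 0 < A) (hp1 : ‖p1‖ ≤ A) (hp2 : ‖p2‖ ≤ A) (hq1 : ‖q1‖ ≤ A)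
    (hq2 : ‖q2‖ ≤ A) (hdet : ‖p1 * q2 - p2 * q1‖ = 1) :
    1 / (2 * A) ≤ ‖p1 * u2 - p2 * u1‖ + ‖q1 * u2 - q2 * u1‖ := by
  have i1 : (p1 * q2 - p2 * q1) * u1 = (q1 * u2 - q2 * u1) * (-p1) + (p1 * u2 - p2 * u1) * q1 := by ring
  have i2 : (p1 * q2 - p2 * q1) * u2 = (q1 * u2 - q2 * u1) * (-p2) + (p1 * u2 - p2 * u1) * q2 := by ring
  have j1 : ‖u1‖ ≤ (‖p1 * u2 - p2 * u1‖ + ‖q1 * u2 - q2 * u1‖) * A := by
    have : ‖u1‖ = ‖(p1 * q2 - p2 * q1) * u1‖ := by rw [norm_mul, hdet, one_mul]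
    rw [this, i1]
    calc _ ≤ ‖(q1 * u2 - q2 * u1) * (-p1)‖ + ‖(p1 * u2 - p2 * u1) * q1‖ := norm_add_le _ _
      _ = ‖q1 * u2 - q2 * u1‖ * ‖p1‖ + ‖p1 * u2 - p2 * u1‖ * ‖q1‖ := by
          rw [norm_mul, norm_mul, norm_neg]
      _ ≤ ‖q1 * u2 - q2 * u1‖ * A + ‖p1 * u2 - p2 * u1‖ * A := by gcongr
      _ = _ := by ring
  have j2 : ‖u2‖ ≤ (‖p1 * u2 - p2 * u1‖ + ‖q1 * u2 - q2 * u1‖) * A := by
    have : ‖u2‖ = ‖(p1 * q2 - p2 * q1) * u2‖ := by rw [norm_mul, hdet, one_mul]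
    rw [this, i2]
    calc _ ≤ ‖(q1 * u2 - q2 * u1) * (-p2)‖ + ‖(p1 * u2 - p2 * u1) * q2‖ := norm_add_le _ _
      _ = ‖q1 * u2 - q2 * u1‖ * ‖p2‖ + ‖p1 * u2 - p2 * u1‖ * ‖q2‖ := by
          rw [norm_mul, norm_mul, norm_neg]
      _ ≤ ‖q1 * u2 - q2 * u1‖ * A + ‖p1 * u2 - p2 * u1‖ * A := by gcongr
      _ = _ := by ring
  rw [div_le_iff₀ (by positivity)]
  rcases u_ge hu with h | h <;> nlinarith

/-- goodness of a tract with respect to the unit vector `u` -/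
def gd (b : ℕ → Option ℂ) (u1 u2 : ℂ) (k : ℤ) : Prop :=
  Real.exp (-((k.natAbs:ℝ)+7)^2) ≤ ‖dk b u1 u2 k‖

lemma good_adj (k k' : ℤ) (hk' : k' = k + 1 ∨ k' = k - 1) : gd b u1 u2 k ∨ gd b u1 u2 k' := by
  have hdet := det_nb hb k k' hk'
  set n : ℕ := max k.natAbs k'.natAbs with hn
  have hn1 : (k.natAbs:ℝ) ≤ n := by exact_mod_cast le_max_left _ _
  have hn2 : (k'.natAbs:ℝ) ≤ n := by exact_mod_cast le_max_right _ _
  have hn3 : (n:ℝ) ≤ k.natAbs + 1 := by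
    have : n ≤ k.natAbs + 1 := by omega
    exact_mod_cast this
  have hn4 : (n:ℝ) ≤ k'.natAbs + 1 := by
    have : n ≤ k'.natAbs + 1 := by omega
    exact_mod_cast this
  have hn0 : (0:ℝ) ≤ n := Nat.cast_nonneg _
  have m0 : (0:ℝ) ≤ k.natAbs := Nat.cast_nonneg _
  have m1 : (0:ℝ) ≤ k'.natAbs := Nat.cast_nonneg _
  have bd : ∀ j : ℤ, (j.natAbs:ℝ) ≤ n → ‖c1 b j‖ ≤ Real.exp (((n:ℝ)+4)^2) ∧ ‖c2 b j‖ ≤ Real.exp (((n:ℝ)+4)^2) := by
    intro j hj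
    have := c_bound hb j
    have h0 : (0:ℝ) ≤ j.natAbs := Nat.cast_nonneg _
    have h1 : ((j.natAbs:ℝ)+3)^2 + (j.natAbs+1) ≤ ((n:ℝ)+4)^2 := by nlinarith
    exact ⟨this.1.trans (Real.exp_le_exp.2 h1), this.2.trans (Real.exp_le_exp.2 h1)⟩
  have h := two_vec hu (Real.exp_pos (((n:ℝ)+4)^2)) (bd k hn1).1 (bd k hn1).2 (bd k' hn2).1 (bd k' hn2).2 hdet
  by_contra hcon
  push Not at hcon
  unfold gd at hcon
  push Not at hcon
  obtain ⟨g1, g2⟩ := hcon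
  unfold dk at g1 g2
  have e1 : Real.exp (-((k.natAbs:ℝ)+7)^2) ≤ Real.exp (-((n:ℝ)+6)^2) := by
    apply Real.exp_le_exp.2
    nlinarith
  have e2 : Real.exp (-((k'.natAbs:ℝ)+7)^2) ≤ Real.exp (-((n:ℝ)+6)^2) := by
    apply Real.exp_le_exp.2
    nlinarith
  have e3 : 2 * Real.exp (-((n:ℝ)+6)^2) < 1 / (2 * Real.exp (((n:ℝ)+4)^2)) := by
    rw [lt_div_iff₀ (by positivity)]
    have : 2 * Real.exp (-((n:ℝ)+6)^2) * (2 * Real.exp (((n:ℝ)+4)^2)) = 4 * Real.exp (-(4*(n:ℝ)+20)) := by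
      rw [show 2 * Real.exp (-((n:ℝ)+6)^2) * (2 * Real.exp (((n:ℝ)+4)^2)) =
        4 * (Real.exp (-((n:ℝ)+6)^2) * Real.exp (((n:ℝ)+4)^2)) by ring, ← Real.exp_add]
      congr 2
      ring
    rw [this]
    have h2 : Real.exp (-(4*(n:ℝ)+20)) ≤ Real.exp (-2) := by
      apply Real.exp_le_exp.2; linarith
    have h3 : Real.exp (-2) < 1/7 := by
      rw [Real.exp_neg, inv_lt_comm₀ (Real.exp_pos _) (by norm_num)]
      have := exp_two_gt
      norm_num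
      linarith
    linarith
  linarith

lemma dd_good {z : ℂ} (hz : HO z) (k : ℤ) (hk : |z.im - k * Real.pi| ≤ Real.pi) (hg : gd b u1 u2 k)
    (hG : (|z.im| + 12)^2 + 3 ≤ (G k z).re) : Real.exp ((G k z).re - (|z.im|+12)^2) ≤ ‖dd hb u1 u2 z‖ := by
  obtain ⟨α, α', k', hk', ha, ha', e1, e2⟩ := w_rep hb hz k hk
  obtain ⟨ha, -⟩ := half_le ha
  obtain ⟨-, ha'⟩ := half_le ha'
  have hc' := c_bound' hb (j := k') hk (Or.inr hk')
  have hn := natAbs_le hk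
  have hy := abs_nonneg z.im
  have hu' := u_le hu
  have e : dd hb u1 u2 z = α * exp (G k z) * dk b u1 u2 k + α' * exp (- G k z) * dk b u1 u2 k' := by
    unfold dd dk
    rw [e1, e2]
    ring
  have i1 : (1/2) * (Real.exp (G k z).re * Real.exp (-((k.natAbs:ℝ)+7)^2)) ≤ ‖α * exp (G k z) * dk b u1 u2 k‖ := by
    rw [norm_mul, norm_mul, norm_exp]
    unfold gd at hg
    calc _ = (1/2) * Real.exp (G k z).re * Real.exp (-((k.natAbs:ℝ)+7)^2) := by ring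
      _ ≤ _ := by gcongr
  have i2 : ‖α' * exp (- G k z) * dk b u1 u2 k'‖ ≤ (3/2) * Real.exp (-(G k z).re) * (2 * Real.exp ((|z.im| + 6)^2)) := by
    rw [norm_mul, norm_mul, norm_exp, neg_re]
    have : ‖dk b u1 u2 k'‖ ≤ 2 * Real.exp ((|z.im| + 6)^2) := by
      unfold dk
      calc _ ≤ ‖c1 b k' * u2‖ + ‖c2 b k' * u1‖ := norm_sub_le _ _
        _ = ‖c1 b k'‖ * ‖u2‖ + ‖c2 b k'‖ * ‖u1‖ := by rw [norm_mul, norm_mul]
        _ ≤ Real.exp ((|z.im| + 6)^2) * 1 + Real.exp ((|z.im| + 6)^2) * 1 := by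
            gcongr
            · exact hc'.1
            · exact hu'.2
            · exact hc'.2
            · exact hu'.1
        _ = _ := by ring
    gcongr
  have i3 : ‖α * exp (G k z) * dk b u1 u2 k‖ - ‖α' * exp (- G k z) * dk b u1 u2 k'‖ ≤ ‖dd hb u1 u2 z‖ := by
    rw [e]
    have := norm_sub_norm_le (α * exp (G k z) * dk b u1 u2 k) (-(α' * exp (- G k z) * dk b u1 u2 k'))
    rw [norm_neg, sub_neg_eq_add] at this
    exact this
  refine le_trans ?_ i3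
  have i4 : 2 * Real.exp ((G k z).re - (|z.im|+12)^2) ≤ (1/2) * (Real.exp (G k z).re * Real.exp (-((k.natAbs:ℝ)+7)^2)) := by
    rw [← Real.exp_add]
    have h1 : 2 + ((G k z).re - (|z.im|+12)^2) ≤ (G k z).re + -((k.natAbs:ℝ)+7)^2 := by
      have h0 : (0:ℝ) ≤ k.natAbs := Nat.cast_nonneg _
      nlinarith
    have h2 := Real.exp_le_exp.2 h1
    rw [Real.exp_add 2] at h2
    have := exp_two_gt
    have := Real.exp_pos ((G k z).re - (|z.im|+12)^2)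
    nlinarith
  have i5 : (3/2) * Real.exp (-(G k z).re) * (2 * Real.exp ((|z.im| + 6)^2)) ≤ Real.exp ((G k z).re - (|z.im|+12)^2) := by
    have h1 : (3/2) * Real.exp (-(G k z).re) * (2 * Real.exp ((|z.im| + 6)^2)) = 3 * Real.exp (-(G k z).re + (|z.im|+6)^2) := by
      rw [Real.exp_add]; ring
    rw [h1]
    have h2 : 2 + (-(G k z).re + (|z.im|+6)^2) ≤ (G k z).re - (|z.im|+12)^2 := by nlinarith
    have h3 := Real.exp_le_exp.2 h2
    rw [Real.exp_add 2] at h3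
    have := exp_two_gt
    have := Real.exp_pos (-(G k z).re + (|z.im|+6)^2)
    nlinarith
  linarith

lemma dd_tract {z : ℂ} (hz : HO z) (k : ℤ) (hk : |z.im - k * Real.pi| ≤ Real.pi) (h0 : dk b u1 u2 k = 0) :
    Real.exp (-(G k z).re - (|z.im|+12)^2) ≤ ‖dd hb u1 u2 z‖ ∧
    ‖dd hb u1 u2 z‖ ≤ Real.exp (-(G k z).re + (|z.im|+12)^2) := by
  obtain ⟨α, α', k', hk', ha, ha', e1, e2⟩ := w_rep hb hz k hk
  obtain ⟨ha1, ha2⟩ := half_le ha'
  have hc := c_bound' hb (j := k) hk (Or.inl rfl)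
  have hc' := c_bound' hb (j := k') hk (Or.inr hk')
  have hy := abs_nonneg z.im
  have hu' := u_le hu
  have e : dd hb u1 u2 z = α' * exp (- G k z) * dk b u1 u2 k' := by
    have : dd hb u1 u2 z = α * exp (G k z) * dk b u1 u2 k + α' * exp (- G k z) * dk b u1 u2 k' := by
      unfold dd dk
      rw [e1, e2]
      ring
    rw [this, h0]
    ring
  have h := two_vec hu (Real.exp_pos ((|z.im| + 6)^2)) hc.1 hc.2 hc'.1 hc'.2 (det_nb hb k k' hk')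
  have h1 : ‖c1 b k * u2 - c2 b k * u1‖ = 0 := by
    unfold dk at h0
    rw [h0, norm_zero]
  rw [h1, zero_add] at h
  have h2 : ‖dk b u1 u2 k'‖ ≤ 2 * Real.exp ((|z.im| + 6)^2) := by
    unfold dk
    calc _ ≤ ‖c1 b k' * u2‖ + ‖c2 b k' * u1‖ := norm_sub_le _ _
      _ = ‖c1 b k'‖ * ‖u2‖ + ‖c2 b k'‖ * ‖u1‖ := by rw [norm_mul, norm_mul]
      _ ≤ Real.exp ((|z.im| + 6)^2) * 1 + Real.exp ((|z.im| + 6)^2) * 1 := by
          gcongr
          · exact hc'.1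
          · exact hu'.2
          · exact hc'.2
          · exact hu'.1
      _ = _ := by ring
  have h3 : Real.exp (-(|z.im|+6)^2) / 2 ≤ ‖dk b u1 u2 k'‖ := by
    unfold dk
    refine le_trans (le_of_eq ?_) h
    rw [Real.exp_neg]
    field_simp
  rw [e, norm_mul, norm_mul, norm_exp, neg_re]
  have := exp_two_gt
  constructor
  · calc Real.exp (-(G k z).re - (|z.im|+12)^2) ≤ (1/2) * Real.exp (-(G k z).re) * (Real.exp (-(|z.im|+6)^2) / 2) := by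
          have h5 : 2 + (-(G k z).re - (|z.im|+12)^2) ≤ -(G k z).re + -(|z.im|+6)^2 := by nlinarith
          have h6 := Real.exp_le_exp.2 h5
          rw [Real.exp_add 2, Real.exp_add (-(G k z).re)] at h6
          have := Real.exp_pos (-(G k z).re - (|z.im|+12)^2)
          nlinarith
      _ ≤ _ := by gcongr
  · calc _ ≤ (3/2) * Real.exp (-(G k z).re) * (2 * Real.exp ((|z.im| + 6)^2)) := by gcongr
      _ ≤ _ := by
          have h5 : 2 + (-(G k z).re + (|z.im|+6)^2) ≤ -(G k z).re + (|z.im|+12)^2 := by nlinarith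
          have h6 := Real.exp_le_exp.2 h5
          rw [Real.exp_add 2, Real.exp_add (-(G k z).re)] at h6
          have := Real.exp_pos (-(G k z).re)
          have := Real.exp_pos ((|z.im|+6)^2)
          have : 0 < Real.exp (-(G k z).re) * Real.exp ((|z.im|+6)^2) := by positivity
          nlinarith

end unit

end Pool.Agent.H343N
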