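import Mathlib
import Pool.Agent.Helper343.NDefs

set_option autoImplicit false
set_option maxHeartbeats 4000000
open Filter Topology Complex MeasureTheory Set

namespace Pool.Agent.H343N

/-- `h = (1-z)⁻¹` -/
noncomputable def hz (z : ℂ) : ℂ := (1 - z)⁻¹

noncomputable def Hf (h : ℂ) : ℂ := 100 * (h + Complex.log h)

lemma Zf_eq (z : ℂ) : Zf z = Hf (hz z) := rfl

lemma Hf_diff {h : ℂ} (hh : 0 < h.re) : HasDerivAt Hf (100 * (1 + h⁻¹)) h := by
  unfold Hf
  have h1 : h ∈ slitPlane := Or.inl hh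
  exact ((hasDerivAt_id h).add (Complex.hasDerivAt_log h1)).const_mul 100

lemma Hf_lip {ρ : ℝ} (hρ : 0 < ρ) {h h' : ℂ} (h1 : ρ ≤ h.re) (h2 : ρ ≤ h'.re) :
    ‖Hf h' - Hf h‖ ≤ 100 * (1 + ρ⁻¹) * ‖h' - h‖ := by
  have hconv : Convex ℝ {w : ℂ | ρ ≤ w.re} := convex_halfSpace_re_ge ρ
  apply hconv.norm_image_sub_le_of_norm_hasDerivWithin_le
    (f := Hf) (f' := fun w => 100 * (1 + w⁻¹)) _ _ h1 h2
  · intro w hw
    exact (Hf_diff (lt_of_lt_of_le hρ hw)).hasDerivWithinAt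
  · intro w hw
    have hw' : ρ ≤ w.re := hw
    rw [norm_mul, Complex.norm_ofNat]
    gcongr
    calc ‖(1:ℂ) + w⁻¹‖ ≤ ‖(1:ℂ)‖ + ‖w⁻¹‖ := norm_add_le _ _
      _ ≤ 1 + ρ⁻¹ := by
          rw [norm_one, norm_inv]
          gcongr
          exact hw'.trans (Complex.re_le_norm w)

lemma hz_re {z : ℂ} (h : ‖z‖ < 1) : 1/2 < (hz z).re := by
  unfold hz
  rw [Complex.inv_re]
  have h1 : z.re^2 + z.im^2 < 1 := by
    have : ‖z‖^2 = z.re^2 + z.im^2 := by rw [Complex.sq_norm, Complex.normSq_apply]; ring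
    have h2 := norm_nonneg z
    nlinarith
  have h2 : 0 < Complex.normSq (1 - z) := by
    rw [Complex.normSq_pos]
    intro h3
    have : z = 1 := (sub_eq_zero.1 h3).symm
    rw [this] at h
    simp at h
  rw [lt_div_iff₀ h2, Complex.normSq_apply]
  simp
  nlinarith

lemma hz_norm_ge {z : ℂ} (h : ‖z‖ < 1) : 1/2 < ‖hz z‖ := (hz_re h).trans_le (Complex.re_le_norm _)

lemma hz_norm_le {z : ℂ} (h : ‖z‖ < 1) : ‖hz z‖ ≤ 1 / (1 - ‖z‖) := by
  unfold hz
  rw [norm_inv, ← one_div]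
  apply one_div_le_one_div_of_le (by linarith)
  have := norm_sub_norm_le (1:ℂ) z
  rwa [norm_one] at this

lemma geo_near {z w : ℂ} (h : ‖z‖ < 1) {a : ℝ} (ha : a ≤ 1/5) (hw : ‖w - z‖ ≤ a / ‖hz z‖^2) :
    w ≠ 1 ∧ ‖hz w - hz z‖ ≤ a / (1 - 2 * a) ∧ ‖hz w‖ ≤ ‖hz z‖ / (1 - 2 * a) := by
  have h1 := hz_norm_ge h
  have hpos : 0 < ‖hz z‖ := by linarith
  have hz0 : z ≠ 1 := by rintro rfl; simp at h
  have h1z : (1 - z) ≠ 0 := sub_ne_zero.2 (Ne.symm hz0)
  have e1 : ‖1 - z‖ = ‖hz z‖⁻¹ := by unfold hz; rw [norm_inv, inv_inv]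
  have ha0 : 0 ≤ a := by
    by_contra hcon
    push Not at hcon
    have : a / ‖hz z‖^2 < 0 := div_neg_of_neg_of_pos hcon (by positivity)
    linarith [norm_nonneg (w - z)]
  have h2 : ‖w - z‖ ≤ 2 * a * ‖1 - z‖ := by
    rw [e1]
    refine hw.trans ?_
    rw [div_le_iff₀ (by positivity), sq]
    have : 2 * a * ‖hz z‖⁻¹ * (‖hz z‖ * ‖hz z‖) = 2 * a * ‖hz z‖ := by field_simp
    rw [this]
    nlinarith
  have h3 : (1 - 2 * a) * ‖1 - z‖ ≤ ‖1 - w‖ := by
    have : ‖1 - z‖ ≤ ‖1 - w‖ + ‖w - z‖ := by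
      calc ‖1 - z‖ = ‖(1 - w) + (w - z)‖ := by ring_nf
        _ ≤ _ := norm_add_le _ _
    nlinarith
  have h4 : 0 < ‖1 - z‖ := norm_pos_iff.2 h1z
  have h5 : 0 < ‖1 - w‖ := lt_of_lt_of_le (mul_pos (by linarith) h4) h3
  have hw1 : w ≠ 1 := by
    rintro rfl
    simp at h5
  have h6 : ‖hz w‖ ≤ ‖hz z‖ / (1 - 2 * a) := by
    have : ‖hz w‖ = ‖1 - w‖⁻¹ := by unfold hz; rw [norm_inv]
    rw [this, le_div_iff₀ (by linarith)]
    have e2 : ‖hz z‖ = ‖1 - z‖⁻¹ := by unfold hz; rw [norm_inv]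
    rw [e2, inv_mul_le_iff₀ h5]
    rw [← div_eq_mul_inv, le_div_iff₀ h4]
    exact h3
  refine ⟨hw1, ?_, h6⟩
  have e3 : hz w - hz z = (w - z) * hz w * hz z := by
    unfold hz
    have : (1 - w) ≠ 0 := sub_ne_zero.2 (Ne.symm hw1)
    field_simp
    ring
  rw [e3, norm_mul, norm_mul]
  calc ‖w - z‖ * ‖hz w‖ * ‖hz z‖ ≤ (a / ‖hz z‖^2) * (‖hz z‖ / (1 - 2 * a)) * ‖hz z‖ := by gcongr
    _ = a / (1 - 2 * a) := by
        field_simp

/-- vertical moves -/
lemma geo_move {z : ℂ} (h : ‖z‖ < 1) {t : ℝ} (ht : |t| ≤ 5) :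
    ∃ z' : ℂ, (Zf z').im = (Zf z).im + t ∧ ‖hz z' - hz z‖ ≤ |t| / 100 ∧
      ‖z' - z‖ ≤ (|t| / 90) / ‖hz z‖^2 := by
  have hre := hz_re h
  have hn := hz_norm_ge h
  -- the function
  have hcont : Continuous (fun τ : ℝ => (Hf (hz z + τ * I)).im) := by
    rw [continuous_iff_continuousAt]
    intro τ
    have : ContinuousAt Hf (hz z + τ * I) := (Hf_diff (by simp; linarith)).continuousAt
    exact Complex.continuous_im.continuousAt.comp (ContinuousAt.comp (f := fun τ : ℝ => hz z + τ * I) this (by fun_prop))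
  have him : ∀ τ : ℝ, (Hf (hz z + τ * I)).im = 100 * ((hz z).im + τ + Complex.arg (hz z + τ * I)) := by
    intro τ
    unfold Hf
    simp [Complex.log_im]
  have harg : ∀ τ : ℝ, Complex.arg (hz z + τ * I) = Real.arctan (((hz z).im + τ) / (hz z).re) := by
    intro τ
    have hre' : 0 < (hz z + τ * I).re := by simp; linarith
    have h1 : |Complex.arg (hz z + τ * I)| < Real.pi / 2 :=
      Complex.abs_arg_lt_pi_div_two_iff.2 (Or.inl hre')
    rw [abs_lt] at h1
    have h2 := Complex.tan_arg (hz z + τ * I)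
    rw [← Real.arctan_tan h1.1 h1.2, h2]
    simp
  have h0 : (Hf (hz z)).im = 100 * ((hz z).im + Real.arctan ((hz z).im / (hz z).re)) := by
    have := him 0
    rw [harg 0] at this
    simpa using this
  have hex : ∃ τ : ℝ, |τ| ≤ |t| / 100 ∧ (Hf (hz z + τ * I)).im = (Hf (hz z)).im + t := by
    rcases le_total 0 t with h1 | h1
    · have := intermediate_value_Icc (a := 0) (b := t/100) (by positivity)
        (f := fun τ : ℝ => (Hf (hz z + τ * I)).im) hcont.continuousOn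
      have hmem : (Hf (hz z)).im + t ∈ Icc ((fun τ : ℝ => (Hf (hz z + τ * I)).im) 0)
          ((fun τ : ℝ => (Hf (hz z + τ * I)).im) (t/100)) := by
        constructor
        · simp only [ofReal_zero, zero_mul, add_zero]; linarith
        · simp only
          rw [him, harg, h0]
          have : Real.arctan ((hz z).im / (hz z).re) ≤ Real.arctan (((hz z).im + t/100) / (hz z).re) := by
            apply Real.arctan_strictMono.monotone
            apply div_le_div_of_nonneg_right _ (by linarith)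
            linarith [div_nonneg h1 (by norm_num : (0:ℝ) ≤ 100)]
          linarith
      obtain ⟨τ, hτ, e⟩ := this hmem
      refine ⟨τ, ?_, e⟩
      rw [abs_of_nonneg hτ.1, abs_of_nonneg h1]
      exact hτ.2
    · have := intermediate_value_Icc (a := t/100) (b := 0) (by linarith)
        (f := fun τ : ℝ => (Hf (hz z + τ * I)).im) hcont.continuousOn
      have hmem : (Hf (hz z)).im + t ∈ Icc ((fun τ : ℝ => (Hf (hz z + τ * I)).im) (t/100))
          ((fun τ : ℝ => (Hf (hz z + τ * I)).im) 0) := by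
        constructor
        · simp only
          rw [him, harg, h0]
          have : Real.arctan (((hz z).im + t/100) / (hz z).re) ≤ Real.arctan ((hz z).im / (hz z).re) := by
            apply Real.arctan_strictMono.monotone
            apply div_le_div_of_nonneg_right _ (by linarith)
            linarith
          linarith
        · simp only [ofReal_zero, zero_mul, add_zero]; linarith
      obtain ⟨τ, hτ, e⟩ := this hmem
      refine ⟨τ, ?_, e⟩
      rw [abs_of_nonpos hτ.2, abs_of_nonpos h1]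
      linarith [hτ.1]
  obtain ⟨τ, hτ, e⟩ := hex
  have hne : hz z + τ * I ≠ 0 := by
    intro h1
    have := congrArg Complex.re h1
    simp at this
    linarith
  have hzne : hz z ≠ 0 := by
    intro h1
    rw [h1] at hn
    simp at hn
    linarith
  refine ⟨1 - (hz z + τ * I)⁻¹, ?_, ?_, ?_⟩
  · rw [Zf_eq, Zf_eq, ← e]
    congr 2
    unfold hz
    simp
  · have : hz (1 - (hz z + τ * I)⁻¹) = hz z + τ * I := by
      rw [hz]; simp
    rw [this]
    simp only [add_sub_cancel_left, norm_mul, norm_real, norm_I, mul_one, Real.norm_eq_abs]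
    exact hτ
  · have e1 : 1 - (hz z + τ * I)⁻¹ - z = (τ * I) * (hz z)⁻¹ * (hz z + τ * I)⁻¹ := by
      have e2 : z = 1 - (hz z)⁻¹ := by unfold hz; simp
      have e3 : ∀ H Q z' : ℂ, H ≠ 0 → Q ≠ 0 → z' = 1 - H⁻¹ → 1 - Q⁻¹ - z' = (Q - H) * H⁻¹ * Q⁻¹ := by
        intro H Q z' h1 h2 h3
        rw [h3]
        field_simp
        ring
      rw [e3 (hz z) (hz z + τ * I) z hzne hne e2]
      ring
    rw [e1, norm_mul, norm_mul, norm_inv, norm_inv]
    simp only [norm_mul, norm_real, norm_I, mul_one, Real.norm_eq_abs]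
    have h2 : (9/10) * ‖hz z‖ ≤ ‖hz z + τ * I‖ := by
      have : ‖hz z‖ - ‖(τ:ℂ) * I‖ ≤ ‖hz z + τ * I‖ := by
        have := norm_sub_norm_le (hz z) (-((τ:ℂ) * I))
        rwa [norm_neg, sub_neg_eq_add] at this
      have h3 : ‖(τ:ℂ) * I‖ = |τ| := by simp
      rw [h3] at this
      have : |τ| ≤ 1/20 := by linarith
      linarith
    have hpos : 0 < ‖hz z‖ := by linarith
    calc |τ| * ‖hz z‖⁻¹ * ‖hz z + τ * I‖⁻¹ ≤ (|t|/100) * ‖hz z‖⁻¹ * ((9/10) * ‖hz z‖)⁻¹ := by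
          gcongr
      _ = _ := by
          field_simp
          ring

/-- the additive constant -/
noncomputable def CC : ℝ := Real.log (10^12 * 4^100)

noncomputable def Zc (z : ℂ) : ℂ := Zf z + CC

lemma Zc_re (z : ℂ) : (Zc z).re = (Zf z).re + CC := by simp [Zc]
lemma Zc_im (z : ℂ) : (Zc z).im = (Zf z).im := by simp [Zc]

lemma exp_Zf_re {z : ℂ} (h : 0 < (hz z).re) : Real.exp (Zf z).re = Real.exp (100 * (hz z).re) * ‖hz z‖^100 := by
  have hpos : 0 < ‖hz z‖ := lt_of_lt_of_le h (Complex.re_le_norm _)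
  rw [Zf_eq]
  unfold Hf
  have : (100 * (hz z + Complex.log (hz z))).re = 100 * (hz z).re + 100 * Real.log ‖hz z‖ := by
    simp [Complex.log_re]
    ring
  rw [this, Real.exp_add]
  congr 1
  rw [show (100:ℝ) * Real.log ‖hz z‖ = ((100:ℕ):ℝ) * Real.log ‖hz z‖ by norm_num, Real.exp_nat_mul,
    Real.exp_log hpos]

lemma Zf_im_le (z : ℂ) : |(Zf z).im| ≤ 100 * (‖hz z‖ + 4) := by
  rw [Zf_eq]
  unfold Hf
  have : (100 * (hz z + Complex.log (hz z))).im = 100 * ((hz z).im + Complex.arg (hz z)) := by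
    simp [Complex.log_im]
  rw [this, abs_mul]
  have h1 := Complex.abs_im_le_norm (hz z)
  have h2 := Complex.abs_arg_le_pi (hz z)
  have h3 := Real.pi_le_four
  rw [abs_of_pos (by norm_num : (0:ℝ) < 100)]
  gcongr
  calc |(hz z).im + Complex.arg (hz z)| ≤ |(hz z).im| + |Complex.arg (hz z)| := abs_add_le _ _
    _ ≤ _ := by linarith

lemma Zc_big {z : ℂ} (h : 1/4 < (hz z).re) : 10^3 * (|(Zc z).im| + 14)^2 ≤ Real.exp (Zc z).re := by
  rw [Zc_re, Zc_im, Real.exp_add, exp_Zf_re (by linarith)]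
  unfold CC
  rw [Real.exp_log (by positivity)]
  have h1 := Zf_im_le z
  have h2 : 1/4 < ‖hz z‖ := h.trans_le (Complex.re_le_norm _)
  have h3 : 1 ≤ Real.exp (100 * (hz z).re) := Real.one_le_exp (by linarith)
  have h4 : |(Zf z).im| + 14 ≤ 1756 * ‖hz z‖ := by linarith
  have h5 : (4 * ‖hz z‖)^2 ≤ (4 * ‖hz z‖)^100 := pow_le_pow_right₀ (by linarith) (by norm_num)
  calc 10^3 * (|(Zf z).im| + 14)^2 ≤ 10^3 * (1756 * ‖hz z‖)^2 := by gcongr
    _ ≤ 10^12 * (4 * ‖hz z‖)^2 := by nlinarith [sq_nonneg ‖hz z‖]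
    _ ≤ 10^12 * (4 * ‖hz z‖)^100 := by gcongr
    _ = 1 * ‖hz z‖^100 * (10^12 * 4^100) := by rw [mul_pow]; ring
    _ ≤ _ := by gcongr

end Pool.Agent.H343N
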