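import Mathlib
import Pool.Agent.Helper343.NP2
import Pool.Agent.Helper343.NP3
import Pool.Agent.Helper343.NJ2

set_option autoImplicit false
set_option maxHeartbeats 4000000
open Filter Topology Complex MeasureTheory Set

namespace Pool.Agent.H343N

variable {b : ℕ → Option ℂ} (hb : Good b)
include hb

omit hb in
lemma HO_Zc {z : ℂ} (h : 1/4 < (hz z).re) : HO (Zc z) := by
  have h1 := Zc_big h
  unfold HO
  have h2 := abs_nonneg (Zc z).im
  nlinarith

omit hb in
lemma Zc_diff {z : ℂ} (h : 1/4 < (hz z).re) : DifferentiableAt ℂ Zc z := by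
  unfold Zc
  apply DifferentiableAt.add_const
  have h1 : (1 - z) ≠ 0 := by
    intro h2
    unfold hz at h
    rw [h2] at h
    simp at h
    linarith
  have h2 : DifferentiableAt ℂ hz z := by
    unfold hz
    exact DifferentiableAt.inv (by fun_prop) h1
  have : Zf = Hf ∘ hz := by funext w; exact Zf_eq w
  rw [this]
  exact ((Hf_diff (by linarith)).differentiableAt).comp z h2

section unit
variable {u1 u2 : ℂ} (hu : ‖u1‖^2 + ‖u2‖^2 = 1)
include hu

omit hu in
noncomputable def gam (u1 u2 : ℂ) (z : ℂ) : ℝ :=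
  Real.log (nrm hb (Zc z)) - Real.log ‖dd hb u1 u2 (Zc z)‖

omit hb in
omit hu in
lemma near_int (y : ℝ) : ∃ k : ℤ, |y - k * Real.pi| ≤ Real.pi / 2 := by
  refine ⟨round (y / Real.pi), ?_⟩
  have hpi := Real.pi_pos
  have h := abs_sub_round (y / Real.pi)
  have e : y - round (y / Real.pi) * Real.pi = (y / Real.pi - round (y / Real.pi)) * Real.pi := by
    field_simp
  rw [e, abs_mul, abs_of_pos hpi]
  nlinarith

omit hb in
omit hu in
lemma G_re_le (k : ℤ) (z : ℂ) : |(G k z).re| ≤ Real.exp z.re := by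
  rw [G_re, abs_mul, abs_of_pos (Real.exp_pos _)]
  have := Real.abs_cos_le_one (z.im - k * Real.pi)
  have := Real.exp_pos z.re
  nlinarith

omit hu in
lemma nrm_crude {w : ℂ} (h : 1/4 < (hz w).re) : nrm hb (Zc w) ≤ Real.exp (2 * Real.exp (Zc w).re) := by
  obtain ⟨k, hk⟩ := near_int (Zc w).im
  have hpi := Real.pi_pos
  refine (nrm_upper hb (HO_Zc h) k (hk.trans (by linarith))).trans ?_
  apply Real.exp_le_exp.2
  have h1 := G_re_le k (Zc w)
  have h2 := Zc_big h
  have h3 := abs_nonneg (Zc w).im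
  nlinarith

omit hb in
omit hu in
lemma geo_near' {z w : ℂ} (h : ‖z‖ < 1) {a : ℝ} (ha : a ≤ 12/100) (hw : ‖w - z‖ ≤ a / ‖hz z‖^2) :
    1/4 < (hz w).re ∧ ‖Zf w - Zf z‖ ≤ 700 * a := by
  obtain ⟨h1, h2, h3⟩ := geo_near h (by linarith) hw
  have ha0 : 0 ≤ a := by
    by_contra hcon
    push Not at hcon
    have hp := hz_norm_ge h
    have : a / ‖hz z‖^2 < 0 := div_neg_of_neg_of_pos hcon (by positivity)
    linarith [norm_nonneg (w - z)]
  have h4 := hz_re h
  have h5 : a / (1 - 2 * a) ≤ (25/19) * a := by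
    rw [div_le_iff₀ (by linarith)]
    nlinarith
  have h6 : |(hz w - hz z).re| ≤ ‖hz w - hz z‖ := Complex.abs_re_le_norm _
  rw [sub_re, abs_le] at h6
  have h7 : 1/4 < (hz w).re := by linarith [h6.1]
  refine ⟨h7, ?_⟩
  rw [Zf_eq, Zf_eq]
  have := Hf_lip (ρ := 1/4) (by norm_num) (h := hz z) (h' := hz w) (by linarith) h7.le
  norm_num at this
  linarith

lemma crude {z : ℂ} (h : ‖z‖ < 1) {s : ℝ} (hs : s ≤ (1/1000) / ‖hz z‖^2) :
    ∫⁻ u in Metric.ball z s, ENNReal.ofReal (gam hb u1 u2 u) ≤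
      ENNReal.ofReal (Real.pi * ((6/100) / ‖hz z‖^2)^2 * (2 * Real.exp 84 * Real.exp (Zc z).re)) := by
  have hpi := Real.pi_pos
  have hpi3 := Real.pi_lt_d2
  have hH := hz_norm_ge h
  have hH0 : 0 < ‖hz z‖ := by linarith
  obtain ⟨k0, hk0⟩ := near_int (Zf z).im
  -- choose a good line
  obtain ⟨k, hk, hg⟩ : ∃ k : ℤ, |k * Real.pi - (Zf z).im| ≤ 3 * Real.pi / 2 ∧ gd b u1 u2 k := by
    rcases good_adj hb hu k0 (k0 + 1) (Or.inl rfl) with hg | hg
    · exact ⟨k0, by rw [abs_sub_comm]; linarith, hg⟩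
    · refine ⟨k0 + 1, ?_, hg⟩
      push_cast
      rw [abs_le] at hk0 ⊢
      constructor <;> linarith
  obtain ⟨z', e1, e2, e3⟩ := geo_move h (t := k * Real.pi - (Zf z).im) (by linarith)
  have him : (Zc z').im = k * Real.pi := by rw [Zc_im, e1]; ring
  have hd1 : ‖z' - z‖ ≤ (53/1000) / ‖hz z‖^2 := by
    refine e3.trans ?_
    apply div_le_div_of_nonneg_right _ (by positivity)
    linarith
  set D : ℝ := (6/100) / ‖hz z‖^2 with hD
  have hD0 : 0 < D := by positivity
  have hin : ∀ w ∈ Metric.closedBall z' D, 1/4 < (hz w).re ∧ ‖Zf w - Zf z‖ ≤ 84 := by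
    intro w hw
    rw [Metric.mem_closedBall, dist_eq_norm] at hw
    have h1 : ‖w - z‖ ≤ (12/100) / ‖hz z‖^2 := by
      calc ‖w - z‖ = ‖(w - z') + (z' - z)‖ := by ring_nf
        _ ≤ ‖w - z'‖ + ‖z' - z‖ := norm_add_le _ _
        _ ≤ (6/100) / ‖hz z‖^2 + (53/1000) / ‖hz z‖^2 := by linarith
        _ ≤ _ := by rw [← add_div]; gcongr; norm_num
    have := geo_near' h le_rfl h1
    exact ⟨this.1, this.2.trans (by norm_num)⟩
  set B : ℝ := 2 * Real.exp 84 * Real.exp (Zc z).re with hB
  have hnB : ∀ w ∈ Metric.closedBall z' D, nrm hb (Zc w) ≤ Real.exp B := by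
    intro w hw
    obtain ⟨h1, h2⟩ := hin w hw
    refine (nrm_crude hb h1).trans ?_
    apply Real.exp_le_exp.2
    rw [hB, mul_assoc, ← Real.exp_add]
    gcongr
    rw [Zc_re, Zc_re]
    have h3 := Complex.abs_re_le_norm (Zf w - Zf z)
    rw [sub_re] at h3
    have := le_abs_self ((Zf w).re - (Zf z).re)
    linarith
  have hz'in : z' ∈ Metric.closedBall z' D := Metric.mem_closedBall_self hD0.le
  obtain ⟨hz'1, hz'2⟩ := hin z' hz'in
  have hG : (G k (Zc z')).re = Real.exp (Zc z').re := by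
    rw [G_re, him, sub_self, Real.cos_zero, mul_one]
  have hbig := Zc_big hz'1
  have hyn := abs_nonneg (Zc z').im
  have hgood := dd_good hb hu (HO_Zc hz'1) k (by rw [him, sub_self, abs_zero]; exact hpi.le) hg
    (by rw [hG]; nlinarith)
  have hlog : 0 ≤ Real.log ‖dd hb u1 u2 (Zc z')‖ := by
    apply Real.log_nonneg
    refine le_trans ?_ hgood
    apply Real.one_le_exp
    rw [hG]
    nlinarith
  have hne : dd hb u1 u2 (Zc z') ≠ 0 := by
    intro h0
    rw [h0, norm_zero] at hgood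
    exact absurd hgood (not_le.2 (Real.exp_pos _))
  have key := J2.area_submean (fun w => dd hb u1 u2 (Zc w)) z' D B hD0
    (by
      intro w hw
      have h1 := (hin w hw).1
      have h2 := HO_Zc h1
      have h3 := Zc_diff h1
      unfold dd
      apply DifferentiableAt.sub
      · exact ((w1_diff hb h2).comp w h3).mul_const _
      · exact ((w2_diff hb h2).comp w h3).mul_const _)
    hne
    (by
      intro w hw
      exact (dd_le hb hu _).trans (hnB w hw))
  calc ∫⁻ u in Metric.ball z s, ENNReal.ofReal (gam hb u1 u2 u)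
      ≤ ∫⁻ u in Metric.ball z' D, ENNReal.ofReal (gam hb u1 u2 u) := by
        apply lintegral_mono_set
        apply Metric.ball_subset_ball'
        rw [dist_eq_norm, norm_sub_rev]
        have : (1/1000) / ‖hz z‖^2 + (53/1000) / ‖hz z‖^2 ≤ (6/100) / ‖hz z‖^2 := by
          rw [← add_div]; gcongr; norm_num
        linarith
    _ ≤ ∫⁻ u in Metric.ball z' D, ENNReal.ofReal (B - Real.log ‖dd hb u1 u2 (Zc u)‖) := by
        apply setLIntegral_mono' measurableSet_ball
        intro w hw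
        apply ENNReal.ofReal_le_ofReal
        unfold gam
        have h1 := hnB w (Metric.ball_subset_closedBall hw)
        have h2 : Real.log (nrm hb (Zc w)) ≤ B := by
          have h0 : 0 ≤ nrm hb (Zc w) := Real.sqrt_nonneg _
          rcases h0.eq_or_lt with h3 | h3
          · rw [← h3, Real.log_zero]; positivity
          · rw [Real.log_le_iff_le_exp h3]; exact h1
        linarith
    _ ≤ ENNReal.ofReal (Real.pi * D ^ 2 * (B - Real.log ‖dd hb u1 u2 (Zc z')‖)) := key
    _ ≤ _ := by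
        apply ENNReal.ofReal_le_ofReal
        apply mul_le_mul_of_nonneg_left _ (by positivity)
        linarith

lemma zone {z : ℂ} (h : ‖z‖ < 1) (hre : 100 ≤ (hz z).re) {σ : ℝ} (hσ0 : 0 < σ) (hσ : σ ≤ 1/100) {s : ℝ}
    (hs : s ≤ (1/1000) * σ / ‖hz z‖^2) {k : ℤ} (hk : |(Zc z).im - (k + 1/2) * Real.pi| ≤ 2 * σ)
    (hbig : (|(Zc z).im| + 14)^2 + 3 ≤ σ * Real.exp (Zc z).re) :
    ∫⁻ u in Metric.ball z s, ENNReal.ofReal (gam hb u1 u2 u) ≤
      ENNReal.ofReal (Real.pi * ((7/100) * σ / ‖hz z‖^2)^2 *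
        (21 * σ * Real.exp (Zc z).re + (|(Zc z).im| + 14)^2)) := by
  have hpi := Real.pi_pos
  have hpi3 := Real.pi_lt_d2
  have hpi4 := Real.pi_gt_three
  have hH := hz_norm_ge h
  have hH0 : 0 < ‖hz z‖ := by linarith
  rw [Zc_im] at hk
  -- good neighbour
  obtain ⟨m, t, ht, hg, hcos⟩ : ∃ (m : ℤ) (t : ℝ), |t| ≤ 6 * σ ∧ gd b u1 u2 m ∧
      |(Zf z).im + t - m * Real.pi| = Real.pi / 2 - 4 * σ := by
    rw [abs_le] at hk
    rcases good_adj hb hu k (k + 1) (Or.inl rfl) with hg | hg
    · refine ⟨k, (k + 1/2) * Real.pi - 4 * σ - (Zf z).im, ?_, hg, ?_⟩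
      · rw [abs_le]; constructor <;> linarith
      · have : (Zf z).im + ((k + 1/2) * Real.pi - 4 * σ - (Zf z).im) - k * Real.pi = Real.pi / 2 - 4 * σ := by ring
        rw [this, abs_of_nonneg (by linarith)]
    · refine ⟨k + 1, (k + 1/2) * Real.pi + 4 * σ - (Zf z).im, ?_, hg, ?_⟩
      · rw [abs_le]; constructor <;> linarith
      · have : (Zf z).im + ((k + 1/2) * Real.pi + 4 * σ - (Zf z).im) - ((k + 1 : ℤ) : ℝ) * Real.pi
            = -(Real.pi / 2 - 4 * σ) := by push_cast; ring
        rw [this, abs_neg, abs_of_nonneg (by linarith)]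
  obtain ⟨z', e1, e2, e3⟩ := geo_move h (t := t) (by linarith)
  have hd1 : ‖z' - z‖ ≤ (67/1000) * σ / ‖hz z‖^2 := by
    refine e3.trans ?_
    gcongr
    linarith
  set D : ℝ := (7/100) * σ / ‖hz z‖^2 with hD
  have hD0 : 0 < D := by positivity
  have hin : ∀ w ∈ Metric.closedBall z' D, 1/4 < (hz w).re ∧ ‖Zf w - Zf z‖ ≤ 15 * σ := by
    intro w hw
    rw [Metric.mem_closedBall, dist_eq_norm] at hw
    have h1 : ‖w - z‖ ≤ ((14/100) * σ) / ‖hz z‖^2 := by
      calc ‖w - z‖ = ‖(w - z') + (z' - z)‖ := by ring_nf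
        _ ≤ ‖w - z'‖ + ‖z' - z‖ := norm_add_le _ _
        _ ≤ (7/100) * σ / ‖hz z‖^2 + (67/1000) * σ / ‖hz z‖^2 := by linarith
        _ ≤ _ := by rw [← add_div]; gcongr; linarith
    obtain ⟨h2, h3, h4⟩ := geo_near h (a := (14/100) * σ) (by linarith) h1
    have h5 : (14/100) * σ / (1 - 2 * ((14/100) * σ)) ≤ (143/1000) * σ := by
      rw [div_le_iff₀ (by linarith)]
      nlinarith
    have h6 : |(hz w - hz z).re| ≤ ‖hz w - hz z‖ := Complex.abs_re_le_norm _
    rw [sub_re, abs_le] at h6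
    have h7 : 99 ≤ (hz w).re := by linarith [h6.1]
    refine ⟨by linarith, ?_⟩
    rw [Zf_eq, Zf_eq]
    have := Hf_lip (ρ := 99) (by norm_num) (h := hz z) (h' := hz w) (by linarith) h7
    norm_num at this
    linarith
  set B : ℝ := 21 * σ * Real.exp (Zc z).re + (|(Zc z).im| + 14)^2 with hB
  have hexp : ∀ w, ‖Zf w - Zf z‖ ≤ 15 * σ → Real.exp (Zc w).re ≤ (119/100) * Real.exp (Zc z).re ∧
      (1/2) * Real.exp (Zc z).re ≤ Real.exp (Zc w).re := by
    intro w hw
    have h3 := Complex.abs_re_le_norm (Zf w - Zf z)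
    rw [sub_re] at h3
    have h4 := abs_le.1 (h3.trans hw)
    have e84 : Real.exp (15/100) ≤ 119/100 := by
      have := Real.exp_bound' (x := 15/100) (by norm_num) (by norm_num) (n := 3) (by norm_num)
      refine this.trans ?_
      norm_num [Finset.sum_range_succ, Nat.factorial]
    constructor
    · calc Real.exp (Zc w).re ≤ Real.exp (15/100 + (Zc z).re) := by
            apply Real.exp_le_exp.2
            rw [Zc_re, Zc_re]
            linarith [h4.2]
        _ = Real.exp (15/100) * Real.exp (Zc z).re := Real.exp_add _ _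
        _ ≤ _ := by gcongr
    · have h5 : Real.exp (Zc z).re ≤ Real.exp (15/100) * Real.exp (Zc w).re := by
        rw [← Real.exp_add]
        apply Real.exp_le_exp.2
        rw [Zc_re, Zc_re]
        linarith [h4.1]
      have h6 := Real.exp_pos (Zc w).re
      nlinarith
  have hyy : ∀ w, ‖Zf w - Zf z‖ ≤ 15 * σ → |(Zc w).im - (Zc z).im| ≤ 15 * σ := by
    intro w hw
    have h3 := Complex.abs_im_le_norm (Zf w - Zf z)
    rw [sub_im] at h3
    rw [Zc_im, Zc_im]
    linarith
  have hnB : ∀ w ∈ Metric.closedBall z' D, nrm hb (Zc w) ≤ Real.exp B := by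
    intro w hw
    obtain ⟨h1, h2⟩ := hin w hw
    have h3 := hyy w h2
    have h4 : |(Zc w).im - (k + 1/2) * Real.pi| ≤ 17 * σ := by
      rw [← Zc_im] at hk
      calc |(Zc w).im - (k + 1/2) * Real.pi| = |((Zc w).im - (Zc z).im) + ((Zc z).im - (k + 1/2) * Real.pi)| := by ring_nf
        _ ≤ _ := abs_add_le _ _
        _ ≤ _ := by linarith
    have h5 : |(Zc w).im - k * Real.pi| ≤ Real.pi := by
      rw [abs_le] at h4 ⊢
      constructor <;> linarith
    refine (nrm_upper hb (HO_Zc h1) k h5).trans ?_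
    apply Real.exp_le_exp.2
    have h6 : |(G k (Zc w)).re| ≤ 21 * σ * Real.exp (Zc z).re - 0 := by
      rw [G_re, abs_mul, abs_of_pos (Real.exp_pos _)]
      have e4 : (Zc w).im - k * Real.pi = ((Zc w).im - (k + 1/2) * Real.pi) + Real.pi / 2 := by ring
      rw [e4, Real.cos_add_pi_div_two, abs_neg]
      have h7 : |Real.sin ((Zc w).im - (k + 1/2) * Real.pi)| ≤ 17 * σ * (1 - 0) := by
        have : |Real.sin ((Zc w).im - (k + 1/2) * Real.pi)| ≤ |(Zc w).im - (k + 1/2) * Real.pi| :=
          Real.abs_sin_le_abs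
        linarith
      have h8 := (hexp w h2).1
      have h9 := Real.exp_pos (Zc z).re
      have h10 := abs_nonneg (Real.sin ((Zc w).im - (k + 1/2) * Real.pi))
      calc _ ≤ ((119/100) * Real.exp (Zc z).re) * (17 * σ * (1 - 0)) := by gcongr
        _ ≤ _ := by nlinarith [mul_pos hσ0 h9]
    have h7 : (|(Zc w).im| + 6)^2 + 2 ≤ (|(Zc z).im| + 14)^2 := by
      have h8 : |(Zc w).im| ≤ |(Zc z).im| + 1 := by
        have : |(Zc w).im| ≤ |(Zc z).im| + |(Zc w).im - (Zc z).im| := by
          calc |(Zc w).im| = |(Zc z).im + ((Zc w).im - (Zc z).im)| := by ring_nf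
            _ ≤ _ := abs_add_le _ _
        linarith
      have h9 := abs_nonneg (Zc w).im
      nlinarith
    rw [hB]
    linarith
  have hz'in : z' ∈ Metric.closedBall z' D := Metric.mem_closedBall_self hD0.le
  obtain ⟨hz'1, hz'2⟩ := hin z' hz'in
  have him : (Zc z').im = (Zf z).im + t := by rw [Zc_im, e1]
  have hG : σ * Real.exp (Zc z).re ≤ (G m (Zc z')).re := by
    rw [G_re, him, ← Real.cos_abs, hcos, Real.cos_pi_div_two_sub]
    have h1 := (hexp z' hz'2).2
    have h2 : 2 * σ ≤ Real.sin (4 * σ) := by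
      have := Real.mul_le_sin (x := 4 * σ) (by positivity) (by linarith)
      refine le_trans ?_ this
      have : 1/2 ≤ 2 / Real.pi := by
        rw [div_le_div_iff₀ (by norm_num) hpi]; linarith
      nlinarith
    calc σ * Real.exp (Zc z).re = ((1/2) * Real.exp (Zc z).re) * (2 * σ) := by ring
      _ ≤ _ := by
        apply mul_le_mul h1 h2 (by positivity) (Real.exp_pos _).le
  have hyz' : |(Zc z').im| ≤ |(Zc z).im| + 1 := by
    have h3 := hyy z' hz'2
    have : |(Zc z').im| ≤ |(Zc z).im| + |(Zc z').im - (Zc z).im| := by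
      calc |(Zc z').im| = |(Zc z).im + ((Zc z').im - (Zc z).im)| := by ring_nf
        _ ≤ _ := abs_add_le _ _
    linarith
  have hyn := abs_nonneg (Zc z').im
  have hyn2 := abs_nonneg (Zc z).im
  have hcond : (|(Zc z').im| + 12)^2 + 3 ≤ (G m (Zc z')).re := by nlinarith
  have hgood := dd_good hb hu (HO_Zc hz'1) m (by rw [him, hcos]; linarith) hg hcond
  have hlog : 0 ≤ Real.log ‖dd hb u1 u2 (Zc z')‖ := by
    apply Real.log_nonneg
    refine le_trans ?_ hgood
    apply Real.one_le_exp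
    linarith
  have hne : dd hb u1 u2 (Zc z') ≠ 0 := by
    intro h0
    rw [h0, norm_zero] at hgood
    exact absurd hgood (not_le.2 (Real.exp_pos _))
  have key := J2.area_submean (fun w => dd hb u1 u2 (Zc w)) z' D B hD0
    (by
      intro w hw
      have h1 := (hin w hw).1
      have h2 := HO_Zc h1
      have h3 := Zc_diff h1
      unfold dd
      apply DifferentiableAt.sub
      · exact ((w1_diff hb h2).comp w h3).mul_const _
      · exact ((w2_diff hb h2).comp w h3).mul_const _)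
    hne
    (by
      intro w hw
      exact (dd_le hb hu _).trans (hnB w hw))
  calc ∫⁻ u in Metric.ball z s, ENNReal.ofReal (gam hb u1 u2 u)
      ≤ ∫⁻ u in Metric.ball z' D, ENNReal.ofReal (gam hb u1 u2 u) := by
        apply lintegral_mono_set
        apply Metric.ball_subset_ball'
        rw [dist_eq_norm, norm_sub_rev]
        have : (1/1000) * σ / ‖hz z‖^2 + (67/1000) * σ / ‖hz z‖^2 ≤ (7/100) * σ / ‖hz z‖^2 := by
          rw [← add_div]; gcongr; linarith
        linarith
    _ ≤ ∫⁻ u in Metric.ball z' D, ENNReal.ofReal (B - Real.log ‖dd hb u1 u2 (Zc u)‖) := by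
        apply setLIntegral_mono' measurableSet_ball
        intro w hw
        apply ENNReal.ofReal_le_ofReal
        unfold gam
        have h1 := hnB w (Metric.ball_subset_closedBall hw)
        have h2 : Real.log (nrm hb (Zc w)) ≤ B := by
          have h0 : 0 ≤ nrm hb (Zc w) := Real.sqrt_nonneg _
          rcases h0.eq_or_lt with h3 | h3
          · rw [← h3, Real.log_zero]; positivity
          · rw [Real.log_le_iff_le_exp h3]; exact h1
        linarith
    _ ≤ ENNReal.ofReal (Real.pi * D ^ 2 * (B - Real.log ‖dd hb u1 u2 (Zc z')‖)) := key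
    _ ≤ _ := by
        apply ENNReal.ofReal_le_ofReal
        apply mul_le_mul_of_nonneg_left _ (by positivity)
        linarith

end unit

end Pool.Agent.H343N
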