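import Mathlib
import Pool.Agent.Helper343.NP4

set_option autoImplicit false
set_option maxHeartbeats 4000000
open Filter Topology Complex MeasureTheory Set

namespace Pool.Agent.H343N

variable {b : ℕ → Option ℂ} (hb : Good b)
include hb

/-- exponential weight `e^x |cos y|` -/
noncomputable def ew (z : ℂ) : ℝ := Real.exp (Zc z).re * |Real.cos (Zc z).im|

omit hb in
lemma ew_nonneg (z : ℂ) : 0 ≤ ew z := by unfold ew; positivity

omit hb in
lemma abs_G_re (k : ℤ) (z : ℂ) : |(G k (Zc z)).re| = ew z := by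
  unfold ew
  rw [G_re, abs_mul, abs_of_pos (Real.exp_pos _)]
  congr 1
  rw [Real.cos_sub]
  have h1 : Real.sin (k * Real.pi) = 0 := Real.sin_int_mul_pi k
  rw [h1, mul_zero, add_zero, abs_mul]
  have h2 : |Real.cos (k * Real.pi)| = 1 := by
    have := Real.sin_sq_add_cos_sq (k * Real.pi)
    rw [h1] at this
    have h3 : Real.cos (k * Real.pi)^2 = 1 := by linarith
    have h4 : |Real.cos (k * Real.pi)|^2 = 1 := by rw [sq_abs]; exact h3
    have h5 := abs_nonneg (Real.cos (k * Real.pi))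
    nlinarith
  rw [h2, mul_one]

lemma lognrm {z : ℂ} (h : ‖z‖ < 1) : |Real.log (nrm hb (Zc z)) - ew z| ≤ (|(Zc z).im| + 14)^2 := by
  have h1 : 1/4 < (hz z).re := by linarith [hz_re h]
  have hpi := Real.pi_pos
  obtain ⟨k, hk⟩ := near_int (Zc z).im
  have hk' : |(Zc z).im - k * Real.pi| ≤ Real.pi := by linarith
  have a1 := nrm_upper hb (HO_Zc h1) k hk'
  have a2 := nrm_lower hb (HO_Zc h1) k hk'
  rw [abs_G_re] at a1 a2
  have hpos : 0 < nrm hb (Zc z) := lt_of_lt_of_le (Real.exp_pos _) a2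
  have hy := abs_nonneg (Zc z).im
  have b1 := (Real.log_le_iff_le_exp hpos).2 a1
  have b2 := (Real.le_log_iff_exp_le hpos).2 a2
  rw [abs_le]
  constructor <;> nlinarith

lemma nrm_pos {z : ℂ} (h : ‖z‖ < 1) : 0 < nrm hb (Zc z) := by
  have h1 : 1/4 < (hz z).re := by linarith [hz_re h]
  have hpi := Real.pi_pos
  obtain ⟨k, hk⟩ := near_int (Zc z).im
  have a2 := nrm_lower hb (HO_Zc h1) k (by linarith)
  exact lt_of_lt_of_le (Real.exp_pos _) a2

section unit
variable {u1 u2 : ℂ} (hu : ‖u1‖^2 + ‖u2‖^2 = 1)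
include hu

lemma gam_nonneg {z : ℂ} (h : ‖z‖ < 1) (hd : dd hb u1 u2 (Zc z) ≠ 0) : 0 ≤ gam hb u1 u2 z := by
  unfold gam
  have := Real.log_le_log (norm_pos_iff.2 hd) (dd_le hb hu (Zc z))
  linarith

/-- tract of the value: both bounds -/
lemma gam_tract {z : ℂ} (h : ‖z‖ < 1) {k : ℤ} (hk : |(Zc z).im - k * Real.pi| ≤ Real.pi / 2)
    (h0 : dk b u1 u2 k = 0) :
    |gam hb u1 u2 z - 2 * ew z| ≤ 2 * (|(Zc z).im| + 14)^2 := by
  have h1 : 1/4 < (hz z).re := by linarith [hz_re h]
  have hpi := Real.pi_pos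
  obtain ⟨a1, a2⟩ := dd_tract hb hu (HO_Zc h1) k (by linarith) h0
  have hcos : 0 ≤ Real.cos ((Zc z).im - k * Real.pi) := by
    apply Real.cos_nonneg_of_neg_pi_div_two_le_of_le <;> linarith [(abs_le.1 hk).1, (abs_le.1 hk).2]
  have hG : (G k (Zc z)).re = ew z := by
    rw [← abs_G_re k z, abs_of_nonneg]
    rw [G_re]
    exact mul_nonneg (Real.exp_pos _).le hcos
  rw [hG] at a1 a2
  have hpos : 0 < ‖dd hb u1 u2 (Zc z)‖ := lt_of_lt_of_le (Real.exp_pos _) a1
  have b1 := (Real.log_le_iff_le_exp hpos).2 a2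
  have b2 := (Real.le_log_iff_exp_le hpos).2 a1
  have b3 := lognrm hb h
  rw [abs_le] at b3
  have hy := abs_nonneg (Zc z).im
  unfold gam
  rw [abs_le]
  constructor <;> nlinarith [b3.1, b3.2]

/-- good tract: upper bound -/
lemma gam_good {z : ℂ} (h : ‖z‖ < 1) {k : ℤ} (hk : |(Zc z).im - k * Real.pi| ≤ Real.pi / 2)
    (hg : gd b u1 u2 k) (hbig : (|(Zc z).im| + 14)^2 + 3 ≤ ew z) :
    gam hb u1 u2 z ≤ 2 * (|(Zc z).im| + 14)^2 := by
  have h1 : 1/4 < (hz z).re := by linarith [hz_re h]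
  have hpi := Real.pi_pos
  have hy := abs_nonneg (Zc z).im
  have hcos : 0 ≤ Real.cos ((Zc z).im - k * Real.pi) := by
    apply Real.cos_nonneg_of_neg_pi_div_two_le_of_le <;> linarith [(abs_le.1 hk).1, (abs_le.1 hk).2]
  have hG : (G k (Zc z)).re = ew z := by
    rw [← abs_G_re k z, abs_of_nonneg]
    rw [G_re]
    exact mul_nonneg (Real.exp_pos _).le hcos
  have a1 := dd_good hb hu (HO_Zc h1) k (by linarith) hg (by rw [hG]; nlinarith)
  rw [hG] at a1
  have hpos : 0 < ‖dd hb u1 u2 (Zc z)‖ := lt_of_lt_of_le (Real.exp_pos _) a1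
  have b2 := (Real.le_log_iff_exp_le hpos).2 a1
  have b3 := lognrm hb h
  rw [abs_le] at b3
  unfold gam
  nlinarith [b3.2]

omit hb in
omit hu in
lemma psiS_eq_of_round (S : Set ℕ) (y : ℝ) (h : (round (y / Real.pi)).natAbs ∈ S) : psiS S y = |Real.cos y| := by
  unfold psiS
  simp [h]

omit hb in
omit hu in
lemma psiS_eq_zero (S : Set ℕ) (y : ℝ) (h : (round (y / Real.pi)).natAbs ∉ S) : psiS S y = 0 := by
  unfold psiS
  simp [h]

omit hb in
omit hu in
lemma round_near (y : ℝ) : |y - (round (y / Real.pi) : ℤ) * Real.pi| ≤ Real.pi / 2 := by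
  have hpi := Real.pi_pos
  have h := abs_sub_round (y / Real.pi)
  have e : y - round (y / Real.pi) * Real.pi = (y / Real.pi - round (y / Real.pi)) * Real.pi := by
    field_simp
  rw [e, abs_mul, abs_of_pos hpi]
  nlinarith

omit hb in
omit hu in
lemma dk_natAbs (k : ℤ) : dk b u1 u2 (k.natAbs : ℤ) = dk b u1 u2 k := by
  unfold dk c1 c2
  rw [Int.natAbs_natCast]

omit hb in
omit hu in
lemma gd_natAbs (k : ℤ) : gd b u1 u2 (k.natAbs : ℤ) ↔ gd b u1 u2 k := by
  unfold gd
  rw [dk_natAbs, Int.natAbs_natCast]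

/-- set of indices of tracts with value `u` -/
def S0 (b : ℕ → Option ℂ) (u1 u2 : ℂ) : Set ℕ := {n | dk b u1 u2 (n:ℤ) = 0}
/-- bad tracts -/
def B0 (b : ℕ → Option ℂ) (u1 u2 : ℂ) : Set ℕ := {n | dk b u1 u2 (n:ℤ) ≠ 0 ∧ ¬ gd b u1 u2 (n:ℤ)}

/-- the lower bound used for the proximity function -/
lemma gam_lower {z : ℂ} (h : ‖z‖ < 1) (hd : dd hb u1 u2 (Zc z) ≠ 0) :
    2 * (Real.exp (Zc z).re * psiS (S0 b u1 u2) (Zc z).im) - 2 * (|(Zc z).im| + 14)^2 ≤ gam hb u1 u2 z := by
  by_cases hS : (round ((Zc z).im / Real.pi)).natAbs ∈ S0 b u1 u2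
  · rw [psiS_eq_of_round _ _ hS]
    have hk := round_near (Zc z).im
    have h0 : dk b u1 u2 (round ((Zc z).im / Real.pi)) = 0 := by
      have : dk b u1 u2 ((round ((Zc z).im / Real.pi)).natAbs : ℤ) = 0 := hS
      rwa [dk_natAbs] at this
    have := gam_tract hb hu h hk h0
    rw [abs_le] at this
    unfold ew at this
    linarith [this.1]
  · rw [psiS_eq_zero _ _ hS]
    have := gam_nonneg hb hu h hd
    have h2 : 0 ≤ (|(Zc z).im| + 14)^2 := by positivity
    linarith

/-- upper bound away from zones and bad tracts -/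
lemma gam_upper {z : ℂ} (h : ‖z‖ < 1) {σ : ℝ} (hσ0 : 0 < σ) (hσ1 : σ ≤ 1)
    (hzone : ∀ k : ℤ, σ < |(Zc z).im - (k + 1/2) * Real.pi|)
    (hbad : ∀ k : ℤ, k.natAbs ∈ B0 b u1 u2 → Real.pi / 2 < |(Zc z).im - k * Real.pi|)
    (hbig : (|(Zc z).im| + 14)^2 + 3 ≤ (σ/2) * Real.exp (Zc z).re) :
    gam hb u1 u2 z ≤ 2 * (Real.exp (Zc z).re * psiS (S0 b u1 u2) (Zc z).im) + 2 * (|(Zc z).im| + 14)^2 := by
  have hpi := Real.pi_pos
  have hpi4 := Real.pi_le_four
  set k := round ((Zc z).im / Real.pi) with hk0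
  have hk := round_near (Zc z).im
  rw [← hk0] at hk
  by_cases hS : k.natAbs ∈ S0 b u1 u2
  · rw [psiS_eq_of_round _ _ hS]
    have h0 : dk b u1 u2 k = 0 := by
      have : dk b u1 u2 (k.natAbs : ℤ) = 0 := hS
      rwa [dk_natAbs] at this
    have := gam_tract hb hu h hk h0
    rw [abs_le] at this
    unfold ew at this
    linarith [this.2]
  · rw [psiS_eq_zero _ _ hS]
    have hne : dk b u1 u2 (k.natAbs : ℤ) ≠ 0 := hS
    have hg : gd b u1 u2 k := by
      by_contra hcon
      have : k.natAbs ∈ B0 b u1 u2 := ⟨hne, by rw [gd_natAbs]; exact hcon⟩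
      exact absurd (hbad k this) (not_lt.2 hk)
    have hcos : σ / 2 ≤ |Real.cos (Zc z).im| := by
      have z1 := hzone k
      have z2 := hzone (k-1)
      have hk' := abs_le.1 hk
      have e1 : |(Zc z).im - k * Real.pi| ≤ Real.pi / 2 - σ := by
        rw [abs_le]
        constructor
        · by_contra hc
          push Not at hc
          have : |(Zc z).im - (((k - 1 : ℤ):ℝ) + 1/2) * Real.pi| ≤ σ := by
            push_cast
            rw [abs_le]
            constructor <;> linarith [hk'.1]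
          linarith
        · by_contra hc
          push Not at hc
          have : |(Zc z).im - ((k:ℝ) + 1/2) * Real.pi| ≤ σ := by
            rw [abs_le]
            constructor <;> linarith [hk'.2]
          linarith
      have e2 : |Real.cos (Zc z).im| = |Real.cos ((Zc z).im - k * Real.pi)| := by
        have a1 := abs_G_re k z
        rw [G_re, abs_mul, abs_of_pos (Real.exp_pos _)] at a1
        unfold ew at a1
        exact (mul_left_cancel₀ (Real.exp_pos _).ne' a1).symm
      rw [e2, ← Real.cos_abs]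
      have h0 := abs_nonneg ((Zc z).im - k * Real.pi)
      have e3 : Real.sin σ ≤ Real.cos |(Zc z).im - k * Real.pi| := by
        rw [← Real.cos_pi_div_two_sub]
        apply Real.cos_le_cos_of_nonneg_of_le_pi h0 _ e1
        linarith
      have e4 : σ / 2 ≤ Real.sin σ := by
        have := Real.mul_le_sin (x := σ) hσ0.le (by linarith [Real.pi_gt_three])
        refine le_trans ?_ this
        have : 1/2 ≤ 2 / Real.pi := by
          rw [div_le_div_iff₀ (by norm_num) hpi]; linarith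
        nlinarith
      exact (e4.trans e3).trans (le_abs_self _)
    have := gam_good hb hu h hk hg (by
      unfold ew
      refine hbig.trans ?_
      rw [mul_comm]
      gcongr)
    linarith

end unit

end Pool.Agent.H343N
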