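import Mathlib
import Pool.Agent.Helper343.NP5
import Pool.Agent.Helper343.NJ3
import Pool.Agent.Helper343.NJ5

set_option autoImplicit false
set_option maxHeartbeats 4000000
open Filter Topology Complex MeasureTheory Set

namespace Pool.Agent.H343N

noncomputable def K3 : ℝ := 10^6 * Real.exp 84

lemma K3_pos : 0 < K3 := by unfold K3; positivity

noncomputable def Bf (R σ : ℝ) (ψ : ℝ → ℝ) (z : ℂ) : ℝ :=
  K3 * ((σ + ψ (Zc z).im / σ^2 + R^4 / σ^2 * (if (hz z).re < 97/100 * R then 1 else 0)) * Real.exp (Zc z).re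
    + (|(Zc z).im| + 14)^2)

/-- elementary facts on the window -/
lemma window {R σ : ℝ} (hR : 200 ≤ R) (hσ0 : 0 < σ) (hσ : σ ≤ 1/1000) {x : ℝ}
    (h1 : 1 - 1/R - σ/(2000*R^2) < x) (h2 : x < 1 - 1/R + σ/(4*R^2) + σ/(2000*R^2)) :
    0 < x ∧ x < 1 ∧ 1/(1-x) ≤ R + 1 ∧ R - 1 ≤ 1/(1-x) := by
  have hRp : 0 < R := by linarith
  have e1 : σ/(4*R^2) + σ/(2000*R^2) ≤ σ/(3*R^2) := by
    rw [div_add_div _ _ (by positivity) (by positivity), div_le_div_iff₀ (by positivity) (by positivity)]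
    have : 0 < σ * R^4 := by positivity
    nlinarith
  have e2 : σ/(3*R^2) ≤ 1/R - 1/(R+1) := by
    rw [div_sub_div _ _ hRp.ne' (by linarith), div_le_div_iff₀ (by positivity) (by positivity)]
    have : σ * (R * (R+1)) ≤ 1 * (3 * R^2) := by nlinarith
    nlinarith
  have e3 : σ/(2000*R^2) ≤ 1/(R-1) - 1/R := by
    rw [div_sub_div _ _ (by linarith) hRp.ne', div_le_div_iff₀ (by positivity) (by nlinarith)]
    nlinarith
  have e4 : 1/R ≤ 1/200 := one_div_le_one_div_of_le (by norm_num) hR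
  have e5 : 0 < 1/(R+1) := by positivity
  have e6 : σ/(2000*R^2) ≤ 1/2 := by
    rw [div_le_div_iff₀ (by positivity) (by norm_num)]
    nlinarith
  have h3 : 1/(R+1) ≤ 1 - x := by linarith
  have h4 : 1 - x ≤ 1/(R-1) := by linarith
  refine ⟨by linarith, by linarith, ?_, ?_⟩
  · rw [div_le_iff₀ (by linarith)]
    rw [div_le_iff₀ (by linarith)] at h3
    linarith
  · rw [le_div_iff₀ (by linarith)]
    rw [le_div_iff₀ (by linarith)] at h4
    linarith

variable {b : ℕ → Option ℂ} (hb : Good b)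
include hb

section unit
variable {u1 u2 : ℂ} (hu : ‖u1‖^2 + ‖u2‖^2 = 1)
include hu

lemma ball_bound {R σ : ℝ} (hR : 200 ≤ R) (hσ0 : 0 < σ) (hσ : σ ≤ 1/1000)
    (hbig : ∀ z : ℂ, ‖z‖ < 1 → ‖hz z‖ ≤ R + 1 → 95/100 * R ≤ (hz z).re →
      (|(Zc z).im| + 14)^2 + 3 ≤ (σ/2) * Real.exp (Zc z).re)
    {ψ : ℝ → ℝ} (hψ0 : ∀ y, 0 ≤ ψ y)
    (hψ : ∀ y, ∀ k : ℤ, k.natAbs ∈ B0 b u1 u2 → |y - k * Real.pi| ≤ 2 → 1 ≤ ψ y) {z w : ℂ}
    (hw1 : 1 - 1/R < ‖w‖) (hw2 : ‖w‖ < 1 - 1/R + σ/(4*R^2)) (hzw : ‖z - w‖ < σ/(2000*R^2))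
    (hM : (hz w).re < 95/100 * R ∨ (∃ k : ℤ, k.natAbs ∈ B0 b u1 u2 ∧ |(Zc w).im - k * Real.pi| ≤ Real.pi / 2) ∨
      (∃ k : ℤ, |(Zc w).im - (k + 1/2) * Real.pi| ≤ σ)) :
    ∫⁻ u in Metric.ball z (σ/(2000*R^2)), ENNReal.ofReal (gam hb u1 u2 u) ≤
      ENNReal.ofReal (Real.pi * (σ/(2000*R^2))^2) * ENNReal.ofReal (Bf R σ ψ z) := by
  have hRp : 0 < R := by linarith
  have hpi := Real.pi_pos
  have hpi2 := Real.pi_lt_d2
  have hsp : 0 < σ/(2000*R^2) := by positivity
  have n1 := abs_lt.1 ((abs_norm_sub_norm_le z w).trans_lt hzw)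
  obtain ⟨z0, z1, z2, z3⟩ := window hR hσ0 hσ (x := ‖z‖) (by linarith [n1.1]) (by linarith [n1.2])
  have hzn : ‖hz z‖ ≤ R + 1 := (hz_norm_le z1).trans z2
  have hzg := hz_norm_ge z1
  have hzp : 0 < ‖hz z‖ := by linarith
  set s := σ/(2000*R^2) with hs
  have hs1 : s ≤ (1/1000) * σ / ‖hz z‖^2 := by
    rw [hs, div_le_div_iff₀ (by positivity) (by positivity)]
    have : ‖hz z‖^2 ≤ (R+1)^2 := by gcongr
    have h2 : (R+1)^2 ≤ 2 * R^2 := by nlinarith
    have h3 : σ * ‖hz z‖^2 ≤ σ * (2 * R^2) := by gcongr; linarith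
    nlinarith
  have hs2 : s ≤ (1/1000) / ‖hz z‖^2 := by
    refine hs1.trans ?_
    apply div_le_div_of_nonneg_right _ (by positivity)
    nlinarith
  have hwz : ‖w - z‖ ≤ (σ/1000) / ‖hz z‖^2 := by
    rw [norm_sub_rev]
    refine hzw.le.trans (hs1.trans (le_of_eq ?_))
    ring
  obtain ⟨-, q2, -⟩ := geo_near z1 (a := σ/1000) (by linarith) hwz
  obtain ⟨-, q4⟩ := geo_near' z1 (a := σ/1000) (by linarith) hwz
  have q5 : (σ/1000) / (1 - 2 * (σ/1000)) ≤ 1 := by
    rw [div_le_one (by linarith)]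
    linarith
  have q6 : |(hz w).re - (hz z).re| ≤ 1 := by
    have := Complex.abs_re_le_norm (hz w - hz z)
    rw [sub_re] at this
    linarith
  have q7 : |(Zc w).im - (Zc z).im| ≤ 7/10 * σ := by
    have := Complex.abs_im_le_norm (Zf w - Zf z)
    rw [sub_im] at this
    rw [Zc_im, Zc_im]
    linarith
  rw [abs_le] at q6 q7
  have hexp := Real.exp_pos (Zc z).re
  have hexp84 := Real.exp_pos (84:ℝ)
  have hone84 : 1 ≤ Real.exp (84:ℝ) := Real.one_le_exp (by norm_num)
  have hys : 0 ≤ (|(Zc z).im| + 14)^2 := by positivity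
  have hψz := hψ0 (Zc z).im
  -- reduction
  rw [← ENNReal.ofReal_mul (by positivity)]
  have red : ∀ X : ℝ, ∫⁻ u in Metric.ball z s, ENNReal.ofReal (gam hb u1 u2 u) ≤ ENNReal.ofReal (Real.pi * X) →
      X ≤ s^2 * Bf R σ ψ z → ∫⁻ u in Metric.ball z s, ENNReal.ofReal (gam hb u1 u2 u) ≤
      ENNReal.ofReal (Real.pi * s^2 * Bf R σ ψ z) := by
    intro X h1 h2
    refine h1.trans (ENNReal.ofReal_le_ofReal ?_)
    rw [mul_assoc]
    gcongr
  by_cases htail : (hz z).re < 97/100 * R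
  · -- tail
    have hc := crude hb hu z1 hs2
    rw [mul_assoc] at hc
    apply red _ hc
    unfold Bf
    rw [if_pos htail]
    have h1 : 6/100 / ‖hz z‖^2 ≤ 480 * R^2 / σ * s := by
      rw [hs]
      have : 480 * R^2 / σ * (σ/(2000*R^2)) = 24/100 := by
        field_simp; norm_num
      rw [this, div_le_iff₀ (by positivity)]
      have : 1/4 ≤ ‖hz z‖^2 := by nlinarith
      linarith
    have h1' : (6/100 / ‖hz z‖^2)^2 ≤ (480 * R^2 / σ * s)^2 := by
      apply pow_le_pow_left₀ (by positivity) h1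
    have h2 : (480 * R^2 / σ * s)^2 = s^2 * (230400 * (R^4 / σ^2)) := by
      field_simp; ring
    rw [h2] at h1'
    calc (6/100 / ‖hz z‖^2)^2 * (2 * Real.exp 84 * Real.exp (Zc z).re)
        ≤ s^2 * (230400 * (R^4 / σ^2)) * (2 * Real.exp 84 * Real.exp (Zc z).re) := by gcongr
      _ = s^2 * (460800 * Real.exp 84 * (R^4 / σ^2 * Real.exp (Zc z).re)) := by ring
      _ ≤ s^2 * (10^6 * Real.exp 84 * (R^4 / σ^2 * Real.exp (Zc z).re)) := by
          gcongr; norm_num
      _ ≤ s^2 * (K3 * ((σ + ψ (Zc z).im / σ^2 + R^4 / σ^2 * 1) * Real.exp (Zc z).re + (|(Zc z).im| + 14)^2)) := by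
          unfold K3
          gcongr
          have : 0 ≤ (σ + ψ (Zc z).im / σ^2) * Real.exp (Zc z).re := by positivity
          linarith
  · push Not at htail
    have hre100 : 100 ≤ (hz z).re := by linarith
    have hnz : 97/100 * R ≤ ‖hz z‖ := htail.trans (Complex.re_le_norm _)
    have hnz2 : (97/100 * R)^2 ≤ ‖hz z‖^2 := pow_le_pow_left₀ (by positivity) hnz 2
    rcases hM with hM | hM | hM
    · exfalso; linarith [q6.1]
    · obtain ⟨k, hk, hk2⟩ := hM
      have hψ1 : 1 ≤ ψ (Zc z).im := by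
        apply hψ _ k hk
        rw [abs_le] at hk2 ⊢
        constructor <;> linarith [q7.1, q7.2]
      have hc := crude hb hu z1 hs2
      rw [mul_assoc] at hc
      apply red _ hc
      unfold Bf
      rw [if_neg (not_lt.2 htail), mul_zero, add_zero]
      have h1 : 6/100 / ‖hz z‖^2 ≤ 130 / σ * s := by
        rw [hs]
        have : 130 / σ * (σ/(2000*R^2)) = (65/1000) / R^2 := by
          field_simp; norm_num
        rw [this, div_le_div_iff₀ (by positivity) (by positivity)]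
        nlinarith
      have h1' : (6/100 / ‖hz z‖^2)^2 ≤ (130 / σ * s)^2 := by
        apply pow_le_pow_left₀ (by positivity) h1
      have h2 : (130 / σ * s)^2 = s^2 * (16900 * (1 / σ^2)) := by
        field_simp; ring
      rw [h2] at h1'
      calc (6/100 / ‖hz z‖^2)^2 * (2 * Real.exp 84 * Real.exp (Zc z).re)
          ≤ s^2 * (16900 * (1 / σ^2)) * (2 * Real.exp 84 * Real.exp (Zc z).re) := by gcongr
        _ = s^2 * (33800 * Real.exp 84 * (1 / σ^2 * Real.exp (Zc z).re)) := by ring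
        _ ≤ s^2 * (10^6 * Real.exp 84 * (ψ (Zc z).im / σ^2 * Real.exp (Zc z).re)) := by
            gcongr; norm_num
        _ ≤ s^2 * (K3 * ((σ + ψ (Zc z).im / σ^2) * Real.exp (Zc z).re + (|(Zc z).im| + 14)^2)) := by
            unfold K3
            gcongr
            have : 0 ≤ σ * Real.exp (Zc z).re := by positivity
            linarith
    · obtain ⟨k, hk⟩ := hM
      have hzo := zone hb hu z1 hre100 hσ0 (by linarith) hs1 (k := k) (by
        rw [abs_le] at hk ⊢
        constructor <;> linarith [q7.1, q7.2])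
        (by
          have := hbig z z1 hzn (by linarith)
          nlinarith)
      rw [mul_assoc] at hzo
      apply red _ hzo
      unfold Bf
      rw [if_neg (not_lt.2 htail), mul_zero, add_zero]
      have h1 : 7/100 * σ / ‖hz z‖^2 ≤ 150 * s := by
        rw [hs]
        have : 150 * (σ/(2000*R^2)) = (75/1000) * σ / R^2 := by
          field_simp; norm_num
        rw [this, div_le_div_iff₀ (by positivity) (by positivity)]
        have : σ * (97/100 * R)^2 ≤ σ * ‖hz z‖^2 := by gcongr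
        nlinarith [mul_pos hσ0 (pow_pos hRp 2)]
      have h1' : (7/100 * σ / ‖hz z‖^2)^2 ≤ (150 * s)^2 := by
        apply pow_le_pow_left₀ (by positivity) h1
      have h2 : (150 * s)^2 = s^2 * 22500 := by ring
      rw [h2] at h1'
      calc (7/100 * σ / ‖hz z‖^2)^2 * (21 * σ * Real.exp (Zc z).re + (|(Zc z).im| + 14)^2)
          ≤ s^2 * 22500 * (21 * σ * Real.exp (Zc z).re + (|(Zc z).im| + 14)^2) := by gcongr
        _ = s^2 * (22500 * (21 * σ * Real.exp (Zc z).re + (|(Zc z).im| + 14)^2)) := by ring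
        _ ≤ s^2 * (10^6 * 1 * (σ * Real.exp (Zc z).re + (|(Zc z).im| + 14)^2)) := by
            gcongr _ * ?_
            have : 0 ≤ σ * Real.exp (Zc z).re := by positivity
            nlinarith
        _ ≤ s^2 * (10^6 * Real.exp 84 * (σ * Real.exp (Zc z).re + (|(Zc z).im| + 14)^2)) := by
            gcongr
        _ ≤ s^2 * (K3 * ((σ + ψ (Zc z).im / σ^2) * Real.exp (Zc z).re + (|(Zc z).im| + 14)^2)) := by
            unfold K3
            gcongr
            have : 0 ≤ ψ (Zc z).im / σ^2 := by positivity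
            linarith

end unit

omit hb in
lemma circ_norm {r : ℝ} (h0 : 0 < r) (θ : ℝ) : ‖circleMap 0 r θ‖ = r := by
  simp [abs_of_pos h0]

omit hb in
lemma Zf_circ_cont {r : ℝ} (h0 : 0 < r) (h1 : r < 1) : Continuous (fun θ : ℝ => Zc (circleMap 0 r θ)) := by
  rw [continuous_iff_continuousAt]
  intro θ
  have : ContinuousAt Zc (circleMap 0 r θ) := by
    apply (Zc_diff _).continuousAt
    have := hz_re (z := circleMap 0 r θ) (by rw [circ_norm h0]; exact h1)
    linarith
  exact ContinuousAt.comp (f := fun θ : ℝ => circleMap 0 r θ) this (continuous_circleMap 0 r).continuousAt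

omit hb in
lemma Ef_comp {R σ : ℝ} (hR : 200 ≤ R) (hσ0 : 0 < σ) (hσ : σ ≤ 1/1000) {r r' : ℝ}
    (h1 : 1 - 1/R - σ/(2000*R^2) < r) (h2 : r < 1 - 1/R + σ/(4*R^2) + σ/(2000*R^2))
    (h1' : 1 - 1/R - σ/(2000*R^2) < r') (h2' : r' < 1 - 1/R + σ/(4*R^2) + σ/(2000*R^2)) :
    Ef r' ≤ 3 * Ef r := by
  have hRp : 0 < R := by linarith
  have hpi := Real.pi_pos
  obtain ⟨z0, z1, z2, z3⟩ := window hR hσ0 hσ h1 h2
  obtain ⟨z0', z1', z2', z3'⟩ := window hR hσ0 hσ h1' h2'
  unfold Ef
  rw [← intervalIntegral.integral_const_mul]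
  have c1 : Continuous (fun θ : ℝ => Real.exp (Zf (circleMap 0 r θ)).re) := by
    have := Zf_circ_cont z0 z1
    have h3 : (fun θ : ℝ => Real.exp (Zf (circleMap 0 r θ)).re) =
        fun θ : ℝ => Real.exp ((Zc (circleMap 0 r θ)).re - CC) := by
      funext θ; rw [Zc_re]; ring_nf
    rw [h3]
    exact Real.continuous_exp.comp ((Complex.continuous_re.comp this).sub continuous_const)
  have c2 : Continuous (fun θ : ℝ => Real.exp (Zf (circleMap 0 r' θ)).re) := by
    have := Zf_circ_cont z0' z1'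
    have h3 : (fun θ : ℝ => Real.exp (Zf (circleMap 0 r' θ)).re) =
        fun θ : ℝ => Real.exp ((Zc (circleMap 0 r' θ)).re - CC) := by
      funext θ; rw [Zc_re]; ring_nf
    rw [h3]
    exact Real.continuous_exp.comp ((Complex.continuous_re.comp this).sub continuous_const)
  apply intervalIntegral.integral_mono_on (by linarith) (c2.intervalIntegrable _ _)
    ((continuous_const.mul c1).intervalIntegrable _ _)
  intro θ _
  set z := circleMap 0 r θ with hz0
  set w := circleMap 0 r' θ with hw0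
  have hzn : ‖z‖ < 1 := by rw [hz0, circ_norm z0]; exact z1
  have hn := (hz_norm_le hzn)
  rw [hz0, circ_norm z0, ← hz0] at hn
  have hzg := hz_norm_ge hzn
  have hzp : 0 < ‖hz z‖ := by linarith
  have hd : ‖w - z‖ ≤ σ / ‖hz z‖^2 := by
    have e1 : w - z = ((r' - r : ℝ) : ℂ) * exp (θ * I) := by
      rw [hz0, hw0]; simp [circleMap]; ring
    rw [e1, norm_mul, norm_exp_ofReal_mul_I, mul_one, norm_real, Real.norm_eq_abs]
    have e2 : |r' - r| ≤ σ / (2 * R^2) := by
      have e3 : σ/(4*R^2) + 2 * (σ/(2000*R^2)) ≤ σ / (2 * R^2) := by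
        have : σ/(4*R^2) + 2 * (σ/(2000*R^2)) = (251/1000) * (σ/R^2) := by field_simp; ring
        rw [this]
        have : σ / (2 * R^2) = (1/2) * (σ/R^2) := by field_simp
        rw [this]
        have : 0 < σ / R^2 := by positivity
        linarith
      rw [abs_le]; constructor <;> linarith
    refine e2.trans ?_
    rw [div_le_div_iff₀ (by positivity) (by positivity)]
    have h3 : ‖hz z‖^2 ≤ (R+1)^2 := by gcongr; linarith
    have h4 : (R+1)^2 ≤ 2 * R^2 := by nlinarith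
    have : σ * ‖hz z‖^2 ≤ σ * (2 * R^2) := by gcongr; linarith
    linarith
  obtain ⟨-, q⟩ := geo_near' hzn (a := σ) (by linarith) hd
  have q2 := Complex.abs_re_le_norm (Zf w - Zf z)
  rw [sub_re] at q2
  have q3 := (le_abs_self _).trans q2
  have e3 : Real.exp 1 ≤ 3 := by have := Real.exp_one_lt_d9; linarith
  calc Real.exp (Zf w).re ≤ Real.exp (1 + (Zf z).re) := by
        apply Real.exp_le_exp.2; linarith
    _ = Real.exp 1 * Real.exp (Zf z).re := Real.exp_add _ _
    _ ≤ 3 * Real.exp (Zf z).re := by gcongr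

end Pool.Agent.H343N
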