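import Mathlib
import Pool.Agent.Helper343.NP6

set_option autoImplicit false
set_option maxHeartbeats 4000000
open Filter Topology Complex MeasureTheory Set

namespace Pool.Agent.H343N

lemma Ef_pos {r : ℝ} (h0 : 0 < r) (h1 : r < 1) : 0 < Ef r := by
  unfold Ef
  have hpi := Real.pi_pos
  apply intervalIntegral.intervalIntegral_pos_of_pos
  · have := Zf_circ_cont h0 h1
    have h3 : (fun θ : ℝ => Real.exp (Zf (circleMap 0 r θ)).re) =
        fun θ : ℝ => Real.exp ((Zc (circleMap 0 r θ)).re - CC) := by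
      funext θ; rw [Zc_re]; ring_nf
    rw [h3]
    exact (Real.continuous_exp.comp ((Complex.continuous_re.comp this).sub continuous_const)).intervalIntegrable _ _
  · intro θ; exact Real.exp_pos _
  · linarith

lemma y_bound {r : ℝ} (h0 : 0 < r) (h1 : r < 1) (θ : ℝ) :
    (|(Zc (circleMap 0 r θ)).im| + 14)^2 ≤ 264196 * (1/(1-r))^2 := by
  have hn : ‖circleMap 0 r θ‖ < 1 := by rw [circ_norm h0]; exact h1
  have a1 := Zf_im_le (circleMap 0 r θ)
  have a2 := hz_norm_le hn
  rw [circ_norm h0] at a2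
  have a3 : 1 ≤ 1/(1-r) := by rw [le_div_iff₀ (by linarith)]; linarith
  rw [Zc_im]
  have a4 : |(Zf (circleMap 0 r θ)).im| + 14 ≤ 514 * (1/(1-r)) := by linarith
  have a5 := abs_nonneg (Zf (circleMap 0 r θ)).im
  calc (|(Zf (circleMap 0 r θ)).im| + 14)^2 ≤ (514 * (1/(1-r)))^2 := by gcongr
    _ = _ := by ring

lemma Zc_meas : Measurable Zc := by
  unfold Zc Zf
  have h1 : Measurable (fun z : ℂ => (1 - z)⁻¹) := (measurable_const.sub measurable_id).inv
  exact ((h1.add (Complex.measurable_log.comp h1)).const_mul 100).add_const _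

lemma hz_meas : Measurable hz := by
  unfold hz
  exact (measurable_const.sub measurable_id).inv

lemma Bf_meas {R σ : ℝ} {ψ : ℝ → ℝ} (hψ : Continuous ψ) : Measurable (Bf R σ ψ) := by
  unfold Bf
  have h1 : Measurable (fun z : ℂ => (Zc z).im) := Complex.measurable_im.comp Zc_meas
  have h2 : Measurable (fun z : ℂ => (Zc z).re) := Complex.measurable_re.comp Zc_meas
  have h3 : Measurable (fun z : ℂ => (hz z).re) := Complex.measurable_re.comp hz_meas
  have h4 : Measurable (fun z : ℂ => if (hz z).re < 97/100 * R then (1:ℝ) else 0) :=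
    Measurable.ite (measurableSet_lt h3 measurable_const) measurable_const measurable_const
  have h5 : Measurable (fun z : ℂ => ψ (Zc z).im) := hψ.measurable.comp h1
  fun_prop

variable {b : ℕ → Option ℂ} (hb : Good b)
include hb

lemma w1_cont : ContinuousOn (fun z => w1 hb (Zc z)) (Metric.ball 0 1) := by
  intro z hz'
  rw [mem_ball_zero_iff] at hz'
  have h1 : 1/4 < (hz z).re := by linarith [hz_re hz']
  exact ((w1_diff hb (HO_Zc h1)).comp z (Zc_diff h1)).continuousAt.continuousWithinAt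

lemma w2_cont : ContinuousOn (fun z => w2 hb (Zc z)) (Metric.ball 0 1) := by
  intro z hz'
  rw [mem_ball_zero_iff] at hz'
  have h1 : 1/4 < (hz z).re := by linarith [hz_re hz']
  exact ((w2_diff hb (HO_Zc h1)).comp z (Zc_diff h1)).continuousAt.continuousWithinAt

noncomputable def gm (u1 u2 : ℂ) : ℂ → ENNReal :=
  (Metric.ball (0:ℂ) 1).indicator (fun z => ENNReal.ofReal (gam hb u1 u2 z))

lemma gm_meas (u1 u2 : ℂ) : Measurable (gm hb u1 u2) := by
  classical
  have m1 : Measurable ((Metric.ball (0:ℂ) 1).piecewise (fun z => w1 hb (Zc z)) (fun _ => 0)) :=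
    (w1_cont hb).measurable_piecewise continuousOn_const measurableSet_ball
  have m2 : Measurable ((Metric.ball (0:ℂ) 1).piecewise (fun z => w2 hb (Zc z)) (fun _ => 0)) :=
    (w2_cont hb).measurable_piecewise continuousOn_const measurableSet_ball
  set W1 := (Metric.ball (0:ℂ) 1).piecewise (fun z => w1 hb (Zc z)) (fun _ => 0) with hW1
  set W2 := (Metric.ball (0:ℂ) 1).piecewise (fun z => w2 hb (Zc z)) (fun _ => 0) with hW2
  have e : gm hb u1 u2 = (Metric.ball (0:ℂ) 1).indicator (fun z => ENNReal.ofReal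
      (Real.log (Real.sqrt (‖W1 z‖^2 + ‖W2 z‖^2)) - Real.log ‖W1 z * u2 - W2 z * u1‖)) := by
    unfold gm
    apply indicator_congr
    intro z hz'
    have e1 : W1 z = w1 hb (Zc z) := by rw [hW1, piecewise_eq_of_mem _ _ _ hz']
    have e2 : W2 z = w2 hb (Zc z) := by rw [hW2, piecewise_eq_of_mem _ _ _ hz']
    simp only [gam, nrm, dd, e1, e2]
  rw [e]
  apply Measurable.indicator _ measurableSet_ball
  apply ENNReal.measurable_ofReal.comp
  apply Measurable.sub
  · exact Real.measurable_log.comp ((m1.norm.pow_const 2).add (m2.norm.pow_const 2)).sqrt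
  · exact Real.measurable_log.comp ((m1.mul_const u2).sub (m2.mul_const u1)).norm

section unit
variable {u1 u2 : ℂ} (hu : ‖u1‖^2 + ‖u2‖^2 = 1)
include hu

/-- the exceptional set on the window -/
def MM (b : ℕ → Option ℂ) (u1 u2 : ℂ) (R σ : ℝ) : Set ℂ :=
  {w | (1 - 1/R < ‖w‖ ∧ ‖w‖ < 1 - 1/R + σ/(4*R^2)) ∧
    ((hz w).re < 95/100 * R ∨ (∃ k : ℤ, k.natAbs ∈ B0 b u1 u2 ∧ |(Zc w).im - k * Real.pi| ≤ Real.pi / 2) ∨
      (∃ k : ℤ, |(Zc w).im - (k + 1/2) * Real.pi| ≤ σ))}

omit hb in
omit hu in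
lemma MM_meas (R σ : ℝ) : MeasurableSet (MM b u1 u2 R σ) := by
  have h1 : Measurable (fun z : ℂ => (Zc z).im) := Complex.measurable_im.comp Zc_meas
  have h3 : Measurable (fun z : ℂ => (hz z).re) := Complex.measurable_re.comp hz_meas
  unfold MM
  apply MeasurableSet.inter
  · exact (measurableSet_lt measurable_const measurable_norm).inter
      (measurableSet_lt measurable_norm measurable_const)
  · apply MeasurableSet.union
    · exact measurableSet_lt h3 measurable_const
    · apply MeasurableSet.union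
      · have : {w : ℂ | ∃ k : ℤ, k.natAbs ∈ B0 b u1 u2 ∧ |(Zc w).im - k * Real.pi| ≤ Real.pi / 2} =
            ⋃ k : ℤ, {w : ℂ | k.natAbs ∈ B0 b u1 u2 ∧ |(Zc w).im - k * Real.pi| ≤ Real.pi / 2} := by
          ext w; simp
        have hh : MeasurableSet {w : ℂ | ∃ k : ℤ, k.natAbs ∈ B0 b u1 u2 ∧ |(Zc w).im - k * Real.pi| ≤ Real.pi / 2} := by
          rw [this]
          apply MeasurableSet.iUnion
          intro k
          apply MeasurableSet.inter (MeasurableSet.const _)
          exact measurableSet_le (h1.sub_const _).abs measurable_const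
        exact hh
      · have : {w : ℂ | ∃ k : ℤ, |(Zc w).im - (k + 1/2) * Real.pi| ≤ σ} =
            ⋃ k : ℤ, {w : ℂ | |(Zc w).im - (k + 1/2) * Real.pi| ≤ σ} := by
          ext w; simp
        have hh : MeasurableSet {w : ℂ | ∃ k : ℤ, |(Zc w).im - (k + 1/2) * Real.pi| ≤ σ} := by
          rw [this]
          apply MeasurableSet.iUnion
          intro k
          exact measurableSet_le (h1.sub_const _).abs measurable_const
        exact hh

/-- pointwise bound off the exceptional set -/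
lemma off_MM {R σ : ℝ} (hR : 200 ≤ R) (hσ0 : 0 < σ) (hσ : σ ≤ 1/1000)
    (hbig : ∀ z : ℂ, ‖z‖ < 1 → ‖hz z‖ ≤ R + 1 → 95/100 * R ≤ (hz z).re →
      (|(Zc z).im| + 14)^2 + 3 ≤ (σ/2) * Real.exp (Zc z).re)
    {z : ℂ} (h1 : 1 - 1/R < ‖z‖) (h2 : ‖z‖ < 1 - 1/R + σ/(4*R^2)) :
    gm hb u1 u2 z ≤ ENNReal.ofReal (2 * (Real.exp (Zc z).re * psiS (S0 b u1 u2) (Zc z).im)
      + 2 * (|(Zc z).im| + 14)^2) + (MM b u1 u2 R σ).indicator (gm hb u1 u2) z := by
  by_cases hM : z ∈ MM b u1 u2 R σ
  · rw [indicator_of_mem hM]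
    exact le_add_self
  · have hRp : 0 < R := by linarith
    have hsp : 0 < σ/(2000*R^2) := by positivity
    obtain ⟨z0, z1, z2, z3⟩ := window hR hσ0 hσ (x := ‖z‖) (by linarith) (by linarith)
    rw [indicator_of_notMem hM, add_zero]
    unfold gm
    rw [indicator_of_mem (mem_ball_zero_iff.2 z1)]
    apply ENNReal.ofReal_le_ofReal
    have hM' : ¬ ((hz z).re < 95/100 * R ∨ (∃ k : ℤ, k.natAbs ∈ B0 b u1 u2 ∧ |(Zc z).im - k * Real.pi| ≤ Real.pi / 2) ∨
      (∃ k : ℤ, |(Zc z).im - (k + 1/2) * Real.pi| ≤ σ)) := fun h => hM ⟨⟨h1, h2⟩, h⟩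
    push Not at hM'
    obtain ⟨m1, m2, m3⟩ := hM'
    exact gam_upper hb hu z1 hσ0 (by linarith) m3 m2 (hbig z z1 ((hz_norm_le z1).trans z2) m1)

end unit

end Pool.Agent.H343N
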