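import Mathlib
import Pool.Agent.Helper343.NP7
import Pool.Agent.Helper343.NJ2

set_option autoImplicit false
set_option maxHeartbeats 4000000
open Filter Topology Complex MeasureTheory Set

namespace Pool.Agent.H343N

lemma lint {g : ℝ → ℝ} (hg : IntervalIntegrable g volume (-Real.pi) Real.pi) (h0 : ∀ θ, 0 ≤ g θ) :
    ∫⁻ θ in Ioo (-Real.pi) Real.pi, ENNReal.ofReal (g θ) = ENNReal.ofReal (∫ θ in (-Real.pi)..Real.pi, g θ) := by
  have hpi := Real.pi_pos
  rw [intervalIntegral.integral_of_le (by linarith), integral_Ioc_eq_integral_Ioo]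
  rw [ofReal_integral_eq_lintegral_ofReal]
  · rw [intervalIntegrable_iff_integrableOn_Ioo_of_le (by linarith)] at hg
    exact hg
  · exact ae_of_all _ h0

lemma Zf_cont' {r : ℝ} (h0 : 0 < r) (h1 : r < 1) : Continuous (fun θ : ℝ => Zf (circleMap 0 r θ)) := by
  have := Zf_circ_cont h0 h1
  have e : (fun θ : ℝ => Zf (circleMap 0 r θ)) = fun θ : ℝ => Zc (circleMap 0 r θ) - CC := by
    funext θ; unfold Zc; ring
  rw [e]
  exact this.sub continuous_const

lemma e_cont {r : ℝ} (h0 : 0 < r) (h1 : r < 1) :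
    Continuous (fun θ : ℝ => Real.exp (Zf (circleMap 0 r θ)).re) :=
  Real.continuous_exp.comp (Complex.continuous_re.comp (Zf_cont' h0 h1))

lemma yi_cont {r : ℝ} (h0 : 0 < r) (h1 : r < 1) :
    Continuous (fun θ : ℝ => (Zf (circleMap 0 r θ)).im) :=
  Complex.continuous_im.comp (Zf_cont' h0 h1)

lemma exp_Zc (z : ℂ) : Real.exp (Zc z).re = Real.exp CC * Real.exp (Zf z).re := by
  rw [Zc_re, ← Real.exp_add]; ring_nf

lemma K0_ge : 1 ≤ Real.exp CC := by
  apply Real.one_le_exp
  unfold CC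
  positivity

lemma y_int {r : ℝ} (h0 : 0 < r) (h1 : r < 1) :
    ∫ θ in (-Real.pi)..Real.pi, (|(Zf (circleMap 0 r θ)).im| + 14)^2 ≤ 1665000 * (1/(1-r))^2 := by
  have hpi := Real.pi_pos
  have hpi2 := Real.pi_lt_d2
  have hc : Continuous (fun θ : ℝ => (|(Zf (circleMap 0 r θ)).im| + 14)^2) := by
    have := yi_cont h0 h1
    fun_prop
  have h2 : ∫ θ in (-Real.pi)..Real.pi, (|(Zf (circleMap 0 r θ)).im| + 14)^2 ≤
      ∫ θ in (-Real.pi)..Real.pi, 264196 * (1/(1-r))^2 := by
    apply intervalIntegral.integral_mono_on (by linarith) (hc.intervalIntegrable _ _)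
      (continuous_const.intervalIntegrable _ _)
    intro θ _
    have := y_bound h0 h1 θ
    rwa [Zc_im] at this
  rw [intervalIntegral.integral_const, smul_eq_mul] at h2
  refine h2.trans ?_
  have : 0 ≤ (1/(1-r))^2 := by positivity
  nlinarith

structure Pr (ψ : ℝ → ℝ) (S : Set ℕ) (A1 σ η : ℝ) (r : ℝ) : Prop where
  p1 : ∫ θ in (-Real.pi)..Real.pi, Real.exp (Zf (circleMap 0 r θ)).re * psiS S (Zf (circleMap 0 r θ)).im ≤ A1 * Ef r
  p2 : ∫ θ in (-Real.pi)..Real.pi, Real.exp (Zf (circleMap 0 r θ)).re * ψ (Zf (circleMap 0 r θ)).im ≤ σ^3 * Ef r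
  p3 : (1 / (1 - r)) ^ 4 * (∫ θ in (-Real.pi)..Real.pi,
        (if ((1 - circleMap 0 r θ)⁻¹).re < (98/100) * (1 / (1 - r)) then
          Real.exp (Zf (circleMap 0 r θ)).re else 0)) ≤ σ^3/16 * Ef r
  p4 : (1/(1-r))^2 ≤ η * Ef r

lemma psiS_nonneg (S : Set ℕ) (y : ℝ) : 0 ≤ psiS S y := by
  unfold psiS
  split_ifs
  · exact abs_nonneg _
  · exact le_refl _

lemma main_int {ψ : ℝ → ℝ} {S : Set ℕ} {D ε σ η r : ℝ} (h0 : 0 < r) (h1 : r < 1) (hε : 0 < ε)
    (hP : Pr ψ S (2 * D / Real.pi + ε / 8) σ η r) (hη : η ≤ ε / 10^8) :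
    ∫⁻ θ in Ioo (-Real.pi) Real.pi, ENNReal.ofReal (2 * (Real.exp (Zc (circleMap 0 r θ)).re *
      psiS S (Zc (circleMap 0 r θ)).im) + 2 * (|(Zc (circleMap 0 r θ)).im| + 14)^2) ≤
    ENNReal.ofReal ((4 * D / Real.pi + ε / 2) * (Real.exp CC * Ef r)) := by
  have hE := Ef_pos h0 h1
  have hK := K0_ge
  have ye := yi_cont h0 h1
  have ee := e_cont h0 h1
  have pc := (J5.psiS_cont S).comp ye
  have c1 : Continuous (fun θ : ℝ => Real.exp (Zf (circleMap 0 r θ)).re * psiS S (Zf (circleMap 0 r θ)).im) :=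
    ee.mul pc
  have c2 : Continuous (fun θ : ℝ => (|(Zf (circleMap 0 r θ)).im| + 14)^2) := by fun_prop
  simp only [exp_Zc, Zc_im]
  rw [lint]
  · apply ENNReal.ofReal_le_ofReal
    have e1 : (fun θ : ℝ => 2 * (Real.exp CC * Real.exp (Zf (circleMap 0 r θ)).re * psiS S (Zf (circleMap 0 r θ)).im)
        + 2 * (|(Zf (circleMap 0 r θ)).im| + 14)^2) =
        fun θ : ℝ => (2 * Real.exp CC) * (Real.exp (Zf (circleMap 0 r θ)).re * psiS S (Zf (circleMap 0 r θ)).im)
          + 2 * (|(Zf (circleMap 0 r θ)).im| + 14)^2 := by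
      funext θ; ring
    rw [e1, intervalIntegral.integral_add ((c1.intervalIntegrable _ _).const_mul _)
      ((c2.intervalIntegrable _ _).const_mul _), intervalIntegral.integral_const_mul,
      intervalIntegral.integral_const_mul]
    have h3 := hP.p1
    have h4 := y_int h0 h1
    have h5 := hP.p4
    have h6 : η * Ef r ≤ ε / 10^8 * Ef r := by gcongr
    have h7 : Ef r ≤ Real.exp CC * Ef r := by nlinarith
    have h8 : 2 * Real.exp CC * (∫ θ in (-Real.pi)..Real.pi, Real.exp (Zf (circleMap 0 r θ)).re *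
        psiS S (Zf (circleMap 0 r θ)).im) ≤ 2 * Real.exp CC * ((2 * D / Real.pi + ε / 8) * Ef r) := by gcongr
    have h9 : 2 * (∫ θ in (-Real.pi)..Real.pi, (|(Zf (circleMap 0 r θ)).im| + 14)^2) ≤ (ε/4) * (Real.exp CC * Ef r) := by
      calc _ ≤ 2 * (1665000 * (ε / 10^8 * Ef r)) := by linarith
        _ ≤ (ε/4) * (Ef r) := by
            have : 0 < ε * Ef r := by positivity
            nlinarith
        _ ≤ _ := by gcongr
    calc _ ≤ 2 * Real.exp CC * ((2 * D / Real.pi + ε / 8) * Ef r) + (ε/4) * (Real.exp CC * Ef r) := add_le_add h8 h9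
      _ = _ := by ring
  · exact Continuous.intervalIntegrable (by
      have : Continuous (fun θ : ℝ => (2 * Real.exp CC) * (Real.exp (Zf (circleMap 0 r θ)).re * psiS S (Zf (circleMap 0 r θ)).im)
          + 2 * (|(Zf (circleMap 0 r θ)).im| + 14)^2) := by fun_prop
      refine this.congr ?_
      intro θ; ring) _ _
  · intro θ
    have := psiS_nonneg S (Zf (circleMap 0 r θ)).im
    positivity

lemma Bf_int {ψ : ℝ → ℝ} {S : Set ℕ} {A1 σ η r R : ℝ} (h0 : 0 < r) (h1 : r < 1) (hσ : 0 < σ)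
    (hP : Pr ψ S A1 σ η r) (hη : η ≤ σ / 10^8) (hψc : Continuous ψ) (hψ0 : ∀ y, 0 ≤ ψ y)
    (hR : 200 ≤ R) (hRr : R - 1 ≤ 1/(1-r)) :
    ∫⁻ θ in Ioo (-Real.pi) Real.pi, ENNReal.ofReal (Bf R σ ψ (circleMap 0 r θ)) ≤
    ENNReal.ofReal (4 * K3 * σ * (Real.exp CC * Ef r)) := by
  have hE := Ef_pos h0 h1
  have hK := K0_ge
  have hK3 := K3_pos
  have ye := yi_cont h0 h1
  have ee := e_cont h0 h1
  have pc := hψc.comp ye
  have hpi := Real.pi_pos
  have c1 : Continuous (fun θ : ℝ => Real.exp (Zf (circleMap 0 r θ)).re * ψ (Zf (circleMap 0 r θ)).im) :=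
    ee.mul pc
  have c2 : Continuous (fun θ : ℝ => (|(Zf (circleMap 0 r θ)).im| + 14)^2) := by fun_prop
  -- the tail
  have mcirc : Measurable (fun θ : ℝ => circleMap 0 r θ) := (continuous_circleMap 0 r).measurable
  have tl : ∀ X : ℝ, IntervalIntegrable (fun θ : ℝ => if (hz (circleMap 0 r θ)).re < X then
      Real.exp (Zf (circleMap 0 r θ)).re else 0) volume (-Real.pi) Real.pi := by
    intro X
    have hm : MeasurableSet {θ : ℝ | (hz (circleMap 0 r θ)).re < X} :=
      measurableSet_lt (Complex.measurable_re.comp (hz_meas.comp mcirc)) measurable_const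
    have e : (fun θ : ℝ => if (hz (circleMap 0 r θ)).re < X then
      Real.exp (Zf (circleMap 0 r θ)).re else 0) = {θ : ℝ | (hz (circleMap 0 r θ)).re < X}.indicator
        (fun θ : ℝ => Real.exp (Zf (circleMap 0 r θ)).re) := by
      funext θ
      by_cases h : (hz (circleMap 0 r θ)).re < X
      · rw [if_pos h, indicator_of_mem (show θ ∈ {θ : ℝ | (hz (circleMap 0 r θ)).re < X} from h)]
      · rw [if_neg h, indicator_of_notMem (show θ ∉ {θ : ℝ | (hz (circleMap 0 r θ)).re < X} from h)]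
    rw [e, intervalIntegrable_iff]
    have := (ee.intervalIntegrable (μ := volume) (-Real.pi) Real.pi)
    rw [intervalIntegrable_iff] at this
    exact this.indicator hm
  have tle : (∫ θ in (-Real.pi)..Real.pi, (if (hz (circleMap 0 r θ)).re < 97/100 * R then
      Real.exp (Zf (circleMap 0 r θ)).re else 0)) ≤ (∫ θ in (-Real.pi)..Real.pi,
        (if ((1 - circleMap 0 r θ)⁻¹).re < (98/100) * (1 / (1 - r)) then
          Real.exp (Zf (circleMap 0 r θ)).re else 0)) := by
    apply intervalIntegral.integral_mono_on (by linarith) (tl _) (tl _)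
    intro θ _
    show (if (hz (circleMap 0 r θ)).re < 97/100 * R then
      Real.exp (Zf (circleMap 0 r θ)).re else 0) ≤ (if (hz (circleMap 0 r θ)).re < 98/100 * (1/(1-r)) then
      Real.exp (Zf (circleMap 0 r θ)).re else 0)
    by_cases h : (hz (circleMap 0 r θ)).re < 97/100 * R
    · rw [if_pos h, if_pos (by linarith)]
    · rw [if_neg h]
      split_ifs
      · positivity
      · exact le_refl _
  have h1r : 0 < 1/(1-r) := by
    have : 0 < 1 - r := by linarith
    positivity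
  have tle2 : R^4 / σ^2 * (∫ θ in (-Real.pi)..Real.pi, (if (hz (circleMap 0 r θ)).re < 97/100 * R then
      Real.exp (Zf (circleMap 0 r θ)).re else 0)) ≤ σ * Ef r := by
    set T := ∫ θ in (-Real.pi)..Real.pi,
        (if ((1 - circleMap 0 r θ)⁻¹).re < (98/100) * (1 / (1 - r)) then
          Real.exp (Zf (circleMap 0 r θ)).re else 0) with hT
    have hT0 : 0 ≤ T := by
      apply intervalIntegral.integral_nonneg (by linarith)
      intro θ _
      split_ifs
      · positivity
      · exact le_refl _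
    have h3 := hP.p3
    rw [← hT] at h3
    have h4 : R^4 ≤ 16 * (1/(1-r))^4 := by
      have : (R/2)^4 ≤ (1/(1-r))^4 := by
        apply pow_le_pow_left₀ (by linarith)
        linarith
      nlinarith
    calc _ ≤ R^4 / σ^2 * T := by gcongr
      _ ≤ (16 * (1/(1-r))^4) / σ^2 * T := by gcongr
      _ = (16/σ^2) * ((1/(1-r))^4 * T) := by ring
      _ ≤ (16/σ^2) * (σ^3/16 * Ef r) := by gcongr
      _ = σ * Ef r := by field_simp
  have eB : ∀ θ : ℝ, Bf R σ ψ (circleMap 0 r θ) = (K3 * σ * Real.exp CC) * Real.exp (Zf (circleMap 0 r θ)).re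
      + (K3 * Real.exp CC / σ^2) * (Real.exp (Zf (circleMap 0 r θ)).re * ψ (Zf (circleMap 0 r θ)).im)
      + (K3 * Real.exp CC * (R^4/σ^2)) * (if (hz (circleMap 0 r θ)).re < 97/100 * R then
      Real.exp (Zf (circleMap 0 r θ)).re else 0)
      + K3 * (|(Zf (circleMap 0 r θ)).im| + 14)^2 := by
    intro θ
    unfold Bf
    rw [exp_Zc, Zc_im]
    split_ifs <;> ring
  have i1 : IntervalIntegrable (fun θ : ℝ => (K3 * σ * Real.exp CC) * Real.exp (Zf (circleMap 0 r θ)).re) volume (-Real.pi) Real.pi :=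
    (ee.intervalIntegrable _ _).const_mul _
  have i2 : IntervalIntegrable (fun θ : ℝ => (K3 * Real.exp CC / σ^2) * (Real.exp (Zf (circleMap 0 r θ)).re * ψ (Zf (circleMap 0 r θ)).im)) volume (-Real.pi) Real.pi :=
    (c1.intervalIntegrable _ _).const_mul _
  have i3 : IntervalIntegrable (fun θ : ℝ => (K3 * Real.exp CC * (R^4/σ^2)) * (if (hz (circleMap 0 r θ)).re < 97/100 * R then
      Real.exp (Zf (circleMap 0 r θ)).re else 0)) volume (-Real.pi) Real.pi :=
    (tl _).const_mul _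
  have i4 : IntervalIntegrable (fun θ : ℝ => K3 * (|(Zf (circleMap 0 r θ)).im| + 14)^2) volume (-Real.pi) Real.pi :=
    (c2.intervalIntegrable _ _).const_mul _
  rw [lint]
  · apply ENNReal.ofReal_le_ofReal
    rw [intervalIntegral.integral_congr (fun θ _ => eB θ)]
    rw [intervalIntegral.integral_add ((i1.add i2).add i3) i4, intervalIntegral.integral_add (i1.add i2) i3,
      intervalIntegral.integral_add i1 i2, intervalIntegral.integral_const_mul,
      intervalIntegral.integral_const_mul, intervalIntegral.integral_const_mul, intervalIntegral.integral_const_mul]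
    have h3 := hP.p2
    have h4 := y_int h0 h1
    have h5 := hP.p4
    have h6 : η * Ef r ≤ σ / 10^8 * Ef r := by gcongr
    have h7 : Ef r ≤ Real.exp CC * Ef r := by nlinarith
    have e0 : ∫ θ in (-Real.pi)..Real.pi, Real.exp (Zf (circleMap 0 r θ)).re = Ef r := rfl
    rw [e0]
    have j2 : (K3 * Real.exp CC / σ^2) * (∫ θ in (-Real.pi)..Real.pi, Real.exp (Zf (circleMap 0 r θ)).re * ψ (Zf (circleMap 0 r θ)).im)
        ≤ K3 * σ * (Real.exp CC * Ef r) := by
      calc _ ≤ (K3 * Real.exp CC / σ^2) * (σ^3 * Ef r) := by gcongr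
        _ = _ := by field_simp
    have j3 : (K3 * Real.exp CC * (R^4/σ^2)) * (∫ θ in (-Real.pi)..Real.pi, (if (hz (circleMap 0 r θ)).re < 97/100 * R then
      Real.exp (Zf (circleMap 0 r θ)).re else 0)) ≤ K3 * σ * (Real.exp CC * Ef r) := by
      calc _ = (K3 * Real.exp CC) * (R^4/σ^2 * (∫ θ in (-Real.pi)..Real.pi, (if (hz (circleMap 0 r θ)).re < 97/100 * R then
              Real.exp (Zf (circleMap 0 r θ)).re else 0))) := by ring
        _ ≤ (K3 * Real.exp CC) * (σ * Ef r) := by gcongr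
        _ = _ := by ring
    have j4 : K3 * (∫ θ in (-Real.pi)..Real.pi, (|(Zf (circleMap 0 r θ)).im| + 14)^2) ≤ K3 * σ * (Real.exp CC * Ef r) := by
      have : (∫ θ in (-Real.pi)..Real.pi, (|(Zf (circleMap 0 r θ)).im| + 14)^2) ≤ σ * (Real.exp CC * Ef r) := by
        calc _ ≤ 1665000 * (σ / 10^8 * Ef r) := by linarith
          _ ≤ σ * Ef r := by
              have : 0 < σ * Ef r := by positivity
              nlinarith
          _ ≤ _ := by gcongr
      calc _ ≤ K3 * (σ * (Real.exp CC * Ef r)) := by gcongr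
        _ = _ := by ring
    linarith
  · have := ((i1.add i2).add i3).add i4
    refine this.congr ?_
    intro θ _
    exact (eB θ).symm
  · intro θ
    unfold Bf
    have := hψ0 (Zc (circleMap 0 r θ)).im
    have h2 : 0 ≤ (if (hz (circleMap 0 r θ)).re < 97/100 * R then (1:ℝ) else 0) := by
      split_ifs <;> norm_num
    positivity

end Pool.Agent.H343N
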