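import Mathlib
import Pool.Agent.Helper343.NP8

set_option autoImplicit false
set_option maxHeartbeats 4000000
open Filter Topology Complex MeasureTheory Set

namespace Pool.Agent.H343N

variable {b : ℕ → Option ℂ} (hb : Good b)
include hb
section unit
variable {u1 u2 : ℂ} (hu : ‖u1‖^2 + ‖u2‖^2 = 1)
include hu

lemma window_contra {R σ ε η D : ℝ} {ψ : ℝ → ℝ} (hR : 200 ≤ R) (hσ0 : 0 < σ) (hσ : σ ≤ 1/1000)
    (hε : 0 < ε) (hσε : 400 * K3 * σ ≤ ε) (hη1 : η ≤ σ/10^8) (hη2 : η ≤ ε/10^8) (hD : 0 ≤ D)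
    (hbig : ∀ z : ℂ, ‖z‖ < 1 → ‖hz z‖ ≤ R + 1 → 95/100 * R ≤ (hz z).re →
      (|(Zc z).im| + 14)^2 + 3 ≤ (σ/2) * Real.exp (Zc z).re)
    (hψc : Continuous ψ) (hψ0 : ∀ y, 0 ≤ ψ y)
    (hψ : ∀ y, ∀ k : ℤ, k.natAbs ∈ B0 b u1 u2 → |y - k * Real.pi| ≤ 2 → 1 ≤ ψ y)
    (hP : ∀ r, 1 - 1/R - σ/(2000*R^2) < r → r < 1 - 1/R + σ/(4*R^2) + σ/(2000*R^2) →
      Pr ψ (S0 b u1 u2) (2 * D / Real.pi + ε / 8) σ η r) :
    ∃ r, 1 - 1/R < r ∧ r < 1 - 1/R + σ/(4*R^2) ∧ ∫⁻ θ in Ioo (-Real.pi) Real.pi, gm hb u1 u2 (circleMap 0 r θ) ≤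
      ENNReal.ofReal ((4 * D / Real.pi + ε) * (Real.exp CC * Ef r)) := by
  by_contra hcon
  push Not at hcon
  have hRp : 0 < R := by linarith
  have hpi := Real.pi_pos
  have hK := K0_ge
  have hK0 : 0 < Real.exp CC := Real.exp_pos _
  have hK3 := K3_pos
  set r1 := 1 - 1/R with hr1
  set L := σ/(4*R^2) with hL
  set s := σ/(2000*R^2) with hs
  have hLp : 0 < L := by rw [hL]; positivity
  have hsp : 0 < s := by rw [hs]; positivity
  have hsL : s = L / 500 := by rw [hs, hL]; field_simp; norm_num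
  have win : ∀ r, r1 - s < r → r < r1 + L + s → 0 < r ∧ r < 1 ∧ 1/(1-r) ≤ R + 1 ∧ R - 1 ≤ 1/(1-r) :=
    fun r h1 h2 => window hR hσ0 hσ h1 h2
  have hcomp : ∀ r r', r1 - s < r → r < r1 + L + s → r1 - s < r' → r' < r1 + L + s → Ef r' ≤ 3 * Ef r :=
    fun r r' h1 h2 h3 h4 => Ef_comp hR hσ0 hσ h1 h2 h3 h4
  have w0 := win r1 (by linarith) (by linarith)
  have hE0 : 0 < Ef r1 := Ef_pos w0.1 w0.2.1
  have hr1h : 1/2 ≤ r1 := by
    rw [hr1]
    have : 1/R ≤ 1/200 := one_div_le_one_div_of_le (by norm_num) hR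
    linarith
  have mgm := gm_meas hb u1 u2
  have mMM := MM_meas (b := b) (u1 := u1) (u2 := u2) R σ
  have mI : Measurable ((MM b u1 u2 R σ).indicator (gm hb u1 u2)) := mgm.indicator mMM
  have mB : Measurable (fun z : ℂ => ENNReal.ofReal (Bf R σ ψ z)) := ENNReal.measurable_ofReal.comp (Bf_meas hψc)
  -- step 1
  have st1 : ∀ r, r1 < r → r < r1 + L → ENNReal.ofReal (ε/2 * (Real.exp CC * Ef r)) ≤
      ∫⁻ θ in Ioo (-Real.pi) Real.pi, (MM b u1 u2 R σ).indicator (gm hb u1 u2) (circleMap 0 r θ) := by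
    intro r h1 h2
    have wr := win r (by linarith) (by linarith)
    have hEr : 0 < Ef r := Ef_pos wr.1 wr.2.1
    have hPr := hP r (by linarith) (by linarith)
    have hm : Measurable (fun θ : ℝ => ENNReal.ofReal (2 * (Real.exp (Zc (circleMap 0 r θ)).re *
      psiS (S0 b u1 u2) (Zc (circleMap 0 r θ)).im) + 2 * (|(Zc (circleMap 0 r θ)).im| + 14)^2)) := by
      have m0 : Measurable (fun θ : ℝ => Zc (circleMap 0 r θ)) := Zc_meas.comp (continuous_circleMap 0 r).measurable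
      have m1 : Measurable (fun θ : ℝ => (Zc (circleMap 0 r θ)).re) := Complex.measurable_re.comp m0
      have m2 : Measurable (fun θ : ℝ => (Zc (circleMap 0 r θ)).im) := Complex.measurable_im.comp m0
      have m3 : Measurable (fun θ : ℝ => psiS (S0 b u1 u2) (Zc (circleMap 0 r θ)).im) :=
        (J5.psiS_cont _).measurable.comp m2
      apply ENNReal.measurable_ofReal.comp
      fun_prop
    have h3 : ∫⁻ θ in Ioo (-Real.pi) Real.pi, gm hb u1 u2 (circleMap 0 r θ) ≤
        ENNReal.ofReal ((4 * D / Real.pi + ε / 2) * (Real.exp CC * Ef r)) +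
        ∫⁻ θ in Ioo (-Real.pi) Real.pi, (MM b u1 u2 R σ).indicator (gm hb u1 u2) (circleMap 0 r θ) := by
      calc _ ≤ ∫⁻ θ in Ioo (-Real.pi) Real.pi, (ENNReal.ofReal (2 * (Real.exp (Zc (circleMap 0 r θ)).re *
              psiS (S0 b u1 u2) (Zc (circleMap 0 r θ)).im) + 2 * (|(Zc (circleMap 0 r θ)).im| + 14)^2) +
              (MM b u1 u2 R σ).indicator (gm hb u1 u2) (circleMap 0 r θ)) := by
            apply lintegral_mono
            intro θ
            have hn : ‖circleMap 0 r θ‖ = r := circ_norm wr.1 θ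
            exact off_MM hb hu hR hσ0 hσ hbig (by rw [hn]; exact h1) (by rw [hn]; exact h2)
        _ = _ := lintegral_add_left hm _
        _ ≤ _ := by
            gcongr
            exact main_int wr.1 wr.2.1 hε hPr hη2
    have h4 := (hcon r h1 h2).le.trans h3
    have h5 : (4 * D / Real.pi + ε) * (Real.exp CC * Ef r) = (4 * D / Real.pi + ε / 2) * (Real.exp CC * Ef r)
        + ε/2 * (Real.exp CC * Ef r) := by ring
    rw [h5, ENNReal.ofReal_add (by positivity) (by positivity)] at h4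
    exact (ENNReal.add_le_add_iff_left ENNReal.ofReal_ne_top).1 h4
  -- step 2
  have st2 : ENNReal.ofReal (ε/2 * (Real.exp CC * (Ef r1 / 3)) * (1/2) * L) ≤
      ∫⁻ z in {z : ℂ | r1 < ‖z‖ ∧ ‖z‖ < r1 + L}, (MM b u1 u2 R σ).indicator (gm hb u1 u2) z := by
    rw [J2.annulus_polar _ mI r1 (r1 + L) w0.1 (by linarith)]
    calc _ = ∫⁻ r in Ioo r1 (r1 + L), ENNReal.ofReal (ε/2 * (Real.exp CC * (Ef r1 / 3)) * (1/2)) := by
          rw [setLIntegral_const, Real.volume_Ioo, ← ENNReal.ofReal_mul (by positivity)]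
          congr 1
          ring
      _ ≤ _ := by
          apply setLIntegral_mono' measurableSet_Ioo
          intro r hr
          rw [ENNReal.ofReal_mul (by positivity)]
          gcongr ?_ * ?_
          · refine le_trans ?_ (st1 r hr.1 hr.2)
            apply ENNReal.ofReal_le_ofReal
            have := hcomp r r1 (by linarith [hr.1]) (by linarith [hr.2]) (by linarith) (by linarith)
            have : Ef r1 / 3 ≤ Ef r := by linarith
            gcongr
          · apply ENNReal.ofReal_le_ofReal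
            linarith [hr.1]
  -- step 3
  have st3 : ∫⁻ z in {z : ℂ | r1 < ‖z‖ ∧ ‖z‖ < r1 + L}, (MM b u1 u2 R σ).indicator (gm hb u1 u2) z ≤
      ∫⁻ z in {z : ℂ | r1 - s < ‖z‖ ∧ ‖z‖ < r1 + L + s}, ENNReal.ofReal (Bf R σ ψ z) := by
    calc _ ≤ ∫⁻ z, (MM b u1 u2 R σ).indicator (gm hb u1 u2) z := setLIntegral_le_lintegral _ _
      _ = ∫⁻ z in MM b u1 u2 R σ, gm hb u1 u2 z := lintegral_indicator mMM _
      _ ≤ ∫⁻ z in {z | ∃ w ∈ MM b u1 u2 R σ, ‖z - w‖ < s}, ENNReal.ofReal (Bf R σ ψ z) := by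
          apply J2.smoothing _ _ mgm mB _ mMM s hsp
          intro z w hw hzw
          obtain ⟨⟨hw1, hw2⟩, hw3⟩ := hw
          refine le_trans ?_ (ball_bound hb hu hR hσ0 hσ hbig hψ0 hψ hw1 hw2 hzw hw3)
          apply lintegral_mono
          intro u
          unfold gm
          exact indicator_le_self _ _ _
      _ ≤ _ := by
          apply lintegral_mono_set
          rintro z ⟨w, ⟨⟨hw1, hw2⟩, -⟩, hzw⟩
          have := abs_lt.1 ((abs_norm_sub_norm_le z w).trans_lt hzw)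
          rw [← hr1] at hw1 hw2
          constructor <;> linarith [this.1, this.2]
  -- step 4
  have st4 : ∫⁻ z in {z : ℂ | r1 - s < ‖z‖ ∧ ‖z‖ < r1 + L + s}, ENNReal.ofReal (Bf R σ ψ z) ≤
      ENNReal.ofReal (4 * K3 * σ * (Real.exp CC * (3 * Ef r1)) * (L + 2 * s)) := by
    have hsm : s ≤ 1/4 := by
      rw [hs, div_le_div_iff₀ (by positivity) (by norm_num)]
      nlinarith
    rw [J2.annulus_polar _ mB (r1 - s) (r1 + L + s) (by linarith) (by linarith)]
    calc _ ≤ ∫⁻ r in Ioo (r1 - s) (r1 + L + s), ENNReal.ofReal (4 * K3 * σ * (Real.exp CC * (3 * Ef r1))) := by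
          apply setLIntegral_mono' measurableSet_Ioo
          intro r hr
          obtain ⟨v0, v1, v2, v3⟩ := win r hr.1 hr.2
          have h6 := Bf_int v0 v1 hσ0 (hP r hr.1 hr.2) hη1 hψc hψ0 hR v3
          have h7 : ENNReal.ofReal r ≤ 1 := by
            rw [ENNReal.ofReal_le_one]; exact v1.le
          calc _ ≤ ENNReal.ofReal (4 * K3 * σ * (Real.exp CC * Ef r)) * 1 := by gcongr
            _ = ENNReal.ofReal (4 * K3 * σ * (Real.exp CC * Ef r)) := mul_one _
            _ ≤ _ := by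
                apply ENNReal.ofReal_le_ofReal
                have := hcomp r1 r (by linarith) (by linarith) hr.1 hr.2
                gcongr
      _ = _ := by
          rw [setLIntegral_const, Real.volume_Ioo, ← ENNReal.ofReal_mul (by positivity)]
          congr 1
          ring
  have fin := (st2.trans st3).trans st4
  rw [ENNReal.ofReal_le_ofReal_iff (by positivity), hsL] at fin
  have hX : 0 < Real.exp CC * Ef r1 * L := by positivity
  have h8 : 4 * K3 * σ * (Real.exp CC * (3 * Ef r1)) * (L + 2 * (L/500)) ≤ (ε/400) * 13 * (Real.exp CC * Ef r1 * L) := by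
    have e1 : 4 * K3 * σ * (Real.exp CC * (3 * Ef r1)) * (L + 2 * (L/500)) =
      (K3 * σ) * (12 * (251/250)) * (Real.exp CC * Ef r1 * L) := by ring
    rw [e1]
    have h9 : K3 * σ ≤ ε/400 := by linarith
    gcongr
    norm_num
  have h10 : ε/2 * (Real.exp CC * (Ef r1 / 3)) * (1/2) * L = (ε/12) * (Real.exp CC * Ef r1 * L) := by ring
  rw [h10] at fin
  have h11 : (ε/12) * (Real.exp CC * Ef r1 * L) ≤ (ε/400) * 13 * (Real.exp CC * Ef r1 * L) := fin.trans h8
  have h12 := le_of_mul_le_mul_right h11 hX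
  linarith

end unit

end Pool.Agent.H343N
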