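import Mathlib
import Pool.Agent.Helper343.NP9

set_option autoImplicit false
set_option maxHeartbeats 4000000
open Filter Topology Complex MeasureTheory Set

namespace Pool.Agent.H343N

lemma big_R {σ R : ℝ} (hσ : 0 < σ) (hR : 200 ≤ R) (hR2 : 4 / σ ≤ R) {z : ℂ} (h1 : ‖z‖ < 1)
    (h2 : ‖hz z‖ ≤ R + 1) (h3 : 95/100 * R ≤ (hz z).re) :
    (|(Zc z).im| + 14)^2 + 3 ≤ (σ/2) * Real.exp (Zc z).re := by
  have hn : 95/100 * R ≤ ‖hz z‖ := h3.trans (Complex.re_le_norm _)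
  have a1 := Zf_im_le z
  have a2 : |(Zf z).im| + 14 ≤ 514 * (R + 1) := by linarith
  have a0 := abs_nonneg (Zf z).im
  have a3 : (|(Zf z).im| + 14)^2 ≤ (514 * (R+1))^2 := pow_le_pow_left₀ (by linarith) a2 2
  have a4 : (95 * R)^3 / 6 ≤ Real.exp (95 * R) := by
    have := Real.pow_div_factorial_le_exp (95 * R) (by linarith) 3
    have e : ((Nat.factorial 3 : ℕ) : ℝ) = 6 := by norm_num [Nat.factorial]
    rwa [e] at this
  have a5 : Real.exp (95 * R) ≤ Real.exp (Zc z).re := by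
    rw [exp_Zc, exp_Zf_re (by linarith)]
    have b1 : 1 ≤ ‖hz z‖^100 := one_le_pow₀ (by linarith)
    have b2 : Real.exp (95 * R) ≤ Real.exp (100 * (hz z).re) := by
      apply Real.exp_le_exp.2; linarith
    have b3 := K0_ge
    calc Real.exp (95 * R) ≤ 1 * (Real.exp (100 * (hz z).re) * 1) := by linarith
      _ ≤ _ := by gcongr
  rw [Zc_im]
  have a6 : 4 ≤ σ * R := by
    rw [div_le_iff₀ hσ] at hR2
    linarith
  have a7 : 0 < R^2 := by positivity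
  calc (|(Zf z).im| + 14)^2 + 3 ≤ (514 * (R+1))^2 + 3 := by linarith
    _ ≤ 4 * 70000 * R^2 := by nlinarith
    _ ≤ (σ * R) * 70000 * R^2 := by gcongr
    _ ≤ (σ/2) * ((95 * R)^3 / 6) := by
        have : 0 < σ * R^3 := by positivity
        nlinarith
    _ ≤ (σ/2) * Real.exp (95 * R) := by gcongr
    _ ≤ _ := by gcongr

lemma Ef_pos_ev : ∀ᶠ r : ℝ in 𝓝[<] 1, 0 < r ∧ r < 1 ∧ 0 < Ef r := by
  have h1 : ∀ᶠ r : ℝ in 𝓝[<] 1, 0 < r := by
    apply eventually_nhdsWithin_of_eventually_nhds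
    exact lt_mem_nhds (by norm_num)
  have h2 : ∀ᶠ r : ℝ in 𝓝[<] 1, r < 1 := eventually_mem_nhdsWithin
  filter_upwards [h1, h2] with r h1 h2
  exact ⟨h1, h2, Ef_pos h1 h2⟩

variable {b : ℕ → Option ℂ} (hb : Good b)
include hb
section unit
variable {u1 u2 : ℂ} (hu : ‖u1‖^2 + ‖u2‖^2 = 1)
include hu

theorem UB {D : ℝ} (hD : 0 ≤ D)
    (hS : Tendsto (fun K : ℕ => (Nat.card {k : ℕ | k < K ∧ k ∈ S0 b u1 u2} : ℝ) / K) atTop (𝓝 D))
    (hB : Tendsto (fun K : ℕ => (Nat.card {k : ℕ | k < K ∧ k ∈ B0 b u1 u2} : ℝ) / K) atTop (𝓝 0))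
    {ε : ℝ} (hε : 0 < ε) :
    ∃ᶠ r in 𝓝[<] (1:ℝ), ∫⁻ θ in Ioo (-Real.pi) Real.pi, gm hb u1 u2 (circleMap 0 r θ) ≤
      ENNReal.ofReal ((4 * D / Real.pi + ε) * (Real.exp CC * Ef r)) := by
  obtain ⟨ψ, hψc, hψ0, ⟨B, hψB⟩, hψe, hψ, hψm⟩ := J5.bad_majorant _ hB
  have hK3 := K3_pos
  set σ : ℝ := min (1/1000) (ε/(400*K3)) with hσdef
  have hσ0 : 0 < σ := by
    rw [hσdef]; apply lt_min (by norm_num) (by positivity)
  have hσ1 : σ ≤ 1/1000 := min_le_left _ _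
  have hσ2 : 400 * K3 * σ ≤ ε := by
    have : σ ≤ ε/(400*K3) := min_le_right _ _
    rw [le_div_iff₀ (by positivity)] at this
    linarith
  set η : ℝ := min (σ/10^8) (ε/10^8) with hηdef
  have hη0 : 0 < η := by
    rw [hηdef]; apply lt_min (by positivity) (by positivity)
  have e1 := J3.equi (psiS (S0 b u1 u2)) (J5.psiS_cont _) 1 (J5.psiS_bound _) (J5.psiS_even _) _
    (J5.psiS_mean _ D hS)
  have e2 := J3.equi ψ hψc B hψB hψe _ hψm
  have e3 := J3.tail_small 4 (98/100) (by norm_num) (by norm_num)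
  have e4 := J3.Ef_large 2
  have hP : ∀ᶠ r : ℝ in 𝓝[<] 1, Pr ψ (S0 b u1 u2) (2 * D / Real.pi + ε / 8) σ η r := by
    have f1 := e1.eventually (gt_mem_nhds (show 2 * D / Real.pi < 2 * D / Real.pi + ε / 8 by linarith))
    have f2 := e2.eventually (gt_mem_nhds (show 0 < σ^3 by positivity))
    have f3 := e3.eventually (gt_mem_nhds (show 0 < σ^3/16 by positivity))
    have f4 := e4.eventually (gt_mem_nhds hη0)
    filter_upwards [f1, f2, f3, f4, Ef_pos_ev] with r g1 g2 g3 g4 ⟨h0, h1, hE⟩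
    rw [div_lt_iff₀ hE] at g1 g2 g3 g4
    exact ⟨g1.le, g2.le, g3.le, g4.le⟩
  intro hcon
  have hall := hP.and hcon
  rw [eventually_nhdsWithin_iff] at hall
  obtain ⟨δ, hδ, hδ2⟩ := Metric.eventually_nhds_iff.1 hall
  -- choose R
  obtain ⟨R, hR⟩ : ∃ R : ℝ, 200 ≤ R ∧ 4/σ ≤ R ∧ 2/δ < R := by
    refine ⟨max 200 (max (4/σ) (2/δ + 1)), le_max_left _ _, (le_max_left _ _).trans (le_max_right _ _), ?_⟩
    have : 2/δ + 1 ≤ max 200 (max (4/σ) (2/δ + 1)) := (le_max_right _ _).trans (le_max_right _ _)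
    linarith
  obtain ⟨hR1, hR2, hR3⟩ := hR
  have hRp : 0 < R := by linarith
  have hin : ∀ r, 1 - 1/R - σ/(2000*R^2) < r → r < 1 - 1/R + σ/(4*R^2) + σ/(2000*R^2) →
      dist r 1 < δ ∧ r < 1 := by
    intro r h1 h2
    obtain ⟨v0, v1, v2, v3⟩ := window hR1 hσ0 hσ1 h1 h2
    refine ⟨?_, v1⟩
    rw [Real.dist_eq, abs_sub_comm, abs_of_pos (by linarith)]
    have h3 : σ/(2000*R^2) ≤ 1/R := by
      rw [div_le_div_iff₀ (by positivity) hRp]
      nlinarith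
    have h4 : 2/R < δ := by
      rw [div_lt_iff₀ hδ] at hR3
      rw [div_lt_iff₀ hRp]
      linarith
    have h5 : 2/R = 1/R + 1/R := by ring
    linarith
  obtain ⟨r, hr1, hr2, hr3⟩ := window_contra hb hu hR1 hσ0 hσ1 hε hσ2 (min_le_left _ _) (min_le_right _ _) hD
    (fun z h1 h2 h3 => big_R hσ0 hR1 hR2 h1 h2 h3) hψc hψ0 hψ (fun r h1 h2 => by
      obtain ⟨v1, v2⟩ := hin r h1 h2
      exact (hδ2 v1 v2).1)
  have hsp : 0 < σ/(2000*R^2) := by positivity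
  obtain ⟨v1, v2⟩ := hin r (by linarith) (by linarith)
  exact (hδ2 v1 v2).2 hr3

end unit

end Pool.Agent.H343N
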