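import Mathlib
import Pool.Agent.Helper343.NP10
import Pool.Agent.Helper343.NJ1
import Pool.Agent.Helper343.NJ4
import Pool.Agent.Helper343.NJ6
import Pool.Agent.Helper343.NJ7

set_option autoImplicit false
set_option maxHeartbeats 4000000
open Filter Topology Complex MeasureTheory Set

namespace Pool.Agent.H343N

variable {b : ℕ → Option ℂ} (hb : Good b)
include hb

/-- numerator and denominator -/
noncomputable def F1 (z : ℂ) : ℂ := w1 hb (Zc z)
noncomputable def F2 (z : ℂ) : ℂ := w2 hb (Zc z)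

lemma F1_diff : ∀ z ∈ Metric.ball (0:ℂ) 1, DifferentiableAt ℂ (F1 hb) z := by
  intro z hz'
  rw [mem_ball_zero_iff] at hz'
  have h1 : 1/4 < (hz z).re := by linarith [hz_re hz']
  exact (w1_diff hb (HO_Zc h1)).comp z (Zc_diff h1)

lemma F2_diff : ∀ z ∈ Metric.ball (0:ℂ) 1, DifferentiableAt ℂ (F2 hb) z := by
  intro z hz'
  rw [mem_ball_zero_iff] at hz'
  have h1 : 1/4 < (hz z).re := by linarith [hz_re hz']
  exact (w2_diff hb (HO_Zc h1)).comp z (Zc_diff h1)

lemma F_ne : ∀ z ∈ Metric.ball (0:ℂ) 1, F1 hb z ≠ 0 ∨ F2 hb z ≠ 0 := by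
  intro z hz'
  rw [mem_ball_zero_iff] at hz'
  have := nrm_pos hb hz'
  by_contra hcon
  push Not at hcon
  unfold F1 F2 at hcon
  unfold nrm at this
  rw [hcon.1, hcon.2] at this
  simp at this

section unit
variable {u1 u2 : ℂ} (hu : ‖u1‖^2 + ‖u2‖^2 = 1)
include hu

lemma dd_ne : ∃ z ∈ Metric.ball (0:ℂ) 1, dd hb u1 u2 (Zc z) ≠ 0 := by
  -- real points
  have pt : ∀ t : ℝ, 1 < t → ∃ z : ℂ, ‖z‖ < 1 ∧ hz z = (t:ℂ) := by
    intro t ht
    have ht0 : 0 < t := by linarith
    refine ⟨((1 - 1/t : ℝ) : ℂ), ?_, ?_⟩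
    · rw [norm_real, Real.norm_eq_abs, abs_of_nonneg]
      · have : 0 < 1/t := by positivity
        linarith
      · rw [sub_nonneg, div_le_one ht0]; exact ht.le
    · unfold hz
      push_cast
      rw [sub_sub_cancel, one_div, inv_inv]
  have him' : ∀ (t : ℝ) (z : ℂ), 1 < t → hz z = (t:ℂ) → (Zc z).im = 0 := by
    intro t z ht h
    rw [Zc_im, Zf_eq, h]
    unfold Hf
    rw [← ofReal_log (by linarith)]
    have e : (100 * ((t:ℂ) + (Real.log t : ℂ))) = ((100*(t+Real.log t):ℝ):ℂ) := by push_cast; ring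
    rw [e, ofReal_im]
  by_cases h0 : dk b u1 u2 0 = 0
  · obtain ⟨z, hz1, hz2⟩ := pt 2 (by norm_num)
    have h1 : 1/4 < (hz z).re := by rw [hz2]; norm_num
    have him : (Zc z).im = 0 := him' 2 z (by norm_num) hz2
    refine ⟨z, mem_ball_zero_iff.2 hz1, ?_⟩
    have := (dd_tract hb hu (HO_Zc h1) 0 (by rw [him]; simpa using Real.pi_pos.le) h0).1
    intro h
    rw [h, norm_zero] at this
    exact absurd this (not_le.2 (Real.exp_pos _))
  · set δ := ‖dk b u1 u2 0‖ with hδ
    have hδ0 : 0 < δ := norm_pos_iff.2 h0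
    set C := ‖dk b u1 u2 1‖ + ‖dk b u1 u2 (-1)‖ with hC
    have hC0 : 0 ≤ C := by positivity
    set t : ℝ := 3 * C / δ + 2 with ht
    have htC : 0 ≤ 3 * C / δ := by positivity
    obtain ⟨z, hz1, hz2⟩ := pt t (by linarith)
    have h1 : 1/4 < (hz z).re := by rw [hz2, ofReal_re]; linarith
    have him : (Zc z).im = 0 := him' t z (by linarith) hz2
    refine ⟨z, mem_ball_zero_iff.2 hz1, ?_⟩
    obtain ⟨α, α', k', hk', ha, ha', e1, e2⟩ := w_rep hb (HO_Zc h1) 0 (by rw [him]; simpa using Real.pi_pos.le)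
    obtain ⟨ha, -⟩ := half_le ha
    obtain ⟨-, ha'⟩ := half_le ha'
    have hG : (G 0 (Zc z)).re = Real.exp (Zc z).re := by
      rw [G_re, him]; simp
    have e : dd hb u1 u2 (Zc z) = α * exp (G 0 (Zc z)) * dk b u1 u2 0 + α' * exp (- G 0 (Zc z)) * dk b u1 u2 k' := by
      unfold dd dk
      rw [e1, e2]
      ring
    set g := Real.exp (Zc z).re with hg
    have hgt : t ≤ g := by
      have a1 : Real.exp (Zc z).re = Real.exp CC * (Real.exp (100 * (hz z).re) * ‖hz z‖^100) := by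
        rw [exp_Zc, exp_Zf_re (by linarith)]
      have a2 : t ≤ Real.exp (100 * (hz z).re) := by
        rw [hz2, ofReal_re]
        have := Real.add_one_le_exp (100 * t)
        linarith
      have a3 : 1 ≤ ‖hz z‖^100 := by
        apply one_le_pow₀
        rw [hz2, norm_real, Real.norm_eq_abs, abs_of_pos (by linarith)]
        linarith
      have a4 := K0_ge
      rw [hg, a1]
      calc t ≤ 1 * (t * 1) := by linarith
        _ ≤ _ := by gcongr
    intro hdd
    rw [hdd] at e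
    have i1 : α * exp (G 0 (Zc z)) * dk b u1 u2 0 = - (α' * exp (- G 0 (Zc z)) * dk b u1 u2 k') := by
      linear_combination -e
    have i2 := congrArg norm i1
    rw [norm_neg, norm_mul, norm_mul, norm_mul, norm_mul, norm_exp, norm_exp, neg_re, hG, ← hδ] at i2
    have i3 : ‖dk b u1 u2 k'‖ ≤ C := by
      have p1 := norm_nonneg (dk b u1 u2 1)
      have p2 := norm_nonneg (dk b u1 u2 (-1))
      rcases hk' with rfl | rfl
      · rw [zero_add]; linarith
      · rw [zero_sub]; linarith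
    have i4 : (1/2) * Real.exp g * δ ≤ (3/2) * Real.exp (-g) * C := by
      calc _ ≤ ‖α‖ * Real.exp g * δ := by gcongr
        _ = ‖α'‖ * Real.exp (-g) * ‖dk b u1 u2 k'‖ := i2
        _ ≤ _ := by gcongr
    have i5 : 3 * C + 2 * δ ≤ g * δ := by
      have : (3 * C / δ + 2) * δ ≤ g * δ := by
        apply mul_le_mul_of_nonneg_right _ hδ0.le
        linarith
      have e5 : (3 * C / δ + 2) * δ = 3 * C + 2 * δ := by field_simp
      linarith
    have i6 : g ≤ Real.exp g := by linarith [Real.add_one_le_exp g]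
    have i7 : Real.exp (-g) ≤ 1 := by
      apply Real.exp_le_one_iff.2
      linarith [Real.exp_pos (Zc z).re]
    have i8 : (1/2) * g * δ ≤ (3/2) * 1 * C := by
      calc _ ≤ (1/2) * Real.exp g * δ := by gcongr
        _ ≤ _ := i4
        _ ≤ _ := by gcongr
    linarith

end unit

omit hb in
/-- normalising factor -/
noncomputable def NN : Option ℂ → ℝ
  | none => 1
  | some c => Real.sqrt (‖c‖^2 + 1)

omit hb in
lemma NN_pos (c : Option ℂ) : 0 < NN c := by
  cases c with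
  | none => exact one_pos
  | some c => exact Real.sqrt_pos.2 (by positivity)

omit hb in
noncomputable def U1 (c : Option ℂ) : ℂ := (uv c).1 / (NN c : ℂ)
omit hb in
noncomputable def U2 (c : Option ℂ) : ℂ := (uv c).2 / (NN c : ℂ)

omit hb in
lemma U_unit (c : Option ℂ) : ‖U1 c‖^2 + ‖U2 c‖^2 = 1 := by
  unfold U1 U2
  have hN := NN_pos c
  rw [norm_div, norm_div, norm_real, Real.norm_eq_abs, abs_of_pos hN]
  cases c with
  | none => simp [uv, NN]
  | some c =>
    have h2 : NN (some c)^2 = ‖c‖^2 + 1 := by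
      unfold NN
      exact Real.sq_sqrt (by positivity)
    simp only [uv, norm_one]
    rw [div_pow, div_pow, one_pow, ← add_div, h2, div_self]
    positivity

/-- the proximity integrand -/
noncomputable def pl (c : Option ℂ) : ℂ → ℝ :=
  Option.elim c (fun z : ℂ => Real.posLog ‖F1 hb z / F2 hb z‖)
      (fun (c : ℂ) (z : ℂ) => Real.posLog ‖F1 hb z / F2 hb z - c‖⁻¹)

lemma pl_nonneg (c : Option ℂ) (z : ℂ) : 0 ≤ pl hb c z := by
  cases c with
  | none => exact Real.posLog_nonneg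
  | some c => exact Real.posLog_nonneg

lemma cmp (c : Option ℂ) : ∃ K : ℝ, 0 ≤ K ∧ ∀ z, F2 hb z ≠ 0 → dd hb (U1 c) (U2 c) (Zc z) ≠ 0 →
    |pl hb c z - gam hb (U1 c) (U2 c) z| ≤ K := by
  cases c with
  | none =>
    refine ⟨Real.log 2, Real.log_nonneg (by norm_num), ?_⟩
    intro z h2 _
    have := J7.cmp_none (F1 hb z) (F2 hb z) h2
    have e : gam hb (U1 none) (U2 none) z = (Real.log (Real.sqrt (‖F1 hb z‖^2 + ‖F2 hb z‖^2)) -
        Real.log ‖F1 hb z * 0 - F2 hb z * 1‖) := by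
      unfold gam nrm dd U1 U2 F1 F2
      simp [uv, NN]
    rw [e]
    exact this
  | some c =>
    have hN1 : 1 ≤ NN (some c) := by
      unfold NN
      apply Real.le_sqrt_of_sq_le
      nlinarith [sq_nonneg ‖c‖]
    refine ⟨Real.log ((2 + ‖c‖) * NN (some c)), Real.log_nonneg ?_, ?_⟩
    · nlinarith [norm_nonneg c]
    · intro z h2 hd
      have e : gam hb (U1 (some c)) (U2 (some c)) z = (Real.log (Real.sqrt (‖F1 hb z‖^2 + ‖F2 hb z‖^2)) -
        Real.log ‖F1 hb z * (1 / (NN (some c) : ℂ)) - F2 hb z * (c / (NN (some c) : ℂ))‖) := by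
        unfold gam nrm dd U1 U2 F1 F2
        simp [uv]
      have hne : F1 hb z / F2 hb z - c ≠ 0 := by
        intro h
        apply hd
        have h3 : F1 hb z = c * F2 hb z := by
          rw [sub_eq_zero, div_eq_iff h2] at h
          exact h
        unfold F1 F2 at h3
        unfold dd U1 U2
        simp only [uv]
        rw [h3]
        ring
      have := J7.cmp_some (F1 hb z) (F2 hb z) c h2 hne _ (show NN (some c) = Real.sqrt (‖c‖^2 + 1) from rfl)
      rw [e]
      exact this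

/-! ### densities -/

omit hb in
lemma uv_eq (c : Option ℂ) : uv c = J6.uv' c := by cases c <;> rfl
omit hb in
lemma dt_eq (p q : ℂ × ℂ) : dt p q = J6.dt' p q := rfl

lemma S0_eq (c : Option ℂ) : S0 b (U1 c) (U2 c) = {n | b n = c} := by
  ext n
  unfold S0 dk c1 c2 U1 U2
  simp only [mem_ofPred_eq, Int.natAbs_natCast]
  rw [uv_eq, uv_eq]
  exact J6.dk_zero_iff (b n) c (TT b n) (TT_ne hb n) (NN c) (NN_pos c)

lemma B0_dens (c : Option ℂ)
    (hbad : Tendsto (fun K : ℕ => (Nat.card {k : ℕ | k < K ∧ b k ≠ c ∧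
        ‖dt (uv (b k)) (uv c)‖ < Real.exp (-((k:ℝ) + 1))} : ℝ) / K) atTop (𝓝 0)) :
    Tendsto (fun K : ℕ => (Nat.card {k : ℕ | k < K ∧ k ∈ B0 b (U1 c) (U2 c)} : ℝ) / K) atTop (𝓝 0) := by
  have h := J6.dens_bad b (TT b) (fun k => (TT_bound hb k).1) c (NN c) (NN_pos c) (by
    simpa only [uv_eq, dt_eq] using hbad)
  have e : B0 b (U1 c) (U2 c) = {k : ℕ | (TT b k * (J6.uv' (b k)).1) * ((J6.uv' c).2 / NN c) - (TT b k * (J6.uv' (b k)).2) * ((J6.uv' c).1 / NN c) ≠ 0 ∧
          ¬ Real.exp (-((k:ℝ)+7)^2) ≤ ‖(TT b k * (J6.uv' (b k)).1) * ((J6.uv' c).2 / NN c) - (TT b k * (J6.uv' (b k)).2) * ((J6.uv' c).1 / NN c)‖} := by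
    ext n
    unfold B0 gd dk c1 c2 U1 U2
    simp only [mem_ofPred_eq, Int.natAbs_natCast]
    rw [uv_eq, uv_eq]
  rw [e]
  exact h

end Pool.Agent.H343N
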