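import Mathlib
import Pool.Agent.Helper343.NP11

set_option autoImplicit false
set_option maxHeartbeats 4000000
open Filter Topology Complex MeasureTheory Set

namespace Pool.Agent.H343N

noncomputable def YY (r : ℝ) : ℝ := Real.exp CC * Ef r

lemma YY_ge {r : ℝ} (h : 0 < Ef r) : Ef r ≤ YY r := by
  unfold YY
  have := K0_ge
  nlinarith

lemma YY_pos {r : ℝ} (h : 0 < Ef r) : 0 < YY r := by
  unfold YY
  have := K0_ge
  positivity

lemma pow_YY (n : ℕ) : Tendsto (fun r : ℝ => (1 / (1 - r)) ^ n / YY r) (𝓝[<] 1) (𝓝 0) := by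
  have h := J3.Ef_large n
  have h2 : (fun r : ℝ => (1 / (1 - r)) ^ n / YY r) = fun r => ((1 / (1 - r)) ^ n / Ef r) * (Real.exp CC)⁻¹ := by
    funext r
    unfold YY
    rw [div_mul_eq_div_div_swap, div_eq_mul_inv _ (Real.exp CC)]
  rw [h2]
  simpa using h.mul_const (Real.exp CC)⁻¹

variable {b : ℕ → Option ℂ} (hb : Good b)
include hb

lemma lognrm_cont {r : ℝ} (h0 : 0 < r) (h1 : r < 1) :
    Continuous (fun θ : ℝ => Real.log (nrm hb (Zc (circleMap 0 r θ)))) := by
  have c0 : ∀ (F : ℂ → ℂ), ContinuousOn F (Metric.ball 0 1) → Continuous (fun θ : ℝ => F (circleMap 0 r θ)) := by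
    intro F hF
    rw [continuous_iff_continuousAt]
    intro θ
    have hm : circleMap 0 r θ ∈ Metric.ball (0:ℂ) 1 := by
      rw [mem_ball_zero_iff, circ_norm h0]; exact h1
    exact ContinuousAt.comp (f := fun θ : ℝ => circleMap 0 r θ)
      (hF.continuousAt (Metric.isOpen_ball.mem_nhds hm)) (continuous_circleMap 0 r).continuousAt
  have c1 := c0 _ (w1_cont hb)
  have c2 := c0 _ (w2_cont hb)
  apply Continuous.log
  · unfold nrm
    fun_prop
  · intro θ
    exact (nrm_pos hb (by rw [circ_norm h0]; exact h1)).ne'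

/-- the characteristic -/
noncomputable def T0 (r : ℝ) : ℝ :=
  ∫ t in (0 : ℝ)..r, (1 / Real.pi * ∫ z in Metric.ball (0 : ℂ) t,
          (‖deriv (fun z => F1 hb z / F2 hb z) z‖ / (1 + ‖F1 hb z / F2 hb z‖ ^ 2)) ^ 2) / t

lemma F2_nz : ∃ z ∈ Metric.ball (0:ℂ) 1, F2 hb z ≠ 0 := by
  obtain ⟨z, hz1, hz2⟩ := dd_ne hb (u1 := 1) (u2 := 0) (by simp)
  refine ⟨z, hz1, ?_⟩
  intro h
  apply hz2
  unfold F2 at h
  unfold dd
  rw [h]; ring

lemma T0_eq {r : ℝ} (h0 : 0 < r) (h1 : r < 1) :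
    T0 hb r = (2 * Real.pi)⁻¹ * (∫ θ in (-Real.pi)..Real.pi, Real.log (nrm hb (Zc (circleMap 0 r θ))))
      - Real.log (nrm hb (Zc 0)) := by
  have h := J1.ahlfors_shimizu (F1 hb) (F2 hb) (F1_diff hb) (F2_diff hb) (F_ne hb) (F2_nz hb) r h0 h1
  have h2 := J7.shift (fun z => Real.log (Real.sqrt (‖F1 hb z‖ ^ 2 + ‖F2 hb z‖ ^ 2))) r
  rw [h2] at h
  exact h

lemma T0_asym : Tendsto (fun r : ℝ => T0 hb r / YY r) (𝓝[<] 1) (𝓝 (1 / Real.pi^2)) := by
  have hpi := Real.pi_pos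
  have hm : Tendsto (fun K : ℕ => (Nat.card {k : ℕ | k < K ∧ k ∈ (univ : Set ℕ)} : ℝ) / K) atTop (𝓝 1) := by
    apply tendsto_const_nhds.congr'
    filter_upwards [eventually_gt_atTop 0] with K hK
    have : {k : ℕ | k < K ∧ k ∈ (univ : Set ℕ)} = Set.Iio K := by ext k; simp
    rw [this]
    have h2 : Nat.card (Set.Iio K) = K := by
      rw [Nat.card_eq_fintype_card]
      simp
    rw [h2, div_self (by positivity)]
  have e1 := J3.equi (psiS univ) (J5.psiS_cont _) 1 (J5.psiS_bound _) (J5.psiS_even _) _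
    (J5.psiS_mean _ 1 hm)
  have hps : ∀ y, psiS univ y = |Real.cos y| := fun y => psiS_eq_of_round _ _ (mem_univ _)
  simp only [hps] at e1
  -- upper and lower
  have e2 : Tendsto (fun r : ℝ => (2 * Real.pi)⁻¹ * ((∫ θ in (-Real.pi)..Real.pi,
        Real.exp (Zf (circleMap 0 r θ)).re * |Real.cos (Zf (circleMap 0 r θ)).im|) / Ef r)
        - Real.log (nrm hb (Zc 0)) * ((1/(1-r))^0 / YY r)) (𝓝[<] 1) (𝓝 (1 / Real.pi^2)) := by
    have := (e1.const_mul (2 * Real.pi)⁻¹).sub ((pow_YY 0).const_mul (Real.log (nrm hb (Zc 0))))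
    refine this.trans (le_of_eq ?_)
    congr 1
    field_simp
    ring
  have e3 : Tendsto (fun r : ℝ => (2 * Real.pi)⁻¹ * (1665000 * ((1/(1-r))^2 / YY r))) (𝓝[<] 1) (𝓝 0) := by
    have := ((pow_YY 2).const_mul 1665000).const_mul (2 * Real.pi)⁻¹
    simpa using this
  have e4 := e2.sub e3
  have e5 := e2.add e3
  rw [sub_zero] at e4
  rw [add_zero] at e5
  have key : ∀ᶠ r : ℝ in 𝓝[<] 1, |T0 hb r / YY r - ((2 * Real.pi)⁻¹ * ((∫ θ in (-Real.pi)..Real.pi,
        Real.exp (Zf (circleMap 0 r θ)).re * |Real.cos (Zf (circleMap 0 r θ)).im|) / Ef r)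
        - Real.log (nrm hb (Zc 0)) * ((1/(1-r))^0 / YY r))| ≤ (2 * Real.pi)⁻¹ * (1665000 * ((1/(1-r))^2 / YY r)) := by
    filter_upwards [Ef_pos_ev] with r ⟨h0, h1, hE⟩
    have hY := YY_pos hE
    have hK := Real.exp_pos CC
    rw [T0_eq hb h0 h1]
    set I1 := ∫ θ in (-Real.pi)..Real.pi, Real.log (nrm hb (Zc (circleMap 0 r θ))) with hI1
    set I2 := ∫ θ in (-Real.pi)..Real.pi,
        Real.exp (Zf (circleMap 0 r θ)).re * |Real.cos (Zf (circleMap 0 r θ)).im| with hI2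
    have c1 := lognrm_cont hb h0 h1
    have ye := yi_cont h0 h1
    have ee := e_cont h0 h1
    have c2 : Continuous (fun θ : ℝ => Real.exp (Zf (circleMap 0 r θ)).re * |Real.cos (Zf (circleMap 0 r θ)).im|) := by
      fun_prop
    have c3 : Continuous (fun θ : ℝ => (|(Zf (circleMap 0 r θ)).im| + 14)^2) := by fun_prop
    have hI : |I1 - Real.exp CC * I2| ≤ 1665000 * (1/(1-r))^2 := by
      have a1 : I1 - Real.exp CC * I2 = ∫ θ in (-Real.pi)..Real.pi, (Real.log (nrm hb (Zc (circleMap 0 r θ))) -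
          Real.exp CC * (Real.exp (Zf (circleMap 0 r θ)).re * |Real.cos (Zf (circleMap 0 r θ)).im|)) := by
        rw [intervalIntegral.integral_sub (c1.intervalIntegrable _ _) ((c2.intervalIntegrable _ _).const_mul _),
          intervalIntegral.integral_const_mul]
      rw [a1]
      refine le_trans ?_ (y_int h0 h1)
      have hle : -Real.pi ≤ Real.pi := by linarith
      refine (intervalIntegral.abs_integral_le_integral_abs hle).trans ?_
      apply intervalIntegral.integral_mono_on hle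
      · exact (Continuous.abs (c1.sub (continuous_const.mul c2))).intervalIntegrable _ _
      · exact c3.intervalIntegrable _ _
      · intro θ _
        have := lognrm hb (z := circleMap 0 r θ) (by rw [circ_norm h0]; exact h1)
        unfold ew at this
        rw [exp_Zc, Zc_im] at this
        rw [← mul_assoc]
        exact this
    have e6 : ((2 * Real.pi)⁻¹ * I1 - Real.log (nrm hb (Zc 0))) / YY r - ((2 * Real.pi)⁻¹ * (I2 / Ef r)
        - Real.log (nrm hb (Zc 0)) * ((1/(1-r))^0 / YY r)) = (2 * Real.pi)⁻¹ * ((I1 - Real.exp CC * I2) / YY r) := by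
      rw [pow_zero]
      have : I2 / Ef r = Real.exp CC * I2 / YY r := by
        unfold YY
        field_simp
      rw [this]
      field_simp
      ring
    rw [e6, abs_mul, abs_of_pos (by positivity : 0 < (2 * Real.pi)⁻¹), abs_div, abs_of_pos hY]
    have e7 : 1665000 * ((1 / (1 - r)) ^ 2 / YY r) = 1665000 * (1 / (1 - r)) ^ 2 / YY r := by ring
    rw [e7]
    gcongr
  apply tendsto_of_tendsto_of_tendsto_of_le_of_le' e4 e5
  · filter_upwards [key] with r hr
    rw [abs_le] at hr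
    linarith [hr.1]
  · filter_upwards [key] with r hr
    rw [abs_le] at hr
    linarith [hr.2]

/-- proximity function -/
noncomputable def mm (c : Option ℂ) (r : ℝ) : ℝ :=
  (2 * Real.pi)⁻¹ * ∫ θ in (0 : ℝ)..(2 * Real.pi), pl hb c (circleMap 0 r θ)

lemma mm_eq (c : Option ℂ) (r : ℝ) :
    mm hb c r = (2 * Real.pi)⁻¹ * ∫ θ in (-Real.pi)..Real.pi, pl hb c (circleMap 0 r θ) := by
  unfold mm
  rw [J7.shift (pl hb c) r]

lemma ae_ne {r : ℝ} (c : Option ℂ) (h0 : 0 < r) (h1 : r < 1) :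
    ∀ᵐ θ : ℝ, F2 hb (circleMap 0 r θ) ≠ 0 ∧ dd hb (U1 c) (U2 c) (Zc (circleMap 0 r θ)) ≠ 0 := by
  have a1 := J7.ae_circle (F2 hb) (F2_diff hb) (F2_nz hb) r h0 h1
  have a2 := J7.ae_circle (fun z => dd hb (U1 c) (U2 c) (Zc z)) (by
    intro z hz'
    have d1 := F1_diff hb z hz'
    have d2 := F2_diff hb z hz'
    unfold dd
    exact (d1.mul_const _).sub (d2.mul_const _)) (dd_ne hb (U_unit c)) r h0 h1
  filter_upwards [a1, a2] with θ t1 t2
  exact ⟨t1, t2⟩

lemma LBm (c : Option ℂ) {D : ℝ}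
    (hS : Tendsto (fun K : ℕ => (Nat.card {k : ℕ | k < K ∧ k ∈ S0 b (U1 c) (U2 c)} : ℝ) / K) atTop (𝓝 D))
    {ε : ℝ} (hε : 0 < ε) :
    ∀ᶠ r in 𝓝[<] (1:ℝ), (2 * D / Real.pi^2 - ε) * YY r ≤ mm hb c r := by
  have hpi := Real.pi_pos
  obtain ⟨K, hK0, hK⟩ := cmp hb c
  have e1 := J3.equi (psiS (S0 b (U1 c) (U2 c))) (J5.psiS_cont _) 1 (J5.psiS_bound _) (J5.psiS_even _) _
    (J5.psiS_mean _ D hS)
  have e2 : Tendsto (fun r : ℝ => (2 * Real.pi)⁻¹ * (2 * ((∫ θ in (-Real.pi)..Real.pi,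
        Real.exp (Zf (circleMap 0 r θ)).re * psiS (S0 b (U1 c) (U2 c)) (Zf (circleMap 0 r θ)).im) / Ef r)
        - 2 * (1665000 * ((1/(1-r))^2 / YY r)) - 2 * Real.pi * K * ((1/(1-r))^0 / YY r))) (𝓝[<] 1)
        (𝓝 (2 * D / Real.pi^2)) := by
    have := (((e1.const_mul 2).sub (((pow_YY 2).const_mul 1665000).const_mul 2)).sub
      ((pow_YY 0).const_mul (2 * Real.pi * K))).const_mul (2 * Real.pi)⁻¹
    refine this.trans (le_of_eq ?_)
    congr 1
    field_simp
    ring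
  have e3 := e2.eventually (lt_mem_nhds (show 2 * D / Real.pi^2 - ε < 2 * D / Real.pi^2 by linarith))
  filter_upwards [e3, Ef_pos_ev] with r hr ⟨h0, h1, hE⟩
  have hY := YY_pos hE
  have ye := yi_cont h0 h1
  have ee := e_cont h0 h1
  have pc := (J5.psiS_cont (S0 b (U1 c) (U2 c))).comp ye
  have c1 : Continuous (fun θ : ℝ => Real.exp (Zf (circleMap 0 r θ)).re * psiS (S0 b (U1 c) (U2 c)) (Zf (circleMap 0 r θ)).im) :=
    ee.mul pc
  have c2 : Continuous (fun θ : ℝ => (|(Zf (circleMap 0 r θ)).im| + 14)^2) := by fun_prop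
  have hle : -Real.pi ≤ Real.pi := by linarith
  rw [mm_eq]
  set I1 := ∫ θ in (-Real.pi)..Real.pi,
        Real.exp (Zf (circleMap 0 r θ)).re * psiS (S0 b (U1 c) (U2 c)) (Zf (circleMap 0 r θ)).im with hI1
  have key : 2 * Real.exp CC * I1 - 2 * (∫ θ in (-Real.pi)..Real.pi, (|(Zf (circleMap 0 r θ)).im| + 14)^2) - 2 * Real.pi * K ≤
      ∫ θ in (-Real.pi)..Real.pi, pl hb c (circleMap 0 r θ) := by
    have a1 : 2 * Real.exp CC * I1 - 2 * (∫ θ in (-Real.pi)..Real.pi, (|(Zf (circleMap 0 r θ)).im| + 14)^2) - 2 * Real.pi * K =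
      ∫ θ in (-Real.pi)..Real.pi, (2 * Real.exp CC * (Real.exp (Zf (circleMap 0 r θ)).re * psiS (S0 b (U1 c) (U2 c)) (Zf (circleMap 0 r θ)).im)
        - 2 * (|(Zf (circleMap 0 r θ)).im| + 14)^2 - K) := by
      rw [intervalIntegral.integral_sub (((c1.intervalIntegrable _ _).const_mul _).sub ((c2.intervalIntegrable _ _).const_mul _))
        (continuous_const.intervalIntegrable _ _),
        intervalIntegral.integral_sub ((c1.intervalIntegrable _ _).const_mul _) ((c2.intervalIntegrable _ _).const_mul _),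
        intervalIntegral.integral_const_mul, intervalIntegral.integral_const_mul, intervalIntegral.integral_const, smul_eq_mul]
      ring
    rw [a1]
    apply intervalIntegral.integral_mono_ae hle
    · exact ((((c1.intervalIntegrable _ _).const_mul _).sub ((c2.intervalIntegrable _ _).const_mul _)).sub
        (continuous_const.intervalIntegrable _ _))
    · exact J7.pl_integrable (F1 hb) (F2 hb) (F1_diff hb) (F2_diff hb) c r h0 h1
    · filter_upwards [ae_ne hb c h0 h1] with θ ⟨t1, t2⟩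
      have b1 := hK _ t1 t2
      have b2 := gam_lower hb (U_unit c) (z := circleMap 0 r θ) (by rw [circ_norm h0]; exact h1) t2
      rw [exp_Zc, Zc_im] at b2
      rw [abs_le] at b1
      linarith [b1.1]
  have h4 := y_int h0 h1
  have h5 : (2 * D / Real.pi^2 - ε) * YY r ≤ (2 * Real.pi)⁻¹ * (2 * (I1 / Ef r)
        - 2 * (1665000 * ((1/(1-r))^2 / YY r)) - 2 * Real.pi * K * ((1/(1-r))^0 / YY r)) * YY r := by
    exact mul_le_mul_of_nonneg_right hr.le hY.le
  refine h5.trans ?_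
  have h6 : (2 * Real.pi)⁻¹ * (2 * (I1 / Ef r)
        - 2 * (1665000 * ((1/(1-r))^2 / YY r)) - 2 * Real.pi * K * ((1/(1-r))^0 / YY r)) * YY r =
      (2 * Real.pi)⁻¹ * (2 * Real.exp CC * I1 - 2 * (1665000 * (1/(1-r))^2) - 2 * Real.pi * K) := by
    rw [pow_zero]
    have e8 : I1 / Ef r = Real.exp CC * I1 / YY r := by
      unfold YY
      field_simp
    rw [e8]
    field_simp
  rw [h6]
  gcongr
  linarith

lemma UBm (c : Option ℂ) {D : ℝ} (hD : 0 ≤ D)
    (hS : Tendsto (fun K : ℕ => (Nat.card {k : ℕ | k < K ∧ k ∈ S0 b (U1 c) (U2 c)} : ℝ) / K) atTop (𝓝 D))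
    (hB : Tendsto (fun K : ℕ => (Nat.card {k : ℕ | k < K ∧ k ∈ B0 b (U1 c) (U2 c)} : ℝ) / K) atTop (𝓝 0))
    {ε : ℝ} (hε : 0 < ε) :
    ∃ᶠ r in 𝓝[<] (1:ℝ), mm hb c r ≤ (2 * D / Real.pi^2 + ε) * YY r := by
  have hpi := Real.pi_pos
  obtain ⟨K, hK0, hK⟩ := cmp hb c
  have u1 := UB hb (U_unit c) hD hS hB hε
  have e1 := ((pow_YY 0).const_mul (2 * Real.pi * K))
  rw [mul_zero] at e1
  have e3 := e1.eventually (gt_mem_nhds hε)
  refine (u1.and_eventually (e3.and Ef_pos_ev)).mono ?_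
  rintro r ⟨h, hr, h0, h1, hE⟩
  have hY := YY_pos hE
  have hle : -Real.pi ≤ Real.pi := by linarith
  rw [pow_zero] at hr
  have hr' : 2 * Real.pi * K ≤ ε * YY r := by
    have := mul_le_mul_of_nonneg_right hr.le hY.le
    calc _ = 2 * Real.pi * K * (1 / YY r) * YY r := by field_simp
      _ ≤ _ := this
  have hint := J7.pl_integrable (F1 hb) (F2 hb) (F1_diff hb) (F2_diff hb) c r h0 h1
  have l1 : ENNReal.ofReal (∫ θ in (-Real.pi)..Real.pi, pl hb c (circleMap 0 r θ)) =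
      ∫⁻ θ in Ioo (-Real.pi) Real.pi, ENNReal.ofReal (pl hb c (circleMap 0 r θ)) :=
    (lint hint (fun θ => pl_nonneg hb c _)).symm
  have l2 : ∫⁻ θ in Ioo (-Real.pi) Real.pi, ENNReal.ofReal (pl hb c (circleMap 0 r θ)) ≤
      ENNReal.ofReal ((4 * D / Real.pi + ε) * YY r + 2 * Real.pi * K) := by
    calc _ ≤ ∫⁻ θ in Ioo (-Real.pi) Real.pi, (gm hb (U1 c) (U2 c) (circleMap 0 r θ) + ENNReal.ofReal K) := by
          apply lintegral_mono_ae
          apply ae_restrict_of_ae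
          filter_upwards [ae_ne hb c h0 h1] with θ ⟨t1, t2⟩
          have b1 := hK _ t1 t2
          have hm : circleMap 0 r θ ∈ Metric.ball (0:ℂ) 1 := by
            rw [mem_ball_zero_iff, circ_norm h0]; exact h1
          unfold gm
          rw [indicator_of_mem hm]
          rw [abs_le] at b1
          refine le_trans ?_ (ENNReal.ofReal_add_le)
          apply ENNReal.ofReal_le_ofReal
          linarith [b1.2]
      _ = (∫⁻ θ in Ioo (-Real.pi) Real.pi, gm hb (U1 c) (U2 c) (circleMap 0 r θ)) +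
          ∫⁻ θ in Ioo (-Real.pi) Real.pi, ENNReal.ofReal K := lintegral_add_right _ measurable_const
      _ ≤ ENNReal.ofReal ((4 * D / Real.pi + ε) * (Real.exp CC * Ef r)) + ENNReal.ofReal (2 * Real.pi * K) := by
          gcongr
          rw [setLIntegral_const, Real.volume_Ioo, ← ENNReal.ofReal_mul hK0]
          apply ENNReal.ofReal_le_ofReal
          linarith
      _ = _ := by
          rw [← ENNReal.ofReal_add (by unfold YY at hY; positivity) (by positivity)]
          rfl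
  rw [← l1, ENNReal.ofReal_le_ofReal_iff (by positivity)] at l2
  rw [mm_eq]
  have h7 : (2 * Real.pi)⁻¹ * ∫ θ in (-Real.pi)..Real.pi, pl hb c (circleMap 0 r θ) ≤
      (2 * Real.pi)⁻¹ * ((4 * D / Real.pi + ε) * YY r + ε * YY r) := by
    gcongr
    linarith
  refine h7.trans ?_
  have h8 : (2 * Real.pi)⁻¹ * ((4 * D / Real.pi + ε) * YY r + ε * YY r) =
      (2 * D / Real.pi^2 + ε/Real.pi) * YY r := by
    field_simp
    ring
  rw [h8]
  gcongr
  rw [div_le_iff₀ hpi]
  nlinarith [Real.pi_gt_three]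

end Pool.Agent.H343N
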