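import Mathlib
import Pool.Agent.Helper343.NP12

set_option autoImplicit false
set_option maxHeartbeats 4000000
open Filter Topology Complex MeasureTheory Set

namespace Pool.Agent.H343N

variable {b : ℕ → Option ℂ} (hb : Good b)
include hb

lemma alpha_inf (M : ℝ) : ∃ᶠ r in 𝓝[<] (1:ℝ), M * Real.log (1 / (1 - r)) ≤ T0 hb r := by
  apply Eventually.frequently
  have hpi := Real.pi_pos
  have e1 := (T0_asym hb).eventually (lt_mem_nhds (show 1 / (2 * Real.pi^2) < 1 / Real.pi^2 by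
    apply one_div_lt_one_div_of_lt (by positivity)
    have : 0 < Real.pi^2 := by positivity
    linarith))
  have e2 := (pow_YY 1).const_mul |M|
  rw [mul_zero] at e2
  have e3 := e2.eventually (gt_mem_nhds (show 0 < 1 / (2 * Real.pi^2) by positivity))
  filter_upwards [e1, e3, Ef_pos_ev] with r g1 g2 ⟨h0, h1, hE⟩
  have hY := YY_pos hE
  rw [pow_one] at g2
  have h1r : 0 < 1 - r := by linarith
  have h2 : 1 ≤ 1/(1-r) := by rw [le_div_iff₀ h1r]; linarith
  have h3 : 0 ≤ Real.log (1/(1-r)) := Real.log_nonneg h2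
  have h4 : Real.log (1/(1-r)) ≤ 1/(1-r) := by
    have := Real.log_le_sub_one_of_pos (show 0 < 1/(1-r) by positivity)
    linarith
  calc M * Real.log (1/(1-r)) ≤ |M| * Real.log (1/(1-r)) := by
        gcongr
        exact le_abs_self _
    _ ≤ |M| * (1/(1-r)) := by gcongr
    _ = (|M| * (1 / (1 - r) / YY r)) * YY r := by field_simp
    _ ≤ (1 / (2 * Real.pi^2)) * YY r := by gcongr
    _ ≤ (T0 hb r / YY r) * YY r := by gcongr
    _ = T0 hb r := by field_simp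

lemma def_low (c : Option ℂ) {D : ℝ}
    (hS : Tendsto (fun K : ℕ => (Nat.card {k : ℕ | k < K ∧ b k = c} : ℝ) / K) atTop (𝓝 D))
    {ε : ℝ} (hε : 0 < ε) :
    ∀ᶠ r in 𝓝[<] (1:ℝ), (2 * D - ε) * T0 hb r ≤ mm hb c r := by
  have hpi := Real.pi_pos
  have hS' : Tendsto (fun K : ℕ => (Nat.card {k : ℕ | k < K ∧ k ∈ S0 b (U1 c) (U2 c)} : ℝ) / K) atTop (𝓝 D) := by
    rw [S0_eq hb c]; exact hS
  have h1 := LBm hb c hS' (ε := ε / (2 * Real.pi^2)) (by positivity)
  have h2 := (T0_asym hb).const_mul (2 * D - ε)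
  have h3 := h2.eventually (gt_mem_nhds (show (2 * D - ε) * (1 / Real.pi^2) < 2 * D / Real.pi^2 - ε / (2 * Real.pi^2) by
    have : 0 < ε / (2 * Real.pi^2) := by positivity
    have e : (2 * D - ε) * (1 / Real.pi^2) = 2 * D / Real.pi^2 - 2 * (ε / (2 * Real.pi^2)) := by
      field_simp
    rw [e]
    linarith))
  filter_upwards [h1, h3, Ef_pos_ev] with r g1 g2 ⟨h0, h1, hE⟩
  have hY := YY_pos hE
  refine le_trans ?_ g1
  calc (2 * D - ε) * T0 hb r = ((2 * D - ε) * (T0 hb r / YY r)) * YY r := by field_simp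
    _ ≤ _ := by gcongr

lemma def_up (c : Option ℂ) {D : ℝ} (hD : 0 ≤ D)
    (hS : Tendsto (fun K : ℕ => (Nat.card {k : ℕ | k < K ∧ b k = c} : ℝ) / K) atTop (𝓝 D))
    (hbad : Tendsto (fun K : ℕ => (Nat.card {k : ℕ | k < K ∧ b k ≠ c ∧
        ‖dt (uv (b k)) (uv c)‖ < Real.exp (-((k:ℝ) + 1))} : ℝ) / K) atTop (𝓝 0))
    {ε : ℝ} (hε : 0 < ε) :
    ∃ᶠ r in 𝓝[<] (1:ℝ), mm hb c r ≤ (2 * D + ε) * T0 hb r := by
  have hpi := Real.pi_pos
  have hS' : Tendsto (fun K : ℕ => (Nat.card {k : ℕ | k < K ∧ k ∈ S0 b (U1 c) (U2 c)} : ℝ) / K) atTop (𝓝 D) := by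
    rw [S0_eq hb c]; exact hS
  have h1 := UBm hb c hD hS' (B0_dens hb c hbad) (ε := ε / (2 * Real.pi^2)) (by positivity)
  have h2 := (T0_asym hb).const_mul (2 * D + ε)
  have h3 := h2.eventually (lt_mem_nhds (show 2 * D / Real.pi^2 + ε / (2 * Real.pi^2) < (2 * D + ε) * (1 / Real.pi^2) by
    have : 0 < ε / (2 * Real.pi^2) := by positivity
    have e : (2 * D + ε) * (1 / Real.pi^2) = 2 * D / Real.pi^2 + 2 * (ε / (2 * Real.pi^2)) := by
      field_simp
    rw [e]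
    linarith))
  refine (h1.and_eventually (h3.and Ef_pos_ev)).mono ?_
  rintro r ⟨g1, g2, h0, h1, hE⟩
  have hY := YY_pos hE
  refine g1.trans ?_
  calc _ ≤ ((2 * D + ε) * (T0 hb r / YY r)) * YY r := by gcongr
    _ = (2 * D + ε) * T0 hb r := by field_simp

end Pool.Agent.H343N
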